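import Mathlib

open Matrix

namespace Pool.Agent.P.MP_06cdda_gt

/-- Diagonalisation data: absolute determinant `Δ` and signature `σ`. -/
def Diag {ι : Type} [Fintype ι] [DecidableEq ι] (G : Matrix ι ι ℝ) (Δ : ℝ) (σ : ℤ) : Prop :=
  ∃ (P : Matrix ι ι ℝ) (d : ι → ℝ), P.det = 1 ∧ Pᵀ * G * P = diagonal d ∧ |∏ i, d i| = Δ ∧
    ∑ i, (SignType.sign (d i) : ℤ) = σ

/-- Algebraic state. -/
def Alg {ι : Type} [Fintype ι] [DecidableEq ι] (G : Matrix ι ι ℝ) (w : ι → ℝ) (g0 Δ r : ℝ)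
    (σ : ℤ) : Prop :=
  Diag G Δ σ ∧ ∃ y : ι → ℝ, G *ᵥ y = w ∧ r = w ⬝ᵥ y - g0

theorem Diag.abs_det {ι : Type} [Fintype ι] [DecidableEq ι] {G : Matrix ι ι ℝ} {Δ : ℝ} {σ : ℤ}
    (h : Diag G Δ σ) : |G.det| = Δ := by
  obtain ⟨P, d, h1, h2, h3, -⟩ := h
  have := congrArg det h2
  rw [det_mul, det_mul, det_transpose, h1, det_diagonal, one_mul, mul_one] at this
  rw [this, h3]

theorem sum_sign_eq {ι : Type} [Fintype ι] (d : ι → ℝ) :
    ∑ i, (SignType.sign (d i) : ℤ) = (Set.ncard {i | 0 < d i} : ℤ) - Set.ncard {i | d i < 0} := by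
  classical
  have h1 : {i | 0 < d i} = ((Finset.univ.filter fun i => 0 < d i : Finset ι) : Set ι) := by
    ext; simp
  have h2 : {i | d i < 0} = ((Finset.univ.filter fun i => d i < 0 : Finset ι) : Set ι) := by
    ext; simp
  rw [h1, h2, Set.ncard_coe_finset, Set.ncard_coe_finset, Finset.card_filter, Finset.card_filter]
  push_cast
  rw [← Finset.sum_sub_distrib]
  refine Finset.sum_congr rfl fun i _ => ?_
  rcases lt_trichotomy (d i) 0 with h | h | h
  · simp [h, h.not_gt, sign_neg h]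
  · simp [h]
  · simp [h, h.not_gt, sign_pos h]

theorem Diag.signature {ι : Type} [Fintype ι] [DecidableEq ι] {G : Matrix ι ι ℝ} {Δ : ℝ} {σ : ℤ}
    (h : Diag G Δ σ) :
    (sigPos G.toQuadraticForm' : ℤ) - sigNeg G.toQuadraticForm' = σ := by
  obtain ⟨P, d, h1, h2, -, h4⟩ := h
  have hP : IsUnit P.det := by rw [h1]; exact isUnit_one
  have := P.invertibleOfIsUnitDet hP
  have he : QuadraticMap.Equivalent (QuadraticMap.weightedSumSquares ℝ d) G.toQuadraticForm' := by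
    refine ⟨⟨P.toLinearEquiv' this, fun x => ?_⟩⟩
    simp only [AddHom.toFun_eq_coe, LinearMap.coe_toAddHom, LinearEquiv.coe_coe,
      QuadraticMap.weightedSumSquares_apply, smul_eq_mul]
    have e1 : (P.toLinearEquiv' this) x = P *ᵥ x := rfl
    rw [e1]
    simp only [Matrix.toQuadraticForm', LinearMap.BilinMap.toQuadraticMap_apply,
      toLinearMap₂'_apply']
    rw [mulVec_mulVec, dotProduct_mulVec, vecMul_mulVec, ← Matrix.mul_assoc, h2]
    simp only [dotProduct, vecMul_diagonal]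
    refine Finset.sum_congr rfl fun i _ => by ring
  rw [QuadraticForm.sigPos_of_equiv_weightedSumSquares he.symm,
    QuadraticForm.sigNeg_of_equiv_weightedSumSquares he.symm, ← h4, sum_sign_eq]

theorem Diag.reindex {ι κ : Type} [Fintype ι] [DecidableEq ι] [Fintype κ] [DecidableEq κ]
    {G : Matrix ι ι ℝ} {Δ : ℝ} {σ : ℤ} (h : Diag G Δ σ) (e : κ ≃ ι) :
    Diag (G.submatrix e e) Δ σ := by
  obtain ⟨P, d, h1, h2, h3, h4⟩ := h
  refine ⟨P.submatrix e e, d ∘ e, by rw [det_submatrix_equiv_self, h1], ?_, ?_, ?_⟩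
  · rw [transpose_submatrix, submatrix_mul_equiv, submatrix_mul_equiv, h2,
      submatrix_diagonal_equiv]
  · rw [← h3, ← e.prod_comp]; rfl
  · rw [← h4, ← e.sum_comp]; rfl

theorem Alg.comp {ι κ : Type} [Fintype ι] [DecidableEq ι] [Fintype κ] [DecidableEq κ]
    {G : Matrix ι ι ℝ} {w : ι → ℝ} {g0 Δ r : ℝ} {σ : ℤ} (hG : Gᵀ = G) (h : Alg G w g0 Δ r σ)
    {L : Matrix κ κ ℝ} {e l : κ → ℝ} {e0 l0 Δ' r' : ℝ} {σ' : ℤ}
    (h' : Alg (L - r • vecMulVec e e) (l - (r * e0) • e) (l0 - r * e0 ^ 2) Δ' r' σ') :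
    Alg (fromBlocks G (vecMulVec w e) (vecMulVec e w) (L + g0 • vecMulVec e e))
      (Sum.elim (e0 • w) (l + (g0 * e0) • e)) (l0 + g0 * e0 ^ 2) (Δ * Δ') r' (σ + σ') := by
  obtain ⟨⟨P, d, h1, h2, h3, h4⟩, y, hy, hr⟩ := h
  obtain ⟨⟨Q, d', h1', h2', h3', h4'⟩, z, hz, hr'⟩ := h'
  have hyG : y ᵥ* G = w := by rw [← hG, vecMul_transpose, hy]
  have hE : (fromBlocks 1 (-vecMulVec y e) 0 1 : Matrix (ι ⊕ κ) (ι ⊕ κ) ℝ)ᵀ *
      fromBlocks G (vecMulVec w e) (vecMulVec e w) (L + g0 • vecMulVec e e) *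
      fromBlocks 1 (-vecMulVec y e) 0 1 = fromBlocks G 0 0 (L - r • vecMulVec e e) := by
    rw [fromBlocks_transpose, fromBlocks_multiply, fromBlocks_multiply]
    simp only [transpose_one, transpose_zero, Matrix.one_mul,
      Matrix.zero_mul, add_zero, Matrix.mul_one, Matrix.mul_zero]
    simp only [transpose_neg, transpose_vecMulVec, Matrix.neg_mul, Matrix.mul_neg,
      vecMulVec_mul, mul_vecMulVec, hy, hyG, neg_add_cancel, neg_zero, zero_add,
      Matrix.zero_mulVec, zero_vecMulVec]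
    congr 1
    rw [hr, neg_mulVec, vecMulVec_mulVec, dotProduct_comm y w]
    ext i j
    simp [vecMulVec_apply]
    ring
  refine ⟨⟨fromBlocks 1 (-vecMulVec y e) 0 1 * fromBlocks P 0 0 Q, Sum.elim d d', ?_, ?_, ?_, ?_⟩,
    Sum.elim ((e0 - e ⬝ᵥ z) • y) z, ?_, ?_⟩
  · rw [det_mul, det_fromBlocks_zero₂₁, det_fromBlocks_zero₂₁, h1, h1']; simp
  · rw [transpose_mul, Matrix.mul_assoc, Matrix.mul_assoc, ← Matrix.mul_assoc _ _ (fromBlocks P 0 0 Q),
      ← Matrix.mul_assoc _ _ (fromBlocks P 0 0 Q), ← Matrix.mul_assoc _ _ (fromBlocks 1 _ 0 1), hE,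
      fromBlocks_transpose, fromBlocks_multiply, fromBlocks_multiply]
    simp only [transpose_zero, Matrix.zero_mul, Matrix.mul_zero, add_zero, zero_add,
      ← Matrix.mul_assoc, h2, h2', fromBlocks_diagonal]
  · rw [Fintype.prod_sum_type, abs_mul]
    simp only [Sum.elim_inl, Sum.elim_inr, h3, h3']
  · rw [Fintype.sum_sum_type]
    simp only [Sum.elim_inl, Sum.elim_inr, h4, h4']
  · rw [fromBlocks_mulVec]
    simp only [Sum.elim_comp_inl, Sum.elim_comp_inr, mulVec_smul, hy, vecMulVec_mulVec]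
    rw [sub_mulVec, smul_mulVec, vecMulVec_mulVec] at hz
    rw [add_mulVec, smul_mulVec, vecMulVec_mulVec, eq_add_of_sub_eq hz, hr]
    ext (i | i) <;> simp <;> ring
  · rw [sumElim_dotProduct_sumElim, hr', hr]
    simp only [smul_dotProduct, dotProduct_smul, add_dotProduct, sub_dotProduct, smul_eq_mul]
    ring

theorem alg_empty {κ : Type} [Fintype κ] [DecidableEq κ] [IsEmpty κ] (G : Matrix κ κ ℝ)
    (w : κ → ℝ) (g0 : ℝ) : Alg G w g0 1 (-g0) 0 :=
  ⟨⟨1, 0, det_one, Subsingleton.elim _ _, by simp, by simp⟩, 0, Subsingleton.elim _ _, by simp⟩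

theorem diag_two {a b c : ℝ} (hc : c ≠ 0) :
    Diag !![a, b; b, c] |a * c - b ^ 2|
      ((SignType.sign ((a * c - b ^ 2) / c) : ℤ) + SignType.sign c) := by
  refine ⟨!![1, 0; -b / c, 1], ![(a * c - b ^ 2) / c, c], by simp [det_fin_two], ?_, ?_, ?_⟩
  · ext i j
    fin_cases i <;> fin_cases j <;> simp [Matrix.mul_apply, Fin.sum_univ_two] <;> field_simp <;> ring
  · simp only [Fin.prod_univ_two, cons_val_zero, cons_val_one, cons_val_fin_one]
    rw [div_mul_cancel₀ _ hc]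
  · simp [Fin.sum_univ_two]

theorem diag_hyp (a b : ℝ) (hb : b ≠ 0) : Diag !![a, b; b, 0] (b ^ 2) 0 := by
  refine ⟨!![1, -1; (b - a) / (2 * b), 1 - (b - a) / (2 * b)], ![b, -b], ?_, ?_, ?_, ?_⟩
  · simp [det_fin_two]
  · ext i j
    fin_cases i <;> fin_cases j <;> simp [Matrix.mul_apply, Fin.sum_univ_two] <;> field_simp <;> ring
  · simp [Fin.prod_univ_two, sq, abs_mul_abs_self]
  · simp [Fin.sum_univ_two, Left.sign_neg]

end Pool.Agent.P.MP_06cdda_gt
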