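import Pool.Agent.P.MP_06cdda_gt.AltDefs

namespace Pool.Agent.P.MP_06cdda_gt

section

variable {V : Type} (nx : V → V) (X Y Z : V → ℤ) (χ : V → Prop)

def Tw (u v : V) : Prop :=
  Y (nx u) = Y u + 1 ∧ Y v = Y u + 1 ∧ Y (nx v) = Y u ∧ Z u + Z (nx u) = Z v + Z (nx v) ∧
    Z u ≠ Z (nx v) ∧ X v + X (nx v) < X u + X (nx u) ∧ χ u ∧ ¬ χ (nx u) ∧ ¬ χ v ∧ χ (nx v)

structure AltOk : Prop where
  step : ∀ u, Y (nx u) = Y u ∨ Y (nx u) = Y u + 1 ∨ Y (nx u) + 1 = Y u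
  inj : ∀ u v, Y u = Y v → Z u = Z v → u = v
  noV : ∀ u w, Y (nx u) = Y u → Y w = Y u →
    (Z w ≤ Z u ∧ Z w ≤ Z (nx u)) ∨ (Z u ≤ Z w ∧ Z (nx u) ≤ Z w)
  nn : ∀ u, nx (nx u) ≠ u
  UU : ∀ u v, Y (nx u) = Y u + 1 → Y (nx v) = Y v + 1 → Y u = Y v → Z u < Z v → Z (nx u) < Z (nx v)
  DD : ∀ u v, Y (nx u) + 1 = Y u → Y (nx v) + 1 = Y v → Y u = Y v → Z u < Z v → Z (nx u) < Z (nx v)
  UD : ∀ u v, Y (nx u) = Y u + 1 → Y v = Y u + 1 → Y (nx v) = Y u →
    (Z u < Z (nx v) ∧ Z (nx u) < Z v) ∨ (Z (nx v) < Z u ∧ Z v < Z (nx u)) ∨ Tw nx X Y Z χ u v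
  ex1 : ∀ u, χ u → ¬ χ (nx u) → ∃ v, Tw nx X Y Z χ u v
  ex2 : ∀ v, ¬ χ v → χ (nx v) → ∃ u, Tw nx X Y Z χ u v

variable {nx X Y Z χ}

theorem int_unit {a b : ℤ} {s t : ℝ} (s0 : 0 ≤ s) (s1 : s < 1) (t0 : 0 ≤ t) (t1 : t < 1)
    (h : a + s = b + t) : a = b ∧ s = t := by
  have h1 : a < b + 1 := by
    have : (a : ℝ) < b + 1 := by linarith
    exact_mod_cast this
  have h2 : b < a + 1 := by
    have : (b : ℝ) < a + 1 := by linarith
    exact_mod_cast this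
  obtain rfl : a = b := by omega
  exact ⟨rfl, by linarith⟩

theorem between {a a' : ℤ} (h : a ≠ a') {s : ℝ} (s0 : 0 < s) (s1 : s < 1) :
    (a < (1 - s) * a + s * a' ∧ (1 - s) * a + s * a' < a') ∨
      (a' < (1 - s) * a + s * a' ∧ (1 - s) * a + s * a' < a) := by
  rcases lt_or_gt_of_ne h with k | k
  · have : (a : ℝ) < a' := by exact_mod_cast k
    exact Or.inl ⟨by nlinarith, by nlinarith⟩
  · have : (a' : ℝ) < a := by exact_mod_cast k
    exact Or.inr ⟨by nlinarith, by nlinarith⟩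

theorem AltOk.vert (h : AltOk nx X Y Z χ) {u w : V} (hu : Y (nx u) = Y u) (hw : Y w = Y u) {s : ℝ}
    (s0 : 0 ≤ s) (s1 : s < 1) (e : (1 - s) * Z u + s * Z (nx u) = Z w) : u = w ∧ s = 0 := by
  have hne : Z u ≠ Z (nx u) := fun k => by
    have := h.inj _ _ hu.symm k
    exact h.nn u (by rw [← this, ← this])
  rcases s0.eq_or_lt with rfl | s0'
  · exact ⟨h.inj _ _ hw.symm (by exact_mod_cast (by simpa using e : (Z u : ℝ) = Z w)), rfl⟩
  · have k := between hne s0' s1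
    rw [e] at k
    have k2 := h.noV u w hu hw
    norm_cast at k
    omega

theorem AltOk.meet (h : AltOk nx X Y Z χ) {u v : V} {s t : ℝ} (s0 : 0 ≤ s) (s1 : s < 1)
    (t0 : 0 ≤ t) (t1 : t < 1) (eY : (1 - s) * Y u + s * Y (nx u) = (1 - t) * Y v + t * Y (nx v))
    (eZ : (1 - s) * Z u + s * Z (nx u) = (1 - t) * Z v + t * Z (nx v)) :
    (u = v ∧ s = t) ∨ (s = 1 / 2 ∧ t = 1 / 2 ∧ (Tw nx X Y Z χ u v ∨ Tw nx X Y Z χ v u)) := by
  have VH : ∀ {u v : V} {s t : ℝ}, 0 ≤ s → s < 1 → 0 ≤ t → t < 1 →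
      (1 - s) * Y u + s * Y (nx u) = (1 - t) * Y v + t * Y (nx v) →
      (1 - s) * Z u + s * Z (nx u) = (1 - t) * Z v + t * Z (nx v) → Y (nx u) = Y u →
      (Y (nx v) = Y v + 1 ∨ Y (nx v) + 1 = Y v) → False := by
    intro u v s t s0 s1 t0 t1 eY eZ hu hv
    have k : Y v = Y u ∧ t = 0 := by
      rcases hv with hv | hv
      · rw [hu, hv] at eY
        push_cast at eY
        exact int_unit t0 t1 le_rfl one_pos (by linarith)
      · rw [hu, ← hv] at eY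
        push_cast at eY
        rcases t0.eq_or_lt with rfl | t0'
        · refine ⟨?_, rfl⟩
          have : (Y u : ℝ) = Y (nx v) + 1 := by linarith
          norm_cast at this
          omega
        · have := (int_unit (a := Y (nx v)) (b := Y u) (s := 1 - t) (t := 0) (by linarith)
            (by linarith) le_rfl one_pos (by linarith)).2
          linarith
    obtain ⟨k, rfl⟩ := k
    obtain ⟨rfl, -⟩ := h.vert hu k s0 s1 (by simpa using eZ)
    omega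
  have UD : ∀ {u v : V} {s t : ℝ}, 0 ≤ s → s < 1 → 0 ≤ t → t < 1 →
      (1 - s) * Y u + s * Y (nx u) = (1 - t) * Y v + t * Y (nx v) →
      (1 - s) * Z u + s * Z (nx u) = (1 - t) * Z v + t * Z (nx v) → Y (nx u) = Y u + 1 →
      Y (nx v) + 1 = Y v → s = 1 / 2 ∧ t = 1 / 2 ∧ Tw nx X Y Z χ u v := by
    intro u v s t s0 s1 t0 t1 eY eZ hu hv
    rw [hu, ← hv] at eY
    push_cast at eY
    rcases t0.eq_or_lt with rfl | t0'
    · obtain ⟨k, rfl⟩ := int_unit (a := Y u) (b := Y (nx v) + 1) s0 s1 le_rfl one_pos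
        (by push_cast; linarith)
      obtain rfl := h.inj u v (by omega) (by exact_mod_cast (by simpa using eZ : (Z u : ℝ) = Z v))
      omega
    obtain ⟨k, k2⟩ := int_unit (a := Y u) (b := Y (nx v)) (t := 1 - t) s0 s1 (by linarith)
      (by linarith) (by linarith)
    obtain rfl : t = 1 - s := by linarith
    have s0' : 0 < s := by linarith
    rcases h.UD u v hu (by omega) k.symm with ⟨a, b⟩ | ⟨a, b⟩ | a
    · have a' : (Z u : ℝ) < Z (nx v) := by exact_mod_cast a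
      have b' : (Z (nx u) : ℝ) < Z v := by exact_mod_cast b
      nlinarith
    · have a' : (Z (nx v) : ℝ) < Z u := by exact_mod_cast a
      have b' : (Z v : ℝ) < Z (nx u) := by exact_mod_cast b
      nlinarith
    · have a1 : (Z u : ℝ) + Z (nx u) = Z v + Z (nx v) := by exact_mod_cast a.2.2.2.1
      have a2 : (Z u : ℝ) - Z (nx v) ≠ 0 := sub_ne_zero.2 (by exact_mod_cast a.2.2.2.2.1)
      have a3 : (1 - 2 * s) * ((Z u : ℝ) - Z (nx v)) = 0 := by linear_combination eZ - s * a1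
      have a4 := (mul_eq_zero.1 a3).resolve_right a2
      exact ⟨by linarith, by linarith, a⟩
  have mono : ∀ {u v : V} {s : ℝ}, 0 ≤ s → s < 1 → Y u = Y v →
      (1 - s) * Z u + s * Z (nx u) = (1 - s) * Z v + s * Z (nx v) →
      (Z u < Z v → Z (nx u) < Z (nx v)) → (Z v < Z u → Z (nx v) < Z (nx u)) → u = v := by
    intro u v s s0 s1 k eZ a b
    rcases lt_trichotomy (Z u) (Z v) with c | c | c
    · have a' : (Z u : ℝ) < Z v := by exact_mod_cast c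
      have b' : (Z (nx u) : ℝ) < Z (nx v) := by exact_mod_cast a c
      nlinarith
    · exact h.inj _ _ k c
    · have a' : (Z v : ℝ) < Z u := by exact_mod_cast c
      have b' : (Z (nx v) : ℝ) < Z (nx u) := by exact_mod_cast b c
      nlinarith
  rcases h.step u with hu | hu | hu <;> rcases h.step v with hv | hv | hv
  · have k : Y u = Y v := by
      rw [hu, hv] at eY
      have : (Y u : ℝ) = Y v := by linarith
      exact_mod_cast this
    rcases t0.eq_or_lt with rfl | t0'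
    · exact Or.inl (h.vert hu k.symm s0 s1 (by simpa using eZ))
    rcases s0.eq_or_lt with rfl | s0'
    · have := h.vert hv k t0 t1 (by simpa using eZ.symm)
      exact Or.inl ⟨this.1.symm, this.2.symm⟩
    have hne : ∀ w, Y (nx w) = Y w → Z w ≠ Z (nx w) := fun w hw k => by
      have := h.inj _ _ hw.symm k
      exact h.nn w (by rw [← this, ← this])
    have b1 := between (hne u hu) s0' s1
    have b2 := between (hne v hv) t0' t1
    rw [← eZ] at b2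
    have c : (Z u < Z (nx u) ∨ Z (nx u) < Z u) ∧ min (Z u) (Z (nx u)) < max (Z v) (Z (nx v)) ∧
        min (Z v) (Z (nx v)) < max (Z u) (Z (nx u)) := by
      refine ⟨lt_or_gt_of_ne (hne u hu), ?_, ?_⟩ <;> rw [← Int.cast_lt (R := ℝ)] <;> push_cast <;>
        rw [min_lt_iff, lt_max_iff, lt_max_iff] <;>
        rcases b1 with ⟨a1, a2⟩ | ⟨a1, a2⟩ <;> rcases b2 with ⟨a3, a4⟩ | ⟨a3, a4⟩ <;>
        first
        | exact Or.inl (Or.inl (by linarith))
        | exact Or.inl (Or.inr (by linarith))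
        | exact Or.inr (Or.inl (by linarith))
        | exact Or.inr (Or.inr (by linarith))
    have n1 := h.noV u v hu k.symm
    have n2 := h.noV u (nx v) hu (by omega)
    have n3 := h.noV v u hv k
    have n4 := h.noV v (nx u) hv (by omega)
    have n5 := hne v hv
    rcases (by omega : Z u = Z v ∨ (Z u = Z (nx v) ∧ Z (nx u) = Z v)) with e | ⟨e1, e2⟩
    · obtain rfl := h.inj u v k e
      refine Or.inl ⟨rfl, ?_⟩
      have a2 : (Z (nx u) : ℝ) - Z u ≠ 0 := sub_ne_zero.2 (by exact_mod_cast n5.symm)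
      exact mul_right_cancel₀ a2 (by linarith)
    · have f1 := h.inj u (nx v) (by omega) e1
      have f2 := h.inj (nx u) v (by omega) e2
      exact absurd (by rw [f2, ← f1]) (h.nn u)
  · exact (VH s0 s1 t0 t1 eY eZ hu (Or.inl hv)).elim
  · exact (VH s0 s1 t0 t1 eY eZ hu (Or.inr hv)).elim
  · exact (VH t0 t1 s0 s1 eY.symm eZ.symm hv (Or.inl hu)).elim
  · rw [hu, hv] at eY
    push_cast at eY
    obtain ⟨k, rfl⟩ := int_unit (a := Y u) (b := Y v) s0 s1 t0 t1 (by linarith)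
    exact Or.inl ⟨mono s0 s1 k eZ (h.UU u v hu hv k) (h.UU v u hv hu k.symm), rfl⟩
  · have := UD s0 s1 t0 t1 eY eZ hu hv
    exact Or.inr ⟨this.1, this.2.1, Or.inl this.2.2⟩
  · exact (VH t0 t1 s0 s1 eY.symm eZ.symm hv (Or.inr hu)).elim
  · have := UD t0 t1 s0 s1 eY.symm eZ.symm hv hu
    exact Or.inr ⟨this.2.1, this.1, Or.inr this.2.2⟩
  · have eu : (Y (nx u) : ℝ) = Y u - 1 := by rw [← hu]; push_cast; ring
    have ev : (Y (nx v) : ℝ) = Y v - 1 := by rw [← hv]; push_cast; ring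
    rw [eu, ev] at eY
    obtain ⟨k, rfl⟩ := int_unit (a := Y v) (b := Y u) s0 s1 t0 t1 (by linarith)
    exact Or.inl ⟨mono s0 s1 k.symm eZ (h.DD u v hu hv k.symm) (h.DD v u hv hu k), rfl⟩

theorem int_ivt (P : ℤ → Prop) {a b : ℤ} (hab : a ≤ b) (ha : ¬ P a) (hb : P b) :
    ∃ j, a ≤ j ∧ j < b ∧ ¬ P j ∧ P (j + 1) := by
  induction b, hab using Int.le_induction with
  | base => exact absurd hb ha
  | succ n hn ih =>
    by_cases k : P n
    · obtain ⟨j, h1, h2, h3⟩ := ih k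
      exact ⟨j, h1, by omega, h3⟩
    · exact ⟨n, hn, by omega, k, hb⟩

theorem AltOk.isAlternating (h : AltOk nx X Y Z χ) {m : ℕ} {k : ZMod m → V}
    (hk : Function.Surjective k) (hs : ∀ i, k (i + 1) = nx (k i)) :
    IsAlternating fun i => (![X (k i), Y (k i), Z (k i)] : Fin 3 → ℝ) := by
  have front : ∀ σ τ, InFront (fun i => (![X (k i), Y (k i), Z (k i)] : Fin 3 → ℝ)) σ τ ↔
      Int.fract σ = 1 / 2 ∧ Int.fract τ = 1 / 2 ∧ Tw nx X Y Z χ (k (⌊σ⌋ : ℤ)) (k (⌊τ⌋ : ℤ)) := by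
    intro σ τ
    simp only [InFront, curve, hs, Pi.add_apply, Pi.smul_apply, smul_eq_mul, Matrix.cons_val_zero,
      Matrix.cons_val_one, Matrix.cons_val]
    constructor
    · rintro ⟨e1, e2, e0⟩
      rcases h.meet (Int.fract_nonneg σ) (Int.fract_lt_one σ) (Int.fract_nonneg τ)
        (Int.fract_lt_one τ) e1 e2 with ⟨a, b⟩ | ⟨a, b, c | c⟩
      · rw [a, b] at e0
        exact absurd e0 (lt_irrefl _)
      · exact ⟨a, b, c⟩
      · have : (X (k (⌊σ⌋ : ℤ)) : ℝ) + X (nx (k (⌊σ⌋ : ℤ))) <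
            X (k (⌊τ⌋ : ℤ)) + X (nx (k (⌊τ⌋ : ℤ))) := by exact_mod_cast c.2.2.2.2.2.1
        rw [a, b] at e0
        linarith
    · rintro ⟨a, b, c1, c2, c3, c4, -, c6, -⟩
      rw [a, b, c1, c2, c3]
      have d4 := congrArg (Int.cast (R := ℝ)) c4
      have d6 := (Int.cast_lt (R := ℝ)).2 c6
      push_cast at d4 d6 ⊢
      exact ⟨by ring, by linarith, by linarith⟩
  have half : ∀ j : ℤ, ⌊(j : ℝ) + 1 / 2⌋ = j ∧ Int.fract ((j : ℝ) + 1 / 2) = 1 / 2 := by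
    intro j
    have : ⌊(j : ℝ) + 1 / 2⌋ = j := Int.floor_eq_iff.2 ⟨by linarith, by linarith⟩
    exact ⟨this, by rw [Int.fract, this]; ring⟩
  have lift : ∀ u, ∃ j : ℤ, k j = u := fun u => by
    obtain ⟨i, rfl⟩ := hk u
    exact ⟨i.cast, by simp⟩
  have ord : ∀ σ τ : ℝ, σ < τ → Int.fract σ = 1 / 2 → Int.fract τ = 1 / 2 → ⌊σ⌋ + 1 ≤ ⌊τ⌋ ∧
      ∀ j : ℤ, ⌊σ⌋ + 1 ≤ j → j < ⌊τ⌋ → (j : ℝ) + 1 / 2 ∈ Set.Ioo σ τ := by
    intro σ τ hlt a b
    have a' := Int.floor_add_fract σ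
    have b' := Int.floor_add_fract τ
    refine ⟨?_, fun j h1 h2 => ?_⟩
    · have : (⌊σ⌋ : ℝ) < ⌊τ⌋ := by linarith
      exact_mod_cast this
    · have h1' := (Int.cast_le (R := ℝ)).2 h1
      have h2' := (Int.cast_lt (R := ℝ)).2 h2
      push_cast at h1'
      exact ⟨by linarith, by linarith⟩
  refine ⟨fun σ τ hf => ?_, fun σ τ hlt => ⟨?_, ?_⟩⟩
  · obtain ⟨a, b, c1, c2, c3, c4, c5, -, -, -, c9, -⟩ := (front σ τ).1 hf
    refine ⟨by rw [a]; norm_num, by rw [b]; norm_num,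
      fun ρ hρ => c9 ((front τ ρ).1 hρ).2.2.2.2.2.2.2.2.1, ?_⟩
    simp only [hs, Matrix.cons_val_zero, Matrix.cons_val_one, Matrix.cons_val, c1, c2, c3]
    norm_cast
    intro e
    ring_nf at e
    omega
  · rintro ⟨ρ1, h1⟩ ⟨ρ2, h2⟩
    obtain ⟨a, -, c⟩ := (front _ _).1 h1
    obtain ⟨b, -, d⟩ := (front _ _).1 h2
    obtain ⟨o1, o2⟩ := ord σ τ hlt a b
    obtain ⟨j, j1, j2, j3, j4⟩ := int_ivt (fun j => χ (k j)) o1
      (by push_cast; rw [hs]; exact c.2.2.2.2.2.2.2.1) d.2.2.2.2.2.2.1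
    obtain ⟨u, hu⟩ := h.ex2 _ j3 (by push_cast at j4; rwa [hs] at j4)
    obtain ⟨i, rfl⟩ := lift u
    exact ⟨_, o2 j j1 j2, i + 1 / 2, (front _ _).2
      ⟨(half i).2, (half j).2, by rw [(half i).1, (half j).1]; exact hu⟩⟩
  · rintro ⟨ρ1, h1⟩ ⟨ρ2, h2⟩
    obtain ⟨-, a, c⟩ := (front _ _).1 h1
    obtain ⟨-, b, d⟩ := (front _ _).1 h2
    obtain ⟨o1, o2⟩ := ord σ τ hlt a b
    obtain ⟨j, j1, j2, j3, j4⟩ := int_ivt (fun j => ¬ χ (k j)) o1
      (by push_cast; rw [hs]; exact not_not.2 c.2.2.2.2.2.2.2.2.2) d.2.2.2.2.2.2.2.2.1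
    obtain ⟨u, hu⟩ := h.ex1 _ (not_not.1 j3) (by push_cast at j4; rwa [hs] at j4)
    obtain ⟨i, rfl⟩ := lift u
    exact ⟨_, o2 j j1 j2, i + 1 / 2, (front _ _).2
      ⟨(half j).2, (half i).2, by rw [(half i).1, (half j).1]; exact hu⟩⟩

end

end Pool.Agent.P.MP_06cdda_gt
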