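import Pool.Agent.P.MP_06cdda_gt.Defs

namespace Pool.Agent.P.MP_06cdda_gt

/-- The closed polygon `q` as a periodic curve: time `τ` runs along the edge `q ⌊τ⌋, q (⌊τ⌋+1)`. -/
noncomputable def curve {m : ℕ} (q : ZMod m → Fin 3 → ℝ) (τ : ℝ) : Fin 3 → ℝ :=
  (1 - Int.fract τ) • q (⌊τ⌋ : ℤ) + Int.fract τ • q ((⌊τ⌋ : ℤ) + 1)

/-- Seen along the first axis, the point at time `σ` lies in front of the point at time `τ`. -/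
def InFront {m : ℕ} (q : ZMod m → Fin 3 → ℝ) (σ τ : ℝ) : Prop :=
  curve q σ 1 = curve q τ 1 ∧ curve q σ 2 = curve q τ 2 ∧ curve q τ 0 < curve q σ 0

/-- The projection of `q` along the first axis is a regular diagram (its multiple points are
transverse double points of edge interiors) in which over- and underpasses alternate. -/
def IsAlternating {m : ℕ} (q : ZMod m → Fin 3 → ℝ) : Prop :=
  (∀ σ τ, InFront q σ τ → Int.fract σ ≠ 0 ∧ Int.fract τ ≠ 0 ∧ (∀ ρ, ¬ InFront q τ ρ) ∧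
    (q ((⌊σ⌋ : ℤ) + 1) 1 - q (⌊σ⌋ : ℤ) 1) * (q ((⌊τ⌋ : ℤ) + 1) 2 - q (⌊τ⌋ : ℤ) 2) ≠
      (q ((⌊σ⌋ : ℤ) + 1) 2 - q (⌊σ⌋ : ℤ) 2) * (q ((⌊τ⌋ : ℤ) + 1) 1 - q (⌊τ⌋ : ℤ) 1)) ∧
  ∀ σ τ, σ < τ →
    ((∃ ρ, InFront q σ ρ) → (∃ ρ, InFront q τ ρ) → ∃ υ ∈ Set.Ioo σ τ, ∃ ρ, InFront q ρ υ) ∧
    ((∃ ρ, InFront q ρ σ) → (∃ ρ, InFront q ρ τ) → ∃ υ ∈ Set.Ioo σ τ, ∃ ρ, InFront q υ ρ)

end Pool.Agent.P.MP_06cdda_gt
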