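import Pool.Agent.P.MP_06cdda_gt.Fam
import Pool.Agent.P.MP_06cdda_gt.AltCert

namespace Pool.Agent.P.MP_06cdda_gt

open Rib

namespace Par

variable {P : Par}

theorem vco (u : P.ν × Fin 4) :
    (u.2 = 0 ∧ P.L.Xc u = P.xl u.1.1.1 u.1.1.2 ∧ P.L.Yc u = 2 * u.1.1.2 ∧
      P.L.Zc u = P.zl u.1.1.1 u.1.1.2) ∨
    (u.2 = 1 ∧ P.L.Xc u = P.xr u.1.1.1 u.1.1.2 ∧ P.L.Yc u = 2 * u.1.1.2 ∧
      P.L.Zc u = P.zr u.1.1.1 u.1.1.2) ∨
    (u.2 = 2 ∧ P.L.Xc u = P.xr u.1.1.1 u.1.1.2 ∧ P.L.Yc u = 2 * u.1.1.2 + 1 ∧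
      P.L.Zc u = P.zr u.1.1.1 u.1.1.2) ∨
    (u.2 = 3 ∧ P.L.Xc u = P.xl u.1.1.1 u.1.1.2 ∧ P.L.Yc u = 2 * u.1.1.2 + 1 ∧
      P.L.Zc u = P.zl u.1.1.1 u.1.1.2) := by
  obtain ⟨n, i⟩ := u
  rcases fin4 i with rfl | rfl | rfl | rfl <;> simp [Lay.Xc, Lay.Yc, Lay.Zc, L]

theorem edge (u : P.ν × Fin 4) :
    (P.L.Yc (P.R.nxt u) = P.L.Yc u ∧
      P.ng (P.R.nxt u).1.1.1 (P.R.nxt u).1.1.2 = P.ng u.1.1.1 u.1.1.2 ∧
      (P.L.Zc (P.R.nxt u) = P.L.Zc u + 2 ∨ P.L.Zc u = P.L.Zc (P.R.nxt u) + 2 ∨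
        ((u.1.1.2 = 0 ∨ u.1.1.2 = 5) ∧ P.L.Zc u + P.L.Zc (P.R.nxt u) = 6 ∧
          (P.L.Zc u = 8 ∨ P.L.Zc u = -2)))) ∨
    ((u.2 = 1 ∨ u.2 = 3) ∧ P.R.nxt u = sc u) ∨
    (u.2 = 2 ∧ P.col u.1.1.1 u.1.1.2 ∧ (P.R.nxt u).1.1.1 = u.1.1.1 ∧
      (P.R.nxt u).1.1.2 = u.1.1.2 + 1 ∧ (P.R.nxt u).2 = 1) ∨
    (u.2 = 0 ∧ P.col u.1.1.1 (P.R.nxt u).1.1.2 ∧ (P.R.nxt u).1.1.1 = u.1.1.1 ∧
      u.1.1.2 = (P.R.nxt u).1.1.2 + 1 ∧ (P.R.nxt u).2 = 3) := by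
  obtain ⟨n, i⟩ := u
  have c1 := P.co n.1.1 n.1.2
  rcases γ_cases n i with ⟨e, h⟩ | ⟨n', h, e⟩
  · have e' : P.R.nxt (n, i) = (n, i + 1) := congrArg sc e
    rw [e']
    by_cases k : i = 1 ∨ i = 3
    · exact Or.inr (Or.inl ⟨k, rfl⟩)
    have v1 := vco (n, i)
    have v2 := vco (n, i + 1)
    have c0 : ∀ l, l < 5 → P.col 0 l := fun l hl => by
      have := P.h4
      unfold col
      omega
    have h2 : n.1.1 = 0 → i = 2 → n.1.2 = 5 := fun a b => by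
      have p := n.2
      unfold pres at p
      by_contra c
      exact h n.1.1 (n.1.2 + 1) (Or.inl ⟨b, a ▸ c0 _ (by omega), rfl, rfl⟩)
    have h0 : n.1.1 = 0 → i = 0 → n.1.2 = 0 := fun a b => by
      have p := n.2
      unfold pres at p
      by_contra c
      exact h n.1.1 (n.1.2 - 1) (Or.inr (Or.inl ⟨b, a ▸ c0 _ (by omega), rfl, by omega⟩))
    simp only at v1 v2 ⊢
    clear c0 h e e'
    rcases fin4 i with rfl | rfl | rfl | rfl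
    · exact Or.inl ⟨by clear c1; omega, trivial, by omega⟩
    · simp at k
    · exact Or.inl ⟨by clear c1; omega, trivial, by omega⟩
    · simp at k
  · have e' : P.R.nxt (n, i) = (n', i + 2 + 1) := congrArg sc e
    rw [e']
    have v1 := vco (n, i)
    have v2 := vco (n', i + 2 + 1)
    have c2 := P.co n'.1.1 n'.1.2
    simp only at v1 v2 ⊢
    rcases fin4 i with rfl | rfl | rfl | rfl
    · rcases h with ⟨j, -⟩ | ⟨-, h, a, b⟩ | ⟨j, -⟩ | ⟨j, -⟩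
      · omega
      · exact Or.inr (Or.inr (Or.inr ⟨rfl, h, a, b, rfl⟩))
      · omega
      · omega
    · obtain ⟨a1, a2, a3⟩ := gl1 h
      have := nl_spec n.1.1 n.1.2
      rw [a1] at v2 c2 ⊢
      simp only [Fin.reduceAdd, Fin.reduceEq, false_and, false_or, or_false, true_and] at v1 v2 ⊢
      exact Or.inl ⟨by clear c1 c2; omega, by clear c1 c2; omega, by omega⟩
    · rcases h with ⟨-, h, a, b⟩ | ⟨j, -⟩ | ⟨j, -⟩ | ⟨j, -⟩
      · exact Or.inr (Or.inr (Or.inl ⟨rfl, h, a, b, rfl⟩))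
      all_goals omega
    · obtain ⟨a1, a2, a3⟩ := gl1 h.symm
      have := nl_spec n'.1.1 n'.1.2
      rw [a1] at v1 c1 ⊢
      simp only [Fin.reduceAdd, Fin.reduceEq, false_and, false_or, or_false, true_and] at v1 v2 ⊢
      exact Or.inl ⟨by clear c1 c2; omega, by clear c1 c2; omega, by omega⟩

theorem zpar (u : P.ν × Fin 4) : P.L.Zc u % 2 = 0 ∧
    ((u.1.1.2 = 0 ∨ u.1.1.2 = 5) → P.L.Zc u = 8 ∨ P.L.Zc u ≤ -2) := by
  have v := vco u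
  have c := P.co u.1.1.1 u.1.1.2
  have p := u.1.2
  unfold pres at p
  omega

theorem yz_inj (u v : P.ν × Fin 4) (h1 : P.L.Yc u = P.L.Yc v) (h2 : P.L.Zc u = P.L.Zc v) :
    u = v := by
  have v1 := vco u
  have v2 := vco v
  have c1 := P.co u.1.1.1 u.1.1.2
  have c2 := P.co v.1.1.1 v.1.1.2
  have e : u.1 = v.1 := node_ext (by omega) (by omega)
  refine Prod.ext e ?_
  rw [← e] at v2
  omega

theorem up_cases {u : P.ν × Fin 4} (h : P.L.Yc (P.R.nxt u) = P.L.Yc u + 1) :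
    (u.2 = 1 ∧ P.L.Yc u % 2 = 0 ∧ P.L.Zc (P.R.nxt u) = P.L.Zc u) ∨
    (u.2 = 2 ∧ P.L.Yc u = 2 * u.1.1.2 + 1 ∧ P.col u.1.1.1 u.1.1.2 ∧
      P.L.Zc u = P.zr u.1.1.1 u.1.1.2 ∧ P.L.Zc (P.R.nxt u) = P.zr u.1.1.1 (u.1.1.2 + 1) ∧
      P.L.Xc u = P.xr u.1.1.1 u.1.1.2 ∧ P.L.Xc (P.R.nxt u) = P.xr u.1.1.1 (u.1.1.2 + 1) ∧
      (P.R.nxt u).1.1.1 = u.1.1.1 ∧ (P.R.nxt u).1.1.2 = u.1.1.2 + 1) := by
  have v1 := vco u
  have v2 := vco (P.R.nxt u)
  rcases edge u with k | ⟨k, e⟩ | ⟨k, c, a, b, d⟩ | ⟨k, c, a, b, d⟩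
  · omega
  · rw [e] at v2 h ⊢
    simp only [sc_fst, sc_snd] at v2
    left
    omega
  · rw [a, b] at v2
    exact Or.inr ⟨k, by omega, c, by omega, by omega, by omega, by omega, a, b⟩
  · omega

theorem dn_cases {u : P.ν × Fin 4} (h : P.L.Yc (P.R.nxt u) + 1 = P.L.Yc u) :
    (u.2 = 3 ∧ P.L.Yc u % 2 = 1 ∧ P.L.Zc (P.R.nxt u) = P.L.Zc u ∧ (P.R.nxt u).2 = 0) ∨
    ∃ l : ℕ, u.2 = 0 ∧ P.L.Yc u = 2 * l + 2 ∧ P.col u.1.1.1 l ∧
      P.L.Zc u = P.zl u.1.1.1 (l + 1) ∧ P.L.Zc (P.R.nxt u) = P.zl u.1.1.1 l ∧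
      P.L.Xc u = P.xl u.1.1.1 (l + 1) ∧ P.L.Xc (P.R.nxt u) = P.xl u.1.1.1 l ∧
      (P.R.nxt u).1.1.1 = u.1.1.1 ∧ (P.R.nxt u).1.1.2 = l ∧ u.1.1.2 = l + 1 := by
  have v1 := vco u
  have v2 := vco (P.R.nxt u)
  rcases edge u with k | ⟨k, e⟩ | ⟨k, c, a, b, d⟩ | ⟨k, c, a, b, d⟩
  · omega
  · rw [e] at v2 h ⊢
    simp only [sc_fst, sc_snd] at v2 ⊢
    left
    omega
  · omega
  · rw [a] at v2
    rw [b] at v1
    exact Or.inr ⟨_, k, by omega, c, by omega, by omega, by omega, by omega, a, rfl, b⟩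

theorem tw_of {u v : P.ν × Fin 4} (hu : P.L.Yc (P.R.nxt u) = P.L.Yc u + 1)
    (hv : P.L.Yc v = P.L.Yc u + 1) (hv' : P.L.Yc (P.R.nxt v) = P.L.Yc u) (hu2 : u.2 = 2)
    (hk : v.1.1.1 = u.1.1.1) (hl : u.1.1.2 = 1) (hn : P.ng u.1.1.1 1 = 1) :
    Tw P.R.nxt P.L.Xc P.L.Yc P.L.Zc (fun w => P.ng w.1.1.1 w.1.1.2 = 1) u v := by
  have c1 := P.co u.1.1.1 1
  have c2 := P.co u.1.1.1 (1 + 1)
  rcases up_cases hu with a | ⟨-, a1, -, a2, a3, a4, a5, a6, a7⟩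
  · omega
  rcases dn_cases (u := v) (by omega) with b | ⟨l, -, b1, -, b2, b3, b4, b5, b6, b7, b8⟩
  · omega
  obtain rfl : l = 1 := by omega
  rw [hl] at a2 a3 a4 a5 a7
  rw [hk] at b2 b3 b4 b5 b6
  refine ⟨hu, hv, hv', by omega, by omega, by omega, ?_, ?_, ?_, ?_⟩
  · simp only [hl, hn]
  · simp only [a6, a7]; omega
  · simp only [hk, b8]; omega
  · beta_reduce
    rw [b6, b7, hn]

theorem altOk : AltOk P.R.nxt P.L.Xc P.L.Yc P.L.Zc (fun w => P.ng w.1.1.1 w.1.1.2 = 1) where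
  step u := by
    have v1 := vco u
    have v2 := vco (P.R.nxt u)
    rcases edge u with k | ⟨k, e⟩ | ⟨k, c, a, b, d⟩ | ⟨k, c, a, b, d⟩
    · exact Or.inl k.1
    · rw [e] at v2 ⊢
      simp only [sc_fst, sc_snd] at v2
      omega
    · omega
    · omega
  inj := yz_inj
  noV u w h hw := by
    have v1 := vco u
    have v2 := vco (P.R.nxt u)
    rcases edge u with k | ⟨k, e⟩ | ⟨k, c, a, b, d⟩ | ⟨k, c, a, b, d⟩
    · have v3 := vco w
      have e : w.1.1.2 = u.1.1.2 := by omega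
      have z1 := zpar w
      have z2 := (zpar u).1
      clear v1 v2 v3
      omega
    · rw [e] at v2 h
      simp only [sc_fst, sc_snd] at v2
      omega
    · omega
    · omega
  nn u h := ((bd_iff (u := u)).2 rfl).2 ((bd_iff (u := P.R.nxt u)).2 h.symm).1
  UU u v hu hv h hz := by
    rcases up_cases hu with a | ⟨-, a1, -, a2, a3, -⟩ <;>
      rcases up_cases hv with b | ⟨-, b1, -, b2, b3, -⟩
    · omega
    · omega
    · omega
    · have e : v.1.1.2 = u.1.1.2 := by omega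
      rw [e] at b2 b3
      have c1 := P.co u.1.1.1 u.1.1.2
      have c2 := P.co v.1.1.1 u.1.1.2
      have c3 := P.co u.1.1.1 (u.1.1.2 + 1)
      have c4 := P.co v.1.1.1 (u.1.1.2 + 1)
      have ne : u.1.1.1 ≠ v.1.1.1 := fun k => by rw [← k] at b2; omega
      omega
  DD u v hu hv h hz := by
    rcases dn_cases hu with a | ⟨l, -, a1, -, a2, a3, -⟩ <;>
      rcases dn_cases hv with b | ⟨l', -, b1, -, b2, b3, -⟩
    · omega
    · omega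
    · omega
    · obtain rfl : l = l' := by omega
      have c1 := P.co u.1.1.1 l
      have c2 := P.co v.1.1.1 l
      have c3 := P.co u.1.1.1 (l + 1)
      have c4 := P.co v.1.1.1 (l + 1)
      have ne : u.1.1.1 ≠ v.1.1.1 := fun k => by rw [← k] at b2; omega
      omega
  UD u v hu hv hv' := by
    rcases up_cases hu with a | ⟨a0, a1, a5, a2, a3, -⟩ <;>
      rcases dn_cases (u := v) (by omega) with b | ⟨l, -, b1, -, b2, b3, -⟩
    · have ne : P.L.Zc u ≠ P.L.Zc (P.R.nxt v) := fun k => by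
        have := congrArg Prod.snd (yz_inj _ _ hv'.symm k)
        omega
      rcases lt_or_gt_of_ne ne with k | k
      · exact Or.inl ⟨k, by omega⟩
      · exact Or.inr (Or.inl ⟨k, by omega⟩)
    · omega
    · omega
    · obtain rfl : l = u.1.1.2 := by omega
      by_cases k : v.1.1.1 = u.1.1.1 ∧ u.1.1.2 = 1 ∧ P.ng u.1.1.1 1 = 1
      · exact Or.inr (Or.inr (tw_of hu hv hv' a0 k.1 k.2.1 k.2.2))
      rw [← or_assoc]
      left
      have c1 := P.co u.1.1.1 u.1.1.2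
      have c3 := P.co u.1.1.1 (u.1.1.2 + 1)
      by_cases e : v.1.1.1 = u.1.1.1
      · have f1 : u.1.1.2 ≠ 1 → P.ng u.1.1.1 u.1.1.2 = P.ng u.1.1.1 (u.1.1.2 + 1) :=
          fun j => ng_congr ((col_pres a5).2.2 j)
        have f2 : u.1.1.2 = 1 → P.ng u.1.1.1 u.1.1.2 = P.ng u.1.1.1 1 := fun j => by rw [j]
        rw [e] at b2 b3
        omega
      · have c2 := P.co v.1.1.1 u.1.1.2
        have c4 := P.co v.1.1.1 (u.1.1.2 + 1)
        omega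
  ex1 u h1 h2 := by
    have c1 := P.co u.1.1.1 u.1.1.2
    rcases edge u with k | ⟨k, e⟩ | ⟨k, c, a, b, d⟩ | ⟨k, c, a, b, d⟩
    · exact absurd (k.2.1.trans h1) h2
    · rw [e] at h2
      exact absurd h1 h2
    · have hl : u.1.1.2 = 1 := by
        by_contra j
        rw [a, b, ← ng_congr ((col_pres c).2.2 j)] at h2
        exact h2 h1
      have g : P.Gl (P.R.nxt u).1.1.1 (P.R.nxt u).1.1.2 0 u.1.1.1 u.1.1.2 :=
        Or.inr (Or.inl ⟨rfl, by rwa [a], a.symm, b⟩)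
      have e : P.R.nxt ((P.R.nxt u).1, 0) = (u.1, 3) := congrArg sc (γ_of g)
      have v1 := vco u
      have v2 := vco (P.R.nxt u)
      have v3 := vco ((P.R.nxt u).1, 0)
      have v4 := vco (u.1, 3)
      simp only at v3 v4
      exact ⟨((P.R.nxt u).1, 0), tw_of (by omega) (by omega) (by rw [e]; omega) k a hl
        (by rwa [hl] at h1)⟩
    · have j : (P.R.nxt u).1.1.2 ≠ 1 := by omega
      rw [a, ng_congr ((col_pres c).2.2 j), ← b] at h2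
      exact absurd h1 h2
  ex2 v h1 h2 := by
    have c1 := P.co (P.R.nxt v).1.1.1 (P.R.nxt v).1.1.2
    rcases edge v with k | ⟨k, e⟩ | ⟨k, c, a, b, d⟩ | ⟨k, c, a, b, d⟩
    · exact absurd (k.2.1.symm.trans h2) h1
    · rw [e] at h2
      exact absurd h2 h1
    · have j : v.1.1.2 ≠ 1 := by omega
      rw [a, b, ← ng_congr ((col_pres c).2.2 j)] at h2
      exact absurd h2 h1
    · have hl : (P.R.nxt v).1.1.2 = 1 := by
        by_contra j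
        rw [a, ng_congr ((col_pres c).2.2 j), ← b] at h2
        exact h1 h2
      have g : P.Gl (P.R.nxt v).1.1.1 (P.R.nxt v).1.1.2 2 v.1.1.1 v.1.1.2 :=
        Or.inl ⟨rfl, by rwa [a], a.symm, b⟩
      have e : P.R.nxt ((P.R.nxt v).1, 2) = (v.1, 1) := congrArg sc (γ_of g)
      have v1 := vco v
      have v2 := vco (P.R.nxt v)
      have v3 := vco ((P.R.nxt v).1, 2)
      have v4 := vco (v.1, 1)
      simp only at v3 v4
      exact ⟨((P.R.nxt v).1, 2), tw_of (by rw [e]; omega) (by omega) (by omega) rfl a.symm hl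
        (by rwa [hl] at h2)⟩

end Par

end Pool.Agent.P.MP_06cdda_gt
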