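import Pool.Agent.P.MP_06cdda_gt.FamConn

namespace Pool.Agent.P.MP_06cdda_gt

open Rib

namespace Par

variable {P : Par}

theorem conn : P.R.Conn := by
  intro χ hχ
  let cc : ℕ → ℕ → Fin 4 → Prop := fun k l i => ∃ h : P.pres k l, χ (⟨(k, l), h⟩, i)
  have ev : ∀ (n : P.ν) i, cc n.1.1 n.1.2 i = χ (n, i) := fun n i =>
    propext ⟨fun ⟨_, h⟩ => h, fun h => ⟨n.2, h⟩⟩
  have sG : ∀ {k l i k' l'} (j), P.Gl k l i k' l' → j = i + 2 + 1 → cc k' l' j = cc k l i := by
    rintro k l i k' l' _ h rfl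
    have e : P.R.nxt (⟨(k, l), h.symm.pres⟩, i) = (⟨(k', l'), h.pres⟩, i + 2 + 1) :=
      congrArg sc (γ_of h)
    rw [ev ⟨(k, l), h.symm.pres⟩, ev ⟨(k', l'), h.pres⟩, ← e, hχ]
  have sU : ∀ {k l} (i j), P.pres k l → (∀ k' l', ¬ P.Gl k l i k' l') → j = i + 1 →
      cc k l j = cc k l i := by
    rintro k l i _ hp h rfl
    have e : P.R.nxt (⟨(k, l), hp⟩, i) = (⟨(k, l), hp⟩, i + 1) := congrArg sc (γ_not h)
    rw [ev ⟨(k, l), hp⟩, ev ⟨(k, l), hp⟩, ← e, hχ]
  have key : P.Rules (fun k l => if P.neg k l then cc k l 1 else cc k l 0)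
      (fun k l => if P.neg k l then cc k l 0 else cc k l 1)
      (fun k l => if P.neg k l then cc k l 3 else cc k l 2)
      (fun k l => if P.neg k l then cc k l 2 else cc k l 3) := by
    constructor
    · intro k l hp h
      have := sU 0 1 hp (by
        rintro k' l' (⟨j, -⟩ | ⟨-, j, -, rfl⟩ | ⟨j, -⟩ | ⟨j, -⟩)
        · omega
        · exact h.elim (by omega) fun h => h j
        · omega
        · omega) rfl
      simp only [this]
    · intro k l hp h
      have := sU 2 3 hp (by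
        rintro k' l' (⟨-, j, -⟩ | ⟨j, -⟩ | ⟨j, -⟩ | ⟨j, -⟩)
        · exact h j
        all_goals omega) rfl
      simp only [this]
    · intro k l hp h
      by_cases hn : P.neg k l
      · simp only [if_pos hn]
        refine sU 3 0 hp ?_ rfl
        rintro k' l' (⟨j, -⟩ | ⟨j, -⟩ | ⟨-, j, -⟩ | ⟨⟨-, j⟩ | ⟨j, -⟩, -⟩)
        · omega
        · omega
        · exact h j
        · exact j hn
        · omega
      · simp only [if_neg hn]
        refine (sU 1 2 hp ?_ rfl).symm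
        rintro k' l' (⟨j, -⟩ | ⟨j, -⟩ | ⟨-, j, -⟩ | ⟨⟨j, -⟩ | ⟨-, j⟩, -⟩)
        · omega
        · omega
        · exact h j
        · omega
        · exact hn j
    · intro k l hp h
      have no : ∀ k', P.gap k' l → k ≠ nl k' l := by
        rintro k' j rfl
        have := pl_nl j
        exact h.elim this.1 fun h => h (this.2.symm ▸ j)
      by_cases hn : P.neg k l
      · simp only [if_pos hn]
        refine (sU 1 2 hp ?_ rfl).symm
        rintro k' l' (⟨j, -⟩ | ⟨j, -⟩ | ⟨⟨-, j⟩ | ⟨j, -⟩, -⟩ | ⟨-, j, e, -⟩)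
        · omega
        · omega
        · exact j hn
        · omega
        · exact no _ j e
      · simp only [if_neg hn]
        refine sU 3 0 hp ?_ rfl
        rintro k' l' (⟨j, -⟩ | ⟨j, -⟩ | ⟨⟨j, -⟩ | ⟨-, j⟩, -⟩ | ⟨-, j, e, -⟩)
        · omega
        · omega
        · omega
        · exact hn j
        · exact no _ j e
    · rintro k l _ h rfl
      have e := (gap_pres h).2.2.1
      by_cases hn : P.neg k l
      · have g : P.Gl k l 3 (nl k l) l := Or.inr (Or.inr (Or.inl ⟨Or.inr ⟨rfl, hn⟩, h, rfl, rfl⟩))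
        simp only [if_pos hn, if_pos (e.1 hn)]
        exact ⟨sG 0 g.symm rfl, (sG 2 g rfl).symm⟩
      · have g : P.Gl k l 1 (nl k l) l := Or.inr (Or.inr (Or.inl ⟨Or.inl ⟨rfl, hn⟩, h, rfl, rfl⟩))
        simp only [if_neg hn, if_neg (mt e.2 hn)]
        exact ⟨(sG 0 g rfl).symm, sG 2 g.symm rfl⟩
    · rintro k l _ h e rfl
      have g : P.Gl k l 2 k (l + 1) := Or.inl ⟨rfl, h, rfl, rfl⟩
      by_cases hn : P.neg k l
      · simp only [if_pos hn, if_pos (e.1 hn)]
        exact ⟨(sG 1 g rfl).symm, sG 3 g.symm rfl⟩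
      · simp only [if_neg hn, if_neg (mt e.2 hn)]
        exact ⟨sG 3 g.symm rfl, (sG 1 g rfl).symm⟩
    · intro k hk hn
      have g : P.Gl k 1 2 k 2 := Or.inl ⟨rfl, Or.inr (Or.inl ⟨rfl, hk⟩), rfl, rfl⟩
      have e : ¬ P.neg k 2 := by unfold neg; omega
      simp only [if_pos hn, if_neg e]
      exact ⟨(sG 1 g rfl).symm, sG 3 g.symm rfl⟩
  have all : ∀ u : P.ν × Fin 4, χ u = if P.neg 0 0 then cc 0 0 1 else cc 0 0 0 := by
    rintro ⟨n, i⟩
    obtain ⟨h1, h2, h3, h4⟩ := key.all n.2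
    rw [← ev]
    by_cases hn : P.neg n.1.1 n.1.2
    · simp only [if_pos hn] at h1 h2 h3 h4
      rcases fin4 i with rfl | rfl | rfl | rfl <;> assumption
    · simp only [if_neg hn] at h1 h2 h3 h4
      rcases fin4 i with rfl | rfl | rfl | rfl <;> assumption
  intro u v
  rw [all u, all v]

end Par

end Pool.Agent.P.MP_06cdda_gt
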