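import Pool.Agent.P.MP_06cdda_gt.FamRaw

open Finset

namespace Pool.Agent.P.MP_06cdda_gt

open Rib

namespace Par

variable {P : Par} {x : Fin 6 → ℤ}

theorem cons_eq {k l : ℕ} (h3 : 3 ≤ k) {c1 c2 c3 c4 : Prop} [Decidable c1] [Decidable c2]
    [Decidable c3] [Decidable c4] (h1 : (l ≠ 0 ∧ P.col k (l - 1)) ↔ c1) (h2 : P.col k l ↔ c2)
    (h3' : P.gap (pl k l) l ↔ c3) (h4 : P.gap k l ↔ c4) (C G : ℕ → ℕ → ℤ) :
    P.cons C G k l = (if c1 then C k (l - 1) else 0) - (if c2 then C k l else 0) +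
      (if c3 then G (pl k l) l else 0) - if c4 then G k l else 0 := by
  have k0 : k ≠ 0 := by omega
  simp only [cons, h1, h2, h3', h4, k0, ne_eq, not_false_iff, true_and]

theorem cons_hi0 {k : ℕ} (h3 : 3 ≤ k) (hk : k < P.m) : P.cons (P.Cf x) (P.Gf x) k 0 = 0 := by
  have := P.h1.1; have := P.h2.1; have := P.h3.1; have := P.h4.1
  have c0 : P.Cf x k 0 = P.Wf x k := (if_pos rfl).trans (if_neg (by omega))
  have g0 : ∀ k, k ≠ 0 → P.Gf x k 0 = if k < P.s1 then 0 else if k < P.s2 then -x 2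
      else if k < P.s3 then -x 2 - x 3 else 0 := fun k h => (if_pos rfl).trans (if_neg h)
  by_cases j : k = 3
  · subst j
    rw [cons_eq h3 (c1 := False) (by simp) (c2 := True) (by simp [col]) (c3 := True)
      (by simp [gap, pl]) Iff.rfl, c0, W1 (by omega), g0 3 (by omega), if_pos (show 3 < P.s1 by omega)]
    simp [pl, Gf]
  have e : pl k 0 = k - 1 := pl_of (Or.inl j)
  have k0 : k ≠ 0 := by omega
  rw [cons_eq h3 (c1 := False) (by simp) (c2 := k = P.s1 ∨ k = P.s2 ∨ k = P.s3)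
    (by simp [col, k0, j]) (c3 := k ≠ P.s1) (by rw [e]; simp [gap]; omega)
    (c4 := k + 1 < P.m ∧ k + 1 ≠ P.s1) (by simp [gap, k0, h3]), e, c0, g0 k (by omega),
    g0 (k - 1) (by omega)]
  clear c0 g0 e
  unfold Wf
  rcases (by omega : k < P.s1 ∨ k = P.s1 ∨ P.s1 < k) with h | h | h
  · simp (disch := omega) only [if_pos, if_neg, if_false, ite_self]; rfl
  · simp (disch := omega) only [if_pos, if_neg, if_false, ite_self]; ring
  rcases (by omega : k < P.s2 ∨ k = P.s2 ∨ P.s2 < k) with h | h | h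
  · simp (disch := omega) only [if_pos, if_neg, if_false, ite_self]; ring
  · simp (disch := omega) only [if_pos, if_neg, if_false, ite_self]; ring
  rcases (by omega : k < P.s3 ∨ k = P.s3 ∨ P.s3 < k) with h | h | h <;>
  · simp (disch := omega) only [if_pos, if_neg, if_false, ite_self]; ring

theorem cons_hi1 {k : ℕ} (h3 : 3 ≤ k) (hk : k < P.m) : P.cons (P.Cf x) (P.Gf x) k 1 = 0 := by
  have := P.h1; have := P.h2; have := P.h3; have := P.h4
  have c0 : P.Cf x k (1 - 1) = P.Wf x k := (if_pos rfl).trans (if_neg (by omega))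
  have c1 : P.Cf x k 1 = P.Mf x k := rfl
  have g1 : ∀ k, k ≠ 1 → P.Gf x k 1 = if k + 2 = P.s2 then x 4 else if k + 2 = P.s3 then x 5
      else P.Wf x k := fun k h => (if_neg one_ne_zero).trans ((if_pos rfl).trans (if_neg h))
  have e : pl k 1 = k - 1 := pl_of (by omega)
  have e1 : ∀ k, 2 ≤ k → (P.gap k 1 ↔ (3 ≤ k ∧ k < P.s1 ∧ k % 2 = 0) ∨ (P.s1 ≤ k ∧ k + 1 < P.m ∧
      ((k % 2 = 1 ∧ k + 1 ≠ P.s2 ∧ k + 1 ≠ P.s3) ∨ k + 2 = P.s2 ∨ k + 2 = P.s3))) := by
    intro k h
    have : k ≠ 1 := by omega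
    simp [gap, this]
  rw [cons_eq h3 (c1 := k = 3 ∨ k = P.s1 ∨ k = P.s2 ∨ k = P.s3)
    (by have : k ≠ 0 := by omega
        simp [col, this]) (c2 := True)
    (by simp [col, hk]) (e ▸ e1 (k - 1) (by omega)) (e1 k (by omega)), e, c0, c1, M_eq h3,
    g1 k (by omega), g1 (k - 1) (by omega)]
  clear c0 c1 g1 e e1
  by_cases d : k = 3 ∨ k = P.s1 ∨ k = P.s2 ∨ k = P.s3
  · by_cases j : k + 2 = P.s2
    · rw [W2 (by omega) (by omega)]
      simp (disch := omega) only [if_pos, if_neg, if_true]; ring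
    by_cases j' : k + 2 = P.s3
    · rw [W3 (by omega) (by omega)]
      simp (disch := omega) only [if_pos, if_neg, if_true]; ring
    simp (disch := omega) only [if_pos, if_neg, if_true]; ring
  rw [if_neg d, Wp (by omega) (by omega) (by omega)]
  push Not at d
  by_cases j : k + 2 = P.s2
  · rw [W2 (by omega) (by omega)]
    simp (disch := omega) only [if_pos, if_neg, if_true]; ring
  by_cases j' : k + 2 = P.s3
  · rw [W3 (by omega) (by omega)]
    simp (disch := omega) only [if_pos, if_neg, if_true]; ring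
  by_cases j1 : k + 1 = P.s2
  · simp (disch := omega) only [if_pos, if_neg, if_true]; ring
  by_cases j2 : k + 1 = P.s3
  · simp (disch := omega) only [if_pos, if_neg, if_true]; ring
  rcases Nat.lt_or_ge k P.s1 with h | h <;> rcases Nat.mod_two_eq_zero_or_one k with p | p <;>
  · simp (disch := omega) only [if_pos, if_neg, if_true]; ring

theorem cons_hi2 (hx : P.g = 1 ∨ x 1 = 0) {k : ℕ} (h3 : 3 ≤ k) (hk : k < P.m) :
    P.cons (P.Cf x) (P.Gf x) k 2 = 0 := by
  have := P.h1; have := P.h2; have := P.h3; have := P.h4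
  have k0 : k ≠ 0 := by omega
  have k2 : k ≠ 2 := by omega
  have c1 : P.Cf x k (2 - 1) = P.Mf x k := rfl
  have c2 : P.Cf x k 2 = P.Wf x k := by simp [Cf, k0, k2]
  have g2 : ∀ k, k ≠ 0 → P.Gf x k 2 = if k + 2 = P.s2 then x 2 - x 4
      else if k + 2 = P.s3 then x 3 - x 5 else P.Wf x k := fun k h => by simp [Gf, h]
  have e : pl k 2 = k - 1 := pl_of (by omega)
  have e1 : ∀ k, k ≠ 0 → (P.gap k 2 ↔ (3 ≤ k ∧ k + 1 < P.s1 ∧ k % 2 = 1) ∨
      (P.s1 ≤ k ∧ k + 1 < P.m ∧ k % 2 = 0)) := fun k h => by simp [gap, h]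
  rw [cons_eq h3 (c1 := True) (by simp [col, hk])
    (c2 := (k + 1 = P.s1 ∧ P.g = 1) ∨ k + 1 = P.s2 ∨ k + 1 = P.s3 ∨ k + 1 = P.m)
    (by simp [col, k0, k2]) (e ▸ e1 (k - 1) (by omega)) (e1 k k0), e, c1, c2, M_eq h3,
    g2 k k0, g2 (k - 1) (by omega)]
  clear c1 c2 g2 e e1
  by_cases j0 : k + 1 = P.s1
  · rw [W1 (k := k) (by omega)]
    rcases hx with hx | hx
    · simp (disch := omega) only [if_pos, if_neg, if_true]; ring
    · simp (disch := omega) only [hx, if_pos, if_neg, if_true, ite_self]; ring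
  clear hx
  by_cases j1 : k + 1 = P.s2
  · rw [W2 (k := k) (by omega) (by omega)]
    simp (disch := omega) only [if_pos, if_neg, if_true]; ring
  by_cases j2 : k + 1 = P.s3
  · rw [W3 (k := k) (by omega) (by omega)]
    simp (disch := omega) only [if_pos, if_neg, if_true]; ring
  by_cases j3 : k + 1 = P.m
  · simp (disch := omega) only [if_pos, if_neg, if_true]; ring
  by_cases j : k + 2 = P.s2
  · simp (disch := omega) only [if_pos, if_neg, if_true]; ring
  by_cases j' : k + 2 = P.s3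
  · simp (disch := omega) only [if_pos, if_neg, if_true]; ring
  rcases Nat.lt_or_ge k P.s1 with h | h <;> rcases Nat.mod_two_eq_zero_or_one k with p | p
  · rw [Wp (by omega) (by omega) (by omega)]
    simp (disch := omega) only [if_pos, if_neg, if_true]; ring
  · simp (disch := omega) only [if_pos, if_neg, if_true]; ring
  · simp (disch := omega) only [if_pos, if_neg, if_true]; ring
  · rw [Wp (by omega) (by omega) (by omega)]
    simp (disch := omega) only [if_pos, if_neg, if_true]; ring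

theorem cons_hi3 (hx : P.g = 1 ∨ x 1 = 0) {k : ℕ} (h3 : 3 ≤ k) (hk : k < P.m) :
    P.cons (P.Cf x) (P.Gf x) k 3 = 0 := by
  have := P.h1.1; have := P.h2.1; have := P.h3.1; have := P.h4.1
  have k0 : k ≠ 0 := by omega
  have k2 : k ≠ 2 := by omega
  have c2 : P.Cf x k (3 - 1) = P.Wf x k := by simp [Cf, k0, k2]
  have g3 : ∀ k, P.Gf x k 3 = if k + 1 < P.s1 then -x 1 else if k + 1 < P.s2 then 0
      else if k + 1 < P.s3 then x 2 else x 2 + x 3 := fun k => rfl
  obtain ⟨k', e, e2⟩ : ∃ k', pl k 3 = k' ∧ ((k = 3 ∧ k' = 0) ∨ (3 < k ∧ k' + 1 = k)) := by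
    by_cases j : k = 3
    · exact ⟨0, if_pos ⟨j, Or.inr rfl⟩, Or.inl ⟨j, rfl⟩⟩
    · exact ⟨k - 1, pl_of (Or.inl j), by omega⟩
  rw [cons_eq h3
    (c1 := (k + 1 = P.s1 ∧ P.g = 1) ∨ k + 1 = P.s2 ∨ k + 1 = P.s3 ∨ k + 1 = P.m)
    (by simp [col, k0, k2]) (c2 := False) (by simp [col, k0, k2]) (c3 := True)
    (by rw [e]; exact iff_true_intro (Or.inr (Or.inr (Or.inr (Or.inl ⟨rfl, by omega⟩)))))
    (c4 := k + 1 < P.m) (by simp [gap, k0, h3]),
    e, c2, g3, g3]
  clear c2 g3 e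
  unfold Wf
  rcases (by omega : k + 1 < P.s1 ∨ k + 1 = P.s1 ∨ P.s1 < k + 1) with h | h | h
  · simp (disch := omega) only [if_pos, if_neg, if_false, if_true]; ring
  · rcases hx with hx | hx
    · simp (disch := omega) only [if_pos, if_neg, if_false, if_true]; ring
    · simp (disch := omega) only [hx, if_pos, if_neg, if_false, if_true, ite_self]; ring
  clear hx
  rcases (by omega : k + 1 < P.s2 ∨ k + 1 = P.s2 ∨ P.s2 < k + 1) with h | h | h
  · simp (disch := omega) only [if_pos, if_neg, if_false, if_true]; ring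
  · simp (disch := omega) only [if_pos, if_neg, if_false, if_true]; ring
  rcases (by omega : k + 1 < P.s3 ∨ k + 1 = P.s3 ∨ P.s3 < k + 1) with h | h | h
  · simp (disch := omega) only [if_pos, if_neg, if_false, if_true]; ring
  · simp (disch := omega) only [if_pos, if_neg, if_false, if_true]; ring
  rcases (by omega : k + 1 < P.m ∨ k + 1 = P.m) with h | h <;>
  · simp (disch := omega) only [if_pos, if_neg, if_false, if_true]; ring

theorem cons_hi (hx : P.g = 1 ∨ x 1 = 0) {k l : ℕ} (hl : l ≤ 3) (h3 : 3 ≤ k)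
    (hk : k < P.m) : P.cons (P.Cf x) (P.Gf x) k l = 0 := by
  interval_cases l
  exacts [cons_hi0 h3 hk, cons_hi1 h3 hk, cons_hi2 hx h3 hk, cons_hi3 hx h3 hk]

theorem flow_cons (hx : P.g = 1 ∨ (x 0 = 0 ∧ x 1 = 0)) {k l : ℕ} (hp : P.pres k l) :
    P.cons (P.Cf x) (P.Gf x) k l = 0 := by
  have := P.h1; have := P.h2; have := P.h3; have := P.h4
  unfold pres at hp
  by_cases h3 : 3 ≤ k
  · exact cons_hi (by omega) (by omega) h3 hp.1
  have m0 : 0 < P.m := by omega
  have m1 : 1 < P.m := by omega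
  have m2 : 2 < P.m := by omega
  have m3 : 1 < P.s1 := by omega
  have n0 : ∀ k, k ≤ 3 → ¬ P.s1 ≤ k ∧ k ≠ P.s1 ∧ k ≠ P.s2 ∧ k ≠ P.s3 ∧ k ≠ P.m := fun k _ => by omega
  have hl : l ≤ 5 := by omega
  have hp' := hp.2
  clear hp
  obtain rfl | rfl | rfl : k = 0 ∨ k = 1 ∨ k = 2 := by omega
  all_goals interval_cases l <;> simp at hp' <;>
    simp [cons, col, gap, pl, Cf, Gf, Mf, m0, m1, m2, m3, n0 0, n0 1, n0 2, n0 3] <;> omega

end Par

end Pool.Agent.P.MP_06cdda_gt
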