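import Pool.Agent.P.MP_06cdda_gt.FamFlow
import Pool.Agent.P.MP_06cdda_gt.FamBasis

open Finset

namespace Pool.Agent.P.MP_06cdda_gt

open Rib

namespace Par

variable {P : Par}

theorem rd_flow (x : Fin 6 → ℤ) : P.rd (P.Cf x) (P.Gf x) = x := by
  have := P.h1; have := P.h2; have := P.h3
  have a1 := wspec (P := P) (x := x) P.s1
  have a2 := wspec (P := P) (x := x) P.s2
  have a3 := g1spec (P := P) (x := x) (k := P.s2 - 2) (by omega)
  have a4 := g1spec (P := P) (x := x) (k := P.s3 - 2) (by omega)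
  have c0 : ∀ k, k ≠ 0 → P.Cf x k 0 = P.Wf x k := fun k h => by
    unfold Cf; rw [if_pos rfl, if_neg h]
  ext i
  fin_cases i
  · rfl
  · rfl
  · exact (c0 _ (by omega)).trans (by change _ = x 2; omega)
  · exact (c0 _ (by omega)).trans (by change _ = x 3; omega)
  · change P.Gf x (P.s2 - 2) 1 = x 4; omega
  · change P.Gf x (P.s3 - 2) 1 = x 5; omega

theorem raw_iff {C G C' G' : ℕ → ℕ → ℤ} :
    (∀ s, P.R.src s → P.ofRaw C G s = P.ofRaw C' G' s) ↔
      (∀ k l, P.col k l → C k l = C' k l) ∧ ∀ k l, P.gap k l → G k l = G' k l := by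
  constructor
  · refine fun h => ⟨fun k l j => h (⟨(k, l), (col_pres j).1⟩, 2) (src2.2 j), fun k l j => ?_⟩
    have e := (gap_pres j).2.2.1
    by_cases hn : P.neg k l
    · have p := pl_nl j
      have := h (⟨(nl k l, l), (gap_pres j).2.1⟩, 1) (src1.2 (Or.inr ⟨e.1 hn, p.1, p.2.symm ▸ j⟩))
      simpa [ofRaw, e.1 hn, p.2] using this
    · simpa [ofRaw, hn] using h (⟨(k, l), (gap_pres j).1⟩, 1) (src1.2 (Or.inl ⟨hn, j⟩))
  · rintro ⟨h1, h2⟩ s hs
    rcases Lay.src_cases hs with ⟨n, rfl, -⟩ | ⟨n, rfl, -⟩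
    · rcases src1.1 hs with ⟨j, h⟩ | ⟨j, -, h⟩ <;> simp [ofRaw, j, h2 _ _ h]
    · simp [ofRaw, h1 _ _ (src2.1 hs)]

theorem rd_congr {C G C' G' : ℕ → ℕ → ℤ} (h1 : ∀ k l, P.col k l → C k l = C' k l)
    (h2 : ∀ k l, P.gap k l → G k l = G' k l) : P.rd C G = P.rd C' G' := by
  have := P.h1; have := P.h2; have := P.h3; have := P.h4
  unfold rd
  rw [h1 2 1 (by unfold col; omega), h2 0 0 (by unfold gap; omega), h1 P.s1 0 (by unfold col; omega),
    h1 P.s2 0 (by unfold col; omega), h2 (P.s2 - 2) 1 (by unfold gap; omega),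
    h2 (P.s3 - 2) 1 (by unfold gap; omega)]

theorem isBasis {ι : Type} [Fintype ι] {e : ι → Fin 6} (he : Function.Injective e)
    (h : ∀ r, (P.g = 1 ∨ (r ≠ 0 ∧ r ≠ 1)) ↔ r ∈ Set.range e) :
    P.R.IsBasis fun i => P.flow (Pi.single (e i) 1) := by
  classical
  have sm : ∀ (x : ι → ℤ) s, ∑ i, x i * P.flow (Pi.single (e i) 1) s =
      P.flow (∑ i, x i • Pi.single (e i) 1) s := fun x s => by
    rw [map_sum, Finset.sum_apply]
    simp only [map_smul, Pi.smul_apply, smul_eq_mul]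
  have ev : ∀ (x : ι → ℤ) i, (∑ i, x i • (Pi.single (e i) 1 : Fin 6 → ℤ)) (e i) = x i :=
    fun x i => by simp [Finset.sum_apply, Pi.single_apply, he.eq_iff]
  refine ⟨fun i n => (bd_ofRaw _ _ n).trans (flow_cons ?_ n.2), fun c hc => ?_⟩
  · exact ((h _).2 ⟨i, rfl⟩).imp id fun j =>
      ⟨Pi.single_eq_of_ne j.1.symm _, Pi.single_eq_of_ne j.2.symm _⟩
  obtain ⟨C, G, hr⟩ := exists_raw c
  have h1 : ∀ k l, P.pres k l → P.cons C G k l = 0 := fun k l hp => by
    rw [← hc ⟨(k, l), hp⟩, bd_congr hr, bd_ofRaw]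
  have h2 : P.g = 1 ∨ (P.rd C G 0 = 0 ∧ P.rd C G 1 = 0) := by
    by_cases g : P.g = 1
    · exact Or.inl g
    · exact Or.inr (off_flow h1 g)
  have h3 := rd_flow (P := P) (P.rd C G)
  have h4 := zero_flow (P := P) (C := fun k l => C k l - P.Cf (P.rd C G) k l)
    (G := fun k l => G k l - P.Gf (P.rd C G) k l) (fun k l hp => by
      have a := h1 k l hp
      have b := flow_cons h2 hp
      unfold cons at a b ⊢
      beta_reduce
      split_ifs at a b ⊢ <;> omega)
    (sub_eq_zero.2 (congrFun h3 0).symm) (sub_eq_zero.2 (congrFun h3 1).symm)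
    (sub_eq_zero.2 (congrFun h3 2).symm) (sub_eq_zero.2 (congrFun h3 3).symm)
    (sub_eq_zero.2 (congrFun h3 4).symm) (sub_eq_zero.2 (congrFun h3 5).symm)
  have h5 : ∑ i, P.rd C G (e i) • (Pi.single (e i) 1 : Fin 6 → ℤ) = P.rd C G := by
    ext r
    by_cases j : r ∈ Set.range e
    · obtain ⟨i, rfl⟩ := j
      exact ev (fun i => P.rd C G (e i)) i
    · rw [Finset.sum_apply, sum_eq_zero fun i _ => by
        rw [Pi.smul_apply, Pi.single_eq_of_ne (fun k => j ⟨i, k.symm⟩), smul_zero]]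
      rw [← h, not_or, not_and_or, not_not, not_not] at j
      have := h2.resolve_left j.1
      rcases j.2 with rfl | rfl
      · exact this.1.symm
      · exact this.2.symm
  refine ⟨fun i => P.rd C G (e i), fun s hs => ?_, fun y hy => ?_⟩
  · rw [sm, h5, hr s hs]
    exact raw_iff.2 ⟨fun k l j => sub_eq_zero.1 (h4.1 k l j), fun k l j => sub_eq_zero.1 (h4.2 k l j)⟩
      s hs
  · have := raw_iff.1 fun s hs => (hr s hs).symm.trans ((hy s hs).trans (sm y s))
    ext i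
    rw [rd_congr this.1 this.2, rd_flow, ev]

end Par

end Pool.Agent.P.MP_06cdda_gt
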