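import Pool.Agent.P.MP_06cdda_gt.FamGeo

namespace Pool.Agent.P.MP_06cdda_gt

open Rib

namespace Par

variable {P : Par}

theorem okNG (n g : P.ν) (hg : P.R.γ (g, 1) ≠ (g, 1)) (h : P.L.l n = P.L.l g) :
    P.L.xr n ≤ P.L.xr g ∨ P.L.xl (P.R.γ (g, 1)).1 ≤ P.L.xl n ∨ P.L.spec P.R n g := by
  rw [spec_iff hg]
  obtain ⟨a1, a2, a3⟩ := gl1 (gl_of hg)
  have c1 := P.co n.1.1 n.1.2
  have c2 := P.co g.1.1 g.1.2
  have c3 := P.co (P.γ (g, 1)).1.1.1 g.1.2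
  have c4 := nl_spec g.1.1 g.1.2
  have c5 := n.2
  unfold pres at c5
  simp only [L, R, a1, Prod.ext_iff] at h ⊢
  omega

theorem okGG (g g' : P.ν) (hg : P.R.γ (g, 1) ≠ (g, 1)) (hg' : P.R.γ (g', 1) ≠ (g', 1))
    (h : P.L.l g = P.L.l g') :
    g = g' ∨ P.L.xl (P.R.γ (g, 1)).1 ≤ P.L.xr g' ∨ P.L.xl (P.R.γ (g', 1)).1 ≤ P.L.xr g := by
  by_cases e : g.1.1 = g'.1.1
  · exact Or.inl (node_ext e h)
  obtain ⟨a1, a2, a3⟩ := gl1 (gl_of hg)
  obtain ⟨b1, b2, b3⟩ := gl1 (gl_of hg')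
  have c1 := P.co g.1.1 g.1.2
  have c2 := P.co (P.γ (g, 1)).1.1.1 g.1.2
  have c3 := nl_spec g.1.1 g.1.2
  have d1 := P.co g'.1.1 g'.1.2
  have d2 := P.co (P.γ (g', 1)).1.1.1 g'.1.2
  have d3 := nl_spec g'.1.1 g'.1.2
  have c5 := g.2
  have d5 := g'.2
  unfold pres at c5 d5
  simp only [L, R, a1, b1] at h ⊢
  omega

theorem ok : P.L.Ok P.R where
  wid n := by
    have := P.co n.1.1 n.1.2
    simp only [L]
    omega
  gap n h := by
    obtain ⟨a1, a2, a3⟩ := gl1 (gl_of h)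
    have := P.co n.1.1 n.1.2
    have := P.co (P.γ (n, 1)).1.1.1 n.1.2
    have := nl_spec n.1.1 n.1.2
    simp only [L, R, a1, true_and]
    omega
  col n h := by
    obtain ⟨a1, a2, a3⟩ := gl2 (gl_of h)
    have := P.co n.1.1 n.1.2
    have := P.co n.1.1 (n.1.2 + 1)
    simp only [L, R, a1, a2, true_and]
    omega
  NN n n' h := by
    by_cases e : n.1.1 = n'.1.1
    · exact Or.inl (node_ext e h)
    have := P.co n.1.1 n.1.2
    have := P.co n'.1.1 n'.1.2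
    simp only [L] at h ⊢
    omega
  NG := okNG
  GG := okGG
  CC c d hc hd h := by
    by_cases e : c.1.1 = d.1.1
    · exact Or.inl (node_ext e h)
    rw [hi_iff hc hd, hi_iff hd hc]
    obtain ⟨a1, a2, -⟩ := gl2 (gl_of hc)
    obtain ⟨b1, b2, -⟩ := gl2 (gl_of hd)
    have c1 := P.co c.1.1 c.1.2
    have c2 := P.co c.1.1 (c.1.2 + 1)
    have d1 := P.co d.1.1 d.1.2
    have d2 := P.co d.1.1 (d.1.2 + 1)
    simp only [L, R, Lay.xsep, a1, a2, b1, b2] at h ⊢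
    by_cases k : c.1.1 = 0 ∧ d.1.1 ≤ 2
    · exact Or.inr (Or.inl ⟨by clear c2 d2; omega, by clear c1 d1; omega⟩)
    by_cases k' : d.1.1 = 0 ∧ c.1.1 ≤ 2
    · exact Or.inr (Or.inr (Or.inl ⟨by clear c2 d2; omega, by clear c1 d1; omega⟩))
    clear c1 c2 d1 d2
    omega

end Par

end Pool.Agent.P.MP_06cdda_gt
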