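import Pool.Agent.P.MP_06cdda_gt.Algebra

open Matrix

namespace Pool.Agent.P.MP_06cdda_gt

theorem diag_of_ldl {n : ℕ} {G L : Matrix (Fin n) (Fin n) ℝ} {d : Fin n → ℝ}
    (h1 : L.BlockTriangular id) (h2 : ∀ i, L i i = 1) (h : G = Lᵀ * diagonal d * L) :
    Diag G |∏ i, d i| (∑ i, (SignType.sign (d i) : ℤ)) := by
  have hL : L.det = 1 := by rw [det_of_upperTriangular h1]; simp [h2]
  have hu : IsUnit L.det := by rw [hL]; exact isUnit_one
  refine ⟨L⁻¹, d, by rw [det_nonsing_inv, hL]; simp, ?_, rfl, rfl⟩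
  rw [h, ← Matrix.mul_assoc, ← Matrix.mul_assoc, ← transpose_mul, mul_nonsing_inv _ hu,
    Matrix.mul_assoc, mul_nonsing_inv _ hu]
  simp

theorem diag_four {X Y Z : ℝ} (hX : 0 < X) (hY : 0 < Y) (hZ : 0 ≤ Z) :
    Diag !![2, 0, -1, 0; 0, 2, 0, -1; -1, 0, (X + Z + 1) / 2, Z / 2; 0, -1, Z / 2, (Y + Z + 1) / 2]
      (X * Y + Y * Z + Z * X) 4 := by
  have p1 : 0 < (X + Z) / 2 := by positivity
  have p2 : 0 < (X * Y + Y * Z + Z * X) / (2 * (X + Z)) := by positivity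
  have := diag_of_ldl
    (G := !![2, 0, -1, 0; 0, 2, 0, -1; -1, 0, (X + Z + 1) / 2, Z / 2; 0, -1, Z / 2, (Y + Z + 1) / 2])
    (L := !![1, 0, -1 / 2, 0; 0, 1, 0, -1 / 2; 0, 0, 1, Z / (X + Z); 0, 0, 0, 1])
    (d := ![2, 2, (X + Z) / 2, (X * Y + Y * Z + Z * X) / (2 * (X + Z))])
    (fun i j h => by fin_cases i <;> fin_cases j <;> simp at h ⊢)
    (fun i => by fin_cases i <;> rfl) (by
      ext i j
      simp only [Matrix.mul_apply, diagonal_apply, transpose_apply, mul_ite, mul_zero,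
        Finset.sum_ite_eq', Finset.mem_univ, if_true, Fin.sum_univ_four]
      fin_cases i <;> fin_cases j <;> simp <;> field_simp <;> ring)
  have e1 : |∏ i, ![2, 2, (X + Z) / 2, (X * Y + Y * Z + Z * X) / (2 * (X + Z))] i| =
      X * Y + Y * Z + Z * X := by
    rw [Fin.prod_univ_four, abs_of_pos (by simp only [cons_val]; positivity)]
    simp only [cons_val]
    field_simp
  rw [e1, Fin.sum_univ_four] at this
  simpa [sign_pos p1, sign_pos p2] using this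

theorem diag_six {X Y Z A : ℝ} (hX : 0 < X) (hY : 0 < Y) (hZ : 0 ≤ Z) (hA : 0 ≤ A) :
    Diag !![-2, 1, 0, 0, 0, 0; 1, A, 0, 0, 0, 0; 0, 0, 2, 0, -1, 0; 0, 0, 0, 2, 0, -1;
      0, 0, -1, 0, (X + Z + 1) / 2, Z / 2; 0, 0, 0, -1, Z / 2, (Y + Z + 1) / 2]
      ((2 * A + 1) * (X * Y + Y * Z + Z * X)) 4 := by
  have p0 : 0 < A + 1 / 2 := by positivity
  have p1 : 0 < (X + Z) / 2 := by positivity
  have p2 : 0 < (X * Y + Y * Z + Z * X) / (2 * (X + Z)) := by positivity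
  have := diag_of_ldl
    (G := !![-2, 1, 0, 0, 0, 0; 1, A, 0, 0, 0, 0; 0, 0, 2, 0, -1, 0; 0, 0, 0, 2, 0, -1;
      0, 0, -1, 0, (X + Z + 1) / 2, Z / 2; 0, 0, 0, -1, Z / 2, (Y + Z + 1) / 2])
    (L := !![1, -1 / 2, 0, 0, 0, 0; 0, 1, 0, 0, 0, 0; 0, 0, 1, 0, -1 / 2, 0; 0, 0, 0, 1, 0, -1 / 2;
      0, 0, 0, 0, 1, Z / (X + Z); 0, 0, 0, 0, 0, 1])
    (d := ![-2, A + 1 / 2, 2, 2, (X + Z) / 2, (X * Y + Y * Z + Z * X) / (2 * (X + Z))])
    (fun i j h => by fin_cases i <;> fin_cases j <;> simp at h ⊢)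
    (fun i => by fin_cases i <;> rfl) (by
      ext i j
      simp only [Matrix.mul_apply, diagonal_apply, transpose_apply, mul_ite, mul_zero,
        Finset.sum_ite_eq', Finset.mem_univ, if_true, Fin.sum_univ_six]
      fin_cases i <;> fin_cases j <;> simp <;> field_simp <;> ring)
  have e1 : |∏ i, ![-2, A + 1 / 2, 2, 2, (X + Z) / 2, (X * Y + Y * Z + Z * X) / (2 * (X + Z))] i| =
      (2 * A + 1) * (X * Y + Y * Z + Z * X) := by
    rw [Fin.prod_univ_six, ← abs_of_nonneg (a := (2 * A + 1) * _) (by positivity), abs_eq_abs]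
    simp only [cons_val]
    right
    field_simp
  rw [e1, Fin.sum_univ_six] at this
  simp only [cons_val, sign_pos p0, sign_pos p1, sign_pos p2] at this
  simpa using this

end Pool.Agent.P.MP_06cdda_gt
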