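import Mathlib

namespace Pool.Agent.P.MP_06cdda_gt

theorem jac_crt {a b : ℕ} (h : a.Coprime b) (ha : a ≠ 0) (hb : b ≠ 0) (u v : ℕ) :
    ∃ w : ℕ, jacobiSym w (a * b) = jacobiSym u a * jacobiSym v b := by
  obtain ⟨w, h1, h2⟩ := Nat.chineseRemainder h u v
  refine ⟨w, ?_⟩
  rw [jacobiSym.mul_right' _ ha hb, jacobiSym.mod_left' (a₂ := u) (b := a) (by exact_mod_cast h1),
    jacobiSym.mod_left' (a₁ := w) (a₂ := v) (b := b) (by exact_mod_cast h2)]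

theorem exists_jac (n : ℕ) : Odd n → ¬ IsSquare n → ∃ a : ℕ, jacobiSym a n = -1 := by
  induction n using Nat.recOnPosPrimePosCoprime with
  | zero => intro h; simp at h
  | one => intro _ h; simp at h
  | prime_pow p e hp he =>
    intro h1 h2
    have : Fact p.Prime := ⟨hp⟩
    have p2 : p ≠ 2 := by
      rintro rfl
      exact (Nat.not_even_iff_odd.2 h1) (Nat.even_pow.2 ⟨even_two, he.ne'⟩)
    obtain ⟨a, ha⟩ := FiniteField.exists_nonsquare (F := ZMod p) (by rwa [ZMod.ringChar_zmod_n])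
    refine ⟨a.val, ?_⟩
    rw [jacobiSym.pow_right, ZMod.nonsquare_iff_jacobiSym_eq_neg_one.2 (by simpa using ha)]
    exact Odd.neg_one_pow (Nat.not_even_iff_odd.1 fun j => h2 (j.isSquare_pow p))
  | coprime a b ha hb hab ia ib =>
    intro h1 h2
    by_cases j : IsSquare a
    · obtain ⟨v, hv⟩ := ib (Nat.Odd.of_mul_right h1) fun k => h2 (j.mul k)
      obtain ⟨w, hw⟩ := jac_crt hab (by omega) (by omega) 1 v
      exact ⟨w, by rw [hw, hv]; simp⟩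
    · obtain ⟨u, hu⟩ := ia (Nat.Odd.of_mul_left h1) j
      obtain ⟨w, hw⟩ := jac_crt hab (by omega) (by omega) u 1
      exact ⟨w, by rw [hw, hu]; simp⟩

theorem exists_root {n : ℕ} (h : n % 4 = 1) (hs : ¬ IsSquare n) :
    ∃ l B C : ℤ, 0 < l ∧ l % 4 = 3 ∧ l * C = B ^ 2 + n := by
  have o : Odd n := Nat.odd_iff.2 (by omega)
  obtain ⟨a, ha⟩ := exists_jac n o hs
  have c4 : Nat.Coprime 4 n := by
    simpa using Nat.Coprime.pow_left 2 (Nat.coprime_two_left.2 o)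
  obtain ⟨w, h1, h2⟩ := Nat.chineseRemainder c4 3 a
  have n0 : NeZero n := ⟨by omega⟩
  have ca : a.Coprime n := by
    by_contra j
    have := (jacobiSym.eq_zero_iff_not_coprime (a := a) (b := n)).2 (by simpa using j)
    omega
  have cw : w.Coprime (4 * n) := by
    refine Nat.Coprime.mul_right ?_ ?_
    · rw [Nat.Coprime, h1.gcd_eq]; rfl
    · rw [Nat.Coprime, h2.gcd_eq]; exact ca
  obtain ⟨l, -, hl, e⟩ := Nat.forall_exists_prime_gt_and_modEq 0 (q := 4 * n) (by omega) cw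
  have l4 : l % 4 = 3 := (e.of_mul_right n).trans h1
  have ln : jacobiSym l n = -1 := by
    rw [jacobiSym.mod_left' (a₂ := a) (by exact_mod_cast (e.of_mul_left 4).trans h2), ha]
  have lo : Odd l := Nat.odd_iff.2 (by omega)
  have : Fact l.Prime := ⟨hl⟩
  have k : jacobiSym (-n) l = 1 := by
    rw [jacobiSym.neg _ lo, jacobiSym.quadratic_reciprocity_one_mod_four h lo, ln,
      ZMod.χ₄_nat_three_mod_four l4]
    rfl
  obtain ⟨r, hr⟩ := ZMod.isSquare_of_jacobiSym_eq_one k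
  have d : (l : ℤ) ∣ (r.val : ℤ) ^ 2 + n := by
    rw [← ZMod.intCast_zmod_eq_zero_iff_dvd]
    push_cast at hr ⊢
    rw [ZMod.natCast_zmod_val, sq, ← hr, neg_add_cancel]
  obtain ⟨C, hC⟩ := d
  exact ⟨l, r.val, C, by exact_mod_cast hl.pos, by omega, hC.symm⟩

/-- Admissible triples for the reduction. -/
def Adm (n a b c : ℤ) : Prop :=
  a * b + b * c + c * a = n ∧ 0 < a + b ∧ 0 < b + c ∧ 0 < c + a ∧
    (a + b) % 4 ≠ 1 ∧ (b + c) % 4 ≠ 1 ∧ (c + a) % 4 ≠ 1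

theorem Adm.rot {n a b c : ℤ} (h : Adm n a b c) : Adm n b c a := by
  obtain ⟨h1, h2, h3, h4, h5, h6, h7⟩ := h
  exact ⟨by linarith, h3, h4, h2, h6, h7, h5⟩

theorem Adm.step {n a b c : ℤ} (hn : 0 < n) (h : Adm n a b c) :
    Adm n (-a) (b + 2 * a) (c + 2 * a) := by
  obtain ⟨h1, h2, h3, h4, h5, h6, h7⟩ := h
  refine ⟨by linarith, by omega, ?_, by omega, by omega, by omega, by omega⟩
  have : (a + b) * (b + 2 * a + (c + 2 * a)) = n + (b + 2 * a) ^ 2 := by rw [← h1]; ring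
  exact (mul_pos_iff_of_pos_left h2).1 (by rw [this]; positivity)

theorem Adm.reduce {n : ℤ} (hn : 0 < n) (N : ℕ) : ∀ a b c, Adm n a b c → a + b + c ≤ N →
    ∃ a b c, Adm n a b c ∧ 0 ≤ a ∧ 0 ≤ b ∧ 0 ≤ c := by
  induction N with
  | zero => rintro a b c ⟨-, h⟩ _; omega
  | succ N ih =>
    intro a b c h hN
    by_cases ha : a < 0
    · exact ih _ _ _ (h.step hn) (by omega)
    by_cases hb : b < 0
    · exact ih _ _ _ (h.rot.step hn) (by omega)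
    by_cases hc : c < 0
    · exact ih _ _ _ (h.rot.rot.step hn) (by omega)
    exact ⟨a, b, c, h, by omega, by omega, by omega⟩

/-- `n = XY + YZ + ZX` with `X, Y` odd, `Z` even and `X + Z ≡ Y + Z ≡ 3 mod 4`. -/
def Rep (n : ℕ) : Prop :=
  ∃ X Y Z : ℕ, X * Y + Y * Z + Z * X = n ∧ Z % 2 = 0 ∧ (X + Z) % 4 = 3 ∧ (Y + Z) % 4 = 3

theorem mod4_mul (a b : ℤ) : ∃ t, a * b = 4 * t + a % 4 * (b % 4) :=
  ⟨4 * (a / 4) * (b / 4) + (a / 4) * (b % 4) + (a % 4) * (b / 4), by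
    have h1 := Int.mul_ediv_add_emod a 4
    have h2 := Int.mul_ediv_add_emod b 4
    calc a * b = (4 * (a / 4) + a % 4) * (4 * (b / 4) + b % 4) := by rw [h1, h2]
      _ = _ := by ring⟩

theorem rep_of {n : ℕ} {a b c : ℤ} (h : Adm n a b c) (ha : 0 ≤ a) (hb : 0 ≤ b) (hc : 0 ≤ c)
    (h1 : a % 2 = 1) (h2 : b % 2 = 1) (h3 : c % 2 = 0) : Rep n := by
  lift a to ℕ using ha
  lift b to ℕ using hb
  lift c to ℕ using hc
  obtain ⟨e, -, -, -, -, h6, h7⟩ := h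
  exact ⟨a, b, c, by exact_mod_cast e, by omega, by omega, by omega⟩

theorem rep_nonsquare {n : ℕ} (h : n % 4 = 1) (hs : ¬ IsSquare n) : Rep n := by
  obtain ⟨l, B, C, h1, h2, h3⟩ := exists_root h hs
  have hn : (0 : ℤ) < n := by omega
  have key : ∀ s b : ℤ, l * s = b ^ 2 + n → 0 < s ∧ s % 4 ≠ 1 := fun s b e => by
    refine ⟨(mul_pos_iff_of_pos_left h1).1 (by rw [e]; positivity), fun j => ?_⟩
    obtain ⟨t, ht⟩ := mod4_mul l s
    obtain ⟨u, hu⟩ := mod4_mul b b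
    rw [h2, j] at ht
    rw [sq, ht, hu] at e
    rcases (by omega : b % 4 = 0 ∨ b % 4 = 1 ∨ b % 4 = 2 ∨ b % 4 = 3) with k | k | k | k <;>
      rw [k] at e <;> omega
  have k1 := key C B h3
  have k2 := key (l + B + (C + B)) (l + B) (by linear_combination h3)
  obtain ⟨a, b, c, hA, ha, hb, hc⟩ := Adm.reduce hn (l + B + C).toNat (-B) (l + B) (C + B)
    ⟨by linear_combination h3, by omega, k2.1, by omega, by omega, k2.2, by omega⟩ (by omega)
  have e := hA.1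
  obtain ⟨t, ht⟩ := mod4_mul a b
  obtain ⟨u, hu⟩ := mod4_mul b c
  obtain ⟨v, hv⟩ := mod4_mul c a
  rw [ht, hu, hv] at e
  have : (a % 2 = 1 ∧ b % 2 = 1 ∧ c % 2 = 0) ∨ (b % 2 = 1 ∧ c % 2 = 1 ∧ a % 2 = 0) ∨
      (c % 2 = 1 ∧ a % 2 = 1 ∧ b % 2 = 0) := by
    rcases (by omega : a % 4 = 0 ∨ a % 4 = 1 ∨ a % 4 = 2 ∨ a % 4 = 3) with k | k | k | k <;>
    rcases (by omega : b % 4 = 0 ∨ b % 4 = 1 ∨ b % 4 = 2 ∨ b % 4 = 3) with k' | k' | k' | k' <;>
    rw [k, k'] at e <;> omega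
  rcases this with j | j | j
  · exact rep_of hA ha hb hc j.1 j.2.1 j.2.2
  · exact rep_of hA.rot hb hc ha j.1 j.2.1 j.2.2
  · exact rep_of hA.rot.rot hc ha hb j.1 j.2.1 j.2.2

theorem rep_all (k : ℕ) (hk : 1 ≤ k) :
    Rep (4 * k + 1) ∨ ((IsSquare (4 * k + 1) ∧ ∀ p : ℕ, p.Prime → p ∣ 4 * k + 1 → p % 4 = 1) ∧
      ∃ j n, Rep n ∧ 4 * k + 1 = (4 * j + 1) * n) := by
  by_cases hs : IsSquare (4 * k + 1)
  swap
  · exact Or.inl (rep_nonsquare (by omega) hs)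
  have m : ∀ p q, 4 * k + 1 = p * q → (p % 4 = 1 ∧ q % 4 = 1) ∨ (p % 4 = 3 ∧ q % 4 = 3) := by
    intro p q e
    have m : (p * q) % 4 = 1 := by omega
    rw [Nat.mul_mod] at m
    rcases (by omega : p % 4 = 0 ∨ p % 4 = 1 ∨ p % 4 = 2 ∨ p % 4 = 3) with j | j | j | j <;>
      rw [j] at m <;> omega
  by_cases h3 : ∀ p : ℕ, p.Prime → p ∣ 4 * k + 1 → p % 4 = 1
  · obtain ⟨p, hp, q, e⟩ := Nat.exists_prime_and_dvd (n := 4 * k + 1) (by omega)
    have j := h3 p hp ⟨q, e⟩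
    have := m p q e
    exact Or.inr ⟨⟨hs, h3⟩, q / 4, p, rep_nonsquare j hp.not_isSquare, by
      rw [e, show 4 * (q / 4) + 1 = q by omega, mul_comm]⟩
  · push Not at h3
    obtain ⟨p, -, ⟨q, e⟩, j⟩ := h3
    have := m p q e
    exact Or.inl ⟨p, q, 0, by rw [e]; ring, rfl, by omega, by omega⟩

end Pool.Agent.P.MP_06cdda_gt
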