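import Pool.Agent.P.MP_06cdda_gt.FamForm
import Pool.Agent.P.MP_06cdda_gt.FamLin
import Pool.Agent.P.MP_06cdda_gt.FamOk
import Pool.Agent.P.MP_06cdda_gt.FamConn2
import Pool.Agent.P.MP_06cdda_gt.FamAlt
import Pool.Agent.P.MP_06cdda_gt.Gram
import Pool.Agent.P.MP_06cdda_gt.Sel

open Matrix

namespace Pool.Agent.P.MP_06cdda_gt

open Rib

theorem Par.realize (P : Par) {g : ℕ} {e : Fin g → Fin 6} (he : Function.Injective e)
    (h : ∀ r, (P.g = 1 ∨ (r ≠ 0 ∧ r ≠ 1)) ↔ r ∈ Set.range e) {Δ : ℕ} {G : Matrix (Fin g) (Fin g) ℝ}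
    (hD : Diag G Δ 4) (hG : ∀ i j, G i j =
      (P.L.form P.R (P.flow (Pi.single (e i) 1)) (P.flow (Pi.single (e j) 1)) +
        P.L.form P.R (P.flow (Pi.single (e j) 1)) (P.flow (Pi.single (e i) 1)) : ℤ)) :
    ∃ (m : ℕ) (q : ZMod m → Fin 3 → ℝ), IsKnot q ∧ IsAlternating q ∧
      ∃ V : Matrix (Fin g) (Fin g) ℤ, IsSeifertMatrix q V ∧ |(V + Vᵀ).det| = Δ ∧
        (sigPos ((V + Vᵀ).map ((↑) : ℤ → ℝ)).toQuadraticForm' : ℤ) -
          sigNeg ((V + Vᵀ).map ((↑) : ℤ → ℝ)).toQuadraticForm' = 4 := by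
  have hB := Par.isBasis he h
  have := P.h1; have := P.h2; have := P.h3; have := P.h4
  obtain ⟨m, hm, k, hk, hs, hb⟩ :=
    exists_boundary (R := P.R) ⟨(0, 1), show P.pres 0 1 by unfold Par.pres; omega⟩ Par.conn
  have hC := Lay.isCollar (Par.ok (P := P))
  let V : Matrix (Fin g) (Fin g) ℤ := Matrix.of fun i j =>
    P.L.form P.R (P.flow (Pi.single (e i) 1)) (P.flow (Pi.single (e j) 1))
  have e1 : (V + Vᵀ).map ((↑) : ℤ → ℝ) = G := by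
    ext i j
    rw [hG]
    rfl
  refine ⟨m, fun i => P.L.p (k i), isKnot_of_collar hC hm hk.1
    (fun i => ((hb _ _).2 ⟨i, rfl, rfl⟩).1), Par.altOk.isAlternating hk.2 hs, V,
    ⟨_, inferInstance, inferInstance, P.R.T, P.L.p, fun _ => up, k,
      fun i => P.R.chain (P.flow (Pi.single (e i) 1)), isSurface Par.conn, hC, fun _ => rfl, hb,
      fun i => isCycle_chain (hB.1 i), fun c hc => homology_basis hB hc,
      fun i j => Lay.isLinkingNumber Par.ok _ _⟩, ?_, by rw [e1]; exact hD.signature⟩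
  have h1 := hD.abs_det
  rw [← e1, ← Int.cast_det] at h1
  exact_mod_cast h1

theorem par_exists {X Y Z : ℕ} (h0 : Z % 2 = 0) (h1 : (X + Z) % 4 = 3) (h2 : (Y + Z) % 4 = 3)
    (j g : ℕ) : ∃ P : Par, P.g = g ∧ P.s1 = 2 * j + 4 ∧ 2 * P.s2 + 2 * P.e = X + 2 * P.s1 + 5 ∧
      2 * P.s3 + 2 * P.e = Y + 2 * P.s2 + 5 ∧ 2 * P.m + 2 * P.e = Z + 2 * P.s3 + 2 :=
  ⟨⟨2 * j + 4, 2 * j + 6 + 2 * ((X + 1) / 4), 2 * j + 8 + 2 * ((X + 1) / 4) + 2 * ((Y + 1) / 4),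
    2 * j + 9 + 2 * ((X + 1) / 4) + 2 * ((Y + 1) / 4) + 2 * (Z / 4), Z / 2 % 2, g,
    by omega, by omega, by omega, by omega, by omega⟩, rfl, rfl,
    by simp only; omega, by simp only; omega, by simp only; omega⟩

theorem alt_main (k : ℕ) (hk : 1 ≤ k) :
    ∃ (m : ℕ) (q : ZMod m → Fin 3 → ℝ), IsKnot q ∧ IsAlternating q ∧
      ∃ (g : ℕ) (V : Matrix (Fin g) (Fin g) ℤ), IsSeifertMatrix q V ∧
        |(V + Vᵀ).det| = 4 * k + 1 ∧
        (sigPos ((V + Vᵀ).map ((↑) : ℤ → ℝ)).toQuadraticForm' : ℤ) -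
          sigNeg ((V + Vᵀ).map ((↑) : ℤ → ℝ)).toQuadraticForm' = 4 ∧
        (g = 4 ∨ (g = 6 ∧ IsSquare (4 * k + 1) ∧
          ∀ p : ℕ, p.Prime → p ∣ 4 * k + 1 → p % 4 = 1)) := by
  rcases rep_all k hk with ⟨X, Y, Z, e, h0, h1, h2⟩ | ⟨hs, j, n, ⟨X, Y, Z, e, h0, h1, h2⟩, hn⟩
  · obtain ⟨P, g, a1, a2, a3, a4⟩ := par_exists h0 h1 h2 0 0
    have b1 : (X : ℝ) = 2 * P.s2 + 2 * P.e - 2 * P.s1 - 5 := by
      have : (2 * P.s2 + 2 * P.e : ℝ) = X + 2 * P.s1 + 5 := by exact_mod_cast a2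
      linarith
    have b2 : (Y : ℝ) = 2 * P.s3 + 2 * P.e - 2 * P.s2 - 5 := by
      have : (2 * P.s3 + 2 * P.e : ℝ) = Y + 2 * P.s2 + 5 := by exact_mod_cast a3
      linarith
    have b3 : (Z : ℝ) = 2 * P.m + 2 * P.e - 2 * P.s3 - 2 := by
      have : (2 * P.m + 2 * P.e : ℝ) = Z + 2 * P.s3 + 2 := by exact_mod_cast a4
      linarith
    have hD := diag_four (X := X) (Y := Y) (Z := Z) (Nat.cast_pos.2 (by omega))
      (Nat.cast_pos.2 (by omega)) (Nat.cast_nonneg _)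
    rw [show (X * Y + Y * Z + Z * X : ℝ) = (4 * k + 1 : ℕ) by exact_mod_cast e] at hD
    obtain ⟨m, q, c1, c2, V, c3, c4, c5⟩ := P.realize (e := ![4, 5, 2, 3]) (by decide)
      (by rw [g]; decide) hD (fun i j => by
        rw [Par.sym_flow, b1, b2, b3]
        fin_cases i <;> fin_cases j <;> simp <;> ring)
    exact ⟨m, q, c1, c2, 4, V, c3, by exact_mod_cast c4, c5, Or.inl rfl⟩
  · obtain ⟨P, g, a1, a2, a3, a4⟩ := par_exists h0 h1 h2 j 1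
    have b0 : (2 * j : ℝ) = P.s1 - 4 := by
      have : (P.s1 : ℝ) = 2 * j + 4 := by exact_mod_cast a1
      linarith
    have b1 : (X : ℝ) = 2 * P.s2 + 2 * P.e - 2 * P.s1 - 5 := by
      have : (2 * P.s2 + 2 * P.e : ℝ) = X + 2 * P.s1 + 5 := by exact_mod_cast a2
      linarith
    have b2 : (Y : ℝ) = 2 * P.s3 + 2 * P.e - 2 * P.s2 - 5 := by
      have : (2 * P.s3 + 2 * P.e : ℝ) = Y + 2 * P.s2 + 5 := by exact_mod_cast a3
      linarith
    have b3 : (Z : ℝ) = 2 * P.m + 2 * P.e - 2 * P.s3 - 2 := by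
      have : (2 * P.m + 2 * P.e : ℝ) = Z + 2 * P.s3 + 2 := by exact_mod_cast a4
      linarith
    have hD := diag_six (X := X) (Y := Y) (Z := Z) (A := 2 * j) (Nat.cast_pos.2 (by omega))
      (Nat.cast_pos.2 (by omega)) (Nat.cast_nonneg _) (by positivity)
    rw [show ((2 * (2 * j) + 1) * (X * Y + Y * Z + Z * X) : ℝ) = (4 * k + 1 : ℕ) by
      rw [hn, ← e]; push_cast; ring] at hD
    obtain ⟨m, q, c1, c2, V, c3, c4, c5⟩ := P.realize (e := ![0, 1, 4, 5, 2, 3]) (by decide)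
      (by rw [g]; decide) hD (fun i j => by
        rw [Par.sym_flow, b0, b1, b2, b3, if_pos g]
        fin_cases i <;> fin_cases j <;> simp <;> ring)
    exact ⟨m, q, c1, c2, 6, V, c3, by exact_mod_cast c4, c5, Or.inr ⟨rfl, hs⟩⟩

end Pool.Agent.P.MP_06cdda_gt
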