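import Pool.Agent.P.MP_06cdda_gt.Moves

open Finset Matrix

namespace Pool.Agent.P.MP_06cdda_gt

theorem sym_eq {F : Fence} {a b : ℕ → ℤ} (z : ℤ) (h : F.form a b + F.form b a = z) :
    F.sym a b = z := by rw [Fence.sym, h]

theorem rz_base : Rz 1 0 0 := by
  refine ⟨Fin 0, inferInstance, inferInstance, P0, ![], fl [1], good_P0, ?_⟩
  have := alg_empty (Matrix.of fun i j : Fin 0 => P0.sym (![] i) (![] j))
    (fun i : Fin 0 => P0.sym (![] i) (fl [1])) (P0.sym (fl [1]) (fl [1]))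
  rwa [show -P0.sym (fl [1]) (fl [1]) = 0 by rw [sym_eq 0 (by decide)]; simp] at this

theorem Rz.reset {Δ r : ℝ} {σ : ℤ} (h : Rz Δ r σ) : Rz Δ 0 σ := by
  have := h.comp good_PR rfl rfl (alg_empty _ _ _)
  rw [sym_eq 0 (by decide)] at this
  simpa [fl] using this

theorem Rz.sub_two {Δ r : ℝ} {σ : ℤ} (h : Rz Δ r σ) : Rz Δ (r - 2) σ := by
  have := h.comp good_PAm rfl rfl (alg_empty _ _ _)
  rw [sym_eq 2 (by decide)] at this
  simpa [fl] using this

theorem Rz.add_two {Δ r : ℝ} {σ : ℤ} (h : Rz Δ r σ) : Rz Δ (r + 2) σ := by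
  have := h.comp good_PAp rfl rfl (alg_empty _ _ _)
  rw [sym_eq (-2) (by decide)] at this
  simpa [fl, add_comm] using this

theorem alg_of_two {G : Matrix (Fin 2) (Fin 2) ℝ} {w : Fin 2 → ℝ} {g0 Δ r : ℝ} {σ : ℤ}
    (a b c z0 z1 : ℝ) (hG : G = !![a, b; b, c]) (hd : Diag !![a, b; b, c] Δ σ)
    (h0 : a * z0 + b * z1 = w 0) (h1 : b * z0 + c * z1 = w 1)
    (hr : r = w 0 * z0 + w 1 * z1 - g0) : Alg G w g0 Δ r σ := by
  subst hG
  refine ⟨hd, ![z0, z1], ?_, ?_⟩
  · ext i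
    fin_cases i <;> simp [mulVec, dotProduct, Fin.sum_univ_two, h0, h1]
  · simp [dotProduct, Fin.sum_univ_two, hr]

theorem Rz.quad {Δ r : ℝ} {σ : ℤ} (h : Rz Δ r σ) : Rz Δ (4 * r - 4) σ := by
  have e00 := sym_eq (F := PD) (a := fl [1, -1, 0, 0, 1]) (b := fl [1, -1, 0, 0, 1]) 2 (by decide)
  have e01 := sym_eq (F := PD) (a := fl [1, -1, 0, 0, 1]) (b := fl [0, -1, 1, 0, 1]) 1 (by decide)
  have e10 := sym_eq (F := PD) (a := fl [0, -1, 1, 0, 1]) (b := fl [1, -1, 0, 0, 1]) 1 (by decide)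
  have e11 := sym_eq (F := PD) (a := fl [0, -1, 1, 0, 1]) (b := fl [0, -1, 1, 0, 1]) 0 (by decide)
  have e0 := sym_eq (F := PD) (a := fl [1, -1, 0, 0, 1]) (b := fl [0, 1, 0, -1, 0]) 1 (by decide)
  have e1 := sym_eq (F := PD) (a := fl [0, -1, 1, 0, 1]) (b := fl [0, 1, 0, -1, 0]) 2 (by decide)
  have e := sym_eq (F := PD) (a := fl [0, 1, 0, -1, 0]) (b := fl [0, 1, 0, -1, 0]) 0 (by decide)
  have := h.comp good_PD rfl rfl (alg_of_two (r := 4 * r - 4) (2 - r) 1 0 2 (2 * r - 3)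
    (by ext i j; fin_cases i <;> fin_cases j <;> simp [e00, e01, e10, e11, vecMulVec_apply, fl])
    (diag_hyp _ _ one_ne_zero) (by simp [e0, fl]; ring) (by simp [e1, fl])
    (by simp [e, e0, e1, fl]; ring))
  simpa using this

theorem Rz.bm {Δ r : ℝ} {σ : ℤ} (h : Rz Δ r σ) (hr : 1 - 2 * r ≠ 0) :
    Rz (Δ * |1 - 2 * r|) (r / (1 - 2 * r)) (σ + if 1 - 2 * r < 0 then -2 else 0) := by
  have e00 := sym_eq (F := PBm) (a := fl [-1, 0, 0, 1]) (b := fl [-1, 0, 0, 1]) 0 (by decide)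
  have e01 := sym_eq (F := PBm) (a := fl [-1, 0, 0, 1]) (b := fl [0, -1, 1, -1]) 1 (by decide)
  have e10 := sym_eq (F := PBm) (a := fl [0, -1, 1, -1]) (b := fl [-1, 0, 0, 1]) 1 (by decide)
  have e11 := sym_eq (F := PBm) (a := fl [0, -1, 1, -1]) (b := fl [0, -1, 1, -1]) (-2) (by decide)
  have e0 := sym_eq (F := PBm) (a := fl [-1, 0, 0, 1]) (b := fl [0, 1, 0, 0]) 0 (by decide)
  have e1 := sym_eq (F := PBm) (a := fl [0, -1, 1, -1]) (b := fl [0, 1, 0, 0]) 1 (by decide)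
  have e := sym_eq (F := PBm) (a := fl [0, 1, 0, 0]) (b := fl [0, 1, 0, 0]) 0 (by decide)
  have := h.comp good_PBm rfl rfl (alg_of_two (r := r / (1 - 2 * r)) (-r) 1 (-2)
    (1 / (1 - 2 * r)) (r / (1 - 2 * r))
    (by ext i j; fin_cases i <;> fin_cases j <;> simp [e00, e01, e10, e11, vecMulVec_apply, fl])
    (diag_two (by norm_num)) (by simp [e0, fl]; ring) (by simp [e1, fl]; field_simp; ring)
    (by simp [e, e0, e1, fl]))
  convert this using 2
  · rw [← abs_neg]; congr 1; ring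
  · rw [show (-r * -2 - 1 ^ 2) / -2 = (1 - 2 * r) / 2 by ring, sign_neg (show (-2 : ℝ) < 0 by norm_num)]
    split_ifs with hlt
    · rw [sign_neg (by linarith)]; rfl
    · rw [sign_pos (by have := lt_of_le_of_ne (not_lt.1 hlt) hr.symm; linarith)]; rfl

theorem Rz.bp {Δ r : ℝ} {σ : ℤ} (h : Rz Δ r σ) (hr : 1 + 2 * r ≠ 0) :
    Rz (Δ * |1 + 2 * r|) (r / (1 + 2 * r)) (σ + if 1 + 2 * r < 0 then 2 else 0) := by
  have e00 := sym_eq (F := PBp) (a := fl [-1, 0, -1, 0, 1]) (b := fl [-1, 0, -1, 0, 1]) 0 (by decide)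
  have e01 := sym_eq (F := PBp) (a := fl [-1, 0, -1, 0, 1]) (b := fl [0, -1, 1, 1, -1]) (-1)
    (by decide)
  have e10 := sym_eq (F := PBp) (a := fl [0, -1, 1, 1, -1]) (b := fl [-1, 0, -1, 0, 1]) (-1)
    (by decide)
  have e11 := sym_eq (F := PBp) (a := fl [0, -1, 1, 1, -1]) (b := fl [0, -1, 1, 1, -1]) 2 (by decide)
  have e0 := sym_eq (F := PBp) (a := fl [-1, 0, -1, 0, 1]) (b := fl [0, -1, 1, 0, 0]) 0 (by decide)
  have e1 := sym_eq (F := PBp) (a := fl [0, -1, 1, 1, -1]) (b := fl [0, -1, 1, 0, 0]) 1 (by decide)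
  have e := sym_eq (F := PBp) (a := fl [0, -1, 1, 0, 0]) (b := fl [0, -1, 1, 0, 0]) 2 (by decide)
  have := (h.comp good_PBp rfl rfl (alg_of_two (r := r / (1 + 2 * r) - 2) (-r) (-1) 2
    (-1 / (1 + 2 * r)) (r / (1 + 2 * r))
    (by ext i j; fin_cases i <;> fin_cases j <;> simp [e00, e01, e10, e11, vecMulVec_apply, fl])
    (diag_two (by norm_num)) (by simp [e0, fl]; ring) (by simp [e1, fl]; field_simp)
    (by simp [e, e0, e1, fl]))).add_two
  convert this using 2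
  · rw [← abs_neg]; congr 1; ring
  · ring
  · rw [show (-r * 2 - (-1) ^ 2) / 2 = -(1 + 2 * r) / 2 by ring, sign_pos (show (0 : ℝ) < 2 by norm_num)]
    split_ifs with hlt
    · rw [sign_pos (by linarith)]; rfl
    · rw [sign_neg (by have := lt_of_le_of_ne (not_lt.1 hlt) hr.symm; linarith)]; rfl

theorem Rz.cast {Δ r Δ' r' : ℝ} {σ σ' : ℤ} (h : Rz Δ r σ) (h1 : Δ = Δ') (h2 : r = r')
    (h3 : σ = σ') : Rz Δ' r' σ' := by subst h1 h2 h3; exact h

theorem Rz.add_eight {Δ r : ℝ} {σ : ℤ} (h : Rz Δ r σ) : Rz Δ 0 (σ + 8) := by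
  have h1 : Rz (Δ * 3) (2 / 3) (σ + 2) := (h.reset.sub_two.bp (by norm_num)).cast
    (by norm_num) (by norm_num) (by norm_num)
  have h2 : Rz (Δ * 5) (4 / 5) (σ + 4) := (h1.sub_two.bp (by norm_num)).cast
    (by norm_num [abs_of_neg]; ring) (by norm_num) (by norm_num; ring)
  have h3 : Rz (Δ * 7) (6 / 7) (σ + 6) := (h2.sub_two.bp (by norm_num)).cast
    (by norm_num [abs_of_neg]; ring) (by norm_num) (by norm_num; ring)
  exact (h3.quad.bp (by norm_num)).reset.cast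
    (by norm_num [abs_of_neg]; ring) rfl (by norm_num; ring)

theorem Rz.sub_eight {Δ r : ℝ} {σ : ℤ} (h : Rz Δ r σ) : Rz Δ 0 (σ - 8) := by
  have h1 : Rz (Δ * 3) (-2 / 3) (σ - 2) := (h.reset.add_two.bm (by norm_num)).cast
    (by norm_num) (by norm_num) (by norm_num; ring)
  have h2 : Rz (Δ * 5) (-4 / 5) (σ - 4) := (h1.add_two.bm (by norm_num)).cast
    (by norm_num [abs_of_neg]; ring) (by norm_num) (by norm_num; ring)
  have h3 : Rz (Δ * 7) (-6 / 7) (σ - 6) := (h2.add_two.bm (by norm_num)).cast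
    (by norm_num [abs_of_neg]; ring) (by norm_num) (by norm_num; ring)
  exact (h3.quad.add_two.add_two.add_two.add_two.bm (by norm_num)).reset.cast
    (by norm_num [abs_of_neg]; ring) rfl (by norm_num; ring)

theorem Rz.add_eight_mul {Δ : ℝ} {σ : ℤ} (h : Rz Δ 0 σ) (j : ℤ) : Rz Δ 0 (σ + 8 * j) := by
  induction j using Int.induction_on with
  | zero => simpa using h
  | succ j ih => exact ih.add_eight.cast rfl rfl (by ring)
  | pred j ih => exact ih.sub_eight.cast rfl rfl (by ring)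

/-- The expected signature modulo eight. -/
def ff (N : ℕ) (c : ℤ) : ℤ :=
  (if N % 4 = 1 then 0 else 2) + (if jacobiSym c N = 1 then 0 else 4)

theorem jac_neg_mod {c : ℤ} (hc : c ≠ 0) {N N' : ℕ} (hN : Odd N) (h : N + N' = 4 * c.natAbs) :
    jacobiSym c N' = c.sign * jacobiSym c N := by
  have hN1 := Nat.odd_iff.1 hN
  have hc' : 0 < c.natAbs := Int.natAbs_pos.2 hc
  obtain ⟨M, hM⟩ : ∃ M, 4 * c.natAbs = M + 1 := ⟨4 * c.natAbs - 1, by omega⟩
  have hM4 : M % 4 = 3 := by omega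
  have hMo : Odd M := Nat.odd_iff.2 (by omega)
  have hN' : Odd N' := Nat.odd_iff.2 (by omega)
  have h1 : jacobiSym c N' = jacobiSym c (N * M) := by
    rw [jacobiSym.mod_right c hN', jacobiSym.mod_right c (hN.mul hMo)]
    congr 1
    have : N' + N ≡ N * M + N [MOD 4 * c.natAbs] := by
      rw [add_comm N', h, ← mul_add_one, ← hM]
      exact (Nat.modEq_zero_iff_dvd.2 dvd_rfl).trans
        (Nat.modEq_zero_iff_dvd.2 (dvd_mul_left _ _)).symm
    exact Nat.ModEq.add_right_cancel' N this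
  have h2 : jacobiSym (c.natAbs : ℤ) M = 1 := by
    have h3 : jacobiSym (4 * (c.natAbs : ℤ)) M = jacobiSym 1 M := by
      apply jacobiSym.mod_left'
      have : (4 * (c.natAbs : ℤ)) = M + 1 := by exact_mod_cast hM
      rw [this]; simp
    rwa [jacobiSym.mul_left, jacobiSym.at_four hMo, one_mul, jacobiSym.one_left] at h3
  have h4 : jacobiSym c M = c.sign := by
    rcases lt_or_gt_of_ne hc with hneg | hpos
    · rw [Int.sign_eq_neg_one_of_neg hneg]
      have : c = -(c.natAbs : ℤ) := by omega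
      rw [this, jacobiSym.neg _ hMo, h2, ZMod.χ₄_nat_three_mod_four hM4]; simp
    · rw [Int.sign_eq_one_of_pos hpos]
      have : c = (c.natAbs : ℤ) := by omega
      rw [this, h2]
  rw [h1, jacobiSym.mul_right' c (by omega) (by omega), h4, mul_comm]

theorem chain {M : ℝ} {σ0 : ℤ} (h0 : Rz M 0 σ0) :
    ∀ (s : ℕ) (N : ℕ) (c : ℤ), N + c.natAbs = s → Odd N → c.gcd N = 1 →
      ∃ σ, Rz (M * N) (2 * c / N) σ ∧ σ % 8 = (σ0 + ff N c) % 8 := by
  intro s
  induction s using Nat.strong_induction_on with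
  | _ s ih =>
  intro N c hs hN hg
  have hN1 := Nat.odd_iff.1 hN
  have hNr : (0 : ℝ) < N := by exact_mod_cast hN.pos
  by_cases hc : c = 0
  · subst hc
    have : N = 1 := by simpa using hg
    subst this
    exact ⟨σ0, by simpa using h0, by simp [ff]⟩
  by_cases hbig : N < 2 * c.natAbs
  · rcases lt_or_gt_of_ne hc with hneg | hpos
    · obtain ⟨σ, h1, h2⟩ := ih _ (by omega) N (c + N) rfl hN (by simpa using hg)
      refine ⟨σ, h1.sub_two.cast rfl (by push_cast; field_simp; ring) rfl, ?_⟩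
      rw [h2, ff, ff, jacobiSym.mod_left' (a₁ := c + N) (a₂ := c) (by simp)]
    · obtain ⟨σ, h1, h2⟩ := ih _ (by omega) N (c - N) rfl hN (by simpa using hg)
      refine ⟨σ, h1.add_two.cast rfl (by push_cast; field_simp; ring) rfl, ?_⟩
      rw [h2, ff, ff, jacobiSym.mod_left' (a₁ := c - N) (a₂ := c) (by simp)]
  have hc' : 0 < c.natAbs := Int.natAbs_pos.2 hc
  have hcop : IsCoprime c (N : ℤ) := Int.isCoprime_iff_gcd_eq_one.2 hg
  by_cases hK : 4 * c.natAbs < N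
  · obtain ⟨N', hN'⟩ : ∃ N', N = N' + 4 * c.natAbs := ⟨N - 4 * c.natAbs, by omega⟩
    have hN'o : Odd N' := Nat.odd_iff.2 (by omega)
    have hN'r : (0 : ℝ) < N' := by exact_mod_cast hN'o.pos
    have hff : ff N c = ff N' c := by
      rw [ff, ff, jacobiSym.mod_right c hN, jacobiSym.mod_right c hN'o, hN', Nat.add_mod_right,
        show (N' + 4 * c.natAbs) % 4 = N' % 4 by omega]
    rcases lt_or_gt_of_ne hc with hneg | hpos
    · have hz : (N : ℤ) = N' - 4 * c := by omega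
      have hr : (N : ℝ) = N' - 4 * c := by exact_mod_cast hz
      have hg' : c.gcd N' = 1 := by
        rw [← Int.isCoprime_iff_gcd_eq_one, show (N' : ℤ) = N + c * 4 by omega]
        exact hcop.add_mul_left_right 4
      obtain ⟨σ, h1, h2⟩ := ih _ (by omega) N' c rfl hN'o hg'
      have e : 1 - 2 * (2 * (c : ℝ) / N') = N / N' := by rw [hr]; field_simp; ring
      have hp : (0 : ℝ) < N / N' := by positivity
      refine ⟨σ, (h1.bm (by rw [e]; exact hp.ne')).cast ?_ ?_ ?_, by rw [h2, hff]⟩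
      · rw [e, abs_of_pos hp]; field_simp
      · rw [e]; field_simp
      · rw [e, if_neg hp.not_gt, add_zero]
    · have hz : (N : ℤ) = N' + 4 * c := by omega
      have hr : (N : ℝ) = N' + 4 * c := by exact_mod_cast hz
      have hg' : c.gcd N' = 1 := by
        rw [← Int.isCoprime_iff_gcd_eq_one, show (N' : ℤ) = N + c * (-4) by omega]
        exact hcop.add_mul_left_right (-4)
      obtain ⟨σ, h1, h2⟩ := ih _ (by omega) N' c rfl hN'o hg'
      have e : 1 + 2 * (2 * (c : ℝ) / N') = N / N' := by rw [hr]; field_simp; ring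
      have hp : (0 : ℝ) < N / N' := by positivity
      refine ⟨σ, (h1.bp (by rw [e]; exact hp.ne')).cast ?_ ?_ ?_, by rw [h2, hff]⟩
      · rw [e, abs_of_pos hp]; field_simp
      · rw [e]; field_simp
      · rw [e, if_neg hp.not_gt, add_zero]
  · obtain ⟨N', hN'⟩ : ∃ N', N + N' = 4 * c.natAbs := ⟨4 * c.natAbs - N, by omega⟩
    have hN'o : Odd N' := Nat.odd_iff.2 (by omega)
    have hN'r : (0 : ℝ) < N' := by exact_mod_cast hN'o.pos
    have hj := jac_neg_mod hc hN hN'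
    have hj2 := jacobiSym.neg c hN'o
    have hj3 := jacobiSym.eq_one_or_neg_one hg
    have hp : -(N / N' : ℝ) < 0 := by rw [neg_lt_zero]; positivity
    have h4 : (N % 4 = 1 ∧ N' % 4 = 3) ∨ (N % 4 = 3 ∧ N' % 4 = 1) := by omega
    rcases lt_or_gt_of_ne hc with hneg | hpos
    · have hz : (N : ℤ) = -N' - 4 * c := by omega
      have hr : (N : ℝ) = -N' - 4 * c := by exact_mod_cast hz
      have hg' : (-c).gcd N' = 1 := by
        rw [← Int.isCoprime_iff_gcd_eq_one, show (N' : ℤ) = -(N + c * 4) by omega]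
        exact (hcop.add_mul_left_right 4).neg_left.neg_right
      obtain ⟨σ, h1, h2⟩ := ih _ (by omega) N' (-c) rfl hN'o hg'
      have e : 1 - 2 * (2 * ((-c : ℤ) : ℝ) / N') = -(N / N') := by
        rw [hr]; push_cast; field_simp; ring
      refine ⟨σ - 2, (h1.bm (by rw [e]; exact hp.ne)).cast ?_ ?_ ?_, ?_⟩
      · rw [e, abs_of_neg hp]; field_simp
      · rw [e]; push_cast; field_simp
      · rw [e, if_pos hp]; ring
      · rw [Int.sign_eq_neg_one_of_neg hneg] at hj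
        rw [ff, hj2, hj] at h2
        rw [ff]
        rcases h4 with ⟨a1, a2⟩ | ⟨a1, a2⟩
        · rw [ZMod.χ₄_nat_three_mod_four a2] at h2
          rcases hj3 with b | b <;> simp [a1, a2, b] at h2 ⊢ <;> omega
        · rw [ZMod.χ₄_nat_one_mod_four a2] at h2
          rcases hj3 with b | b <;> simp [a1, a2, b] at h2 ⊢ <;> omega
    · have hz : (N : ℤ) = -N' + 4 * c := by omega
      have hr : (N : ℝ) = -N' + 4 * c := by exact_mod_cast hz
      have hg' : (-c).gcd N' = 1 := by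
        rw [← Int.isCoprime_iff_gcd_eq_one, show (N' : ℤ) = -(N + c * (-4)) by omega]
        exact (hcop.add_mul_left_right (-4)).neg_left.neg_right
      obtain ⟨σ, h1, h2⟩ := ih _ (by omega) N' (-c) rfl hN'o hg'
      have e : 1 + 2 * (2 * ((-c : ℤ) : ℝ) / N') = -(N / N') := by
        rw [hr]; push_cast; field_simp; ring
      refine ⟨σ + 2, (h1.bp (by rw [e]; exact hp.ne)).cast ?_ ?_ ?_, ?_⟩
      · rw [e, abs_of_neg hp]; field_simp
      · rw [e]; push_cast; field_simp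
      · rw [e, if_pos hp]
      · rw [Int.sign_eq_one_of_pos hpos] at hj
        rw [ff, hj2, hj] at h2
        rw [ff]
        rcases h4 with ⟨a1, a2⟩ | ⟨a1, a2⟩
        · rw [ZMod.χ₄_nat_three_mod_four a2] at h2
          rcases hj3 with b | b <;> simp [a1, a2, b] at h2 ⊢ <;> omega
        · rw [ZMod.χ₄_nat_one_mod_four a2] at h2
          rcases hj3 with b | b <;> simp [a1, a2, b] at h2 ⊢ <;> omega

theorem rz_four (k : ℕ) (hk : 1 ≤ k) : Rz ((4 * k + 1 : ℕ) : ℝ) 0 4 := by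
  obtain ⟨p, hp, m, hm⟩ := Nat.exists_prime_and_dvd (show 4 * k + 1 ≠ 1 by omega)
  have hodd : Odd (p * m) := by rw [← hm]; exact Nat.odd_iff.2 (by omega)
  have hpo : Odd p := (Nat.odd_mul.1 hodd).1
  have hmo : Odd m := (Nat.odd_mul.1 hodd).2
  have hp1 := Nat.odd_iff.1 hpo
  have hm1 := Nat.odd_iff.1 hmo
  have := Fact.mk hp
  obtain ⟨σ1, h1, e1⟩ := chain rz_base _ m 1 rfl hmo (by simp)
  have h4 : (p % 4 = 1 ∧ m % 4 = 1) ∨ (p % 4 = 3 ∧ m % 4 = 3) := by
    have h5 : (p * m) % 4 = 1 := by rw [← hm]; omega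
    rw [Nat.mul_mod] at h5
    have a1 : p % 4 = 1 ∨ p % 4 = 3 := by omega
    have a2 : m % 4 = 1 ∨ m % 4 = 3 := by omega
    rcases a1 with a1 | a1 <;> rcases a2 with a2 | a2 <;> simp [a1, a2] at h5 ⊢
  have hcast : ((4 * k + 1 : ℕ) : ℝ) = 1 * (m : ℝ) * p := by rw [hm]; push_cast; ring
  have fin : ∀ σ : ℤ, Rz (1 * (m : ℝ) * p) 0 σ → σ % 8 = 4 → Rz ((4 * k + 1 : ℕ) : ℝ) 0 4 :=
    fun σ h hσ => (h.add_eight_mul (-(σ / 8))).cast hcast.symm rfl (by omega)
  rcases h4 with ⟨a1, a2⟩ | ⟨a1, a2⟩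
  · obtain ⟨a, ha⟩ := FiniteField.exists_nonsquare (F := ZMod p) (by
      rw [ZMod.ringChar_zmod_n]; omega)
    have hj : jacobiSym (a.val : ℤ) p = -1 := by
      rw [← jacobiSym.legendreSym.to_jacobiSym, legendreSym.eq_neg_one_iff]
      simpa using ha
    have hg : (a.val : ℤ).gcd p = 1 := by
      by_contra hne
      rw [jacobiSym.eq_zero_iff_not_coprime.2 hne] at hj
      simp at hj
    obtain ⟨σ2, h2, e2⟩ := chain h1.reset _ p a.val rfl hpo hg
    refine fin σ2 h2.reset ?_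
    rw [ff, hj] at e2
    simp [ff, a1, a2] at e1 e2
    omega
  · obtain ⟨σ2, h2, e2⟩ := chain h1.reset _ p 1 rfl hpo (by simp)
    refine fin σ2 h2.reset ?_
    simp [ff, a1, a2] at e1 e2
    omega

end Pool.Agent.P.MP_06cdda_gt
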