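import Pool.Agent.P.MP_06cdda_gt.Surf

namespace Pool.Agent.P.MP_06cdda_gt

namespace Fence

variable {F : Fence}

/-- Vertices lie on the parabolic cylinder. -/
def pos (u : ℕ × ℕ) : Fin 3 → ℝ := ![u.1, u.2, (u.2 : ℝ) ^ 2]

def up : Fin 3 → ℝ := ![0, 0, 1]

def dl (u v : ℕ × ℕ) : ℝ := if u = v then 1 else 0

noncomputable def cellW (x y1 y2 : ℕ) (s r : ℝ) (u : ℕ × ℕ) : ℝ :=
  dl u (x, y1) * (1 - max s r) + dl u (x + 1, y1) * (s - min s r) +
    dl u (x, y2) * (r - min s r) + dl u (x + 1, y2) * min s r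

def hW (x y : ℕ) (s : ℝ) (u : ℕ × ℕ) : ℝ := dl u (x, y) * (1 - s) + dl u (x + 1, y) * s

def vW (x y1 y2 : ℕ) (r : ℝ) (u : ℕ × ℕ) : ℝ := dl u (x, y1) * (1 - r) + dl u (x, y2) * r

theorem cellW_r0 (x y1 y2 : ℕ) {s : ℝ} (h : 0 ≤ s) : cellW x y1 y2 s 0 = hW x y1 s := by
  ext u; simp only [cellW, hW, max_eq_left h, min_eq_right h]; ring

theorem cellW_r1 (x y1 y2 : ℕ) {s : ℝ} (h : s ≤ 1) : cellW x y1 y2 s 1 = hW x y2 s := by
  ext u; simp only [cellW, hW, max_eq_right h, min_eq_left h]; ring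

theorem cellW_s0 (x y1 y2 : ℕ) {r : ℝ} (h : 0 ≤ r) : cellW x y1 y2 0 r = vW x y1 y2 r := by
  ext u; simp only [cellW, vW, max_eq_right h, min_eq_left h]; ring

theorem cellW_s1 (x y1 y2 : ℕ) {r : ℝ} (h : r ≤ 1) : cellW x y1 y2 1 r = vW (x + 1) y1 y2 r := by
  ext u; simp only [cellW, vW, max_eq_left h, min_eq_right h]; ring

theorem nat_unit {x x' : ℕ} {s s' : ℝ} (h0 : 0 ≤ s) (h1 : s ≤ 1) (h0' : 0 ≤ s') (h1' : s' ≤ 1)
    (h : x + s = x' + s') :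
    (x = x' ∧ s = s') ∨ (x' = x + 1 ∧ s = 1 ∧ s' = 0) ∨ (x = x' + 1 ∧ s = 0 ∧ s' = 1) := by
  have a : x ≤ x' + 1 := by
    have : (x : ℝ) ≤ x' + 1 := by linarith
    exact_mod_cast this
  have b : x' ≤ x + 1 := by
    have : (x' : ℝ) ≤ x + 1 := by linarith
    exact_mod_cast this
  rcases (by omega : x = x' ∨ x' = x + 1 ∨ x = x' + 1) with c | c | c <;> subst c
  · exact Or.inl ⟨rfl, by linarith⟩
  · push_cast at h
    exact Or.inr (Or.inl ⟨rfl, by linarith, by linarith⟩)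
  · push_cast at h
    exact Or.inr (Or.inr ⟨rfl, by linarith, by linarith⟩)

theorem hW_eq {x x' : ℕ} (y : ℕ) {s s' : ℝ} (h0 : 0 ≤ s) (h1 : s ≤ 1) (h0' : 0 ≤ s') (h1' : s' ≤ 1)
    (h : x + s = x' + s') : hW x y s = hW x' y s' := by
  rcases nat_unit h0 h1 h0' h1' h with ⟨rfl, rfl⟩ | ⟨rfl, rfl, rfl⟩ | ⟨rfl, rfl, rfl⟩
  · rfl
  · ext u; simp [hW]
  · ext u; simp [hW]

theorem row_col {x x' y y1 y2 : ℕ} {s r t s' r' t' : ℝ} (hy : y % 2 = 0) (h1 : y1 % 2 = 1)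
    (h2 : y2 % 2 = 0) (h12 : y1 < y2) (s0 : 0 ≤ s) (s1 : s ≤ 1) (r0 : 0 ≤ r) (r1 : r ≤ 1)
    (t1 : t ≤ 1) (s0' : 0 ≤ s') (s1' : s' ≤ 1) (r0' : 0 ≤ r') (r1' : r' ≤ 1)
    (t0' : 0 ≤ t') (eX : x + s = x' + s')
    (eY : (y : ℝ) + r * (((y + 1 : ℕ) : ℝ) - y) = y1 + r' * (y2 - y1))
    (eZ : (y : ℝ) ^ 2 + r * (((y + 1 : ℕ) : ℝ) ^ 2 - y ^ 2) + t =
      y1 ^ 2 + r' * (y2 ^ 2 - y1 ^ 2) + t') :
    t = t' ∧ cellW x y (y + 1) s r = cellW x' y1 y2 s' r' := by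
  have hd : (0 : ℝ) < y2 - y1 := by
    have : (y1 : ℝ) < y2 := by exact_mod_cast h12
    linarith
  push_cast at eY eZ
  by_cases c1 : y + 1 ≤ y1
  · have c : (y : ℝ) + 1 ≤ y1 := by exact_mod_cast c1
    have e1 : r' * (y2 - y1) = 0 := by nlinarith [mul_nonneg r0' hd.le]
    have e2 : r' = 0 := (mul_eq_zero.1 e1).resolve_right hd.ne'
    subst e2
    have e3 : r = 1 := by linarith
    subst e3
    have e4 : (y1 : ℝ) = y + 1 := by linarith
    have e5 : y1 = y + 1 := by exact_mod_cast e4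
    refine ⟨by rw [e4] at eZ; linarith, ?_⟩
    rw [cellW_r1 _ _ _ s1, cellW_r0 _ _ _ s0', e5]
    exact hW_eq _ s0 s1 s0' s1' eX
  by_cases c2 : y2 ≤ y
  · have c : (y2 : ℝ) ≤ y := by exact_mod_cast c2
    have e1 : (1 - r') * (y2 - y1) = 0 := by nlinarith [mul_nonneg (sub_nonneg.2 r1') hd.le]
    have e2 : r' = 1 := by
      have := (mul_eq_zero.1 e1).resolve_right hd.ne'
      linarith
    subst e2
    have e3 : r = 0 := by linarith
    subst e3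
    have e4 : (y2 : ℝ) = y := by linarith
    have e5 : y2 = y := by exact_mod_cast e4
    refine ⟨by rw [e4] at eZ; linarith, ?_⟩
    rw [cellW_r0 _ _ _ s0, cellW_r1 _ _ _ s1', e5]
    exact hW_eq _ s0 s1 s0' s1' eX
  exfalso
  have a1 : (y1 : ℝ) + 1 ≤ y := by exact_mod_cast (show y1 + 1 ≤ y by omega)
  have a2 : (y : ℝ) + 2 ≤ y2 := by exact_mod_cast (show y + 2 ≤ y2 by omega)
  have e : r' * (y2 - y1) = y + r - y1 := by linarith
  have e' : r' * ((y2 : ℝ) ^ 2 - y1 ^ 2) = (y + r - y1) * (y2 + y1) := by rw [← e]; ring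
  rw [e'] at eZ
  have hm : (1 + r) * (2 - r) ≤ (y + r - y1) * (y2 - y - r) :=
    mul_le_mul (by linarith) (by linarith) (by linarith) (by linarith)
  nlinarith

theorem cell_inj (hF : F.Valid) {x y1 y2 x' y1' y2' : ℕ} (hc : F.Cell x y1 y2)
    (hc' : F.Cell x' y1' y2') {s r t s' r' t' : ℝ} (s0 : 0 ≤ s) (s1 : s ≤ 1) (r0 : 0 ≤ r)
    (r1 : r ≤ 1) (t0 : 0 ≤ t) (t1 : t ≤ 1) (s0' : 0 ≤ s') (s1' : s' ≤ 1) (r0' : 0 ≤ r')
    (r1' : r' ≤ 1) (t0' : 0 ≤ t') (t1' : t' ≤ 1) (eX : x + s = x' + s')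
    (eY : (y1 : ℝ) + r * (y2 - y1) = y1' + r' * (y2' - y1'))
    (eZ : (y1 : ℝ) ^ 2 + r * (y2 ^ 2 - y1 ^ 2) + t = y1' ^ 2 + r' * (y2' ^ 2 - y1' ^ 2) + t') :
    t = t' ∧ cellW x y1 y2 s r = cellW x' y1' y2' s' r' := by
  have hl := hc.lt hF
  have hl' := hc'.lt hF
  rcases hc with ⟨-, h2, rfl, -⟩ | ⟨k, hk, rfl, rfl, rfl⟩ <;>
    rcases hc' with ⟨-, h2', rfl, -⟩ | ⟨k', hk', rfl, rfl, rfl⟩
  · have eY' : (y1 : ℝ) + r = y1' + r' := by push_cast at eY; linarith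
    obtain ⟨rfl, rfl⟩ : y1 = y1' ∧ r = r' := by
      rcases nat_unit r0 r1 r0' r1' eY' with h | h | h
      · exact h
      · omega
      · omega
    refine ⟨by linarith, ?_⟩
    rcases nat_unit s0 s1 s0' s1' eX with ⟨rfl, rfl⟩ | ⟨rfl, rfl, rfl⟩ | ⟨rfl, rfl, rfl⟩
    · rfl
    · rw [cellW_s1 _ _ _ r1, cellW_s0 _ _ _ r0]
    · rw [cellW_s1 _ _ _ r1, cellW_s0 _ _ _ r0]
  · exact row_col h2 (by omega) (by omega) hl'.1 s0 s1 r0 r1 t1 s0' s1' r0' r1' t0' eX eY eZ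
  · have := row_col h2' (by omega) (by omega) hl.1 s0' s1' r0' r1' t1' s0 s1 r0 r1 t0
      eX.symm eY.symm eZ.symm
    exact ⟨this.1.symm, this.2.symm⟩
  · obtain ⟨rfl, rfl⟩ : k = k' ∧ s = s' := by
      rcases nat_unit s0 s1 s0' s1' eX with h | h | h
      · exact ⟨by omega, h.2⟩
      · omega
      · omega
    have hd : (0 : ℝ) < ((2 * F.top k : ℕ) : ℝ) - ((2 * F.bot k + 1 : ℕ) : ℝ) := by
      have : ((2 * F.bot k + 1 : ℕ) : ℝ) < ((2 * F.top k : ℕ) : ℝ) := by exact_mod_cast hl.1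
      linarith
    obtain rfl : r = r' := mul_right_cancel₀ hd.ne' (by linarith)
    exact ⟨by linarith, rfl⟩

theorem sum_three {X M : Type} [Fintype X] [DecidableEq X] [AddCommMonoid M] [Module ℝ M]
    (w : X → ℝ) {a b c : X} (hab : a ≠ b) (hac : a ≠ c) (hbc : b ≠ c)
    (h : ∀ v, w v ≠ 0 → v = a ∨ v = b ∨ v = c) (f : X → M) :
    ∑ v, w v • f v = w a • f a + w b • f b + w c • f c := by
  rw [← Finset.sum_subset (Finset.subset_univ {a, b, c}), Finset.sum_insert (by simp [hab, hac]),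
    Finset.sum_pair hbc, add_assoc]
  intro v _ hv
  have : w v = 0 := by
    by_contra hne
    exact hv (by simpa using h v hne)
  rw [this, zero_smul]

theorem param0 (hF : F.Valid) {w : F.X → ℝ} (hw : w ∈ stdSimplex ℝ F.X) {a b c : F.X}
    (h : F.T0 a.1 b.1 c.1) (hs : ∀ v, w v ≠ 0 → v = a ∨ v = b ∨ v = c) :
    ∃ x y1 y2, F.Cell x y1 y2 ∧ ∃ s r : ℝ, 0 ≤ s ∧ s ≤ 1 ∧ 0 ≤ r ∧ r ≤ 1 ∧
      (∀ v, w v = cellW x y1 y2 s r v.1) ∧ ∀ t : ℝ, ∑ v, w v • (pos v.1 + t • up) =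
        ![x + s, y1 + r * (y2 - y1), y1 ^ 2 + r * (y2 ^ 2 - y1 ^ 2) + t] := by
  obtain ⟨x, y1, y2, hc, h⟩ := h
  have hl := hc.lt hF
  have hab : a ≠ b := fun e => by
    have := congrArg Subtype.val e
    simp only [Prod.ext_iff] at h this; omega
  have hac : a ≠ c := fun e => by
    have := congrArg Subtype.val e
    simp only [Prod.ext_iff] at h this; omega
  have hbc : b ≠ c := fun e => by
    have := congrArg Subtype.val e
    simp only [Prod.ext_iff] at h this; omega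
  have hsum : w a + w b + w c = 1 := by
    have := sum_three w hab hac hbc hs (fun _ => (1 : ℝ))
    simp only [smul_eq_mul, mul_one] at this
    rw [← this]; exact hw.2
  have ha := hw.1 a
  have hb := hw.1 b
  have hcc := hw.1 c
  have hval : ∀ v : F.X, w v = dl v.1 a.1 * w a + dl v.1 b.1 * w b + dl v.1 c.1 * w c := by
    intro v
    simp only [dl, Subtype.val_inj]
    by_cases h1 : v = a
    · subst h1; simp [hab, hac]
    by_cases h2 : v = b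
    · subst h2; simp [h1, hbc]
    by_cases h3 : v = c
    · subst h3; simp [h1, h2]
    have : w v = 0 := by
      by_contra hne
      rcases hs v hne with h | h | h <;> contradiction
    simp [h1, h2, h3, this]
  refine ⟨x, y1, y2, hc, ?_⟩
  rcases h with ⟨e1, e2, e3⟩ | ⟨e1, e2, e3⟩
  · refine ⟨w b + w c, w c, by linarith, by linarith, hcc, by linarith, fun v => ?_, fun t => ?_⟩
    · rw [hval v, e1, e2, e3, cellW, max_eq_left (by linarith), min_eq_right (by linarith),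
        show w a = 1 - (w b + w c) by linarith]
      ring
    · rw [sum_three w hab hac hbc hs, e1, e2, e3, show w a = 1 - (w b + w c) by linarith]
      ext i
      fin_cases i <;> simp [pos, up] <;> ring
  · refine ⟨w b, w b + w c, hb, by linarith, by linarith, by linarith, fun v => ?_, fun t => ?_⟩
    · rw [hval v, e1, e2, e3, cellW, max_eq_right (by linarith), min_eq_left (by linarith),
        show w a = 1 - (w b + w c) by linarith]
      ring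
    · rw [sum_three w hab hac hbc hs, e1, e2, e3, show w a = 1 - (w b + w c) by linarith]
      ext i
      fin_cases i <;> simp [pos, up] <;> ring

theorem isCollar (hF : F.Valid) : IsCollar F.TT (fun v => pos v.1) (fun _ => up) := by
  constructor
  · rintro a b c (⟨x, y1, y2, hc, h⟩ | ⟨x, y1, y2, hc, h⟩ | ⟨x, y1, y2, hc, h⟩) <;>
    · have hl : (y1 : ℝ) < y2 := by exact_mod_cast (hc.lt hF).1
      rcases h with ⟨e1, e2, e3⟩ | ⟨e1, e2, e3⟩ <;>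
      · beta_reduce
        rw [e1, e2, e3, Matrix.det_fin_three]
        simp [pos, up, hl]
  · have param : ∀ w : F.X → ℝ, w ∈ stdSimplex ℝ F.X →
        (∃ a b c, F.TT a b c ∧ ∀ v, w v ≠ 0 → v = a ∨ v = b ∨ v = c) →
        ∃ x y1 y2, F.Cell x y1 y2 ∧ ∃ s r : ℝ, 0 ≤ s ∧ s ≤ 1 ∧ 0 ≤ r ∧ r ≤ 1 ∧
        (∀ v, w v = cellW x y1 y2 s r v.1) ∧ ∀ t : ℝ, ∑ v, w v • (pos v.1 + t • up) =
          ![x + s, y1 + r * (y2 - y1), y1 ^ 2 + r * (y2 ^ 2 - y1 ^ 2) + t] := by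
      rintro w hw ⟨a, b, c, h | h | h, hs⟩
      · exact param0 hF hw h hs
      · exact param0 hF hw h fun v hv => by have := hs v hv; tauto
      · exact param0 hF hw h fun v hv => by have := hs v hv; tauto
    rintro ⟨w, t⟩ ⟨⟨hw, hT⟩, t0, t1⟩ ⟨w', t'⟩ ⟨⟨hw', hT'⟩, t0', t1'⟩ h
    obtain ⟨x, y1, y2, hc, s, r, s0, s1, r0, r1, e, f⟩ := param w hw hT
    obtain ⟨x', y1', y2', hc', s', r', s0', s1', r0', r1', e', f'⟩ := param w' hw' hT'
    simp only [f, f'] at h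
    have := cell_inj hF hc hc' s0 s1 r0 r1 t0 t1 s0' s1' r0' r1' t0' t1' (congrFun h 0)
      (congrFun h 1) (congrFun h 2)
    refine Prod.ext (funext fun v => ?_) this.1
    simp only [e, e', this.2]

end Fence

end Pool.Agent.P.MP_06cdda_gt
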