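import Pool.Agent.P.MP_06cdda_gt.Defs

open Function

namespace Pool.Agent.P.MP_06cdda_gt

theorem exists_cyc {X : Type} [Fintype X] (x0 : X) (σ : X → X) (hinj : Injective σ)
    (hconn : ∀ χ : X → Prop, (∀ v, χ (σ v) = χ v) → ∀ u v, χ u = χ v) :
    ∃ m : ℕ, m = Fintype.card X ∧ ∃ k : ZMod m → X, Bijective k ∧ ∀ i, k (i + 1) = σ (k i) := by
  have hper : x0 ∈ periodicPts σ := hinj.mem_periodicPts x0
  have hp : 0 < minimalPeriod σ x0 := minimalPeriod_pos_of_mem_periodicPts hper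
  have hall : ∀ v, ∃ n : ℕ, σ^[n] x0 = v := by
    intro v
    have := hconn (fun v => ∃ n : ℕ, σ^[n] x0 = v) (fun v => propext ⟨?_, ?_⟩) x0 v
    · exact this ▸ ⟨0, rfl⟩
    · rintro ⟨n, hn⟩
      obtain ⟨q, hq⟩ : ∃ q, minimalPeriod σ x0 = q + 1 := ⟨_, (Nat.succ_pred_eq_of_pos hp).symm⟩
      refine ⟨n + q, hinj ?_⟩
      rw [← iterate_succ_apply' σ, Nat.succ_eq_add_one, add_assoc, ← hq, iterate_add_apply,
        iterate_minimalPeriod, hn]
    · rintro ⟨n, hn⟩
      exact ⟨n + 1, by rw [iterate_succ_apply', hn]⟩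
  have : NeZero (minimalPeriod σ x0) := ⟨hp.ne'⟩
  have hb : Bijective fun i : ZMod (minimalPeriod σ x0) => σ^[i.val] x0 := by
    constructor
    · intro i j hij
      exact ZMod.val_injective _ (iterate_injOn_Iio_minimalPeriod (ZMod.val_lt i) (ZMod.val_lt j) hij)
    · intro v
      obtain ⟨n, hn⟩ := hall v
      refine ⟨(n : ZMod (minimalPeriod σ x0)), ?_⟩
      simp only [ZMod.val_natCast, iterate_mod_minimalPeriod_eq, hn]
  refine ⟨minimalPeriod σ x0, ?_, _, hb, fun i => ?_⟩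
  · rw [← Fintype.card_of_bijective hb, ZMod.card]
  · have : i + 1 = ((i.val + 1 : ℕ) : ZMod (minimalPeriod σ x0)) := by simp
    simp only [this, ZMod.val_natCast, iterate_mod_minimalPeriod_eq, iterate_succ_apply']

theorem isKnot_of_collar {X : Type} [Fintype X] [DecidableEq X] {T : X → X → X → Prop}
    {p ν : X → Fin 3 → ℝ} (hC : IsCollar T p ν) {m : ℕ} (hm : 3 ≤ m) {k : ZMod m → X}
    (hk : Injective k) (he : ∀ i, Edge T (k i) (k (i + 1))) : IsKnot fun i => p (k i) := by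
  refine ⟨hm, fun i j s hs t ht h => ?_⟩
  have hne : ∀ i : ZMod m, i + 1 ≠ i := fun i hi => by
    have : Fact (1 < m) := ⟨by omega⟩
    exact one_ne_zero (add_eq_left.1 hi)
  have hne2 : ∀ i : ZMod m, i + 1 + 1 ≠ i := fun i hi => by
    rw [add_assoc, add_eq_left] at hi
    have h2 : ((2 : ℕ) : ZMod m) = 0 := by rw [← hi]; push_cast; ring
    rw [ZMod.natCast_eq_zero_iff] at h2
    have := Nat.le_of_dvd two_pos h2
    omega
  let w : ZMod m → ℝ → X → ℝ := fun i s => Pi.single (k i) (1 - s) + Pi.single (k (i + 1)) s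
  have hw : ∀ i, ∀ s ∈ Set.Ico (0 : ℝ) 1, (w i s, (0 : ℝ)) ∈
      ({w | w ∈ stdSimplex ℝ X ∧ ∃ a b c, T a b c ∧ ∀ v, w v ≠ 0 → v = a ∨ v = b ∨ v = c} ×ˢ
        Set.Icc (0 : ℝ) 1) := by
    intro i s hs
    obtain ⟨c, hc⟩ := he i
    refine ⟨⟨⟨fun v => ?_, ?_⟩, _, _, c, hc, fun v hv => ?_⟩, le_rfl, zero_le_one⟩
    · have h1 := hs.1
      have h2 := hs.2
      simp only [w, Pi.add_apply, Pi.single_apply]
      split_ifs <;> linarith
    · simp [w, Finset.sum_add_distrib]
    · by_contra hc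
      push Not at hc
      simp [w, hc.1, hc.2.1] at hv
  have hs' : ∀ i s, ∑ v, w i s v • (p v + (0 : ℝ) • ν v) =
      (1 - s) • p (k i) + s • p (k (i + 1)) := by
    intro i s
    simp [w, add_smul, Finset.sum_add_distrib, Pi.single_apply, ite_smul]
  have key := hC.2 (hw i s hs) (hw j t ht) (by simp only [hs']; exact h)
  have kw : w i s = w j t := congrArg Prod.fst key
  have a1 := congrFun kw (k i)
  have a2 := congrFun kw (k j)
  have b1 := hs.1
  have b2 := hs.2
  have b3 := ht.1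
  have b4 := ht.2
  simp only [w, Pi.add_apply, Pi.single_apply, hk.eq_iff, if_true, (hne i).symm, (hne j).symm,
    if_false, add_zero] at a1 a2
  by_cases hij : i = j
  · subst hij
    simp only [if_true, (hne i).symm, if_false, add_zero] at a1
    exact ⟨rfl, by linarith⟩
  · exfalso
    rw [if_neg hij] at a1
    rw [if_neg (Ne.symm hij)] at a2
    have c1 : i = j + 1 := by
      by_contra hc
      rw [if_neg hc] at a1
      linarith
    have c2 : j = i + 1 := by
      by_contra hc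
      rw [if_neg hc] at a2
      linarith
    exact hne2 j (by rw [← c1, ← c2])

end Pool.Agent.P.MP_06cdda_gt
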