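import Mathlib

namespace Pool.Agent.P.MP_06cdda_gt

/-- The closed polygon with vertices `q 0, q 1, ..., q (m-1)` in 3-space is simple. -/
def IsKnot {m : ℕ} (q : ZMod m → Fin 3 → ℝ) : Prop :=
  3 ≤ m ∧ ∀ i j, ∀ s ∈ Set.Ico (0 : ℝ) 1, ∀ t ∈ Set.Ico (0 : ℝ) 1,
    (1 - s) • q i + s • q (i + 1) = (1 - t) • q j + t • q (j + 1) → i = j ∧ s = t

/-- The point at parameter `s` of the segment `ab` lies vertically above the point at parameter
`t` of the segment `cd`. -/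
def Over (a b c d : Fin 3 → ℝ) (s t : ℝ) : Prop :=
  s ∈ Set.Icc (0 : ℝ) 1 ∧ t ∈ Set.Icc (0 : ℝ) 1 ∧
    ∃ h : ℝ, 0 < h ∧ (1 - s) • a + s • b = (1 - t) • c + t • d + ![0, 0, h]

open Classical in
/-- The sign of the crossing in the vertical projection if `ab` passes over `cd`, else `0`. -/
noncomputable def crossSign (a b c d : Fin 3 → ℝ) : ℤ :=
  if ∃ s t, Over a b c d s t then
    SignType.sign ((b 0 - a 0) * (d 1 - c 1) - (b 1 - a 1) * (d 0 - c 0)) else 0

/-- `l` is the linking number of the polygonal chain `c` (vertices placed by `p`) with the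
polygonal chain `c'` (vertices placed by `p'`): the signed number of crossings where `c` passes
over `c'`, none of which is at a vertex. -/
def IsLinkingNumber {X : Type} [Fintype X] (p p' : X → Fin 3 → ℝ) (c c' : X × X → ℤ) (l : ℤ) :
    Prop :=
  (∀ e f, c e ≠ 0 → c' f ≠ 0 → ∀ s t, Over (p e.1) (p e.2) (p' f.1) (p' f.2) s t →
    s ∈ Set.Ioo (0 : ℝ) 1 ∧ t ∈ Set.Ioo (0 : ℝ) 1) ∧
  l = ∑ e, ∑ f, c e * c' f * crossSign (p e.1) (p e.2) (p' f.1) (p' f.2)

/-- `ab` is an oriented edge of one of the oriented triangles `T`. -/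
def Edge {X : Type} (T : X → X → X → Prop) (a b : X) : Prop := ∃ c, T a b c

/-- The oriented triangles `T` form a connected oriented triangulated surface. -/
def IsSurface {X : Type} (T : X → X → X → Prop) : Prop :=
  (∀ a b c, T a b c → T b c a) ∧ (∀ a b c d, T a b c → T a b d → c = d) ∧
  (∀ v a b, (Edge T v a ∨ Edge T a v) → (Edge T v b ∨ Edge T b v) → Relation.EqvGen (T v) a b) ∧
  ∀ a b, Relation.EqvGen (Edge T) a b

/-- `p` embeds the surface linearly on triangles, and `ν` gives a collar on its positive side. -/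
def IsCollar {X : Type} [Fintype X] (T : X → X → X → Prop) (p ν : X → Fin 3 → ℝ) : Prop :=
  (∀ a b c, T a b c → 0 < Matrix.det (Matrix.of ![p b - p a, p c - p a, ν a])) ∧
  Set.InjOn (fun z : (X → ℝ) × ℝ => ∑ v, z.1 v • (p v + z.2 • ν v))
    ({w | w ∈ stdSimplex ℝ X ∧ ∃ a b c, T a b c ∧ ∀ v, w v ≠ 0 → v = a ∨ v = b ∨ v = c} ×ˢ
      Set.Icc (0 : ℝ) 1)

/-- Simplicial integral one-cycles. -/
def IsCycle {X : Type} [Fintype X] (T : X → X → X → Prop) (c : X × X → ℤ) : Prop :=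
  (∀ e, c e ≠ 0 → Edge T e.1 e.2 ∨ Edge T e.2 e.1) ∧ ∀ v, ∑ u, c (u, v) = ∑ u, c (v, u)

/-- Simplicial one-boundaries, together with the relations `ab + ba = 0`. -/
def Bdry {X : Type} [DecidableEq X] (T : X → X → X → Prop) : Submodule ℤ (X × X → ℤ) :=
  Submodule.span ℤ
    ({c | ∃ a b, Edge T a b ∧ c = Pi.single (a, b) 1 + Pi.single (b, a) 1} ∪
      {c | ∃ a b d, T a b d ∧ c = Pi.single (a, b) 1 + Pi.single (b, d) 1 + Pi.single (d, a) 1})

/-- `V` is a Seifert matrix of the polygonal knot `q`. -/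
def IsSeifertMatrix {m g : ℕ} (q : ZMod m → Fin 3 → ℝ) (V : Matrix (Fin g) (Fin g) ℤ) : Prop :=
  ∃ (X : Type) (_ : Fintype X) (_ : DecidableEq X) (T : X → X → X → Prop) (p ν : X → Fin 3 → ℝ)
    (k : ZMod m → X) (a : Fin g → X × X → ℤ),
    IsSurface T ∧ IsCollar T p ν ∧ (∀ i, p (k i) = q i) ∧
    (∀ u v, (Edge T u v ∧ ¬ Edge T v u) ↔ ∃ i, u = k i ∧ v = k (i + 1)) ∧
    (∀ i, IsCycle T (a i)) ∧
    (∀ c, IsCycle T c → ∃! x : Fin g → ℤ, c - ∑ i, x i • a i ∈ Bdry T) ∧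
    ∀ i j, IsLinkingNumber p (p + ν) (a i) (a j) (V i j)

end Pool.Agent.P.MP_06cdda_gt
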