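import Pool.Agent.P.MP_06cdda_gt.LayL

namespace Pool.Agent.P.MP_06cdda_gt

/-- Parameters of the family of surfaces. -/
structure Par where
  s1 : ℕ
  s2 : ℕ
  s3 : ℕ
  m : ℕ
  e : ℕ
  g : ℕ
  h1 : 4 ≤ s1 ∧ s1 % 2 = 0
  h2 : s1 + 2 ≤ s2 ∧ s2 % 2 = 0
  h3 : s2 + 2 ≤ s3 ∧ s3 % 2 = 0
  h4 : s3 + 1 ≤ m ∧ m % 2 = 1
  h5 : e = 1 ∨ (e = 0 ∧ s1 + 4 ≤ s2 ∧ s2 + 4 ≤ s3)

namespace Par

variable (P : Par)

def pres (k l : ℕ) : Prop :=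
  k < P.m ∧ (l = 1 ∨ l = 2 ∨ (l = 0 ∧ k ≠ 1 ∧ k ≠ 2) ∨ (l = 3 ∧ k ≠ 1) ∨ (l = 4 ∧ k ≤ 2) ∨
    (l = 5 ∧ k = 0))

def neg (k l : ℕ) : Prop :=
  (l = 0 ∧ P.s1 ≤ k ∧ P.e = 1) ∨
    (l = 1 ∧ k ≠ 0 ∧ k ≠ 3 ∧ (P.e = 1 ∨ (k ≠ P.s1 ∧ k ≠ P.s2 ∧ k ≠ P.s3)))

def col (k l : ℕ) : Prop :=
  (l = 0 ∧ (k = 0 ∨ k = 3 ∨ k = P.s1 ∨ k = P.s2 ∨ k = P.s3)) ∨ (l = 1 ∧ k < P.m) ∨
  (l = 2 ∧ (k = 0 ∨ k = 2 ∨ (k + 1 = P.s1 ∧ P.g = 1) ∨ k + 1 = P.s2 ∨ k + 1 = P.s3 ∨ k + 1 = P.m)) ∨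
  (l = 3 ∧ (k = 0 ∨ (k = 2 ∧ P.g = 1))) ∨ (l = 4 ∧ k = 0)

def gap (k l : ℕ) : Prop :=
  (l = 0 ∧ (k = 0 ∨ (3 ≤ k ∧ k + 1 < P.m ∧ k + 1 ≠ P.s1))) ∨
  (l = 1 ∧ (k = 1 ∨ (3 ≤ k ∧ k < P.s1 ∧ k % 2 = 0) ∨ (P.s1 ≤ k ∧ k + 1 < P.m ∧
    ((k % 2 = 1 ∧ k + 1 ≠ P.s2 ∧ k + 1 ≠ P.s3) ∨ k + 2 = P.s2 ∨ k + 2 = P.s3)))) ∨
  (l = 2 ∧ (k = 0 ∨ (3 ≤ k ∧ k + 1 < P.s1 ∧ k % 2 = 1) ∨ (P.s1 ≤ k ∧ k + 1 < P.m ∧ k % 2 = 0))) ∨
  (l = 3 ∧ (k = 0 ∨ (3 ≤ k ∧ k + 1 < P.m))) ∨ (l = 4 ∧ k ≤ 1)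

instance (k l : ℕ) : Decidable (P.pres k l) := by unfold pres; infer_instance
instance (k l : ℕ) : Decidable (P.neg k l) := by unfold neg; infer_instance
instance (k l : ℕ) : Decidable (P.col k l) := by unfold col; infer_instance
instance (k l : ℕ) : Decidable (P.gap k l) := by unfold gap; infer_instance

def nl (k l : ℕ) : ℕ := if k = 0 ∧ (l = 0 ∨ l = 3) then 3 else k + 1
def pl (k l : ℕ) : ℕ := if k = 3 ∧ (l = 0 ∨ l = 3) then 0 else k - 1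

theorem nl_spec (k l : ℕ) : (k = 0 ∧ (l = 0 ∨ l = 3) ∧ nl k l = 3) ∨
    (¬ (k = 0 ∧ (l = 0 ∨ l = 3)) ∧ nl k l = k + 1) := by
  unfold nl; split_ifs <;> omega

/-- Side `i` of the node `(k, l)` is glued to the node `(k', l')`. -/
def Gl (k l : ℕ) (i : Fin 4) (k' l' : ℕ) : Prop :=
  (i = 2 ∧ P.col k l ∧ k' = k ∧ l' = l + 1) ∨ (i = 0 ∧ P.col k l' ∧ k' = k ∧ l = l' + 1) ∨
  (((i = 1 ∧ ¬ P.neg k l) ∨ (i = 3 ∧ P.neg k l)) ∧ P.gap k l ∧ k' = nl k l ∧ l' = l) ∨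
  (((i = 3 ∧ ¬ P.neg k l) ∨ (i = 1 ∧ P.neg k l)) ∧ P.gap k' l ∧ k = nl k' l ∧ l' = l)

abbrev ν : Type := {n : ℕ × ℕ // P.pres n.1 n.2}

instance : Fintype P.ν :=
  Fintype.subtype ((Finset.range P.m ×ˢ Finset.range 6).filter fun n => P.pres n.1 n.2) (by
    intro n
    simp only [Finset.mem_filter, Finset.mem_product, Finset.mem_range]
    refine ⟨fun h => h.2, fun h => ⟨?_, h⟩⟩
    unfold pres at h
    omega)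

variable {P}

theorem col_pres {k l : ℕ} (h : P.col k l) : P.pres k l ∧ P.pres k (l + 1) ∧
    (l ≠ 1 → (P.neg k l ↔ P.neg k (l + 1))) := by
  have := P.h1; have := P.h2; have := P.h3; have := P.h4; have := P.h5
  unfold col at h
  unfold pres neg
  omega

theorem gap_pres {k l : ℕ} (h : P.gap k l) : P.pres k l ∧ P.pres (nl k l) l ∧
    (P.neg k l ↔ P.neg (nl k l) l) ∧ k ≠ 2 := by
  have := P.h1; have := P.h2; have := P.h3; have := P.h4; have := P.h5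
  have := nl_spec k l
  unfold gap at h
  unfold pres neg
  omega

theorem nl_inj {k k' l : ℕ} (h : P.gap k l) (h' : P.gap k' l) (e : nl k l = nl k' l) : k = k' := by
  have := nl_spec k l
  have := nl_spec k' l
  have := (gap_pres h).2.2.2
  have := (gap_pres h').2.2.2
  omega

theorem Gl.pres {k l k' l' : ℕ} {i : Fin 4} (h : P.Gl k l i k' l') : P.pres k' l' := by
  rcases h with ⟨-, h, rfl, rfl⟩ | ⟨-, h, rfl, rfl⟩ | ⟨-, h, rfl, rfl⟩ | ⟨-, h, rfl, rfl⟩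
  · exact (col_pres h).2.1
  · exact (col_pres h).1
  · exact (gap_pres h).2.1
  · exact (gap_pres h).1

theorem Gl.symm {k l k' l' : ℕ} {i : Fin 4} (h : P.Gl k l i k' l') : P.Gl k' l' (i + 2) k l := by
  rcases h with ⟨rfl, h, rfl, rfl⟩ | ⟨rfl, h, rfl, rfl⟩ | ⟨j, h, rfl, rfl⟩ | ⟨j, h, rfl, rfl⟩
  · exact Or.inr (Or.inl ⟨rfl, h, rfl, rfl⟩)
  · exact Or.inl ⟨rfl, h, rfl, rfl⟩
  · refine Or.inr (Or.inr (Or.inr ⟨?_, h, rfl, rfl⟩))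
    rw [← (gap_pres h).2.2.1]
    rcases j with ⟨rfl, j⟩ | ⟨rfl, j⟩
    · exact Or.inl ⟨rfl, j⟩
    · exact Or.inr ⟨rfl, j⟩
  · refine Or.inr (Or.inr (Or.inl ⟨?_, h, rfl, rfl⟩))
    rw [(gap_pres h).2.2.1]
    rcases j with ⟨rfl, j⟩ | ⟨rfl, j⟩
    · exact Or.inl ⟨rfl, j⟩
    · exact Or.inr ⟨rfl, j⟩

theorem Gl.uniq {k l k1 l1 k2 l2 : ℕ} {i : Fin 4} (h : P.Gl k l i k1 l1) (h' : P.Gl k l i k2 l2) :
    k1 = k2 ∧ l1 = l2 := by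
  rcases h with ⟨j, h, a, b⟩ | ⟨j, h, a, b⟩ | ⟨j, h, a, b⟩ | ⟨j, h, a, b⟩ <;>
    rcases h' with ⟨j', h', a', b'⟩ | ⟨j', h', a', b'⟩ | ⟨j', h', a', b'⟩ | ⟨j', h', a', b'⟩ <;>
    first
    | omega
    | exact ⟨nl_inj h h' (a.symm.trans a'), by omega⟩
    | (exfalso; rcases j with ⟨c, d⟩ | ⟨c, d⟩ <;> rcases j' with ⟨c', d'⟩ | ⟨c', d'⟩ <;>
        first | omega | contradiction)

theorem Gl.simple {k l k' l' : ℕ} {i j : Fin 4} (h : P.Gl k l i k' l') (h' : P.Gl k l j k' l') :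
    i = j ∧ (k' ≠ k ∨ l' ≠ l) := by
  have := nl_spec k l
  have := nl_spec k' l
  rcases h with ⟨j, h, a, b⟩ | ⟨j, h, a, b⟩ | ⟨j, h, a, b⟩ | ⟨j, h, a, b⟩ <;>
    rcases h' with ⟨j', h', a', b'⟩ | ⟨j', h', a', b'⟩ | ⟨j', h', a', b'⟩ | ⟨j', h', a', b'⟩ <;>
    first
    | omega
    | (rcases j with ⟨c, d⟩ | ⟨c, d⟩ <;> rcases j' with ⟨c', d'⟩ | ⟨c', d'⟩ <;>
        first | omega | contradiction)

open Classical in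
variable (P) in
noncomputable def γ (s : P.ν × Fin 4) : P.ν × Fin 4 :=
  if h : ∃ n : P.ν, P.Gl s.1.1.1 s.1.1.2 s.2 n.1.1 n.1.2 then (h.choose, s.2 + 2) else s

theorem γ_of {n n' : P.ν} {i : Fin 4} (h : P.Gl n.1.1 n.1.2 i n'.1.1 n'.1.2) :
    P.γ (n, i) = (n', i + 2) := by
  have h1 : ∃ n' : P.ν, P.Gl n.1.1 n.1.2 i n'.1.1 n'.1.2 := ⟨n', h⟩
  have h2 := h1.choose_spec.uniq h
  unfold γ
  rw [dif_pos h1]
  exact Prod.ext (Subtype.ext (Prod.ext h2.1 h2.2)) rfl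

theorem γ_not {n : P.ν} {i : Fin 4} (h : ∀ k' l', ¬ P.Gl n.1.1 n.1.2 i k' l') :
    P.γ (n, i) = (n, i) := dif_neg fun ⟨_, h'⟩ => h _ _ h'

theorem γ_cases (n : P.ν) (i : Fin 4) :
    (P.γ (n, i) = (n, i) ∧ ∀ k' l', ¬ P.Gl n.1.1 n.1.2 i k' l') ∨
      ∃ n' : P.ν, P.Gl n.1.1 n.1.2 i n'.1.1 n'.1.2 ∧ P.γ (n, i) = (n', i + 2) := by
  by_cases h : ∃ k' l', P.Gl n.1.1 n.1.2 i k' l'
  · obtain ⟨k', l', h⟩ := h
    exact Or.inr ⟨⟨(k', l'), h.pres⟩, h, γ_of h⟩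
  · push Not at h
    exact Or.inl ⟨γ_not h, h⟩

theorem gl_of {n : P.ν} {i : Fin 4} (h : P.γ (n, i) ≠ (n, i)) :
    P.Gl n.1.1 n.1.2 i (P.γ (n, i)).1.1.1 (P.γ (n, i)).1.1.2 := by
  rcases γ_cases n i with k | ⟨n', k, e⟩
  · exact absurd k.1 h
  · rw [e]; exact k

variable (P) in
noncomputable def R : Rib P.ν where
  γ := P.γ
  inv := by
    rintro ⟨n, i⟩
    rcases γ_cases n i with k | ⟨n', k, e⟩
    · rw [k.1, k.1]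
    · rw [e, γ_of k.symm]
      exact Prod.ext rfl (by simp only; omega)
  side := by
    rintro ⟨n, i⟩ h
    rcases γ_cases n i with k | ⟨n', k, e⟩
    · exact absurd k.1 h
    · rw [e]
  loop := by
    rintro ⟨n, i⟩ h e
    have := gl_of h
    have := (this.simple this).2
    rw [e] at this
    exact this.elim (fun k => k rfl) fun k => k rfl
  simple := by
    rintro ⟨n, i⟩ ⟨n', j⟩ h h' e e'
    simp only at e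
    subst e
    have a := gl_of h
    rw [e'] at a
    rw [(a.simple (gl_of h')).1]

variable (P)

def xl (k l : ℕ) : ℤ :=
  if P.neg k l then (if k ≤ 2 then 6 - 2 * k else -2 * k - 1) else if k = 0 then -4 else 2 * k
def xr (k l : ℕ) : ℤ := if P.neg k l then (if k ≤ 2 then 7 - 2 * k else -2 * k) else 2 * k + 1
def zz (j : ℕ) : ℤ := if j = 0 then 8 else if j = 1 then -2 else if j ≤ 5 then 2 * j - 4 else 8 - 2 * j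
def zl (k l : ℕ) : ℤ := if P.neg k l then zz (2 * k + 1) else zz (2 * k)
def zr (k l : ℕ) : ℤ := if P.neg k l then zz (2 * k) else zz (2 * k + 1)

def L : Lay P.ν where
  l n := n.1.2
  xl n := P.xl n.1.1 n.1.2
  xr n := P.xr n.1.1 n.1.2
  zl n := P.zl n.1.1 n.1.2
  zr n := P.zr n.1.1 n.1.2

/-- The sign of a node as a number. -/
def ng (k l : ℕ) : ℕ := if P.neg k l then 1 else 0

theorem co (k l : ℕ) :
    (P.ng k l = 1 ∧ l = 1 ∧ 1 ≤ k ∧ k ≤ 2 ∧ P.xl k l = 6 - 2 * k ∧ P.xr k l = 7 - 2 * k ∧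
      P.zl k l = 4 * k - 2 ∧ P.zr k l = 4 * k - 4) ∨
    (P.ng k l = 1 ∧ l ≤ 1 ∧ 4 ≤ k ∧ P.xl k l = -2 * k - 1 ∧ P.xr k l = -2 * k ∧
      P.zl k l = 6 - 4 * k ∧ P.zr k l = 8 - 4 * k) ∨
    (P.ng k l = 0 ∧ k = 0 ∧ P.xl k l = -4 ∧ P.xr k l = 1 ∧ P.zl k l = 8 ∧ P.zr k l = -2) ∨
    (P.ng k l = 0 ∧ l ≠ 1 ∧ 1 ≤ k ∧ k ≤ 2 ∧ P.xl k l = 2 * k ∧ P.xr k l = 2 * k + 1 ∧
      P.zl k l = 4 * k - 4 ∧ P.zr k l = 4 * k - 2) ∨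
    (P.ng k l = 0 ∧ 3 ≤ k ∧ P.xl k l = 2 * k ∧ P.xr k l = 2 * k + 1 ∧
      P.zl k l = 8 - 4 * k ∧ P.zr k l = 6 - 4 * k) := by
  have := P.h1; have := P.h2; have := P.h3
  have z1 : 1 ≤ k → k ≤ 2 → zz (2 * k) = 4 * k - 4 ∧ zz (2 * k + 1) = 4 * k - 2 := by
    intro _ _; unfold zz; constructor <;> split_ifs <;> first | omega | contradiction
  have z2 : 3 ≤ k → zz (2 * k) = 8 - 4 * k ∧ zz (2 * k + 1) = 6 - 4 * k := by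
    intro _; unfold zz; constructor <;> split_ifs <;> first | omega | contradiction
  unfold ng xl xr zl zr
  by_cases h : P.neg k l
  · simp only [if_pos h]
    unfold neg at h
    by_cases c : k ≤ 2
    · have := z1 (by omega) c
      exact Or.inl ⟨trivial, by omega, by omega, c, if_pos c, if_pos c, this.2, this.1⟩
    · have := z2 (by omega)
      exact Or.inr (Or.inl ⟨trivial, by omega, by omega, if_neg c, if_neg c, this.2, this.1⟩)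
  · simp only [if_neg h]
    unfold neg at h
    by_cases c : k = 0
    · subst c
      exact Or.inr (Or.inr (Or.inl ⟨trivial, rfl, rfl, rfl, rfl, rfl⟩))
    by_cases d : k ≤ 2
    · have := z1 (by omega) d
      exact Or.inr (Or.inr (Or.inr (Or.inl
        ⟨trivial, by omega, by omega, d, if_neg c, trivial, this.1, this.2⟩)))
    · have := z2 (by omega)
      exact Or.inr (Or.inr (Or.inr (Or.inr ⟨trivial, by omega, if_neg c, trivial, this.1, this.2⟩)))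

variable {P}

theorem ng_one {k l : ℕ} : P.ng k l = 1 ↔ P.neg k l := by
  unfold ng; split_ifs with h <;> simp [h]

theorem ng_congr {k l k' l' : ℕ} (h : P.neg k l ↔ P.neg k' l') : P.ng k l = P.ng k' l' := by
  unfold ng; simp only [h]

theorem gl1 {k l k' l' : ℕ} (h : P.Gl k l 1 k' l') : l' = l ∧ P.ng k l = P.ng k' l ∧
    ((P.ng k l = 0 ∧ k ≠ 2 ∧ k' = nl k l) ∨ (P.ng k l = 1 ∧ k' ≠ 2 ∧ k = k' + 1)) := by
  have := P.co k l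
  have := nl_spec k' l
  have := P.co k' l
  rcases h with ⟨j, -⟩ | ⟨j, -⟩ | ⟨j, h, a, b⟩ | ⟨j, h, a, b⟩
  · omega
  · omega
  · have c := ng_congr (gap_pres h).2.2.1
    have d := (gap_pres h).2.2.2
    rw [← a] at c
    rw [← ng_one] at j
    omega
  · have c := ng_congr (gap_pres h).2.2.1
    have d := (gap_pres h).2.2.2
    rw [← a] at c
    rw [← ng_one] at j
    omega

theorem gl2 {k l k' l' : ℕ} (h : P.Gl k l 2 k' l') : k' = k ∧ l' = l + 1 ∧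
    (l ≠ 1 → P.ng k l = P.ng k (l + 1)) := by
  rcases h with ⟨-, h, a, b⟩ | ⟨j, -⟩ | ⟨j, -⟩ | ⟨j, -⟩
  · exact ⟨a, b, fun e => ng_congr ((col_pres h).2.2 e)⟩
  all_goals omega

theorem pl_of {k l : ℕ} (h : k ≠ 3 ∨ (l ≠ 0 ∧ l ≠ 3)) : pl k l = k - 1 := if_neg (by omega)
theorem nl_of {k l : ℕ} (h : k ≠ 0 ∨ (l ≠ 0 ∧ l ≠ 3)) : nl k l = k + 1 := if_neg (by omega)

theorem pl_nl {k l : ℕ} (h : P.gap k l) : nl k l ≠ 0 ∧ pl (nl k l) l = k := by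
  have := (gap_pres h).2.2.2
  have := nl_spec k l
  unfold pl
  split_ifs <;> omega

theorem node_ext {n n' : P.ν} (h1 : n.1.1 = n'.1.1) (h2 : n.1.2 = n'.1.2) : n = n' :=
  Subtype.ext (Prod.ext h1 h2)

theorem gap0 {k : ℕ} : P.gap k 0 ↔ k = 0 ∨ (3 ≤ k ∧ k + 1 < P.m ∧ k + 1 ≠ P.s1) := by simp [gap]
theorem gap1 {k : ℕ} : P.gap k 1 ↔ k = 1 ∨ (3 ≤ k ∧ k < P.s1 ∧ k % 2 = 0) ∨ (P.s1 ≤ k ∧ k + 1 < P.m ∧
    ((k % 2 = 1 ∧ k + 1 ≠ P.s2 ∧ k + 1 ≠ P.s3) ∨ k + 2 = P.s2 ∨ k + 2 = P.s3)) := by simp [gap]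
theorem gap2 {k : ℕ} : P.gap k 2 ↔ k = 0 ∨ (3 ≤ k ∧ k + 1 < P.s1 ∧ k % 2 = 1) ∨
    (P.s1 ≤ k ∧ k + 1 < P.m ∧ k % 2 = 0) := by simp [gap]
theorem gap3 {k : ℕ} : P.gap k 3 ↔ k = 0 ∨ (3 ≤ k ∧ k + 1 < P.m) := by simp [gap]

end Par

end Pool.Agent.P.MP_06cdda_gt
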