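import Pool.Agent.P.MP_06cdda_gt.Fam

set_option linter.unreachableTactic false
set_option linter.unusedTactic false

namespace Pool.Agent.P.MP_06cdda_gt

open Rib

namespace Par

variable (P : Par) {C : Type} (a b c d : ℕ → ℕ → C)

structure Rules : Prop where
  r1 : ∀ k l, P.pres k l → (l = 0 ∨ ¬ P.col k (l - 1)) → a k l = b k l
  r2 : ∀ k l, P.pres k l → ¬ P.col k l → c k l = d k l
  r3 : ∀ k l, P.pres k l → ¬ P.gap k l → b k l = c k l
  r4 : ∀ k l, P.pres k l → (k = 0 ∨ ¬ P.gap (pl k l) l) → a k l = d k l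
  r5 : ∀ k l k', P.gap k l → k' = nl k l → b k l = a k' l ∧ c k l = d k' l
  r6 : ∀ k l l', P.col k l → (P.neg k l ↔ P.neg k l') → l' = l + 1 → d k l = a k l' ∧ c k l = b k l'
  r7 : ∀ k, k < P.m → P.neg k 1 → d k 1 = b k 2 ∧ c k 1 = a k 2

def All (k l : ℕ) (w : C) : Prop := a k l = w ∧ b k l = w ∧ c k l = w ∧ d k l = w

variable {P a b c d}


/-- Levels where the path runs from the second strip to the third one. -/
def Ev (P : Par) (k : ℕ) : Prop :=
  (3 ≤ k ∧ k < P.s1 ∧ k % 2 = 1) ∨ (P.s1 ≤ k ∧ k < P.m ∧ k % 2 = 0)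

theorem Rules.two (h : P.Rules a b c d) {k : ℕ} (hk : P.Ev k) (h1 : k + 1 ≠ P.s1)
    (h2 : k + 2 ≠ P.s2) (h3 : k + 2 ≠ P.s3) (h4 : k + 1 ≠ P.m) :
    b (k + 2) 1 = a k 2 ∧ d (k + 2) 1 = b k 2 ∧ a (k + 2) 1 = a k 2 ∧
      (a k 2 = b k 2 → All a b c d k 2 (a k 2) ∧ All a b c d (k + 1) 1 (a k 2) ∧
        All a b c d (k + 1) 2 (a k 2)) := by
  have := P.h1; have := P.h2; have := P.h3; have := P.h4; have := P.h5
  unfold Ev at hk
  have e1 := h.r4 k 2 (by unfold pres; omega) (by rw [pl_of (by omega)]; first | (rw [gap1]; omega) | (rw [gap2]; omega) | (rw [gap0]; omega) | (rw [gap3]; omega) | (unfold gap; omega))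
  have e2 := h.r2 k 2 (by unfold pres; omega) (by unfold col; omega)
  have e3 := h.r5 k 2 (k + 1) (by first | (rw [gap1]; omega) | (rw [gap2]; omega) | (rw [gap0]; omega) | (rw [gap3]; omega) | (unfold gap; omega)) (nl_of (by omega)).symm
  have e4 := h.r3 (k + 1) 2 (by unfold pres; omega) (by first | (rw [gap1]; omega) | (rw [gap2]; omega) | (rw [gap0]; omega) | (rw [gap3]; omega) | (unfold gap; omega))
  have e5 := h.r2 (k + 1) 2 (by unfold pres; omega) (by unfold col; omega)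
  have e6 := h.r7 (k + 1) (by omega) (by unfold neg; omega)
  have e7 := h.r4 (k + 1) 1 (by unfold pres; omega) (by rw [pl_of (by omega)]; first | (rw [gap1]; omega) | (rw [gap2]; omega) | (rw [gap0]; omega) | (rw [gap3]; omega) | (unfold gap; omega))
  have e8 := h.r1 (k + 1) 1 (by unfold pres; omega) (by unfold col; omega)
  have e9 := h.r5 (k + 1) 1 (k + 2) (by first | (rw [gap1]; omega) | (rw [gap2]; omega) | (rw [gap0]; omega) | (rw [gap3]; omega) | (unfold gap; omega)) (nl_of (by omega)).symm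
  have e10 := h.r1 (k + 2) 1 (by unfold pres; omega) (by unfold col; omega)
  unfold All
  grind

theorem Rules.cross (h : P.Rules a b c d) {k : ℕ} (hk : P.Ev k) (hn : P.neg k 1)
    (h2 : k + 2 ≠ P.s2) (h3 : k + 2 ≠ P.s3) : a k 2 = b k 1 ∧ b k 2 = d k 1 ∧ c k 1 = b k 1 := by
  have := P.h1; have := P.h2; have := P.h3; have := P.h4; have := P.h5
  unfold Ev at hk
  have e1 := h.r7 k (by omega) hn
  have e2 := h.r3 k 1 (by unfold pres; omega) (by first | (rw [gap1]; omega) | (rw [gap2]; omega) | (rw [gap0]; omega) | (rw [gap3]; omega) | (unfold gap; omega))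
  grind

theorem Rules.flat (h : P.Rules a b c d) {k : ℕ} (hk : P.Ev k) (hn : ¬ P.neg k 1) :
    a k 2 = d k 1 ∧ b k 2 = b k 1 ∧ c k 1 = b k 1 := by
  have := P.h1; have := P.h2; have := P.h3; have := P.h4; have := P.h5
  unfold Ev at hk
  have e1 := h.r6 k 1 2 (Or.inr (Or.inl ⟨rfl, by omega⟩)) (iff_of_false hn (by simp [neg])) rfl
  have e2 := h.r3 k 1 (by unfold pres; omega) (by unfold neg at hn; first | (rw [gap1]; omega) | (rw [gap2]; omega) | (rw [gap0]; omega) | (rw [gap3]; omega) | (unfold gap; omega))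
  grind

theorem Rules.entry (h : P.Rules a b c d) {s : ℕ} (hs : s = 3 ∨ s = P.s1 ∨ s = P.s2 ∨ s = P.s3) :
    a s 1 = d s 0 ∧ b s 1 = c s 0 ∧ d s 1 = d s 0 := by
  have := P.h1; have := P.h2; have := P.h3; have := P.h4; have := P.h5
  have e1 := h.r6 s 0 1 (Or.inl ⟨rfl, Or.inr hs⟩) (by simp [neg]; omega) rfl
  have e2 := h.r4 s 1 (by unfold pres; omega) (by rw [pl_of (by omega)]; first | (rw [gap1]; omega) | (rw [gap2]; omega) | (rw [gap0]; omega) | (rw [gap3]; omega) | (unfold gap; omega))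
  grind

/-- The two colours carried along a chain starting at level `s`. -/
theorem Rules.chain (h : P.Rules a b c d) {s s' : ℕ}
    (hs : (s = 3 ∧ s' = P.s1) ∨ (s = P.s1 ∧ s' + 1 = P.s2) ∨ (s = P.s2 ∧ s' + 1 = P.s3) ∨
      (s = P.s3 ∧ s' = P.m)) (i : ℕ) (hi : s + 2 * i < s') :
    (P.neg (s + 2 * i) 1 → (P.neg s 1 → b (s + 2 * i) 1 = c s 0 ∧ d (s + 2 * i) 1 = d s 0) ∧
      (¬ P.neg s 1 → b (s + 2 * i) 1 = d s 0 ∧ d (s + 2 * i) 1 = c s 0)) ∧
    (c s 0 = d s 0 → a (s + 2 * i) 1 = c s 0 ∧ b (s + 2 * i) 1 = c s 0 ∧ d (s + 2 * i) 1 = c s 0 ∧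
      ∀ k, s ≤ k → k < s + 2 * i → All a b c d k 1 (c s 0) ∧ All a b c d k 2 (c s 0)) := by
  have := P.h1; have := P.h2; have := P.h3; have := P.h4; have := P.h5
  have e0 := h.entry (s := s) (by omega)
  induction i with
  | zero =>
    refine ⟨fun hn => ⟨fun _ => ⟨e0.2.1, e0.2.2⟩, fun j => absurd hn j⟩, fun e => ?_⟩
    exact ⟨by grind, by grind, by grind, fun k _ _ => by omega⟩
  | succ i ih =>
    obtain ⟨i1, i2⟩ := ih (by omega)
    have hk : P.Ev (s + 2 * i) := by unfold Ev; omega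
    obtain ⟨t1, t2, t3, t4⟩ := h.two hk (by omega) (by omega) (by omega) (by omega)
    rw [show s + 2 * (i + 1) = s + 2 * i + 2 by ring]
    have key : (P.neg (s + 2 * i) 1 ∧ a (s + 2 * i) 2 = b (s + 2 * i) 1 ∧
        b (s + 2 * i) 2 = d (s + 2 * i) 1 ∧ c (s + 2 * i) 1 = b (s + 2 * i) 1) ∨
        (¬ P.neg (s + 2 * i) 1 ∧ s + 2 * i = s ∧ a (s + 2 * i) 2 = d (s + 2 * i) 1 ∧
        b (s + 2 * i) 2 = b (s + 2 * i) 1 ∧ c (s + 2 * i) 1 = b (s + 2 * i) 1) := by
      by_cases hn : P.neg (s + 2 * i) 1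
      · exact Or.inl ⟨hn, h.cross hk hn (by omega) (by omega)⟩
      · exact Or.inr ⟨hn, by unfold neg at hn; omega, h.flat hk hn⟩
    refine ⟨fun _ => by grind, fun e => ⟨by grind, by grind, by grind, fun k k1 k2 => ?_⟩⟩
    obtain ⟨j1, j2, j3, j4⟩ := i2 e
    by_cases k3 : k < s + 2 * i
    · exact j4 k k1 k3
    rcases (by omega : k = s + 2 * i ∨ k = s + 2 * i + 1) with rfl | rfl
    · unfold All at t4 ⊢
      grind
    · unfold All at t4 ⊢
      grind

theorem Rules.last (h : P.Rules a b c d) {s s' : ℕ}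
    (hs : (s = 3 ∧ s' + 1 = P.s1) ∨ (s = P.s3 ∧ s' + 1 = P.m)) :
    ((P.neg s 1 → d s' 2 = c s 0 ∧ c s' 2 = d s 0) ∧
      (¬ P.neg s 1 → d s' 2 = d s 0 ∧ c s' 2 = c s 0)) ∧
    (c s 0 = d s 0 → ∀ k, s ≤ k → k ≤ s' → All a b c d k 1 (c s 0) ∧ All a b c d k 2 (c s 0)) := by
  have := P.h1; have := P.h2; have := P.h3; have := P.h4; have := P.h5
  obtain ⟨i, hi⟩ : ∃ i, s' = s + 2 * i := ⟨(s' - s) / 2, by omega⟩
  obtain ⟨i1, i2⟩ := h.chain (s := s) (s' := s' + 1) (by omega) i (by omega)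
  rw [← hi] at i1 i2
  have hk : P.Ev s' := by unfold Ev; omega
  have e0 := h.entry (s := s) (by omega)
  have e1 := h.r4 s' 2 (by unfold pres; omega) (by rw [pl_of (by omega)]; first | (rw [gap1]; omega) | (rw [gap2]; omega) | (rw [gap0]; omega) | (rw [gap3]; omega) | (unfold gap; omega))
  have e2 := h.r3 s' 2 (by unfold pres; omega) (by first | (rw [gap1]; omega) | (rw [gap2]; omega) | (rw [gap0]; omega) | (rw [gap3]; omega) | (unfold gap; omega))
  have key : (P.neg s' 1 ∧ a s' 2 = b s' 1 ∧ b s' 2 = d s' 1 ∧ c s' 1 = b s' 1) ∨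
      (¬ P.neg s' 1 ∧ s' = s ∧ a s' 2 = d s' 1 ∧ b s' 2 = b s' 1 ∧ c s' 1 = b s' 1) := by
    by_cases hn : P.neg s' 1
    · exact Or.inl ⟨hn, h.cross hk hn (by omega) (by omega)⟩
    · exact Or.inr ⟨hn, by unfold neg at hn; omega, h.flat hk hn⟩
  refine ⟨by grind, fun e k k1 k2 => ?_⟩
  obtain ⟨j1, j2, j3, j4⟩ := i2 e
  by_cases k3 : k < s'
  · exact j4 k k1 k3
  obtain rfl : k = s' := by omega
  unfold All
  grind

theorem Rules.dbl (h : P.Rules a b c d) {s s' : ℕ}
    (hs : (s = P.s1 ∧ s' + 2 = P.s2) ∨ (s = P.s2 ∧ s' + 2 = P.s3)) :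
    c s 0 = d s 0 ∧ a (s' + 1) 3 = b (s' + 1) 3 ∧ (a (s' + 1) 3 = c s 0 →
      ∀ k, s ≤ k → k ≤ s' + 1 → All a b c d k 1 (c s 0) ∧ All a b c d k 2 (c s 0)) := by
  have := P.h1; have := P.h2; have := P.h3; have := P.h4; have := P.h5
  obtain ⟨i, hi⟩ : ∃ i, s' = s + 2 * i := ⟨(s' - s) / 2, by omega⟩
  obtain ⟨i1, i2⟩ := h.chain (s := s) (s' := s' + 1) (by omega) i (by omega)
  rw [← hi] at i1 i2
  have hn : P.neg s' 1 := by unfold neg; omega
  have e1 := h.r7 s' (by omega) hn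
  have e2 := h.r4 s' 2 (by unfold pres; omega) (by rw [pl_of (by omega)]; first | (rw [gap1]; omega) | (rw [gap2]; omega) | (rw [gap0]; omega) | (rw [gap3]; omega) | (unfold gap; omega))
  have e3 := h.r2 s' 2 (by unfold pres; omega) (by unfold col; omega)
  have e4 := h.r5 s' 1 (s' + 1) (by first | (rw [gap1]; omega) | (rw [gap2]; omega) | (rw [gap0]; omega) | (rw [gap3]; omega) | (unfold gap; omega)) (nl_of (by omega)).symm
  have e5 := h.r5 s' 2 (s' + 1) (by first | (rw [gap1]; omega) | (rw [gap2]; omega) | (rw [gap0]; omega) | (rw [gap3]; omega) | (unfold gap; omega)) (nl_of (by omega)).symm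
  have e6 := h.r1 (s' + 1) 1 (by unfold pres; omega) (by unfold col; omega)
  have e7 := h.r3 (s' + 1) 1 (by unfold pres; omega) (by first | (rw [gap1]; omega) | (rw [gap2]; omega) | (rw [gap0]; omega) | (rw [gap3]; omega) | (unfold gap; omega))
  have e8 := h.r7 (s' + 1) (by omega) (by unfold neg; omega)
  have e9 := h.r3 (s' + 1) 2 (by unfold pres; omega) (by first | (rw [gap1]; omega) | (rw [gap2]; omega) | (rw [gap0]; omega) | (rw [gap3]; omega) | (unfold gap; omega))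
  have e10 := h.r6 (s' + 1) 2 3 (by simp [col]; omega) (by simp [neg]) rfl
  have e : c s 0 = d s 0 := by by_cases j : P.neg s 1 <;> grind
  refine ⟨e, by grind, fun e' k k1 k2 => ?_⟩
  obtain ⟨j1, j2, j3, j4⟩ := i2 e
  by_cases k3 : k < s'
  · exact j4 k k1 k3
  rcases (by omega : k = s' ∨ k = s' + 1) with rfl | rfl
  · unfold All
    grind
  · unfold All
    grind

theorem run {f g : ℕ → C} {s t : ℕ} (h1 : ∀ k, s ≤ k → k < t → g k = f (k + 1))
    (h2 : ∀ k, s < k → k < t → f k = g k) : ∀ k, s < k → k ≤ t → f k = g s := by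
  intro k hk
  induction k, hk using Nat.le_induction with
  | base => exact fun j => (h1 s le_rfl j).symm
  | succ k hk ih => exact fun j => by rw [← h1 k (by omega) j, ← h2 k hk j, ih (by omega)]

theorem Rules.all (h : P.Rules a b c d) {k l : ℕ} (hp : P.pres k l) :
    All a b c d k l (a 0 0) := by
  have := P.h1; have := P.h2; have := P.h3; have := P.h4; have := P.h5
  obtain ⟨t1, ht1⟩ : ∃ t, t + 1 = P.s1 := ⟨P.s1 - 1, by omega⟩
  obtain ⟨t2, ht2⟩ : ∃ t, t + 2 = P.s2 := ⟨P.s2 - 2, by omega⟩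
  obtain ⟨t3, ht3⟩ : ∃ t, t + 2 = P.s3 := ⟨P.s3 - 2, by omega⟩
  obtain ⟨t4, ht4⟩ : ∃ t, t + 1 = P.m := ⟨P.m - 1, by omega⟩
  have g5 : ∀ l, l = 0 ∨ l = 3 → ∀ k, 3 ≤ k → k < t4 → (l = 0 → k ≠ t1) →
      b k l = a (k + 1) l ∧ c k l = d (k + 1) l := fun l hl k h1 h2 h3 =>
    h.r5 k l _ (by rcases hl with rfl | rfl <;> [rw [gap0]; rw [gap3]] <;> omega)
      (nl_of (by omega)).symm
  have ib : ∀ k, 3 ≤ k → k ≤ t4 → a k 0 = b k 0 := fun k h1 h2 =>
    h.r1 k 0 (by unfold pres; omega) (Or.inl rfl)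
  have it : ∀ k, 3 < k → k ≤ t4 → k ≠ P.s1 → k ≠ P.s2 → k ≠ P.s3 → d k 0 = c k 0 :=
    fun k h1 h2 h3 h4 h5 => (h.r2 k 0 (by unfold pres; omega) (by unfold col; omega)).symm
  have ot : ∀ k, 3 ≤ k → k ≤ t4 → d k 3 = c k 3 := fun k h1 h2 =>
    (h.r2 k 3 (by unfold pres; omega) (by unfold col; omega)).symm
  have ob : ∀ k, 3 ≤ k → k < t4 → k ≠ t1 → k ≠ t2 + 1 → k ≠ t3 + 1 → a k 3 = b k 3 :=
    fun k h1 h2 h3 h4 h5 => h.r1 k 3 (by unfold pres; omega) (by unfold col; omega)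
  have A1 := run (f := fun k => a k 0) (g := fun k => b k 0) (s := 3) (t := t1)
    (fun k _ _ => (g5 0 (by omega) k (by omega) (by omega) (by omega)).1)
    (fun k _ _ => ib k (by omega) (by omega))
  have A2 := run (f := fun k => a k 0) (g := fun k => b k 0) (s := P.s1) (t := t4)
    (fun k _ _ => (g5 0 (by omega) k (by omega) (by omega) (by omega)).1)
    (fun k _ _ => ib k (by omega) (by omega))
  have B : ∀ s t, 3 ≤ s → t ≤ t4 → (t ≤ t1 ∨ P.s1 ≤ s) → (t ≤ P.s2 ∨ P.s2 ≤ s) →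
      (t ≤ P.s3 ∨ P.s3 ≤ s) → ∀ k, s < k → k ≤ t → d k 0 = c s 0 := fun s t _ _ _ _ _ =>
    run (f := fun k => d k 0) (g := fun k => c k 0)
      (fun k _ _ => (g5 0 (by omega) k (by omega) (by omega) (by omega)).2)
      (fun k _ _ => it k (by omega) (by omega) (by omega) (by omega) (by omega))
  have O1 := run (f := fun k => d k 3) (g := fun k => c k 3) (s := 3) (t := t4)
    (fun k _ _ => (g5 3 (by omega) k (by omega) (by omega) (by omega)).2)
    (fun k _ _ => ot k (by omega) (by omega))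
  have O : ∀ s t, 3 ≤ s → t ≤ t4 → (t ≤ t1 ∨ t1 ≤ s) → (t ≤ t2 + 1 ∨ t2 + 1 ≤ s) →
      (t ≤ t3 + 1 ∨ t3 + 1 ≤ s) → ∀ k, s < k → k ≤ t → a k 3 = b s 3 := fun s t _ _ _ _ _ =>
    run (f := fun k => a k 3) (g := fun k => b k 3)
      (fun k _ _ => (g5 3 (by omega) k (by omega) (by omega) (by omega)).1)
      (fun k _ _ => ob k (by omega) (by omega) (by omega) (by omega) (by omega))
  obtain ⟨L1, L1'⟩ := h.last (s := 3) (s' := t1) (by omega)
  obtain ⟨L4, L4'⟩ := h.last (s := P.s3) (s' := t4) (by omega)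
  obtain ⟨D2, D2', D2''⟩ := h.dbl (s := P.s1) (s' := t2) (by omega)
  obtain ⟨D3, D3', D3''⟩ := h.dbl (s := P.s2) (s' := t3) (by omega)
  replace L1 := L1.2 (by unfold neg; omega)
  have x1 : b t1 0 = c 3 0 ∧ a t1 3 = a 3 3 ∧ b t1 0 = a 3 0 := by
    have y1 := h.r3 t1 0 (by unfold pres; omega) (by first | (rw [gap1]; omega) | (rw [gap2]; omega) | (rw [gap0]; omega) | (rw [gap3]; omega) | (unfold gap; omega))
    have y2 := ib 3 le_rfl (by omega)
    by_cases e : t1 = 3
    · grind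
    · have y3 := A1 t1 (by omega) le_rfl
      have y4 := B 3 t1 le_rfl (by omega) (by omega) (by omega) (by omega) t1 (by omega) le_rfl
      have y5 := O 3 t1 le_rfl (by omega) (by omega) (by omega) (by omega) t1 (by omega) le_rfl
      have y6 := ib t1 (by omega) (by omega)
      have y7 := it t1 (by omega) (by omega) (by omega) (by omega) (by omega)
      have y8 := ob 3 (by omega) (by omega) (by omega) (by omega) (by omega)
      grind
  have x2 : b P.s1 0 = c P.s3 0 ∧ c t4 3 = c 3 3 := by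
    have y1 := h.r3 t4 0 (by unfold pres; omega) (by first | (rw [gap1]; omega) | (rw [gap2]; omega) | (rw [gap0]; omega) | (rw [gap3]; omega) | (unfold gap; omega))
    have y3 := A2 t4 (by omega) le_rfl
    have y6 := ib t4 (by omega) le_rfl
    have y8 := O1 t4 (by omega) le_rfl
    have y9 := ot t4 (by omega) le_rfl
    by_cases e : t4 = P.s3
    · grind
    · have y4 := B P.s3 t4 (by omega) le_rfl (by omega) (by omega) (by omega) t4 (by omega) le_rfl
      have y7 := it t4 (by omega) (by omega) (by omega) (by omega) (by omega)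
      grind
  have x3 := h.r4 P.s1 0 (by unfold pres; omega) (by rw [pl_of (by omega)]; first | (rw [gap1]; omega) | (rw [gap2]; omega) | (rw [gap0]; omega) | (rw [gap3]; omega) | (unfold gap; omega))
  have x4 := ib P.s1 (by omega) (by omega)
  have x5 := B P.s1 P.s2 (by omega) (by omega) (by omega) (by omega) (by omega) _ (by omega) le_rfl
  have x6 := B P.s2 P.s3 (by omega) (by omega) (by omega) (by omega) (by omega) _ (by omega) le_rfl
  have x7 := O t1 (t2 + 1) (by omega) (by omega) (by omega) (by omega) (by omega) _ (by omega) le_rfl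
  have x8 := O (t2 + 1) (t3 + 1) (by omega) (by omega) (by omega) (by omega) (by omega) _
    (by omega) le_rfl
  have x9 := O (t3 + 1) t4 (by omega) (by omega) (by omega) (by omega) (by omega) _
    (by omega) le_rfl
  have x10 := h.r6 t4 2 3 (by unfold col; omega) (by unfold neg; omega) rfl
  have x11 := h.r3 t4 3 (by unfold pres; omega) (by first | (rw [gap1]; omega) | (rw [gap2]; omega) | (rw [gap0]; omega) | (rw [gap3]; omega) | (unfold gap; omega))
  have x12 := ot 3 le_rfl (by omega)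
  have z1 := h.r1 0 0 (by unfold pres; omega) (Or.inl rfl)
  have z2 : ∀ l, l ≤ 5 → a 0 l = d 0 l := fun l _ => h.r4 0 l (by unfold pres; omega) (Or.inl rfl)
  have z3 : ∀ l, l ≤ 4 → d 0 l = a 0 (l + 1) ∧ c 0 l = b 0 (l + 1) := fun l _ =>
    h.r6 0 l _ (by unfold col; omega) (by unfold neg; omega) rfl
  have z4 := h.r5 0 0 3 (by first | (rw [gap1]; omega) | (rw [gap2]; omega) | (rw [gap0]; omega) | (rw [gap3]; omega) | (unfold gap; omega)) rfl
  have z5 := h.r5 0 3 3 (by first | (rw [gap1]; omega) | (rw [gap2]; omega) | (rw [gap0]; omega) | (rw [gap3]; omega) | (unfold gap; omega)) rfl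
  have z6 := h.r5 0 2 1 (by first | (rw [gap1]; omega) | (rw [gap2]; omega) | (rw [gap0]; omega) | (rw [gap3]; omega) | (unfold gap; omega)) rfl
  have z7 := h.r5 0 4 1 (by first | (rw [gap1]; omega) | (rw [gap2]; omega) | (rw [gap0]; omega) | (rw [gap3]; omega) | (unfold gap; omega)) rfl
  have z8 := h.r5 1 4 2 (by first | (rw [gap1]; omega) | (rw [gap2]; omega) | (rw [gap0]; omega) | (rw [gap3]; omega) | (unfold gap; omega)) rfl
  have z9 := h.r5 1 1 2 (by first | (rw [gap1]; omega) | (rw [gap2]; omega) | (rw [gap0]; omega) | (rw [gap3]; omega) | (unfold gap; omega)) rfl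
  have z10 := h.r3 0 1 (by unfold pres; omega) (by first | (rw [gap1]; omega) | (rw [gap2]; omega) | (rw [gap0]; omega) | (rw [gap3]; omega) | (unfold gap; omega))
  have z11 := h.r3 0 5 (by unfold pres; omega) (by first | (rw [gap1]; omega) | (rw [gap2]; omega) | (rw [gap0]; omega) | (rw [gap3]; omega) | (unfold gap; omega))
  have z12 := h.r2 0 5 (by unfold pres; omega) (by unfold col; omega)
  have z13 := h.r7 1 (by omega) (by unfold neg; omega)
  have z14 := h.r7 2 (by omega) (by unfold neg; omega)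
  have z15 := h.r1 1 1 (by unfold pres; omega) (by unfold col; omega)
  have z16 := h.r1 2 1 (by unfold pres; omega) (by unfold col; omega)
  have z17 := h.r4 1 1 (by unfold pres; omega) (by rw [pl_of (by omega)]; first | (rw [gap1]; omega) | (rw [gap2]; omega) | (rw [gap0]; omega) | (rw [gap3]; omega) | (unfold gap; omega))
  have z18 := h.r3 2 1 (by unfold pres; omega) (by first | (rw [gap1]; omega) | (rw [gap2]; omega) | (rw [gap0]; omega) | (rw [gap3]; omega) | (unfold gap; omega))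
  have z19 := h.r3 1 2 (by unfold pres; omega) (by first | (rw [gap1]; omega) | (rw [gap2]; omega) | (rw [gap0]; omega) | (rw [gap3]; omega) | (unfold gap; omega))
  have z20 := h.r2 1 2 (by unfold pres; omega) (by unfold col; omega)
  have z21 := h.r4 2 2 (by unfold pres; omega) (by rw [pl_of (by omega)]; first | (rw [gap1]; omega) | (rw [gap2]; omega) | (rw [gap0]; omega) | (rw [gap3]; omega) | (unfold gap; omega))
  have z22 := h.r3 2 2 (by unfold pres; omega) (by first | (rw [gap1]; omega) | (rw [gap2]; omega) | (rw [gap0]; omega) | (rw [gap3]; omega) | (unfold gap; omega))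
  have z23 := h.r6 2 2 3 (by unfold col; omega) (by unfold neg; omega) rfl
  have z24 := h.r4 2 3 (by unfold pres; omega) (by rw [pl_of (by omega)]; first | (rw [gap1]; omega) | (rw [gap2]; omega) | (rw [gap0]; omega) | (rw [gap3]; omega) | (unfold gap; omega))
  have z25 := h.r3 2 3 (by unfold pres; omega) (by first | (rw [gap1]; omega) | (rw [gap2]; omega) | (rw [gap0]; omega) | (rw [gap3]; omega) | (unfold gap; omega))
  have z26 := h.r1 1 4 (by unfold pres; omega) (by unfold col; omega)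
  have z27 := h.r2 1 4 (by unfold pres; omega) (by unfold col; omega)
  have z28 := h.r2 2 4 (by unfold pres; omega) (by unfold col; omega)
  have z29 := h.r3 2 4 (by unfold pres; omega) (by first | (rw [gap1]; omega) | (rw [gap2]; omega) | (rw [gap0]; omega) | (rw [gap3]; omega) | (unfold gap; omega))
  have z30 : (d 2 3 = a 2 4 ∧ c 2 3 = b 2 4 ∧ d t1 2 = a t1 3 ∧ c t1 2 = b t1 3) ∨
      (c 2 3 = d 2 3 ∧ a 2 4 = b 2 4 ∧ c t1 2 = d t1 2 ∧ a t1 3 = b t1 3) := by
    by_cases g : P.g = 1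
    · have y1 := h.r6 2 3 4 (by unfold col; omega) (by unfold neg; omega) rfl
      have y2 := h.r6 t1 2 3 (by unfold col; omega) (by unfold neg; omega) rfl
      exact Or.inl ⟨y1.1, y1.2, y2.1, y2.2⟩
    · exact Or.inr ⟨h.r2 2 3 (by unfold pres; omega) (by unfold col; omega),
        h.r1 2 4 (by unfold pres; omega) (by unfold col; omega),
        h.r2 t1 2 (by unfold pres; omega) (by unfold col; omega),
        h.r1 t1 3 (by unfold pres; omega) (by unfold col; omega)⟩
  have w0 := z2 0 (by omega)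
  have w1 := z2 1 (by omega)
  have w2 := z2 2 (by omega)
  have w3 := z2 3 (by omega)
  have w4 := z2 4 (by omega)
  have w5 := z2 5 (by omega)
  have v0 : d 0 0 = a 0 1 ∧ c 0 0 = b 0 1 := z3 0 (by omega)
  have v1 : d 0 1 = a 0 2 ∧ c 0 1 = b 0 2 := z3 1 (by omega)
  have v2 : d 0 2 = a 0 3 ∧ c 0 2 = b 0 3 := z3 2 (by omega)
  have v3 : d 0 3 = a 0 4 ∧ c 0 3 = b 0 4 := z3 3 (by omega)
  have v4 : d 0 4 = a 0 5 ∧ c 0 4 = b 0 5 := z3 4 (by omega)
  have L5 : (d t4 2 = c P.s3 0 ∧ c t4 2 = d P.s3 0) ∨ (d t4 2 = d P.s3 0 ∧ c t4 2 = c P.s3 0) := by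
    by_cases j : P.neg P.s3 1
    · exact Or.inl (L4.1 j)
    · exact Or.inr (L4.2 j)
  have F : (All a b c d 0 0 (a 0 0) ∧ All a b c d 0 1 (a 0 0) ∧ All a b c d 0 2 (a 0 0) ∧
      All a b c d 0 3 (a 0 0) ∧ All a b c d 0 4 (a 0 0) ∧ All a b c d 0 5 (a 0 0)) ∧
      (All a b c d 1 1 (a 0 0) ∧ All a b c d 1 2 (a 0 0) ∧ All a b c d 1 4 (a 0 0)) ∧
      (All a b c d 2 1 (a 0 0) ∧ All a b c d 2 2 (a 0 0) ∧ All a b c d 2 3 (a 0 0) ∧
      All a b c d 2 4 (a 0 0)) ∧ All a b c d 3 0 (a 0 0) ∧ All a b c d P.s1 0 (a 0 0) ∧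
      (c P.s2 0 = a 0 0 ∧ c P.s3 0 = a 0 0 ∧ d P.s3 0 = a 0 0) ∧
      (a 3 3 = a 0 0 ∧ c 3 3 = a 0 0 ∧ b t1 3 = a 0 0 ∧ b (t2 + 1) 3 = a 0 0 ∧
        b (t3 + 1) 3 = a 0 0 ∧ b t4 3 = a 0 0) := by
    have y := ib 3 le_rfl (by omega)
    clear g5 ib it ot ob A1 A2 B O1 O L1' L4 L4' D2'' D3'' z2 z3 h hp
    unfold All
    rcases L5 with L5 | L5 <;> rcases z30 with z30 | z30 <;> grind
  obtain ⟨⟨f1, f2, f3, f4, f5, f6⟩, ⟨f7, f8, f9⟩, ⟨f10, f11, f12, f13⟩, f14, f15, ⟨f16, f17, f18⟩,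
    f19, f20, f21, f22, f23, f24⟩ := F
  unfold pres at hp
  by_cases k2 : k ≤ 2
  · interval_cases k <;> [rcases (by omega : l = 0 ∨ l = 1 ∨ l = 2 ∨ l = 3 ∨ l = 4 ∨ l = 5) with
      rfl | rfl | rfl | rfl | rfl | rfl; rcases (by omega : l = 1 ∨ l = 2 ∨ l = 4) with
      rfl | rfl | rfl; rcases (by omega : l = 1 ∨ l = 2 ∨ l = 3 ∨ l = 4) with
      rfl | rfl | rfl | rfl] <;> assumption
  have mid : All a b c d k 1 (a 0 0) ∧ All a b c d k 2 (a 0 0) := by
    by_cases j1 : k ≤ t1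
    · rw [← f14.2.2.1]; exact L1' (f14.2.2.1.trans f14.2.2.2.symm) k (by omega) j1
    by_cases j2 : k ≤ t2 + 1
    · rw [← f15.2.2.1]; exact D2'' (by rw [D2', f22, f15.2.2.1]) k (by omega) j2
    by_cases j3 : k ≤ t3 + 1
    · rw [← f16]; exact D3'' (by rw [D3', f23, f16]) k (by omega) j3
    · rw [← f17]; exact L4' (f17.trans f18.symm) k (by omega) (by omega)
  rcases (by omega : l = 0 ∨ l = 1 ∨ l = 2 ∨ l = 3) with rfl | rfl | rfl | rfl
  · by_cases j0 : k = 3
    · rw [j0]; exact f14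
    by_cases j1 : k = P.s1
    · rw [j1]; exact f15
    have q1 : a k 0 = a 0 0 := by
      by_cases j : k ≤ t1
      · rw [A1 k (by omega) j, f14.2.1]
      · rw [A2 k (by omega) (by omega), f15.2.1]
    have q2 : d k 0 = a 0 0 := by
      by_cases j : k ≤ t1
      · rw [B 3 t1 le_rfl (by omega) (by omega) (by omega) (by omega) k (by omega) j, f14.2.2.1]
      by_cases j2 : k ≤ P.s2
      · rw [B P.s1 P.s2 (by omega) (by omega) (by omega) (by omega) (by omega) k (by omega) j2,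
          f15.2.2.1]
      by_cases j3 : k ≤ P.s3
      · rw [B P.s2 P.s3 (by omega) (by omega) (by omega) (by omega) (by omega) k (by omega) j3, f16]
      · rw [B P.s3 t4 (by omega) (by omega) (by omega) (by omega) (by omega) k (by omega)
          (by omega), f17]
    refine ⟨q1, by rw [← ib k (by omega) (by omega), q1], ?_, q2⟩
    by_cases j2 : k = P.s2
    · rw [j2, f16]
    by_cases j3 : k = P.s3
    · rw [j3, f17]
    · rw [← it k (by omega) (by omega) j1 j2 j3, q2]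
  · exact mid.1
  · exact mid.2
  · have q2 : d k 3 = a 0 0 := by
      by_cases j : k = 3
      · rw [j, x12, f20]
      · rw [O1 k (by omega) (by omega), f20]
    have q0 : b 3 3 = a 0 0 := by
      by_cases j : t1 = 3
      · rw [j] at f21; exact f21
      · rw [← ob 3 le_rfl (by omega) (by omega) (by omega) (by omega), f19]
    have q1 : a k 3 = a 0 0 := by
      by_cases j0 : k = 3
      · rw [j0, f19]
      by_cases j : k ≤ t1
      · rw [O 3 t1 le_rfl (by omega) (by omega) (by omega) (by omega) k (by omega) j, q0]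
      by_cases j2 : k ≤ t2 + 1
      · rw [O t1 _ (by omega) (by omega) (by omega) (by omega) (by omega) k (by omega) j2, f21]
      by_cases j3 : k ≤ t3 + 1
      · rw [O (t2 + 1) _ (by omega) (by omega) (by omega) (by omega) (by omega) k (by omega) j3, f22]
      · rw [O (t3 + 1) t4 (by omega) (by omega) (by omega) (by omega) (by omega) k (by omega)
          (by omega), f23]
    refine ⟨q1, ?_, by rw [← ot k (by omega) (by omega), q2], q2⟩
    by_cases j1 : k = t1
    · rw [j1, f21]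
    by_cases j2 : k = t2 + 1
    · rw [j2, f22]
    by_cases j3 : k = t3 + 1
    · rw [j3, f23]
    by_cases j4 : k = t4
    · rw [j4, f24]
    · rw [← ob k (by omega) (by omega) j1 j2 j3, q1]

end Par

end Pool.Agent.P.MP_06cdda_gt
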