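import Pool.Agent.P.MP_06cdda_gt.FamRaw

open Finset

set_option linter.unreachableTactic false
set_option linter.unusedTactic false

namespace Pool.Agent.P.MP_06cdda_gt

open Rib

namespace Par

variable {P : Par}

theorem const {f : ℕ → ℤ} {s t : ℕ} (h : ∀ k, s < k → k < t → f k = f (k - 1)) :
    ∀ k, s ≤ k → k < t → f k = f s := by
  intro k hk
  induction k, hk using Nat.le_induction with
  | base => exact fun _ => rfl
  | succ k hk ih => exact fun j => by rw [h _ (by omega) j, Nat.add_sub_cancel, ih (by omega)]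

theorem ce {C G : ℕ → ℕ → ℤ} (h : ∀ k l, P.pres k l → P.cons C G k l = 0) (k l k0 l0 : ℕ)
    (b1 b2 b3 b4 : ℤ) (hp : P.pres k l)
    (h0 : ((k = 3 ∧ (l = 0 ∨ l = 3) ∧ k0 = 0) ∨ (¬ (k = 3 ∧ (l = 0 ∨ l = 3)) ∧ k0 = k - 1)) ∧
      l - 1 = l0)
    (h1 : (b1 = 1 ∧ l ≠ 0 ∧ P.col k l0) ∨ (b1 = 0 ∧ ¬ (l ≠ 0 ∧ P.col k l0)))
    (h2 : (b2 = 1 ∧ P.col k l) ∨ (b2 = 0 ∧ ¬ P.col k l))
    (h3 : (b3 = 1 ∧ k ≠ 0 ∧ P.gap k0 l) ∨ (b3 = 0 ∧ ¬ (k ≠ 0 ∧ P.gap k0 l)))
    (h4 : (b4 = 1 ∧ P.gap k l) ∨ (b4 = 0 ∧ ¬ P.gap k l)) :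
    b1 * C k l0 - b2 * C k l + b3 * G k0 l - b4 * G k l = 0 := by
  have := h k l hp
  have e : pl k l = k0 := by unfold pl; split_ifs <;> omega
  rw [cons, e, h0.2] at this
  rcases h1 with ⟨rfl, h1⟩ | ⟨rfl, h1⟩ <;> rcases h2 with ⟨rfl, h2⟩ | ⟨rfl, h2⟩ <;>
    rcases h3 with ⟨rfl, h3⟩ | ⟨rfl, h3⟩ <;> rcases h4 with ⟨rfl, h4⟩ | ⟨rfl, h4⟩ <;>
    simp only [h1, h2, h3, h4, if_true, if_false, ne_eq, not_false_iff, and_self] at this <;> omega

theorem ibar {C G : ℕ → ℕ → ℤ} (h : ∀ k l, P.pres k l → P.cons C G k l = 0) :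
    C 3 0 = G 0 0 ∧ (∀ k, 3 ≤ k → k + 1 < P.s1 → G k 0 = 0) ∧
      (C P.s1 0 = 0 → C P.s2 0 = 0 → C P.s3 0 = 0 ∧ ∀ k, P.s1 ≤ k → k + 1 < P.m → G k 0 = 0) := by
  have := P.h1; have := P.h2; have := P.h3; have := P.h4; have := P.h5
  have st : ∀ s t, 3 ≤ s → t < P.m → (t < P.s1 ∨ P.s1 ≤ s) → (t ≤ P.s2 ∨ P.s2 ≤ s) →
      (t ≤ P.s3 ∨ P.s3 ≤ s) → ∀ k, s ≤ k → k < t → G k 0 = G s 0 := fun s t _ _ _ _ _ =>
    const (f := fun k => G k 0) fun k _ _ => by
      have := ce h k 0 (k - 1) 0 0 0 1 1
        (by unfold pres; omega) (by omega) (by unfold col; omega) (by unfold col; omega)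
        (by first | (rw [gap1]; omega) | (rw [gap2]; omega) | (rw [gap0]; omega) | (rw [gap3]; omega) | (unfold gap; omega)) (by first | (rw [gap1]; omega) | (rw [gap2]; omega) | (rw [gap0]; omega) | (rw [gap3]; omega) | (unfold gap; omega))
      omega
  have a1 : ∀ k, 3 ≤ k → k + 1 < P.s1 → G k 0 = 0 := fun k _ _ => by
    have e1 := st 3 (P.s1 - 1) le_rfl (by omega) (by omega) (by omega) (by omega)
    have e2 := ce h (P.s1 - 1) 0 (P.s1 - 1 - 1) 0 0 0 1 0
      (by unfold pres; omega) (by omega) (by unfold col; omega) (by unfold col; omega)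
      (by first | (rw [gap1]; omega) | (rw [gap2]; omega) | (rw [gap0]; omega) | (rw [gap3]; omega) | (unfold gap; omega)) (by first | (rw [gap1]; omega) | (rw [gap2]; omega) | (rw [gap0]; omega) | (rw [gap3]; omega) | (unfold gap; omega))
    have e3 := e1 k (by omega) (by omega)
    have e4 := e1 (P.s1 - 1 - 1) (by omega) (by omega)
    omega
  refine ⟨?_, a1, fun h1 h2 => ?_⟩
  · by_cases j : P.s1 = 4
    · have := ce h 3 0 0 0 0 1 1 0
        (by unfold pres; omega) (by omega) (by unfold col; omega) (by unfold col; omega)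
        (by first | (rw [gap1]; omega) | (rw [gap2]; omega) | (rw [gap0]; omega) | (rw [gap3]; omega) | (unfold gap; omega)) (by first | (rw [gap1]; omega) | (rw [gap2]; omega) | (rw [gap0]; omega) | (rw [gap3]; omega) | (unfold gap; omega))
      omega
    · have := ce h 3 0 0 0 0 1 1 1
        (by unfold pres; omega) (by omega) (by unfold col; omega) (by unfold col; omega)
        (by first | (rw [gap1]; omega) | (rw [gap2]; omega) | (rw [gap0]; omega) | (rw [gap3]; omega) | (unfold gap; omega)) (by first | (rw [gap1]; omega) | (rw [gap2]; omega) | (rw [gap0]; omega) | (rw [gap3]; omega) | (unfold gap; omega))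
      have := a1 3 le_rfl (by omega)
      omega
  have b1 := ce h P.s1 0 (P.s1 - 1) 0 0 1 0 1
    (by unfold pres; omega) (by omega) (by unfold col; omega) (by unfold col; omega)
    (by first | (rw [gap1]; omega) | (rw [gap2]; omega) | (rw [gap0]; omega) | (rw [gap3]; omega) | (unfold gap; omega)) (by first | (rw [gap1]; omega) | (rw [gap2]; omega) | (rw [gap0]; omega) | (rw [gap3]; omega) | (unfold gap; omega))
  have b2 := ce h P.s2 0 (P.s2 - 1) 0 0 1 1 1
    (by unfold pres; omega) (by omega) (by unfold col; omega) (by unfold col; omega)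
    (by first | (rw [gap1]; omega) | (rw [gap2]; omega) | (rw [gap0]; omega) | (rw [gap3]; omega) | (unfold gap; omega)) (by first | (rw [gap1]; omega) | (rw [gap2]; omega) | (rw [gap0]; omega) | (rw [gap3]; omega) | (unfold gap; omega))
  have c1 := st P.s1 P.s2 (by omega) (by omega) (by omega) (by omega) (by omega)
  have c2 := st P.s2 P.s3 (by omega) (by omega) (by omega) (by omega) (by omega)
  have c3 := st P.s3 (P.m - 1) (by omega) (by omega) (by omega) (by omega) (by omega)
  have d2 := c1 (P.s2 - 1) (by omega) (by omega)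
  have d3 : P.s3 + 1 < P.m → G P.s3 0 = 0 := fun _ => by
    have := c3 (P.m - 1 - 1) (by omega) (by omega)
    have e2 := ce h (P.m - 1) 0 (P.m - 1 - 1) 0 0 0 1 0
      (by unfold pres; omega) (by omega) (by unfold col; omega) (by unfold col; omega)
      (by first | (rw [gap1]; omega) | (rw [gap2]; omega) | (rw [gap0]; omega) | (rw [gap3]; omega) | (unfold gap; omega)) (by first | (rw [gap1]; omega) | (rw [gap2]; omega) | (rw [gap0]; omega) | (rw [gap3]; omega) | (unfold gap; omega))
    omega
  refine ⟨?_, fun k _ _ => ?_⟩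
  · have := c2 (P.s3 - 1) (by omega) (by omega)
    by_cases j : P.s3 + 1 < P.m
    · have := ce h P.s3 0 (P.s3 - 1) 0 0 1 1 1
        (by unfold pres; omega) (by omega) (by unfold col; omega) (by unfold col; omega)
        (by first | (rw [gap1]; omega) | (rw [gap2]; omega) | (rw [gap0]; omega) | (rw [gap3]; omega) | (unfold gap; omega)) (by first | (rw [gap1]; omega) | (rw [gap2]; omega) | (rw [gap0]; omega) | (rw [gap3]; omega) | (unfold gap; omega))
      omega
    · have := ce h P.s3 0 (P.s3 - 1) 0 0 1 1 0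
        (by unfold pres; omega) (by omega) (by unfold col; omega) (by unfold col; omega)
        (by first | (rw [gap1]; omega) | (rw [gap2]; omega) | (rw [gap0]; omega) | (rw [gap3]; omega) | (unfold gap; omega)) (by first | (rw [gap1]; omega) | (rw [gap2]; omega) | (rw [gap0]; omega) | (rw [gap3]; omega) | (unfold gap; omega))
      omega
  · have e1 := c1 k
    have e2 := c2 k
    have e3 := c3 k
    omega

theorem zero_flow {C G : ℕ → ℕ → ℤ} (h : ∀ k l, P.pres k l → P.cons C G k l = 0)
    (h0 : C 2 1 = 0) (h1 : G 0 0 = 0) (h2 : C P.s1 0 = 0) (h3 : C P.s2 0 = 0)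
    (h4 : G (P.s2 - 2) 1 = 0) (h5 : G (P.s3 - 2) 1 = 0) :
    (∀ k l, P.col k l → C k l = 0) ∧ ∀ k l, P.gap k l → G k l = 0 := by
  have := P.h1; have := P.h2; have := P.h3; have := P.h4; have := P.h5
  obtain ⟨i1, i2, i3⟩ := ibar h
  obtain ⟨i3, i4⟩ := i3 h2 h3
  have low : (C 0 0 = 0 ∧ C 0 1 = 0 ∧ C 0 2 = 0 ∧ C 0 3 = 0 ∧ C 0 4 = 0) ∧ C 1 1 = 0 ∧ C 2 2 = 0 ∧
      (P.g = 1 → C 2 3 = 0) ∧ G 1 1 = 0 ∧ G 0 2 = 0 ∧ G 0 3 = 0 ∧ G 0 4 = 0 ∧ G 1 4 = 0 := by
    have e1 := ce h 0 0 0 0 0 1 0 1
      (by unfold pres; omega) (by omega) (by unfold col; omega) (by unfold col; omega)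
      (by first | (rw [gap1]; omega) | (rw [gap2]; omega) | (rw [gap0]; omega) | (rw [gap3]; omega) | (unfold gap; omega)) (by first | (rw [gap1]; omega) | (rw [gap2]; omega) | (rw [gap0]; omega) | (rw [gap3]; omega) | (unfold gap; omega))
    have e2 := ce h 0 1 0 0 1 1 0 0
      (by unfold pres; omega) (by omega) (by unfold col; omega) (by unfold col; omega)
      (by first | (rw [gap1]; omega) | (rw [gap2]; omega) | (rw [gap0]; omega) | (rw [gap3]; omega) | (unfold gap; omega)) (by first | (rw [gap1]; omega) | (rw [gap2]; omega) | (rw [gap0]; omega) | (rw [gap3]; omega) | (unfold gap; omega))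
    have e3 := ce h 0 2 0 1 1 1 0 1
      (by unfold pres; omega) (by omega) (by unfold col; omega) (by unfold col; omega)
      (by first | (rw [gap1]; omega) | (rw [gap2]; omega) | (rw [gap0]; omega) | (rw [gap3]; omega) | (unfold gap; omega)) (by first | (rw [gap1]; omega) | (rw [gap2]; omega) | (rw [gap0]; omega) | (rw [gap3]; omega) | (unfold gap; omega))
    have e4 := ce h 0 3 0 2 1 1 0 1
      (by unfold pres; omega) (by omega) (by unfold col; omega) (by unfold col; omega)
      (by first | (rw [gap1]; omega) | (rw [gap2]; omega) | (rw [gap0]; omega) | (rw [gap3]; omega) | (unfold gap; omega)) (by first | (rw [gap1]; omega) | (rw [gap2]; omega) | (rw [gap0]; omega) | (rw [gap3]; omega) | (unfold gap; omega))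
    have e5 := ce h 0 4 0 3 1 1 0 1
      (by unfold pres; omega) (by omega) (by unfold col; omega) (by unfold col; omega)
      (by first | (rw [gap1]; omega) | (rw [gap2]; omega) | (rw [gap0]; omega) | (rw [gap3]; omega) | (unfold gap; omega)) (by first | (rw [gap1]; omega) | (rw [gap2]; omega) | (rw [gap0]; omega) | (rw [gap3]; omega) | (unfold gap; omega))
    have e6 := ce h 0 5 0 4 1 0 0 0
      (by unfold pres; omega) (by omega) (by unfold col; omega) (by unfold col; omega)
      (by first | (rw [gap1]; omega) | (rw [gap2]; omega) | (rw [gap0]; omega) | (rw [gap3]; omega) | (unfold gap; omega)) (by first | (rw [gap1]; omega) | (rw [gap2]; omega) | (rw [gap0]; omega) | (rw [gap3]; omega) | (unfold gap; omega))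
    have e7 := ce h 1 1 0 0 0 1 0 1
      (by unfold pres; omega) (by omega) (by unfold col; omega) (by unfold col; omega)
      (by first | (rw [gap1]; omega) | (rw [gap2]; omega) | (rw [gap0]; omega) | (rw [gap3]; omega) | (unfold gap; omega)) (by first | (rw [gap1]; omega) | (rw [gap2]; omega) | (rw [gap0]; omega) | (rw [gap3]; omega) | (unfold gap; omega))
    have e8 := ce h 1 2 0 1 1 0 1 0
      (by unfold pres; omega) (by omega) (by unfold col; omega) (by unfold col; omega)
      (by first | (rw [gap1]; omega) | (rw [gap2]; omega) | (rw [gap0]; omega) | (rw [gap3]; omega) | (unfold gap; omega)) (by first | (rw [gap1]; omega) | (rw [gap2]; omega) | (rw [gap0]; omega) | (rw [gap3]; omega) | (unfold gap; omega))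
    have e9 := ce h 1 4 0 3 0 0 1 1
      (by unfold pres; omega) (by omega) (by unfold col; omega) (by unfold col; omega)
      (by first | (rw [gap1]; omega) | (rw [gap2]; omega) | (rw [gap0]; omega) | (rw [gap3]; omega) | (unfold gap; omega)) (by first | (rw [gap1]; omega) | (rw [gap2]; omega) | (rw [gap0]; omega) | (rw [gap3]; omega) | (unfold gap; omega))
    have e10 := ce h 2 1 1 0 0 1 1 0
      (by unfold pres; omega) (by omega) (by unfold col; omega) (by unfold col; omega)
      (by first | (rw [gap1]; omega) | (rw [gap2]; omega) | (rw [gap0]; omega) | (rw [gap3]; omega) | (unfold gap; omega)) (by first | (rw [gap1]; omega) | (rw [gap2]; omega) | (rw [gap0]; omega) | (rw [gap3]; omega) | (unfold gap; omega))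
    have e11 := ce h 2 2 1 1 1 1 0 0
      (by unfold pres; omega) (by omega) (by unfold col; omega) (by unfold col; omega)
      (by first | (rw [gap1]; omega) | (rw [gap2]; omega) | (rw [gap0]; omega) | (rw [gap3]; omega) | (unfold gap; omega)) (by first | (rw [gap1]; omega) | (rw [gap2]; omega) | (rw [gap0]; omega) | (rw [gap3]; omega) | (unfold gap; omega))
    by_cases g : P.g = 1
    · have e12 := ce h 2 3 1 2 1 1 0 0
        (by unfold pres; omega) (by omega) (by unfold col; omega) (by unfold col; omega)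
        (by first | (rw [gap1]; omega) | (rw [gap2]; omega) | (rw [gap0]; omega) | (rw [gap3]; omega) | (unfold gap; omega)) (by first | (rw [gap1]; omega) | (rw [gap2]; omega) | (rw [gap0]; omega) | (rw [gap3]; omega) | (unfold gap; omega))
      have e13 := ce h 2 4 1 3 1 0 1 0
        (by unfold pres; omega) (by omega) (by unfold col; omega) (by unfold col; omega)
        (by first | (rw [gap1]; omega) | (rw [gap2]; omega) | (rw [gap0]; omega) | (rw [gap3]; omega) | (unfold gap; omega)) (by first | (rw [gap1]; omega) | (rw [gap2]; omega) | (rw [gap0]; omega) | (rw [gap3]; omega) | (unfold gap; omega))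
      omega
    · have e13 := ce h 2 4 1 3 0 0 1 0
        (by unfold pres; omega) (by omega) (by unfold col; omega) (by unfold col; omega)
        (by first | (rw [gap1]; omega) | (rw [gap2]; omega) | (rw [gap0]; omega) | (rw [gap3]; omega) | (unfold gap; omega)) (by first | (rw [gap1]; omega) | (rw [gap2]; omega) | (rw [gap0]; omega) | (rw [gap3]; omega) | (unfold gap; omega))
      omega
  have mid : ∀ k, 2 ≤ k → k < P.m → C k 1 = 0 ∧ (P.gap k 1 → G k 1 = 0) ∧
      (P.gap k 2 → G k 2 = 0) ∧ (P.col k 2 → C k 2 = 0) := by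
    intro k hk
    induction k, hk using Nat.le_induction with
    | base => exact fun _ => ⟨h0, fun j => absurd rfl (gap_pres j).2.2.2,
        fun j => absurd rfl (gap_pres j).2.2.2, fun _ => low.2.2.1⟩
    | succ k hk ih =>
      intro hm
      obtain ⟨-, a1, a2, -⟩ := ih (by omega)
      have e1 := h (k + 1) 1 (by unfold pres; omega)
      have e2 := h (k + 1) 2 (by unfold pres; omega)
      have e0 : P.col (k + 1) 0 → C (k + 1) 0 = 0 := fun j => by
        rcases (by unfold col at j; omega : k + 1 = 3 ∨ k + 1 = P.s1 ∨ k + 1 = P.s2 ∨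
          k + 1 = P.s3) with e | e | e | e <;> rw [e] <;> omega
      have e3 : P.col (k + 1) 1 := by unfold col; omega
      have e4 : P.gap (k + 1) 1 → G (k + 1) 1 = 0 ∨ (¬ P.gap (k + 1) 2 ∧ ¬ P.col (k + 1) 2) := by
        intro j
        by_cases j2 : k + 1 = P.s2 - 2
        · exact Or.inl (j2 ▸ h4)
        by_cases j3 : k + 1 = P.s3 - 2
        · exact Or.inl (j3 ▸ h5)
        right
        unfold gap at j
        constructor
        · first | (rw [gap1]; omega) | (rw [gap2]; omega) | (rw [gap0]; omega) | (rw [gap3]; omega) | (unfold gap; omega)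
        · unfold col; omega
      have e5 : ¬ (P.gap (k + 1) 2 ∧ P.col (k + 1) 2) := by
        rintro ⟨j1, j2⟩
        unfold gap at j1
        unfold col at j2
        omega
      rw [cons, pl_of (by omega)] at e1 e2
      simp only [Nat.add_sub_cancel, Nat.sub_self, Nat.add_one_sub_one, e3, if_true, ne_eq,
        one_ne_zero, not_false_iff, true_and, Nat.succ_ne_zero] at e1 e2
      clear h i2 i4 low ih
      grind
  have ob : ∀ k, 2 ≤ k → k + 1 < P.m → G (if k = 2 then 0 else k) 3 = 0 := by
    intro k hk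
    induction k, hk using Nat.le_induction with
    | base => exact fun _ => low.2.2.2.2.2.2.1
    | succ k hk ih =>
      intro hm
      have a1 := ih (by omega)
      have e2 := (mid (k + 1) (by omega) (by omega)).2.2.2
      have e5 : (k + 1 = 3 ∧ (3 = 0 ∨ 3 = 3) ∧ (if k = 2 then 0 else k) = 0) ∨
          (¬ (k + 1 = 3 ∧ (3 = 0 ∨ 3 = 3)) ∧ (if k = 2 then 0 else k) = k + 1 - 1) := by
        by_cases j : k = 2
        · rw [if_pos j]; omega
        · rw [if_neg j]; omega
      have e6 : P.gap (if k = 2 then 0 else k) 3 := by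
        by_cases j : k = 2
        · rw [if_pos j]; first | (rw [gap1]; omega) | (rw [gap2]; omega) | (rw [gap0]; omega) | (rw [gap3]; omega) | (unfold gap; omega)
        · rw [if_neg j]; first | (rw [gap1]; omega) | (rw [gap2]; omega) | (rw [gap0]; omega) | (rw [gap3]; omega) | (unfold gap; omega)
      rw [if_neg (by omega)]
      by_cases j : P.col (k + 1) 2
      · have := ce h (k + 1) 3 _ 2 1 0 1 1 (by unfold pres; omega) ⟨e5, rfl⟩
          (Or.inl ⟨rfl, by omega, j⟩) (by unfold col; omega) (Or.inl ⟨rfl, by omega, e6⟩)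
          (by first | (rw [gap1]; omega) | (rw [gap2]; omega) | (rw [gap0]; omega) | (rw [gap3]; omega) | (unfold gap; omega))
        have := e2 j
        omega
      · have := ce h (k + 1) 3 _ 2 0 0 1 1 (by unfold pres; omega) ⟨e5, rfl⟩
          (Or.inr ⟨rfl, fun e => j e.2⟩) (by unfold col; omega) (Or.inl ⟨rfl, by omega, e6⟩)
          (by first | (rw [gap1]; omega) | (rw [gap2]; omega) | (rw [gap0]; omega) | (rw [gap3]; omega) | (unfold gap; omega))
        omega
  refine ⟨fun k l j => ?_, fun k l j => ?_⟩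
  · have p := (col_pres j).1.1
    by_cases k0 : k = 0
    · subst k0
      rcases (by unfold col at j; omega : l = 0 ∨ l = 1 ∨ l = 2 ∨ l = 3 ∨ l = 4) with
        rfl | rfl | rfl | rfl | rfl <;> omega
    rcases j with ⟨rfl, j⟩ | ⟨rfl, j⟩ | ⟨rfl, j⟩ | ⟨rfl, j⟩ | ⟨rfl, j⟩
    · rcases j with rfl | rfl | rfl | rfl | rfl <;> omega
    · by_cases k1 : k = 1
      · subst k1; omega
      · exact (mid k (by omega) p).1
    · exact (mid k (by omega) p).2.2.2 (Or.inr (Or.inr (Or.inl ⟨rfl, j⟩)))
    · obtain ⟨rfl, g⟩ := j.resolve_left k0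
      exact low.2.2.2.1 g
    · omega
  · have p := (gap_pres j).1.1
    rcases id j with ⟨rfl, j'⟩ | ⟨rfl, j'⟩ | ⟨rfl, j'⟩ | ⟨rfl, j'⟩ | ⟨rfl, j'⟩
    · rcases j' with rfl | j'
      · exact h1
      · have e1 := i2 k
        have e2 := i4 k
        omega
    · by_cases k1 : k = 1
      · subst k1; omega
      · exact (mid k (by omega) p).2.1 j
    · by_cases k1 : k = 0
      · subst k1; omega
      · exact (mid k (by omega) p).2.2.1 j
    · rcases j' with rfl | j'
      · omega
      · have := ob k (by omega) j'.2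
        rwa [if_neg (by omega)] at this
    · interval_cases k <;> omega

theorem off_flow {C G : ℕ → ℕ → ℤ} (h : ∀ k l, P.pres k l → P.cons C G k l = 0) (hg : P.g ≠ 1) :
    C 2 1 = 0 ∧ G 0 0 = 0 := by
  have := P.h1; have := P.h2; have := P.h3; have := P.h4; have := P.h5
  constructor
  · have e1 := ce h 2 2 1 1 1 1 0 0
      (by unfold pres; omega) (by omega) (by unfold col; omega) (by unfold col; omega)
      (by first | (rw [gap1]; omega) | (rw [gap2]; omega) | (rw [gap0]; omega) | (rw [gap3]; omega) | (unfold gap; omega)) (by first | (rw [gap1]; omega) | (rw [gap2]; omega) | (rw [gap0]; omega) | (rw [gap3]; omega) | (unfold gap; omega))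
    have e2 := ce h 2 3 1 2 1 0 0 0
      (by unfold pres; omega) (by omega) (by unfold col; omega) (by unfold col; omega)
      (by first | (rw [gap1]; omega) | (rw [gap2]; omega) | (rw [gap0]; omega) | (rw [gap3]; omega) | (unfold gap; omega)) (by first | (rw [gap1]; omega) | (rw [gap2]; omega) | (rw [gap0]; omega) | (rw [gap3]; omega) | (unfold gap; omega))
    omega
  have q : ∀ i, 3 + 2 * i < P.s1 → C (3 + 2 * i) 1 = C 3 0 := by
    intro i
    induction i with
    | zero =>
      intro _
      have e1 := ce h 3 1 2 0 1 1 0 0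
        (by unfold pres; omega) (by omega) (by unfold col; omega) (by unfold col; omega)
        (by first | (rw [gap1]; omega) | (rw [gap2]; omega) | (rw [gap0]; omega) | (rw [gap3]; omega) | (unfold gap; omega)) (by first | (rw [gap1]; omega) | (rw [gap2]; omega) | (rw [gap0]; omega) | (rw [gap3]; omega) | (unfold gap; omega))
      simp only [mul_zero, add_zero]
      omega
    | succ i ih =>
      intro hi
      have a := ih (by omega)
      obtain ⟨k, hk⟩ : ∃ k, k = 3 + 2 * i := ⟨_, rfl⟩
      rw [show 3 + 2 * (i + 1) = k + 1 + 1 by omega]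
      rw [← hk] at a
      have e1 := ce h k 2 (k - 1) 1 1 0 0 1
        (by unfold pres; omega) (by omega) (by unfold col; omega) (by unfold col; omega)
        (by first | (rw [gap1]; omega) | (rw [gap2]; omega) | (rw [gap0]; omega) | (rw [gap3]; omega) | (unfold gap; omega)) (by first | (rw [gap1]; omega) | (rw [gap2]; omega) | (rw [gap0]; omega) | (rw [gap3]; omega) | (unfold gap; omega))
      have e2 := ce h (k + 1) 2 k 1 1 0 1 0
        (by unfold pres; omega) (by omega) (by unfold col; omega) (by unfold col; omega)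
        (by first | (rw [gap1]; omega) | (rw [gap2]; omega) | (rw [gap0]; omega) | (rw [gap3]; omega) | (unfold gap; omega)) (by first | (rw [gap1]; omega) | (rw [gap2]; omega) | (rw [gap0]; omega) | (rw [gap3]; omega) | (unfold gap; omega))
      have e3 := ce h (k + 1) 1 k 0 0 1 0 1
        (by unfold pres; omega) (by omega) (by unfold col; omega) (by unfold col; omega)
        (by first | (rw [gap1]; omega) | (rw [gap2]; omega) | (rw [gap0]; omega) | (rw [gap3]; omega) | (unfold gap; omega)) (by first | (rw [gap1]; omega) | (rw [gap2]; omega) | (rw [gap0]; omega) | (rw [gap3]; omega) | (unfold gap; omega))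
      have e4 := ce h (k + 1 + 1) 1 (k + 1) 0 0 1 1 0
        (by unfold pres; omega) (by omega) (by unfold col; omega) (by unfold col; omega)
        (by first | (rw [gap1]; omega) | (rw [gap2]; omega) | (rw [gap0]; omega) | (rw [gap3]; omega) | (unfold gap; omega)) (by first | (rw [gap1]; omega) | (rw [gap2]; omega) | (rw [gap0]; omega) | (rw [gap3]; omega) | (unfold gap; omega))
      omega
  obtain ⟨i, hi⟩ : ∃ i, P.s1 = 4 + 2 * i := ⟨(P.s1 - 4) / 2, by omega⟩
  have e1 := ce h (3 + 2 * i) 2 (3 + 2 * i - 1) 1 1 0 0 0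
    (by unfold pres; omega) (by omega) (by unfold col; omega) (by unfold col; omega)
    (by first | (rw [gap1]; omega) | (rw [gap2]; omega) | (rw [gap0]; omega) | (rw [gap3]; omega) | (unfold gap; omega)) (by first | (rw [gap1]; omega) | (rw [gap2]; omega) | (rw [gap0]; omega) | (rw [gap3]; omega) | (unfold gap; omega))
  have := q i (by omega)
  have := (ibar h).1
  omega

end Par

end Pool.Agent.P.MP_06cdda_gt
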