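import Pool.Agent.P.MP_06cdda_gt.Fam

namespace Pool.Agent.P.MP_06cdda_gt

open Rib

namespace Par

variable {P : Par}

theorem hi_iff {c d : P.ν} (hc : P.γ (c, 2) ≠ (c, 2)) (hd : P.γ (d, 2) ≠ (d, 2)) :
    P.L.hi P.R c d ↔ c.1.2 = d.1.2 ∧ ((c.1.1 < d.1.1 ∧ 3 ≤ d.1.1) ∨ (c.1.1 = 2 ∧ d.1.1 = 1)) := by
  obtain ⟨a1, a2, -⟩ := gl2 (gl_of hc)
  obtain ⟨b1, b2, -⟩ := gl2 (gl_of hd)
  simp only [Lay.hi, L, R, a1, a2, b1, b2]
  refine and_congr_right fun _ => ⟨?_, ?_⟩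
  · rintro ⟨ζ, ⟨k1, k2, -, -⟩, k3, k4, -, -⟩
    have := P.co c.1.1 c.1.2
    have := P.co d.1.1 d.1.2
    omega
  · have c1 := P.co c.1.1 c.1.2
    have c2 := P.co c.1.1 (c.1.2 + 1)
    have d1 := P.co d.1.1 d.1.2
    have d2 := P.co d.1.1 (d.1.2 + 1)
    rintro (k | k)
    · exact ⟨8 - 4 * d.1.1, ⟨by clear c1 c2 d2; omega, by clear c1 c2 d2; omega,
        by clear c1 c2 d1; omega, by clear c1 c2 d1; omega⟩, by clear c2 d1 d2; omega,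
        by clear c2 d1 d2; omega, by clear c1 d1 d2; omega, by clear c1 d1 d2; omega⟩
    · exact ⟨2, ⟨by clear c1 c2 d2; omega, by clear c1 c2 d2; omega,
        by clear c1 c2 d1; omega, by clear c1 c2 d1; omega⟩, by clear c2 d1 d2; omega,
        by clear c2 d1 d2; omega, by clear c1 d1 d2; omega, by clear c1 d1 d2; omega⟩

theorem spec_iff {n g : P.ν} (hg : P.γ (g, 1) ≠ (g, 1)) :
    P.L.spec P.R n g ↔ n.1 = (2, 3) ∧ g.1 = (0, 3) := by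
  obtain ⟨a1, a2, a3⟩ := gl1 (gl_of hg)
  have c1 := P.co n.1.1 n.1.2
  have c2 := P.co g.1.1 g.1.2
  have c3 := P.co (P.γ (g, 1)).1.1.1 g.1.2
  have c4 := nl_spec g.1.1 g.1.2
  have c5 := n.2
  unfold pres at c5
  simp only [Lay.spec, L, R, a1, Prod.ext_iff]
  constructor
  · rintro ⟨k0, k1, k2, -⟩
    omega
  · rintro ⟨⟨k1, k2⟩, k3, k4⟩
    have e : P.γ (n, 1) = (n, 1) := by
      by_contra hn
      have := gl1 (gl_of hn)
      omega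
    exact ⟨by omega, by omega, by omega, ⟨by rw [e], by rw [e]⟩, 0, by omega, by omega, by omega,
      by omega⟩

variable (P) in
def cw (k k' : ℕ) : ℤ :=
  if k < k' ∧ 3 ≤ k' ∧ P.ng k' 1 = 1 then -1 else if k = 2 ∧ k' = 1 then 1 else 0

theorem colw_eq {c d : P.ν} (hc : P.γ (c, 2) ≠ (c, 2)) (hd : P.γ (d, 2) ≠ (d, 2)) :
    P.L.colw P.R c d = if c.1.2 = 1 ∧ d.1.2 = 1 then P.cw c.1.1 d.1.1 else 0 := by
  obtain ⟨a1, a2, a3⟩ := gl2 (gl_of hc)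
  obtain ⟨b1, b2, b3⟩ := gl2 (gl_of hd)
  have c1 := P.co c.1.1 c.1.2
  have c2 := P.co c.1.1 (c.1.2 + 1)
  have d1 := P.co d.1.1 d.1.2
  have d2 := P.co d.1.1 (d.1.2 + 1)
  unfold Lay.colw cw
  rw [hi_iff hc hd]
  simp only [L, R, a1, a2, b1, b2]
  have e : d.1.2 = 1 → P.ng d.1.1 d.1.2 = P.ng d.1.1 1 := fun e => by rw [e]
  split_ifs <;> omega

end Par

end Pool.Agent.P.MP_06cdda_gt
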