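import Pool.Agent.P.MP_06cdda_gt.FamRaw
import Pool.Agent.P.MP_06cdda_gt.FamGeo

open Finset

namespace Pool.Agent.P.MP_06cdda_gt

open Rib

namespace Par

variable {P : Par}

theorem sum_strip (F : ℕ → ℤ) : ∑ s ∈ univ.filter P.R.src,
    (if s.2 = 2 ∧ s.1.1.2 = 1 then F s.1.1.1 else 0) = ∑ k ∈ range P.m, F k := by
  rw [← sum_filter]
  refine sum_bij (fun s _ => s.1.1.1) (fun s _ => mem_range.2 s.1.2.1) ?_ ?_ fun _ _ => rfl
  · intro s hs t ht e
    have a := (mem_filter.1 hs).2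
    have b := (mem_filter.1 ht).2
    exact Prod.ext (node_ext e (a.2.trans b.2.symm)) (a.1.trans b.1.symm)
  · intro k hk
    have c : P.col k 1 := Or.inr (Or.inl ⟨rfl, mem_range.1 hk⟩)
    exact ⟨(⟨(k, 1), (col_pres c).1⟩, 2), mem_filter.2 ⟨mem_filter.2 ⟨mem_univ _, src2.2 c⟩, rfl, rfl⟩,
      rfl⟩

theorem form_eq (C G C' G' : ℕ → ℕ → ℤ) : P.L.form P.R (P.ofRaw C G) (P.ofRaw C' G') =
    ∑ k ∈ range P.m, ∑ k' ∈ range P.m, C k 1 * C' k' 1 * P.cw k k' -
      if P.g = 1 then C 2 3 * G' 0 3 else 0 := by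
  have := P.h1; have := P.h2; have := P.h3; have := P.h4
  let n1 : P.ν := ⟨(2, 3), show P.pres 2 3 by unfold pres; omega⟩
  let n2 : P.ν := ⟨(0, 3), show P.pres 0 3 by unfold pres; omega⟩
  have key : ∀ s t, P.R.src s → P.R.src t →
      P.ofRaw C G s * P.ofRaw C' G' t * P.L.wgt P.R s t =
      (if s.2 = 2 ∧ s.1.1.2 = 1 then (if t.2 = 2 ∧ t.1.1.2 = 1 then
        C s.1.1.1 1 * C' t.1.1.1 1 * P.cw s.1.1.1 t.1.1.1 else 0) else 0) -
      if (n1, 2) = s then (if (n2, 1) = t then C 2 3 * G' 0 3 else 0) else 0 := by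
    intro s t hs ht
    unfold Lay.wgt
    rcases Lay.src_cases hs with ⟨c, rfl, hc⟩ | ⟨c, rfl, hc⟩
    · simp
    rcases Lay.src_cases ht with ⟨d, rfl, hd⟩ | ⟨d, rfl, hd⟩
    · simp only [spec_iff hd, if_true, Prod.mk.injEq, and_true, true_and]
      by_cases j1 : n1 = c
      · by_cases j2 : n2 = d
        · subst j1 j2
          simp [ofRaw, n1, n2, neg]
        · have : ¬ d.1 = (0, 3) := fun e => j2 (Subtype.ext e.symm)
          simp [this, j2]
      · have : ¬ c.1 = (2, 3) := fun e => j1 (Subtype.ext e.symm)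
        simp [this, j1]
    · simp only [colw_eq hc hd, ofRaw, if_true, true_and]
      by_cases j1 : c.1.2 = 1 <;> by_cases j2 : d.1.2 = 1 <;> simp [j1, j2]
  rw [Lay.form, sum_congr rfl fun s hs => sum_congr rfl fun t ht =>
    key s t (mem_filter.1 hs).2 (mem_filter.1 ht).2]
  simp only [sum_sub_distrib]
  congr 1
  · rw [← sum_strip]
    refine sum_congr rfl fun s _ => ?_
    split_ifs
    · exact sum_strip fun k' => C s.1.1.1 1 * C' k' 1 * P.cw s.1.1.1 k'
    · simp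
  · have a : P.R.src (n2, 1) := src1.2 (Or.inl ⟨by simp [n2, neg], by simp [n2, gap]⟩)
    have b : P.R.src (n1, 2) ↔ P.g = 1 := by rw [src2]; simp [n1, col]
    simp [a, b]

theorem sum_ind {a b m : ℕ} (h1 : a ≤ b) (h2 : b ≤ m) (c : ℤ) :
    ∑ k ∈ range m, (if a ≤ k ∧ k < b then c else 0) = (b - a) * c := by
  rw [← sum_filter, show (range m).filter (fun k => a ≤ k ∧ k < b) = Ico a b by
    ext k; simp only [mem_filter, mem_range, mem_Ico]; omega]
  simp [h1]

variable (P) in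
def Sf (x : Fin 6 → ℤ) (K : ℕ) : ℤ := ∑ k ∈ range K, P.Mf x k

theorem Sf_even (x : Fin 6 → ℤ) (i : ℕ) : P.Sf x (2 * i + 4) =
    if 2 * i + 4 < P.s2 then 0 else if 2 * i + 4 < P.s3 then x 2 else x 2 + x 3 := by
  have := P.h1; have := P.h2; have := P.h3
  induction i with
  | zero =>
    rw [show P.Sf x (2 * 0 + 4) = ∑ k ∈ range 3, P.Mf x k + P.Mf x 3 from sum_range_succ _ 3,
      M_eq (k := 3) le_rfl, W1 (k := 3) (by omega)]
    simp (disch := omega) only [if_pos, if_neg]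
    simp [sum_range_succ, Mf, show 3 < P.s1 by omega]
  | succ i ih =>
    have w := Wp (P := P) (x := x) (k := 2 * i + 4 + 1) (by omega) (by omega) (by omega)
    rw [Nat.add_sub_cancel] at w
    rw [show 2 * (i + 1) + 4 = 2 * i + 4 + 1 + 1 by ring, Sf, sum_range_succ, sum_range_succ, ← Sf,
      ih, M_eq (by omega), M_eq (by omega), ← w]
    clear ih w
    rcases Nat.lt_or_ge (2 * i + 4) P.s1 with h | h
    · simp (disch := omega) only [if_pos, if_neg]; ring
    rcases (by omega : 2 * i + 6 < P.s2 ∨ 2 * i + 6 = P.s2 ∨ P.s2 < 2 * i + 6) with h | h | h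
    · simp (disch := omega) only [if_pos, if_neg]; ring
    · simp (disch := omega) only [if_pos, if_neg]; ring
    rcases (by omega : 2 * i + 6 < P.s3 ∨ 2 * i + 6 = P.s3 ∨ P.s3 < 2 * i + 6) with h | h | h <;>
    · simp (disch := omega) only [if_pos, if_neg]; ring

theorem Sf_at (x : Fin 6 → ℤ) {k : ℕ} (h : 4 ≤ k) (h2 : k % 2 = 0) :
    P.Sf x k = if k < P.s2 then 0 else if k < P.s3 then x 2 else x 2 + x 3 := by
  obtain ⟨i, rfl⟩ : ∃ i, k = 2 * i + 4 := ⟨(k - 4) / 2, by omega⟩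
  exact Sf_even x i

theorem Sf_m (x : Fin 6 → ℤ) : P.Sf x P.m = 0 := by
  have := P.h1; have := P.h2; have := P.h3; have := P.h4
  obtain ⟨k, hk⟩ : ∃ k, P.m = k + 1 := ⟨P.m - 1, by omega⟩
  rw [hk, Sf, sum_range_succ, ← Sf, Sf_at x (by omega) (by omega), M_eq (by omega), W4 (by omega)]
  simp (disch := omega) only [if_pos, if_neg]
  ring

theorem form_flow (x y : Fin 6 → ℤ) : P.L.form P.R (P.flow x) (P.flow y) =
    -(∑ k ∈ range P.m, if 3 ≤ k ∧ P.ng k 1 = 1 then P.Sf x k * P.Mf y k else 0) - x 0 * y 0 +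
      if P.g = 1 then x 0 * y 1 else 0 := by
  have := P.h1; have := P.h2; have := P.h3; have := P.h4
  refine (form_eq _ _ _ _).trans ?_
  have e1 : P.Cf x 2 3 * P.Gf y 0 3 = -(x 0 * y 1) := by
    have := g3spec (P := P) (x := y) 0
    rw [show P.Gf y 0 3 = -y 1 by omega, mul_neg]
    rfl
  have e2 : ∀ k' ∈ range P.m, ∑ k ∈ range P.m, P.Cf x k 1 * P.Cf y k' 1 * P.cw k k' =
      -(if 3 ≤ k' ∧ P.ng k' 1 = 1 then P.Sf x k' * P.Mf y k' else 0) -
        if 1 = k' then x 0 * y 0 else 0 := by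
    intro k' hk'
    have hm := mem_range.1 hk'
    by_cases j : 3 ≤ k' ∧ P.ng k' 1 = 1
    · rw [if_pos j, if_neg (by omega), sub_zero, Sf, sum_mul, ← sum_neg_distrib]
      refine (sum_subset (range_subset_range.2 hm.le) fun k _ hk => ?_).symm.trans
        (sum_congr rfl fun k hk => ?_)
      · rw [cw, if_neg (by simp at hk; omega), if_neg (by omega), mul_zero]
      · rw [cw, if_pos ⟨mem_range.1 hk, j⟩, mul_neg_one]; rfl
    · rw [if_neg j, neg_zero, zero_sub, sum_eq_single 2]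
      · rw [cw, if_neg (fun h => j h.2)]
        by_cases j2 : k' = 1
        · subst j2; simp [Cf, Mf]
        · rw [if_neg (by omega), if_neg (by omega)]; simp
      · intro k _ hk
        rw [cw, if_neg (fun h => j h.2), if_neg (by omega), mul_zero]
      · intro h; exact absurd (mem_range.2 (by omega)) h
  rw [sum_comm, sum_congr rfl e2, sum_sub_distrib, sum_neg_distrib, sum_ite_eq, e1,
    if_pos (mem_range.2 (by omega))]
  split_ifs <;> ring

theorem sq_spec (x y : Fin 6 → ℤ) {k : ℕ} (k4 : 4 ≤ k) (hm : k < P.m) :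
    P.Mf x k * P.Mf y k =
      (if 4 ≤ k ∧ k < P.s1 then x 1 * y 1 else 0) +
      (if P.s1 ≤ k ∧ k < P.s2 then x 2 * y 2 else 0) +
      (if P.s2 ≤ k ∧ k < P.s3 then x 3 * y 3 else 0) +
      (if P.s3 ≤ k ∧ k < P.m then (x 2 + x 3) * (y 2 + y 3) else 0) -
      (if P.s2 - 2 = k then x 2 * y 2 - (x 2 - x 4) * (y 2 - y 4) else 0) -
      (if P.s2 - 1 = k then x 2 * y 2 - x 4 * y 4 else 0) -
      (if P.s3 - 2 = k then x 3 * y 3 - (x 3 - x 5) * (y 3 - y 5) else 0) -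
      (if P.s3 - 1 = k then x 3 * y 3 - x 5 * y 5 else 0) := by
  have := P.h1.1; have := P.h2.1; have := P.h3.1
  have m : ∀ x : Fin 6 → ℤ, P.Mf x k = if k + 2 = P.s2 then x 2 - x 4 else if k + 1 = P.s2 then x 4
      else if k + 2 = P.s3 then x 3 - x 5 else if k + 1 = P.s3 then x 5
      else if (k < P.s1 ∧ k % 2 = 1) ∨ (P.s1 ≤ k ∧ k % 2 = 0) then P.Wf x k else -P.Wf x k :=
    fun x => by unfold Mf; rw [if_neg (by omega), if_neg (by omega), if_neg (by omega)]
  rw [m, m]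
  clear m
  by_cases j1 : k + 2 = P.s2
  · simp (disch := omega) only [if_pos, if_neg]
    ring
  by_cases j2 : k + 1 = P.s2
  · simp (disch := omega) only [if_pos, if_neg]
    ring
  by_cases j3 : k + 2 = P.s3
  · simp (disch := omega) only [if_pos, if_neg]
    ring
  by_cases j4 : k + 1 = P.s3
  · simp (disch := omega) only [if_pos, if_neg]
    ring
  simp only [if_neg j1, if_neg j2, if_neg j3, if_neg j4]
  have e : ∀ (p : Prop) [Decidable p] (a b : ℤ), (if p then a else -a) * (if p then b else -b) =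
      a * b := fun p _ a b => by split_ifs <;> ring
  rw [e]
  unfold Wf
  rcases (by omega : k < P.s1 ∨ (P.s1 ≤ k ∧ k < P.s2) ∨ (P.s2 ≤ k ∧ k < P.s3) ∨ P.s3 ≤ k) with
    j | j | j | j <;> simp (disch := omega) only [if_pos, if_neg] <;> ring

theorem flip_spec (x : Fin 6 → ℤ) (h : P.e = 0) :
    P.Sf x P.s1 = 0 ∧ P.Mf x P.s1 = x 2 ∧ P.Sf x P.s2 = x 2 ∧ P.Mf x P.s2 = x 3 ∧
      P.Sf x P.s3 = x 2 + x 3 ∧ P.Mf x P.s3 = -x 2 - x 3 := by
  have := P.h1; have := P.h2; have := P.h3; have := P.h4; have := P.h5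
  rw [Sf_at x (by omega) (by omega), Sf_at x (by omega) (by omega), Sf_at x (by omega) (by omega)]
  refine ⟨?_, ?_, ?_, ?_, ?_, ?_⟩ <;>
  · try unfold Mf Wf
    simp (disch := omega) only [if_pos, if_neg]

theorem pt_spec (x y : Fin 6 → ℤ) {k : ℕ} :
    (if 3 ≤ k ∧ P.ng k 1 = 1 then P.Sf x k * P.Mf y k else 0) +
      (if 3 ≤ k ∧ P.ng k 1 = 1 then P.Sf y k * P.Mf x k else 0) =
      (if 4 ≤ k then P.Sf x (k + 1) * P.Sf y (k + 1) - P.Sf x k * P.Sf y k else 0) -
      (if 4 ≤ k then P.Mf x k * P.Mf y k else 0) +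
      (if P.s2 = k then (1 - P.e) * (-x 2 * y 3 - x 3 * y 2) else 0) +
      (if P.s3 = k then (1 - P.e) * (2 * ((x 2 + x 3) * (y 2 + y 3))) else 0) := by
  have := P.h1.1; have := P.h2.1; have := P.h3.1; have h5 := P.h5
  have n1 : P.ng k 1 = 1 ↔ k ≠ 0 ∧ k ≠ 3 ∧ (P.e = 1 ∨ (k ≠ P.s1 ∧ k ≠ P.s2 ∧ k ≠ P.s3)) := by
    rw [ng_one]; unfold neg; omega
  simp only [n1]
  by_cases k4 : k < 4
  · simp (disch := omega) only [if_neg]
    ring
  have ex : P.Sf x (k + 1) = P.Sf x k + P.Mf x k := sum_range_succ _ _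
  have ey : P.Sf y (k + 1) = P.Sf y k + P.Mf y k := sum_range_succ _ _
  rw [ex, ey]
  by_cases fl : P.e = 0 ∧ (k = P.s1 ∨ k = P.s2 ∨ k = P.s3)
  · obtain ⟨a1, a2, a3, a4, a5, a6⟩ := flip_spec x fl.1
    obtain ⟨b1, b2, b3, b4, b5, b6⟩ := flip_spec y fl.1
    rcases fl.2 with rfl | rfl | rfl
    · rw [a1, b1]
      clear a1 a2 a3 a4 a5 a6 b1 b2 b3 b4 b5 b6 ex ey n1
      simp (disch := omega) only [if_pos, if_neg]
      ring
    · rw [a3, a4, b3, b4, fl.1]
      clear a1 a2 a3 a4 a5 a6 b1 b2 b3 b4 b5 b6 ex ey n1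
      simp (disch := omega) only [if_pos, if_neg]
      push_cast
      ring
    · rw [a5, a6, b5, b6, fl.1]
      clear a1 a2 a3 a4 a5 a6 b1 b2 b3 b4 b5 b6 ex ey n1
      simp (disch := omega) only [if_pos, if_neg]
      push_cast
      ring
  have z : ∀ (s : ℕ) (c : ℤ), s = P.s2 ∨ s = P.s3 → (if s = k then (1 - (P.e : ℤ)) * c else 0) = 0 := by
    intro s c _
    split_ifs
    · rw [show P.e = 1 by omega]; simp
    · rfl
  rw [z _ _ (Or.inl rfl), z _ _ (Or.inr rfl), if_pos (by omega), if_pos (by omega), if_pos (by omega),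
    if_pos (by omega)]
  ring

theorem sym_flow (x y : Fin 6 → ℤ) :
    P.L.form P.R (P.flow x) (P.flow y) + P.L.form P.R (P.flow y) (P.flow x) =
      -2 * x 0 * y 0 + (if P.g = 1 then x 0 * y 1 + x 1 * y 0 else 0) + (P.s1 - 4) * (x 1 * y 1) +
      (P.s2 - P.s1 - 3 + P.e) * (x 2 * y 2) + (P.s3 - P.s2 - 3 + P.e) * (x 3 * y 3) +
      (P.m - P.s3 - 1 + P.e) * ((x 2 + x 3) * (y 2 + y 3)) +
      (x 2 - x 4) * (y 2 - y 4) + x 4 * y 4 + (x 3 - x 5) * (y 3 - y 5) + x 5 * y 5 := by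
  have := P.h1; have := P.h2; have := P.h3; have := P.h4
  have T : ∑ k ∈ range P.m, (if 4 ≤ k then P.Sf x (k + 1) * P.Sf y (k + 1) - P.Sf x k * P.Sf y k
      else 0) = 0 := by
    rw [← sum_filter, show (range P.m).filter (fun k => 4 ≤ k) = Ico 4 P.m by
      ext k; simp only [mem_filter, mem_range, mem_Ico]; omega,
      sum_Ico_sub (fun k => P.Sf x k * P.Sf y k) (by omega),
      Sf_m, Sf_at x le_rfl rfl, if_pos (by omega)]
    ring
  have B := sum_congr (s₁ := range P.m) rfl fun k _ => pt_spec (P := P) x y (k := k)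
  have S : ∑ k ∈ range P.m, (if 4 ≤ k then P.Mf x k * P.Mf y k else 0) = _ :=
    sum_congr rfl fun k hk => show _ = (if 4 ≤ k ∧ k < P.s1 then x 1 * y 1 else 0) +
      (if P.s1 ≤ k ∧ k < P.s2 then x 2 * y 2 else 0) +
      (if P.s2 ≤ k ∧ k < P.s3 then x 3 * y 3 else 0) +
      (if P.s3 ≤ k ∧ k < P.m then (x 2 + x 3) * (y 2 + y 3) else 0) -
      (if P.s2 - 2 = k then x 2 * y 2 - (x 2 - x 4) * (y 2 - y 4) else 0) -
      (if P.s2 - 1 = k then x 2 * y 2 - x 4 * y 4 else 0) -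
      (if P.s3 - 2 = k then x 3 * y 3 - (x 3 - x 5) * (y 3 - y 5) else 0) -
      (if P.s3 - 1 = k then x 3 * y 3 - x 5 * y 5 else 0) by
      by_cases j : 4 ≤ k
      · rw [if_pos j, sq_spec x y j (mem_range.1 hk)]
      · clear B T
        simp (disch := omega) only [if_neg]
        ring
  simp only [sum_add_distrib, sum_sub_distrib, sum_ite_eq, mem_range] at B S
  rw [sum_ind (by omega) (by omega), sum_ind (by omega) (by omega), sum_ind (by omega) (by omega),
    sum_ind (by omega) le_rfl, if_pos (by omega), if_pos (by omega), if_pos (by omega),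
    if_pos (by omega)] at S
  rw [T, S, if_pos (by omega), if_pos (by omega)] at B
  rw [form_flow, form_flow]
  push_cast at B
  split_ifs <;> linear_combination -B

end Par

end Pool.Agent.P.MP_06cdda_gt
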