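import Pool.Agent.P.MP_06cdda_gt.Fam

open Finset

namespace Pool.Agent.P.MP_06cdda_gt

open Rib

namespace Par

variable (P : Par)

def ofRaw (C G : ℕ → ℕ → ℤ) (s : P.ν × Fin 4) : ℤ :=
  if s.2 = 2 then C s.1.1.1 s.1.1.2
  else if P.neg s.1.1.1 s.1.1.2 then -G (pl s.1.1.1 s.1.1.2) s.1.1.2 else G s.1.1.1 s.1.1.2

def cons (C G : ℕ → ℕ → ℤ) (k l : ℕ) : ℤ :=
  (if l ≠ 0 ∧ P.col k (l - 1) then C k (l - 1) else 0) - (if P.col k l then C k l else 0) +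
    (if k ≠ 0 ∧ P.gap (pl k l) l then G (pl k l) l else 0) - (if P.gap k l then G k l else 0)

variable {P}

theorem nl_pl {k l : ℕ} (hp : P.pres k l) (hk : k ≠ 0) : nl (pl k l) l = k := by
  unfold pres at hp
  unfold nl pl
  split_ifs <;> omega

theorem glued_iff {n : P.ν} {i : Fin 4} :
    P.γ (n, i) ≠ (n, i) ↔ ∃ k' l', P.Gl n.1.1 n.1.2 i k' l' := by
  rcases γ_cases n i with ⟨e, h⟩ | ⟨n', h, e⟩
  · simp [e, h]
  · refine ⟨fun _ => ⟨_, _, h⟩, fun _ j => ?_⟩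
    have := congrArg Prod.snd (e.symm.trans j)
    simp only at this
    omega

theorem src2 {n : P.ν} : P.R.src (n, 2) ↔ P.col n.1.1 n.1.2 := by
  refine ⟨fun h => ?_, fun h => ⟨glued_iff.2 ⟨_, _, Or.inl ⟨rfl, h, rfl, rfl⟩⟩, Or.inr rfl⟩⟩
  rcases gl_of h.1 with ⟨-, h, -⟩ | ⟨j, -⟩ | ⟨j, -⟩ | ⟨j, -⟩
  · exact h
  all_goals omega

theorem src1 {n : P.ν} : P.R.src (n, 1) ↔ (¬ P.neg n.1.1 n.1.2 ∧ P.gap n.1.1 n.1.2) ∨
    (P.neg n.1.1 n.1.2 ∧ n.1.1 ≠ 0 ∧ P.gap (pl n.1.1 n.1.2) n.1.2) := by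
  constructor
  · intro h
    rcases gl_of h.1 with ⟨j, -⟩ | ⟨j, -⟩ | ⟨⟨-, j⟩ | ⟨j, -⟩, h, -⟩ | ⟨⟨j, -⟩ | ⟨-, j⟩, h, e, -⟩
    · omega
    · omega
    · exact Or.inl ⟨j, h⟩
    · omega
    · omega
    · have := pl_nl h
      rw [← e] at this
      exact Or.inr ⟨j, this.1, this.2.symm ▸ h⟩
  · rintro (⟨j, h⟩ | ⟨j, h0, h⟩)
    · exact ⟨glued_iff.2 ⟨_, _, Or.inr (Or.inr (Or.inl ⟨Or.inl ⟨rfl, j⟩, h, rfl, rfl⟩))⟩, Or.inl rfl⟩
    · exact ⟨glued_iff.2 ⟨_, _, Or.inr (Or.inr (Or.inr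
        ⟨Or.inr ⟨rfl, j⟩, h, (nl_pl n.2 h0).symm, rfl⟩))⟩, Or.inl rfl⟩

theorem bd_ofRaw (C G : ℕ → ℕ → ℤ) (n : P.ν) :
    P.R.bd (P.ofRaw C G) n = P.cons C G n.1.1 n.1.2 := by
  have a0 : ¬ P.R.src (n, 0) := fun h => by have := h.2; simp at this
  have a3 : ¬ P.R.src (n, 3) := fun h => by have := h.2; simp at this
  have b' : ∀ i : Fin 4, i = 1 ∨ i = 2 → (if P.R.src (P.R.γ (n, i)) then
      P.ofRaw C G (P.R.γ (n, i)) else 0) = 0 := by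
    intro i hi
    refine if_neg fun h => ?_
    by_cases e : P.R.γ (n, i) = (n, i)
    · exact h.1 (by rw [e, e])
    · have := h.2
      rw [P.R.side _ e] at this
      simp only at this
      omega
  have c0 : (if P.R.src (P.R.γ (n, 0)) then P.ofRaw C G (P.R.γ (n, 0)) else 0) =
      if n.1.2 ≠ 0 ∧ P.col n.1.1 (n.1.2 - 1) then C n.1.1 (n.1.2 - 1) else 0 := by
    rcases γ_cases n 0 with ⟨e, h⟩ | ⟨n', h, e⟩
    · rw [show P.R.γ (n, 0) = (n, 0) from e, if_neg a0, if_neg]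
      exact fun j => h _ (n.1.2 - 1) (Or.inr (Or.inl ⟨rfl, j.2, rfl, by omega⟩))
    · rw [show P.R.γ (n, 0) = (n', 2) from e]
      rcases h with ⟨j, -⟩ | ⟨-, h, a, b⟩ | ⟨j, -⟩ | ⟨j, -⟩
      · omega
      · rw [if_pos (src2.2 (a ▸ h)), b, if_pos ⟨by omega, h⟩, ofRaw, if_pos rfl, a]
        rfl
      all_goals omega
  have c3 : (if P.R.src (P.R.γ (n, 3)) then P.ofRaw C G (P.R.γ (n, 3)) else 0) =
      if P.neg n.1.1 n.1.2 then (if P.gap n.1.1 n.1.2 then -G n.1.1 n.1.2 else 0)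
      else if n.1.1 ≠ 0 ∧ P.gap (pl n.1.1 n.1.2) n.1.2 then G (pl n.1.1 n.1.2) n.1.2 else 0 := by
    rcases γ_cases n 3 with ⟨e, h⟩ | ⟨n', h, e⟩
    · rw [show P.R.γ (n, 3) = (n, 3) from e, if_neg a3]
      split_ifs with j1 j2 j3
      · exact absurd (Or.inr (Or.inr (Or.inl ⟨Or.inr ⟨rfl, j1⟩, j2, rfl, rfl⟩))) (h _ _)
      · rfl
      · exact absurd (Or.inr (Or.inr (Or.inr
          ⟨Or.inl ⟨rfl, j1⟩, j3.2, (nl_pl n.2 j3.1).symm, rfl⟩))) (h _ _)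
      · rfl
    · rw [show P.R.γ (n, 3) = (n', 1) from e, if_pos ⟨glued_iff.2 ⟨_, _, h.symm⟩, Or.inl rfl⟩,
        ofRaw, if_neg (by simp)]
      rcases h with ⟨j, -⟩ | ⟨j, -⟩ | ⟨⟨j, -⟩ | ⟨-, j⟩, h, a, b⟩ | ⟨⟨-, j⟩ | ⟨j, -⟩, h, a, b⟩
      · omega
      · omega
      · omega
      · simp only [a, b]
        rw [if_pos ((gap_pres h).2.2.1.1 j), if_pos j, if_pos h, (pl_nl h).2]
      · have := pl_nl h
        have e2 := (gap_pres h).2.2.1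
        rw [← a] at this e2
        simp only [b]
        rw [if_neg (mt e2.1 j), if_neg j, this.2, if_pos ⟨this.1, h⟩]
      · omega
  rw [Rib.bd, Fin.sum_univ_four, if_neg a0, if_neg a3, b' 1 (Or.inl rfl), b' 2 (Or.inr rfl), c0, c3]
  simp only [src1, src2, ofRaw, cons]
  by_cases hn : P.neg n.1.1 n.1.2
  · simp only [hn, not_true, false_and, true_and, false_or, if_true]
    split_ifs <;> first | omega | contradiction
  · simp only [hn, not_false_iff, false_and, true_and, or_false, if_false]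
    split_ifs <;> first | omega | contradiction

theorem exists_raw (c : P.ν × Fin 4 → ℤ) : ∃ C G, ∀ s, P.R.src s → c s = P.ofRaw C G s := by
  let c0 : ℕ → ℕ → Fin 4 → ℤ := fun k l i => if h : P.pres k l then c (⟨(k, l), h⟩, i) else 0
  have ev : ∀ (n : P.ν) i, c0 n.1.1 n.1.2 i = c (n, i) := fun n i => dif_pos n.2
  refine ⟨fun k l => c0 k l 2, fun k l => if P.neg k l then -c0 (nl k l) l 1 else c0 k l 1, ?_⟩
  intro s hs
  rcases Lay.src_cases hs with ⟨n, rfl, -⟩ | ⟨n, rfl, -⟩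
  · rw [ofRaw, if_neg (by simp)]
    rcases src1.1 hs with ⟨j, h⟩ | ⟨j, h0, h⟩
    · simp only [if_neg j, ev]
    · have e := (gap_pres h).2.2.1
      rw [nl_pl n.2 h0] at e
      simp only [if_pos j, if_pos (e.2 j), nl_pl n.2 h0, neg_neg, ev]
  · rw [ofRaw, if_pos rfl, ev]

theorem bd_congr {a b : P.ν × Fin 4 → ℤ} (h : ∀ s, P.R.src s → a s = b s) (n : P.ν) :
    P.R.bd a n = P.R.bd b n :=
  sum_congr rfl fun i _ => by
    congr 1 <;> split_ifs with j <;> first | exact h _ j | rfl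

section

variable (P) (x : Fin 6 → ℤ)

def Wf (k : ℕ) : ℤ :=
  if k < P.s1 then x 1 else if k < P.s2 then x 2 else if k < P.s3 then x 3 else -x 2 - x 3

def Mf (k : ℕ) : ℤ :=
  if k = 0 then -x 1 else if k = 1 then -x 0 else if k = 2 then x 0
  else if k + 2 = P.s2 then x 2 - x 4 else if k + 1 = P.s2 then x 4
  else if k + 2 = P.s3 then x 3 - x 5 else if k + 1 = P.s3 then x 5
  else if (k < P.s1 ∧ k % 2 = 1) ∨ (P.s1 ≤ k ∧ k % 2 = 0) then P.Wf x k else -P.Wf x k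

def Cf (k l : ℕ) : ℤ :=
  if l = 0 then (if k = 0 then -x 1 else P.Wf x k)
  else if l = 1 then P.Mf x k
  else if l = 2 then (if k = 0 then -x 0 - x 1 else if k = 2 then x 0 else P.Wf x k)
  else if l = 3 then (if k = 0 then -x 0 else x 0) else 0

def Gf (k l : ℕ) : ℤ :=
  if l = 0 then (if k = 0 then x 1 else if k < P.s1 then 0 else if k < P.s2 then -x 2
    else if k < P.s3 then -x 2 - x 3 else 0)
  else if l = 1 then (if k = 1 then x 0 else if k + 2 = P.s2 then x 4 else if k + 2 = P.s3 then x 5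
    else P.Wf x k)
  else if l = 2 then (if k = 0 then x 0 else if k + 2 = P.s2 then x 2 - x 4
    else if k + 2 = P.s3 then x 3 - x 5 else P.Wf x k)
  else if l = 3 then (if k + 1 < P.s1 then -x 1 else if k + 1 < P.s2 then 0
    else if k + 1 < P.s3 then x 2 else x 2 + x 3)
  else -x 0

variable {P x}

theorem wspec (k : ℕ) : (k < P.s1 ∧ P.Wf x k = x 1) ∨ (P.s1 ≤ k ∧ k < P.s2 ∧ P.Wf x k = x 2) ∨
    (P.s2 ≤ k ∧ k < P.s3 ∧ P.Wf x k = x 3) ∨ (P.s3 ≤ k ∧ P.Wf x k = -x 2 - x 3) := by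
  have := P.h2; have := P.h3
  unfold Wf; split_ifs <;> omega

theorem g1spec {k : ℕ} (h : k ≠ 1) : (k + 2 = P.s2 ∧ P.Gf x k 1 = x 4) ∨
    (k + 2 = P.s3 ∧ P.Gf x k 1 = x 5) ∨ (k + 2 ≠ P.s2 ∧ k + 2 ≠ P.s3 ∧ P.Gf x k 1 = P.Wf x k) := by
  unfold Gf; rw [if_neg one_ne_zero, if_pos rfl, if_neg h]; split_ifs <;> omega

theorem g3spec (k : ℕ) : (k + 1 < P.s1 ∧ P.Gf x k 3 = -x 1) ∨
    (P.s1 ≤ k + 1 ∧ k + 1 < P.s2 ∧ P.Gf x k 3 = 0) ∨
    (P.s2 ≤ k + 1 ∧ k + 1 < P.s3 ∧ P.Gf x k 3 = x 2) ∨ (P.s3 ≤ k + 1 ∧ P.Gf x k 3 = x 2 + x 3) := by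
  have := P.h2; have := P.h3
  unfold Gf; rw [if_neg (by omega), if_neg (by omega), if_neg (by omega), if_pos rfl]
  split_ifs <;> omega

theorem W1 {k : ℕ} (h : k < P.s1) : P.Wf x k = x 1 := if_pos h

theorem W2 {k : ℕ} (h : P.s1 ≤ k) (h' : k < P.s2) : P.Wf x k = x 2 :=
  (if_neg h.not_gt).trans (if_pos h')

theorem W3 {k : ℕ} (h : P.s2 ≤ k) (h' : k < P.s3) : P.Wf x k = x 3 := by
  have := P.h2.1
  exact (if_neg (by omega)).trans ((if_neg h.not_gt).trans (if_pos h'))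

theorem W4 {k : ℕ} (h : P.s3 ≤ k) : P.Wf x k = -x 2 - x 3 := by
  have := P.h2.1; have := P.h3.1
  exact (if_neg (by omega)).trans ((if_neg (by omega)).trans (if_neg h.not_gt))

theorem Wp {k : ℕ} (h1 : k ≠ P.s1) (h2 : k ≠ P.s2) (h3 : k ≠ P.s3) :
    P.Wf x (k - 1) = P.Wf x k := by
  have := P.h1.1; have := P.h2.1; have := P.h3.1
  unfold Wf
  exact if_congr (by omega) rfl (if_congr (by omega) rfl (if_congr (by omega) rfl rfl))

theorem M_eq {k : ℕ} (h : 3 ≤ k) : P.Mf x k = if k + 2 = P.s2 then x 2 - x 4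
    else if k + 1 = P.s2 then x 4 else if k + 2 = P.s3 then x 3 - x 5 else if k + 1 = P.s3 then x 5
    else if (k < P.s1 ∧ k % 2 = 1) ∨ (P.s1 ≤ k ∧ k % 2 = 0) then P.Wf x k else -P.Wf x k :=
  (if_neg (by omega)).trans ((if_neg (by omega)).trans (if_neg (by omega)))

end

variable (P)

theorem Wf_lin (a : ℤ) (x y : Fin 6 → ℤ) (k : ℕ) :
    P.Wf (a • x + y) k = a * P.Wf x k + P.Wf y k := by
  simp only [Wf, Pi.add_apply, Pi.smul_apply, smul_eq_mul]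
  split_ifs <;> ring

theorem ite_lin {p : Prop} [Decidable p] {a u v u1 u2 v1 v2 : ℤ} (h1 : u = a * u1 + u2)
    (h2 : v = a * v1 + v2) :
    (if p then u else v) = a * (if p then u1 else v1) + if p then u2 else v2 := by
  split_ifs <;> assumption

theorem Mf_lin (a : ℤ) (x y : Fin 6 → ℤ) (k : ℕ) :
    P.Mf (a • x + y) k = a * P.Mf x k + P.Mf y k := by
  simp only [Mf, Wf_lin, Pi.add_apply, Pi.smul_apply, smul_eq_mul]
  repeat' apply ite_lin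
  all_goals ring

theorem Cf_lin (a : ℤ) (x y : Fin 6 → ℤ) (k l : ℕ) :
    P.Cf (a • x + y) k l = a * P.Cf x k l + P.Cf y k l := by
  simp only [Cf, Mf_lin, Wf_lin, Pi.add_apply, Pi.smul_apply, smul_eq_mul]
  repeat' apply ite_lin
  all_goals ring

theorem Gf_lin (a : ℤ) (x y : Fin 6 → ℤ) (k l : ℕ) :
    P.Gf (a • x + y) k l = a * P.Gf x k l + P.Gf y k l := by
  simp only [Gf, Wf_lin, Pi.add_apply, Pi.smul_apply, smul_eq_mul]
  repeat' apply ite_lin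
  all_goals ring

def fl (x : Fin 6 → ℤ) : P.ν × Fin 4 → ℤ := P.ofRaw (P.Cf x) (P.Gf x)

theorem fl_lin (a : ℤ) (x y : Fin 6 → ℤ) : P.fl (a • x + y) = a • P.fl x + P.fl y := by
  ext s
  simp only [fl, ofRaw, Cf_lin, Gf_lin, Pi.add_apply, Pi.smul_apply, smul_eq_mul]
  split_ifs <;> ring

def flow : (Fin 6 → ℤ) →ₗ[ℤ] (P.ν × Fin 4 → ℤ) where
  toFun := P.fl
  map_add' x y := by simpa using P.fl_lin 1 x y
  map_smul' a x := by
    have h0 : P.fl 0 = 0 := by simpa using P.fl_lin (-1) 0 0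
    simpa [h0] using P.fl_lin a x 0

def rd (C G : ℕ → ℕ → ℤ) : Fin 6 → ℤ :=
  ![C 2 1, G 0 0, C P.s1 0, C P.s2 0, G (P.s2 - 2) 1, G (P.s3 - 2) 1]

end Par

end Pool.Agent.P.MP_06cdda_gt
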