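import Mathlib

open Finset

namespace Pool.Agent.P.MP_06cdda_gt

/-- A fence: `N + 2` rows and `m` columns, column `k` joining row `bot k` to row `top k`. -/
structure Fence where
  N : ℕ
  m : ℕ
  bot : ℕ → ℕ
  top : ℕ → ℕ

namespace Fence

variable (F : Fence)

def bd (a : ℕ → ℤ) (l : ℕ) : ℤ :=
  ∑ k ∈ range F.m, a k * ((if F.top k = l then 1 else 0) - (if F.bot k = l then 1 else 0))

def wgt (k k' : ℕ) : ℤ :=
  (if F.bot k < F.bot k' ∧ F.bot k' < F.top k then 1 else 0) -
    (if F.bot k < F.top k' ∧ F.top k' < F.top k then 1 else 0)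

def form (a b : ℕ → ℤ) : ℤ :=
  ∑ k ∈ range F.m, ∑ k' ∈ range k, a k * b k' * F.wgt k k'

def Col {C : Type} (t b : ℕ → ℕ → C) : Prop :=
  (∀ l, l < F.N + 2 → t 0 l = b 0 l) ∧
  ∀ k, k < F.m → t (k + 1) (F.bot k) = b (k + 1) (F.top k) ∧ t k (F.bot k) = b k (F.top k) ∧
    (∀ l, l < F.N + 2 → l ≠ F.bot k → t (k + 1) l = t k l) ∧
    (∀ l, l < F.N + 2 → l ≠ F.top k → b (k + 1) l = b k l)

def Inv : Prop :=
  ∀ (C : Type) (t b : ℕ → ℕ → C), F.Col t b → (∀ l, l < F.N → t F.m l = b F.m l) →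
    t F.m F.N = b F.m (F.N + 1) ∧ t F.m (F.N + 1) = b F.m F.N ∧
    (t F.m F.N = t F.m (F.N + 1) →
      ∀ k, k ≤ F.m → ∀ l, l < F.N + 2 → t k l = t F.m F.N ∧ b k l = t F.m F.N)

def IsBasis {ι : Type} [Fintype ι] (a : ι → ℕ → ℤ) : Prop :=
  (∀ i l, F.bd (a i) l = 0) ∧
  ∀ c : ℕ → ℤ, (∀ l, F.bd c l = 0) → ∃! x : ι → ℤ, ∀ k, k < F.m → c k = ∑ i, x i * a i k

/-- `α` has boundary `e` times (top row minus second row). -/
def HasBd (α : ℕ → ℤ) (e : ℤ) : Prop :=
  ∀ l, F.bd α l = e * ((if l = F.N + 1 then 1 else 0) - (if l = F.N then 1 else 0))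

def Valid : Prop := 1 ≤ F.m ∧ ∀ k, k < F.m → F.bot k < F.top k ∧ F.top k < F.N + 2

def Good {ι : Type} [Fintype ι] (a : ι → ℕ → ℤ) (π : ℕ → ℤ) : Prop :=
  F.Valid ∧ F.Inv ∧ F.IsBasis a ∧ F.HasBd π 1

/-- Composition of a fence with a pattern with `s + 1` columns. -/
def comp (P : Fence) (s : ℕ) : Fence where
  N := F.N + P.N
  m := F.m + s
  bot k := if k < F.m then F.bot k else F.N + P.bot (k - F.m + 1)
  top k := if k < F.m then F.top k else F.N + P.top (k - F.m + 1)

def glue (α f : ℕ → ℤ) (k : ℕ) : ℤ := if k < F.m then α k else f (k - F.m + 1)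

variable {F} {P : Fence} {s : ℕ}

theorem comp_bot_lt {k : ℕ} (h : k < F.m) : (F.comp P s).bot k = F.bot k := if_pos h
theorem comp_top_lt {k : ℕ} (h : k < F.m) : (F.comp P s).top k = F.top k := if_pos h
theorem comp_bot_add (j : ℕ) : (F.comp P s).bot (F.m + j) = F.N + P.bot (j + 1) := by
  simp [comp]
theorem comp_top_add (j : ℕ) : (F.comp P s).top (F.m + j) = F.N + P.top (j + 1) := by
  simp [comp]
theorem glue_lt {α f : ℕ → ℤ} {k : ℕ} (h : k < F.m) : F.glue α f k = α k := if_pos h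
theorem glue_add {α f : ℕ → ℤ} (j : ℕ) : F.glue α f (F.m + j) = f (j + 1) := by
  simp [glue]

theorem bd_congr {a b : ℕ → ℤ} (h : ∀ k, k < F.m → a k = b k) (l : ℕ) : F.bd a l = F.bd b l :=
  sum_congr rfl fun k hk => by rw [h k (mem_range.1 hk)]

theorem bd_sub (a b : ℕ → ℤ) (l : ℕ) : F.bd (fun k => a k - b k) l = F.bd a l - F.bd b l := by
  simp only [bd, ← sum_sub_distrib]
  exact sum_congr rfl fun k _ => by ring

theorem bd_mul (e : ℤ) (a : ℕ → ℤ) (l : ℕ) : F.bd (fun k => e * a k) l = e * F.bd a l := by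
  simp only [bd, mul_sum]
  exact sum_congr rfl fun k _ => by ring

theorem bd_sum {ι : Type} [Fintype ι] (x : ι → ℤ) (a : ι → ℕ → ℤ) (l : ℕ) :
    F.bd (fun k => ∑ i, x i * a i k) l = ∑ i, x i * F.bd (a i) l := by
  simp only [bd, mul_sum, sum_mul]
  rw [sum_comm]
  exact sum_congr rfl fun i _ => sum_congr rfl fun k _ => by ring

theorem HasBd.mul {π : ℕ → ℤ} (h : F.HasBd π 1) (e : ℤ) : F.HasBd (fun k => e * π k) e :=
  fun l => by rw [bd_mul, h l, one_mul]

theorem bd_eq_zero_of_le (hF : F.Valid) (a : ℕ → ℤ) {l : ℕ} (hl : F.N + 2 ≤ l) : F.bd a l = 0 := by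
  refine sum_eq_zero fun k hk => ?_
  have := hF.2 k (mem_range.1 hk)
  rw [if_neg (by omega), if_neg (by omega)]
  simp

theorem sum_bd (hF : F.Valid) (a : ℕ → ℤ) : ∑ l ∈ range (F.N + 2), F.bd a l = 0 := by
  simp only [bd]
  rw [sum_comm]
  refine sum_eq_zero fun k hk => ?_
  have := hF.2 k (mem_range.1 hk)
  rw [← mul_sum, sum_sub_distrib, sum_ite_eq, sum_ite_eq, if_pos (mem_range.2 (by omega)),
    if_pos (mem_range.2 (by omega))]
  simp

theorem hasBd_of_low (hF : F.Valid) (a : ℕ → ℤ) (h : ∀ l, l < F.N → F.bd a l = 0) :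
    F.HasBd a (F.bd a (F.N + 1)) := by
  have h1 := sum_bd hF a
  rw [sum_range_succ, sum_range_succ, sum_eq_zero fun l hl => h l (mem_range.1 hl)] at h1
  intro l
  rcases lt_trichotomy l F.N with hl | hl | hl
  · rw [h l hl, if_neg (by omega), if_neg (by omega)]; simp
  · subst hl
    rw [if_neg (by omega), if_pos rfl]; linarith
  · rcases eq_or_lt_of_le (Nat.succ_le_of_lt hl) with hl' | hl'
    · subst hl'
      rw [if_pos rfl, if_neg (by omega)]; simp
    · rw [bd_eq_zero_of_le hF a (by omega), if_neg (by omega), if_neg (by omega)]; simp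

theorem bd_glue_raw (α f : ℕ → ℤ) (l : ℕ) : (F.comp P s).bd (F.glue α f) l = F.bd α l +
    ∑ j ∈ range s, f (j + 1) * ((if F.N + P.top (j + 1) = l then 1 else 0) -
      (if F.N + P.bot (j + 1) = l then 1 else 0)) := by
  have hm : (F.comp P s).m = F.m + s := rfl
  rw [bd, hm, sum_range_add]
  congr 1
  · refine sum_congr rfl fun k hk => ?_
    rw [glue_lt (mem_range.1 hk), comp_bot_lt (mem_range.1 hk), comp_top_lt (mem_range.1 hk)]
  · refine sum_congr rfl fun j _ => ?_
    rw [glue_add, comp_bot_add, comp_top_add]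

theorem bd_glue_low (α f : ℕ → ℤ) {l : ℕ} (hl : l < F.N) :
    (F.comp P s).bd (F.glue α f) l = F.bd α l := by
  rw [bd_glue_raw, sum_eq_zero, add_zero]
  intro j _
  rw [if_neg (by omega), if_neg (by omega)]; simp

theorem bd_glue_high (hm : P.m = s + 1) (hb : P.bot 0 = 0) (ht : P.top 0 = 1) {α f : ℕ → ℤ}
    (h : F.HasBd α (f 0)) (l : ℕ) : (F.comp P s).bd (F.glue α f) (F.N + l) = P.bd f l := by
  rw [bd_glue_raw, h, bd, hm, sum_range_succ', hb, ht, add_comm]
  simp only [add_right_inj, add_eq_left, eq_comm (a := l)]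

theorem form_glue (hF : F.Valid) (hm : P.m = s + 1) (hb : P.bot 0 = 0) (ht : P.top 0 = 1)
    (α f : ℕ → ℤ) {α' f' : ℕ → ℤ} (h : F.HasBd α' (f' 0)) :
    (F.comp P s).form (F.glue α f) (F.glue α' f') = F.form α α' + P.form f f' := by
  have hm' : (F.comp P s).m = F.m + s := rfl
  rw [form, hm', sum_range_add, form, form, hm, sum_range_succ']
  simp only [range_zero, sum_empty, add_zero]
  congr 1
  · refine sum_congr rfl fun k hk => sum_congr rfl fun k' hk' => ?_
    have h1 := mem_range.1 hk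
    have h2 := (mem_range.1 hk').trans h1
    simp only [wgt, glue_lt h1, glue_lt h2, comp_bot_lt h1, comp_bot_lt h2, comp_top_lt h1,
      comp_top_lt h2]
  · refine sum_congr rfl fun j _ => ?_
    rw [sum_range_add, sum_range_succ', add_comm]
    congr 1
    · refine sum_congr rfl fun j' _ => ?_
      simp only [wgt, glue_add, comp_bot_add, comp_top_add, add_lt_add_iff_left]
    · have h3 := h (F.N + 1)
      rw [if_pos rfl, if_neg (by omega), bd] at h3
      simp only [sub_zero, mul_one] at h3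
      rw [← h3, mul_sum, sum_mul]
      refine sum_congr rfl fun k hk => ?_
      have h1 := mem_range.1 hk
      have h2 := hF.2 k h1
      simp only [wgt, glue_add, glue_lt h1, comp_bot_add, comp_top_add, comp_bot_lt h1,
        comp_top_lt h1, hb, ht]
      split_ifs <;> first | omega | ring

theorem form_mul_left (e : ℤ) (a b : ℕ → ℤ) : F.form (fun k => e * a k) b = e * F.form a b := by
  simp only [form, mul_sum]
  exact sum_congr rfl fun k _ => sum_congr rfl fun k' _ => by ring

theorem form_mul_right (e : ℤ) (a b : ℕ → ℤ) : F.form a (fun k => e * b k) = e * F.form a b := by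
  simp only [form, mul_sum]
  exact sum_congr rfl fun k _ => sum_congr rfl fun k' _ => by ring

theorem form_zero_left (b : ℕ → ℤ) : F.form (fun _ => 0) b = 0 := by simp [form]
theorem form_zero_right (b : ℕ → ℤ) : F.form b (fun _ => 0) = 0 := by simp [form]

theorem valid_comp (hF : F.Valid) (hP : P.Valid) (hm : P.m = s + 1) : (F.comp P s).Valid := by
  refine ⟨le_trans hF.1 (Nat.le_add_right _ _), fun k hk => ?_⟩
  have hN : (F.comp P s).N = F.N + P.N := rfl
  have hm' : (F.comp P s).m = F.m + s := rfl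
  by_cases h : k < F.m
  · have := hF.2 k h
    rw [comp_bot_lt h, comp_top_lt h]; omega
  · obtain ⟨j, rfl⟩ := Nat.exists_eq_add_of_le (not_lt.1 h)
    have := hP.2 (j + 1) (by omega)
    rw [comp_bot_add, comp_top_add]; omega

theorem inv_comp (hF : F.Valid) (hm : P.m = s + 1) (hb : P.bot 0 = 0)
    (ht : P.top 0 = 1) (iF : F.Inv) (iP : P.Inv) : (F.comp P s).Inv := by
  intro C t b ⟨c0, cs⟩ hcl
  have hN : (F.comp P s).N = F.N + P.N := rfl
  have hm' : (F.comp P s).m = F.m + s := rfl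
  rw [hN] at c0 hcl
  rw [hN, hm'] at cs
  rw [hN, hm']
  rw [hm'] at hcl
  have colF : F.Col t b := by
    refine ⟨fun l hl => c0 l (by omega), fun k hk => ?_⟩
    obtain ⟨h1, h2, h3, h4⟩ := cs k (by omega)
    rw [comp_bot_lt hk, comp_top_lt hk] at h1 h2
    rw [comp_bot_lt hk] at h3
    rw [comp_top_lt hk] at h4
    exact ⟨h1, h2, fun l hl => h3 l (by omega), fun l hl => h4 l (by omega)⟩
  have low : ∀ l, l < F.N → ∀ j, j ≤ s → t (F.m + j) l = t F.m l ∧ b (F.m + j) l = b F.m l := by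
    intro l hl j
    induction j with
    | zero => intro _; exact ⟨rfl, rfl⟩
    | succ j ih =>
      intro hj
      obtain ⟨-, -, h3, h4⟩ := cs (F.m + j) (by omega)
      rw [comp_bot_add] at h3
      rw [comp_top_add] at h4
      obtain ⟨i1, i2⟩ := ih (by omega)
      exact ⟨(h3 l (by omega) (by omega)).trans i1, (h4 l (by omega) (by omega)).trans i2⟩
  have high : ∀ l, F.N + 2 ≤ l → l < F.N + P.N + 2 → ∀ k, k ≤ F.m →
      t k l = t 0 l ∧ b k l = t 0 l := by
    intro l hl hl' k
    induction k with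
    | zero => intro _; exact ⟨rfl, (c0 l hl').symm⟩
    | succ k ih =>
      intro hk
      obtain ⟨-, -, h3, h4⟩ := cs k (by omega)
      have := hF.2 k hk
      rw [comp_bot_lt hk] at h3
      rw [comp_top_lt hk] at h4
      obtain ⟨i1, i2⟩ := ih (by omega)
      exact ⟨(h3 l hl' (by omega)).trans i1, (h4 l hl' (by omega)).trans i2⟩
  obtain ⟨A1, A2, A3⟩ := iF C t b colF fun l hl => by
    rw [← (low l hl s le_rfl).1, ← (low l hl s le_rfl).2]; exact hcl l (by omega)
  let tP : ℕ → ℕ → C := fun j l =>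
    if j = 0 then (if l < 2 then t F.m (F.N + 1) else t F.m (F.N + l)) else t (F.m + (j - 1)) (F.N + l)
  let bP : ℕ → ℕ → C := fun j l =>
    if j = 0 then (if l < 2 then t F.m (F.N + 1) else b F.m (F.N + l)) else b (F.m + (j - 1)) (F.N + l)
  have tS : ∀ j l, tP (j + 1) l = t (F.m + j) (F.N + l) := fun j l => by simp [tP]
  have bS : ∀ j l, bP (j + 1) l = b (F.m + j) (F.N + l) := fun j l => by simp [bP]
  have colP : P.Col tP bP := by
    refine ⟨fun l hl => ?_, fun k hk => ?_⟩
    · simp only [tP, bP, if_true]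
      split_ifs with h
      · rfl
      · rw [(high (F.N + l) (by omega) (by omega) F.m le_rfl).1,
          (high (F.N + l) (by omega) (by omega) F.m le_rfl).2]
    · rcases k with _ | j
      · rw [hb, ht, tS, bS]
        refine ⟨A1, by simp [tP, bP], fun l hl hne => ?_, fun l hl hne => ?_⟩
        · rw [tS]
          simp only [tP, if_true, add_zero]
          split_ifs with h
          · rw [show l = 1 by omega]
          · rfl
        · rw [bS]
          simp only [bP, if_true, add_zero]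
          split_ifs with h
          · rw [show l = 0 by omega]; exact A2.symm
          · rfl
      · obtain ⟨h1, h2, h3, h4⟩ := cs (F.m + j) (by omega)
        rw [comp_bot_add, comp_top_add] at h1 h2
        rw [comp_bot_add] at h3
        rw [comp_top_add] at h4
        simp only [tS, bS]
        exact ⟨h1, h2, fun l hl hne => h3 _ (by omega) (by omega),
          fun l hl hne => h4 _ (by omega) (by omega)⟩
  obtain ⟨B1, B2, B3⟩ := iP C tP bP colP fun l hl => by
    rw [hm, tS, bS]; exact hcl _ (by omega)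
  simp only [hm, tS, bS] at B1 B2 B3
  refine ⟨B1, B2, fun hc => ?_⟩
  have B4 := B3 hc
  have e1 : t F.m F.N = t (F.m + s) (F.N + P.N) := by
    have := (B4 1 (by omega) 0 (by omega)).1
    rwa [tS] at this
  have e2 : t F.m (F.N + 1) = t (F.m + s) (F.N + P.N) := by
    have := (B4 1 (by omega) 1 (by omega)).1
    rwa [tS] at this
  have A4 := A3 (e1.trans e2.symm)
  rw [e1] at A4
  intro k hk l hl
  by_cases hkm : k ≤ F.m
  · by_cases hl2 : l < F.N + 2
    · exact A4 k hkm l hl2
    · obtain ⟨l', rfl⟩ := Nat.exists_eq_add_of_le (show F.N ≤ l by omega)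
      have := (B4 1 (by omega) l' (by omega)).1
      rw [tS, add_zero, (high _ (by omega) hl F.m le_rfl).1] at this
      rw [(high _ (by omega) hl k hkm).1, (high _ (by omega) hl k hkm).2]
      exact ⟨this, this⟩
  · obtain ⟨j, rfl⟩ := Nat.exists_eq_add_of_le (show F.m ≤ k by omega)
    by_cases hl2 : l < F.N
    · rw [(low l hl2 j (by omega)).1, (low l hl2 j (by omega)).2]
      exact A4 F.m le_rfl l (by omega)
    · obtain ⟨l', rfl⟩ := Nat.exists_eq_add_of_le (show F.N ≤ l by omega)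
      have := B4 (j + 1) (by omega) l' (by omega)
      rwa [tS, bS] at this

/-- The basis of the composite fence. -/
def compBasis {ι κ : Type} (F : Fence) (a : ι → ℕ → ℤ) (π : ℕ → ℤ) (f : κ → ℕ → ℤ) :
    ι ⊕ κ → ℕ → ℤ :=
  Sum.elim (fun i => F.glue (a i) fun _ => 0) fun j => F.glue (fun k => f j 0 * π k) (f j)

theorem bd_glue_zero (hm : P.m = s + 1) (hb : P.bot 0 = 0) (ht : P.top 0 = 1) {α f : ℕ → ℤ}
    (h : F.HasBd α (f 0)) (hf : ∀ l, P.bd f l = 0) (l : ℕ) :
    (F.comp P s).bd (F.glue α f) l = 0 := by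
  by_cases hl : l < F.N
  · rw [bd_glue_low _ _ hl, h l, if_neg (by omega), if_neg (by omega)]; simp
  · obtain ⟨l', rfl⟩ := Nat.exists_eq_add_of_le (not_lt.1 hl)
    rw [bd_glue_high hm hb ht h, hf]

theorem basis_comp {ι κ : Type} [Fintype ι] [Fintype κ] {a : ι → ℕ → ℤ} {π : ℕ → ℤ}
    {f : κ → ℕ → ℤ} (hF : F.Valid) (hm : P.m = s + 1) (hb : P.bot 0 = 0)
    (ht : P.top 0 = 1) (hπ : F.HasBd π 1) (bF : F.IsBasis a) (bP : P.IsBasis f) :
    (F.comp P s).IsBasis (F.compBasis a π f) := by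
  have hm' : (F.comp P s).m = F.m + s := rfl
  constructor
  · rintro (i | j) l
    · exact bd_glue_zero (α := a i) (f := fun _ => 0) hm hb ht (fun l => by rw [bF.1]; simp)
        (fun l => by simp [bd]) l
    · exact bd_glue_zero hm hb ht (hπ.mul _) (bP.1 j) l
  · intro c hc
    let fc : ℕ → ℤ := fun j => if j = 0 then F.bd c (F.N + 1) else c (F.m + (j - 1))
    have fS : ∀ j, fc (j + 1) = c (F.m + j) := fun j => by simp [fc]
    have hcg : c = F.glue c fc := by
      funext k
      by_cases hk : k < F.m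
      · rw [glue_lt hk]
      · obtain ⟨j, rfl⟩ := Nat.exists_eq_add_of_le (not_lt.1 hk)
        rw [glue_add, fS]
    have hB : F.HasBd c (fc 0) := by
      refine hasBd_of_low hF c fun l hl => ?_
      rw [← bd_glue_low (P := P) (s := s) c fc hl, ← hcg, hc]
    have hfc : ∀ l, P.bd fc l = 0 := fun l => by
      rw [← bd_glue_high hm hb ht hB, ← hcg, hc]
    obtain ⟨μ, hμ, uμ⟩ := bP.2 fc hfc
    have hce : ∀ l, F.bd (fun k => c k - fc 0 * π k) l = 0 := fun l => by
      rw [bd_sub, hB l, hπ.mul _ l, sub_self]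
    obtain ⟨lam, hl, ul⟩ := bF.2 _ hce
    have expand : ∀ (x : ι ⊕ κ → ℤ) (k : ℕ), k < F.m → ∑ i, x i * F.compBasis a π f i k =
        ∑ i, x (Sum.inl i) * a i k + (∑ j, x (Sum.inr j) * f j 0) * π k := by
      intro x k hk
      rw [Fintype.sum_sum_type, sum_mul]
      simp only [compBasis, Sum.elim_inl, Sum.elim_inr, glue_lt hk, mul_assoc]
    have expand' : ∀ (x : ι ⊕ κ → ℤ) (j : ℕ), ∑ i, x i * F.compBasis a π f i (F.m + j) =
        ∑ i, x (Sum.inr i) * f i (j + 1) := by
      intro x j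
      rw [Fintype.sum_sum_type]
      simp only [compBasis, Sum.elim_inl, Sum.elim_inr, glue_add, mul_zero, sum_const_zero,
        zero_add]
    refine ⟨Sum.elim lam μ, fun k hk => ?_, fun x hx => ?_⟩
    · by_cases hk' : k < F.m
      · rw [expand _ k hk']
        simp only [Sum.elim_inl, Sum.elim_inr]
        rw [← hl k hk', ← hμ 0 (by omega)]
        ring
      · obtain ⟨j, rfl⟩ := Nat.exists_eq_add_of_le (not_lt.1 hk')
        rw [expand', ← fS]
        exact hμ (j + 1) (by omega)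
    · have h0 : fc 0 = ∑ j, x (Sum.inr j) * f j 0 := by
        have h1 := hB (F.N + 1)
        rw [bd_congr (b := fun k => (∑ i, x (Sum.inl i) * a i k) -
          (-(∑ j, x (Sum.inr j) * f j 0)) * π k) (fun k hk => by
            rw [hx k (by omega), expand x k hk]; ring), bd_sub, bd_sum, bd_mul, hπ] at h1
        simp only [bF.1, mul_zero, sum_const_zero, if_true, add_eq_left, one_ne_zero,
          if_false] at h1
        linarith
      have h2 : (fun j => x (Sum.inr j)) = μ := by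
        refine uμ _ fun k hk => ?_
        rcases k with _ | j
        · exact h0
        · rw [fS, hx _ (by omega), expand']
      have h3 : (fun i => x (Sum.inl i)) = lam := by
        refine ul _ fun k hk => ?_
        rw [hx k (by omega), expand x k hk, h0]
        ring
      funext i
      rcases i with i | j
      · exact congrFun h3 i
      · exact congrFun h2 j

theorem good_comp {ι κ : Type} [Fintype ι] [Fintype κ] {a : ι → ℕ → ℤ} {π : ℕ → ℤ}
    {f : κ → ℕ → ℤ} {ρ : ℕ → ℤ} (hF : F.Good a π) (hP : P.Good f ρ) (hm : P.m = s + 1)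
    (hb : P.bot 0 = 0) (ht : P.top 0 = 1) :
    (F.comp P s).Good (F.compBasis a π f) (F.glue (fun k => ρ 0 * π k) ρ) := by
  refine ⟨valid_comp hF.1 hP.1 hm, inv_comp hF.1 hm hb ht hF.2.1 hP.2.1,
    basis_comp hF.1 hm hb ht hF.2.2.2 hF.2.2.1 hP.2.2.1, fun l => ?_⟩
  have hN : (F.comp P s).N = F.N + P.N := rfl
  rw [hN]
  by_cases hl : l < F.N
  · rw [bd_glue_low _ _ hl, hF.2.2.2.mul _ l, if_neg (by omega), if_neg (by omega),
      if_neg (by omega), if_neg (by omega)]
    simp
  · obtain ⟨l', rfl⟩ := Nat.exists_eq_add_of_le (not_lt.1 hl)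
    rw [bd_glue_high hm hb ht (hF.2.2.2.mul _), hP.2.2.2 l']
    simp only [add_assoc, add_right_inj]

end Fence

end Pool.Agent.P.MP_06cdda_gt
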