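import Pool.Agent.P.MP_06cdda_gt.Surf

open Finset

namespace Pool.Agent.P.MP_06cdda_gt

namespace Fence

variable (F : Fence)

def sg (u v : ℕ × ℕ) : F.X × F.X → ℤ := fun e => if e.1.1 = u ∧ e.2.1 = v then 1 else 0

def pt (u : ℕ × ℕ) : F.X → ℤ := fun z => if z.1 = u then 1 else 0

def Dv : (F.X × F.X → ℤ) →ₗ[ℤ] (F.X → ℤ) where
  toFun c v := ∑ u, c (u, v) - ∑ u, c (v, u)
  map_add' c c' := by ext v; simp only [Pi.add_apply, sum_add_distrib]; ring
  map_smul' a c := by ext v; simp only [Pi.smul_apply, smul_eq_mul, ← mul_sum, RingHom.id_apply]; ring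

def hz (x l : ℕ) : F.X × F.X → ℤ := F.sg (x, 2 * l) (x + 1, 2 * l)
def vt (x l : ℕ) : F.X × F.X → ℤ := F.sg (x, 2 * l) (x, 2 * l + 1)
def dg (k : ℕ) : F.X × F.X → ℤ := F.sg (2 * k, 2 * F.bot k + 1) (2 * k + 1, 2 * F.top k)
def PP (x l : ℕ) : F.X × F.X → ℤ := ∑ x' ∈ Ico x (2 * F.m - 1), F.hz x' l
def CC (k : ℕ) : F.X × F.X → ℤ :=
  -F.PP (2 * k) (F.bot k) + F.vt (2 * k) (F.bot k) + F.dg k + F.PP (2 * k + 1) (F.top k)
def chain (a : ℕ → ℤ) : F.X × F.X → ℤ := ∑ k ∈ range F.m, a k • F.CC k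

def psi (k : ℕ) (u v : ℕ × ℕ) : ℤ :=
  if u.1 / 2 = k ∧ v.1 / 2 = k then
    (if u.2 = 2 * F.bot k + 1 ∧ v.2 = 2 * F.top k then 1 else 0) -
      (if v.2 = 2 * F.bot k + 1 ∧ u.2 = 2 * F.top k then 1 else 0)
  else 0

def phi (k : ℕ) : (F.X × F.X → ℤ) →ₗ[ℤ] ℤ where
  toFun c := ∑ e, c e * F.psi k e.1.1 e.2.1
  map_add' c c' := by simp only [Pi.add_apply, add_mul, sum_add_distrib]
  map_smul' a c := by simp only [Pi.smul_apply, smul_eq_mul, mul_sum, RingHom.id_apply, mul_assoc]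

def RR (u : ℕ × ℕ) : F.X × F.X → ℤ :=
  if u.2 % 2 = 0 then F.PP u.1 (u.2 / 2) else -F.vt u.1 (u.2 / 2) + F.PP u.1 (u.2 / 2)

def GoodE (u v : ℕ × ℕ) : Prop :=
  F.sg u v - (F.RR u - F.RR v) - ∑ k ∈ range F.m, F.psi k u v • F.CC k ∈ Bdry F.TT

variable {F}

theorem sg_eq (u v : F.X) : F.sg u.1 v.1 = Pi.single (u, v) 1 := by
  ext ⟨a, b⟩
  simp only [sg, Pi.single_apply, Prod.mk.injEq, Subtype.val_inj]

theorem sg_eq' {u v : ℕ × ℕ} (hu : F.InR u) (hv : F.InR v) :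
    F.sg u v = Pi.single ((⟨u, hu⟩, ⟨v, hv⟩) : F.X × F.X) 1 := sg_eq (F := F) ⟨u, hu⟩ ⟨v, hv⟩

theorem sg_eq_zero {u v : ℕ × ℕ} (h : ¬ (F.InR u ∧ F.InR v)) : F.sg u v = 0 := by
  ext ⟨a, b⟩
  refine if_neg ?_
  rintro ⟨rfl, rfl⟩
  exact h ⟨a.2, b.2⟩

theorem Dv_sg {u v : ℕ × ℕ} (hu : F.InR u) (hv : F.InR v) : F.Dv (F.sg u v) = F.pt v - F.pt u := by
  obtain ⟨u, rfl⟩ : ∃ u' : F.X, u'.1 = u := ⟨⟨u, hu⟩, rfl⟩
  obtain ⟨v, rfl⟩ : ∃ v' : F.X, v'.1 = v := ⟨⟨v, hv⟩, rfl⟩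
  rw [sg_eq]
  ext z
  simp only [Dv, LinearMap.coe_mk, AddHom.coe_mk, Pi.single_apply, Prod.mk.injEq, pt, Pi.sub_apply,
    Subtype.val_inj]
  congr 1
  · simp [ite_and]
  · split_ifs with h <;> simp [h]

theorem phi_sg {u v : ℕ × ℕ} (hu : F.InR u) (hv : F.InR v) (k : ℕ) :
    F.phi k (F.sg u v) = F.psi k u v := by
  rw [sg_eq' hu hv]
  simp [phi, Pi.single_apply]

theorem phi_sg_zero {u v : ℕ × ℕ} {k : ℕ} (h : F.psi k u v = 0) : F.phi k (F.sg u v) = 0 := by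
  by_cases hr : F.InR u ∧ F.InR v
  · rw [phi_sg hr.1 hr.2, h]
  · rw [sg_eq_zero hr, map_zero]

theorem psi_swap (k : ℕ) (u v : ℕ × ℕ) : F.psi k v u = -F.psi k u v := by
  unfold psi
  split_ifs <;> omega

theorem psi_tri (hF : F.Valid) {k : ℕ} (hk : k < F.m) {a b c : ℕ × ℕ} (h : F.T1 a b c) :
    F.psi k a b + F.psi k b c + F.psi k c a = 0 := by
  have h0 : ∀ a b c, F.T0 a b c → F.psi k a b + F.psi k b c + F.psi k c a = 0 := by
    have h1 := hF.2 k hk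
    rintro a b c ⟨x, y1, y2, hc | ⟨k', hk', hc⟩, ⟨rfl, rfl, rfl⟩ | ⟨rfl, rfl, rfl⟩⟩
    · simp only [psi]; split_ifs <;> omega
    · simp only [psi]; split_ifs <;> omega
    · have hb : k' = k → F.bot k' = F.bot k ∧ F.top k' = F.top k := fun h => by rw [h]; simp
      simp only [psi]; split_ifs <;> omega
    · have hb : k' = k → F.bot k' = F.bot k ∧ F.top k' = F.top k := fun h => by rw [h]; simp
      simp only [psi]; split_ifs <;> omega
  rcases h with h | h | h <;> have := h0 _ _ _ h <;> omega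

theorem relE (hF : F.Valid) {u v : ℕ × ℕ} (h : F.E0 u v) : F.sg u v + F.sg v u ∈ Bdry F.TT := by
  have := h.inR hF
  rw [sg_eq' this.1 this.2, sg_eq' this.2 this.1]
  exact Submodule.subset_span (Or.inl ⟨_, _, (edge_iff hF).2 h, rfl⟩)

theorem relT (hF : F.Valid) {a b c : ℕ × ℕ} (h : F.T1 a b c) :
    F.sg a b + F.sg b c + F.sg c a ∈ Bdry F.TT := by
  have := h.inR hF
  rw [sg_eq' this.1 this.2.1, sg_eq' this.2.1 this.2.2, sg_eq' this.2.2 this.1]
  exact Submodule.subset_span (Or.inr ⟨⟨a, this.1⟩, ⟨b, this.2.1⟩, ⟨c, this.2.2⟩, h, rfl⟩)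

theorem Dv_bdry {c : F.X × F.X → ℤ} (h : c ∈ Bdry F.TT) : F.Dv c = 0 := by
  refine (Submodule.span_le (p := LinearMap.ker F.Dv)).2 ?_ h
  rintro _ (⟨a, b, -, rfl⟩ | ⟨a, b, d, -, rfl⟩)
  · simp only [SetLike.mem_coe, LinearMap.mem_ker, ← sg_eq, map_add, Dv_sg a.2 b.2, Dv_sg b.2 a.2]
    abel
  · simp only [SetLike.mem_coe, LinearMap.mem_ker, ← sg_eq, map_add, Dv_sg a.2 b.2, Dv_sg b.2 d.2,
      Dv_sg d.2 a.2]
    abel

theorem phi_bdry (hF : F.Valid) {k : ℕ} (hk : k < F.m) {c : F.X × F.X → ℤ} (h : c ∈ Bdry F.TT) :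
    F.phi k c = 0 := by
  refine (Submodule.span_le (p := LinearMap.ker (F.phi k))).2 ?_ h
  rintro _ (⟨a, b, -, rfl⟩ | ⟨a, b, d, h, rfl⟩)
  · simp only [SetLike.mem_coe, LinearMap.mem_ker, ← sg_eq, map_add, phi_sg a.2 b.2,
      phi_sg b.2 a.2, psi_swap k a.1 b.1, add_neg_cancel]
  · simp only [SetLike.mem_coe, LinearMap.mem_ker, ← sg_eq, map_add, phi_sg a.2 b.2,
      phi_sg b.2 d.2, phi_sg d.2 a.2]
    exact psi_tri hF hk h

theorem Dv_PP {x l : ℕ} (hx : x < 2 * F.m) (hl : l < F.N + 2) :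
    F.Dv (F.PP x l) = F.pt (2 * F.m - 1, 2 * l) - F.pt (x, 2 * l) := by
  rw [PP, map_sum, ← sum_Ico_sub (fun x' => F.pt (x', 2 * l)) (by omega)]
  refine sum_congr rfl fun x' hx' => ?_
  rw [mem_Ico] at hx'
  exact Dv_sg ⟨by simp only; omega, by simp only; omega⟩ ⟨by simp only; omega, by simp only; omega⟩

theorem Dv_CC (hF : F.Valid) {k : ℕ} (hk : k < F.m) :
    F.Dv (F.CC k) = F.pt (2 * F.m - 1, 2 * F.top k) - F.pt (2 * F.m - 1, 2 * F.bot k) := by
  have := hF.2 k hk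
  rw [CC, map_add, map_add, map_add, map_neg, Dv_PP (by omega) (by omega),
    Dv_PP (by omega) (by omega), vt, dg,
    Dv_sg ⟨by simp only; omega, by simp only; omega⟩ ⟨by simp only; omega, by simp only; omega⟩,
    Dv_sg ⟨by simp only; omega, by simp only; omega⟩ ⟨by simp only; omega, by simp only; omega⟩]
  abel

theorem Dv_chain (hF : F.Valid) (a : ℕ → ℤ) (z : F.X) : F.Dv (F.chain a) z =
    if z.1.1 = 2 * F.m - 1 ∧ z.1.2 % 2 = 0 then F.bd a (z.1.2 / 2) else 0 := by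
  rw [chain, map_sum, Finset.sum_apply]
  split_ifs with h
  · refine sum_congr rfl fun k hk => ?_
    rw [map_smul, Dv_CC hF (mem_range.1 hk)]
    simp only [Pi.smul_apply, Pi.sub_apply, pt, smul_eq_mul, Prod.ext_iff]
    congr 2 <;> refine if_congr ?_ rfl rfl <;> omega
  · refine sum_eq_zero fun k hk => ?_
    rw [map_smul, Dv_CC hF (mem_range.1 hk)]
    simp only [Pi.smul_apply, Pi.sub_apply, pt, smul_eq_mul, Prod.ext_iff]
    rw [if_neg (by omega), if_neg (by omega)]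
    simp

theorem phi_PP (k x l : ℕ) : F.phi k (F.PP x l) = 0 := by
  rw [PP, map_sum]
  refine sum_eq_zero fun x' _ => phi_sg_zero ?_
  simp only [psi]
  split_ifs <;> omega

theorem psi_dg (hF : F.Valid) {k k' : ℕ} (hk' : k' < F.m) :
    F.psi k (2 * k', 2 * F.bot k' + 1) (2 * k' + 1, 2 * F.top k') = if k' = k then 1 else 0 := by
  have := hF.2 k' hk'
  have hb : k' = k → F.bot k' = F.bot k ∧ F.top k' = F.top k := fun h => by rw [h]; simp
  simp only [psi]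
  split_ifs <;> omega

theorem psi_vt (hF : F.Valid) {k : ℕ} (hk : k < F.m) (x l : ℕ) :
    F.psi k (x, 2 * l) (x, 2 * l + 1) = 0 := by
  have := hF.2 k hk
  simp only [psi]
  split_ifs <;> omega

theorem phi_CC (hF : F.Valid) {k k' : ℕ} (hk : k < F.m) (hk' : k' < F.m) :
    F.phi k (F.CC k') = if k' = k then 1 else 0 := by
  have := hF.2 k' hk'
  rw [CC, map_add, map_add, map_add, map_neg, phi_PP, phi_PP, vt, phi_sg_zero (psi_vt hF hk _ _), dg,
    phi_sg ⟨by simp only; omega, by simp only; omega⟩ ⟨by simp only; omega, by simp only; omega⟩,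
    psi_dg hF hk']
  simp

theorem phi_chain (hF : F.Valid) {k : ℕ} (hk : k < F.m) (a : ℕ → ℤ) : F.phi k (F.chain a) = a k := by
  rw [chain, map_sum, sum_congr rfl fun k' hk' => by
    rw [map_smul, phi_CC hF hk (mem_range.1 hk')]]
  simp [hk]

theorem GoodE.symm (hF : F.Valid) {u v : ℕ × ℕ} (h : F.GoodE u v) (he : F.E0 u v ∨ F.E0 v u) :
    F.GoodE v u := by
  have h1 : F.sg u v + F.sg v u ∈ Bdry F.TT := by
    rcases he with he | he
    · exact relE hF he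
    · rw [add_comm]; exact relE hF he
  have := Submodule.sub_mem _ h1 h
  unfold GoodE
  convert this using 1
  simp only [psi_swap _ u v, neg_smul, sum_neg_distrib]
  abel

theorem GoodE.tri (hF : F.Valid) {a b c : ℕ × ℕ} (h : F.T1 a b c) (h1 : F.GoodE a b)
    (h2 : F.GoodE b c) : F.GoodE c a := by
  have := Submodule.sub_mem _ (Submodule.sub_mem _ (relT hF h) h1) h2
  unfold GoodE
  convert this using 1
  have e : ∑ k ∈ range F.m, F.psi k c a • F.CC k =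
      -∑ k ∈ range F.m, F.psi k a b • F.CC k - ∑ k ∈ range F.m, F.psi k b c • F.CC k := by
    rw [← sum_neg_distrib, ← sum_sub_distrib]
    refine sum_congr rfl fun k hk => ?_
    have := psi_tri hF (mem_range.1 hk) h
    rw [← neg_smul, ← sub_smul]
    congr 1
    omega
  rw [e]
  abel

theorem good_hz {x : ℕ} (hx : x + 1 < 2 * F.m) (l : ℕ) : F.GoodE (x, 2 * l) (x + 1, 2 * l) := by
  have e1 : 2 * l % 2 = 0 := by omega
  have e2 : 2 * l / 2 = l := by omega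
  have e3 : F.PP x l = F.hz x l + F.PP (x + 1) l := sum_eq_sum_Ico_succ_bot (by omega) _
  unfold GoodE
  rw [sum_eq_zero fun k _ => by
    rw [show F.psi k (x, 2 * l) (x + 1, 2 * l) = 0 by simp only [psi]; split_ifs <;> omega,
      zero_smul]]
  simp only [RR, e1, e2, if_true, e3, hz]
  simp

theorem good_vt (hF : F.Valid) (x l : ℕ) : F.GoodE (x, 2 * l) (x, 2 * l + 1) := by
  have e1 : 2 * l % 2 = 0 := by omega
  have e2 : 2 * l / 2 = l := by omega
  have e3 : ¬ (2 * l + 1) % 2 = 0 := by omega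
  have e4 : (2 * l + 1) / 2 = l := by omega
  unfold GoodE
  rw [sum_eq_zero fun k hk => by rw [psi_vt hF (mem_range.1 hk), zero_smul]]
  simp only [RR, e1, e2, e3, e4, if_true, if_false, vt]
  simp

theorem good_dg (hF : F.Valid) {k : ℕ} (hk : k < F.m) :
    F.GoodE (2 * k, 2 * F.bot k + 1) (2 * k + 1, 2 * F.top k) := by
  have e1 : 2 * F.top k % 2 = 0 := by omega
  have e2 : 2 * F.top k / 2 = F.top k := by omega
  have e3 : ¬ (2 * F.bot k + 1) % 2 = 0 := by omega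
  have e4 : (2 * F.bot k + 1) / 2 = F.bot k := by omega
  unfold GoodE
  simp only [psi_dg hF hk, ite_smul, one_smul, zero_smul, sum_ite_eq, mem_range, hk, if_true,
    RR, e1, e2, e3, e4, if_false, CC, dg]
  convert Submodule.zero_mem _ using 1
  abel

theorem good_row (hF : F.Valid) {x l : ℕ} (hc : F.Cell x (2 * l) (2 * l + 1)) :
    F.GoodE (x + 1, 2 * l + 1) (x, 2 * l) ∧ F.GoodE (x + 1, 2 * l + 1) (x, 2 * l + 1) := by
  have h1 := GoodE.tri hF (lower hc) (good_hz (hc.lt hF).2.1 l) (good_vt hF _ l)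
  refine ⟨h1, GoodE.tri hF (upper hc).rot.rot ?_ ?_⟩
  · exact (good_vt hF x l).symm hF (Or.inr (e0_iff.2 ⟨_, (upper hc).rot.rot⟩))
  · exact h1.symm hF (Or.inr (e0_iff.2 ⟨_, upper hc⟩))

theorem good_edge (hF : F.Valid) {u v : ℕ × ℕ} (h : F.E0 u v) : F.GoodE u v := by
  obtain ⟨x, y1, y2, hc, h⟩ := h
  have hl := hc.lt hF
  have key : F.GoodE (x, y1) (x + 1, y1) ∧ F.GoodE (x, y1) (x + 1, y2) ∧
      F.GoodE (x + 1, y2) (x, y2) := by
    rcases id hc with ⟨-, h2, rfl, -⟩ | ⟨k, hk, rfl, rfl, rfl⟩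
    · obtain ⟨l, rfl⟩ : ∃ l, y1 = 2 * l := ⟨y1 / 2, by omega⟩
      exact ⟨good_hz hl.2.1 l, (good_row hF hc).1.symm hF (Or.inr (e0_iff.2 ⟨_, upper hc⟩)),
        (good_row hF hc).2⟩
    · have hr : F.Cell (2 * k) (2 * F.bot k) (2 * F.bot k + 1) := Or.inl (by omega)
      exact ⟨(good_row hF hr).2.symm hF (Or.inr (e0_iff.2 ⟨_, lower hc⟩)), good_dg hF hk,
        (good_hz hl.2.1 _).symm hF (Or.inr (e0_iff.2 ⟨_, (upper hc).rot⟩))⟩
  have k2 := key.2.1.symm hF (Or.inl (e0_iff.2 ⟨_, upper hc⟩))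
  rcases h with ⟨rfl, rfl⟩ | ⟨rfl, rfl⟩ | ⟨rfl, rfl⟩ | ⟨rfl, rfl⟩ | ⟨rfl, rfl⟩ | ⟨rfl, rfl⟩
  · exact key.1
  · exact GoodE.tri hF (lower hc).rot.rot k2 key.1
  · exact k2
  · exact key.2.1
  · exact key.2.2
  · exact GoodE.tri hF (upper hc) key.2.1 key.2.2

theorem cycle_reduce (hF : F.Valid) {c : F.X × F.X → ℤ} (hc : IsCycle F.TT c) :
    c - F.chain (fun k => F.phi k c) ∈ Bdry F.TT := by
  have h1 : ∑ e : F.X × F.X, c e • (F.sg e.1.1 e.2.1 - (F.RR e.1.1 - F.RR e.2.1) -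
      ∑ k ∈ range F.m, F.psi k e.1.1 e.2.1 • F.CC k) ∈ Bdry F.TT := by
    refine Submodule.sum_mem _ fun e _ => ?_
    by_cases he : c e = 0
    · rw [he, zero_smul]; exact Submodule.zero_mem _
    · refine Submodule.smul_mem _ _ ?_
      rcases hc.1 e he with h | h
      · exact good_edge hF ((edge_iff hF).1 h)
      · exact (good_edge hF ((edge_iff hF).1 h)).symm hF (Or.inl ((edge_iff hF).1 h))
  convert h1 using 1
  simp only [smul_sub, sum_sub_distrib]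
  have e1 : ∑ e : F.X × F.X, c e • F.sg e.1.1 e.2.1 = c := by
    simp only [sg_eq, ← Pi.single_smul, smul_eq_mul, mul_one]
    exact Finset.univ_sum_single c
  have e2 : ∑ e : F.X × F.X, c e • F.RR e.1.1 = ∑ e : F.X × F.X, c e • F.RR e.2.1 := by
    rw [Fintype.sum_prod_type, Fintype.sum_prod_type_right]
    refine sum_congr rfl fun v _ => ?_
    simp only [← sum_smul]
    rw [hc.2 v]
  have e3 : ∑ e : F.X × F.X, c e • ∑ k ∈ range F.m, F.psi k e.1.1 e.2.1 • F.CC k =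
      F.chain fun k => F.phi k c := by
    simp only [smul_sum, smul_smul]
    rw [sum_comm, chain]
    refine sum_congr rfl fun k _ => ?_
    rw [← sum_smul]
    rfl
  rw [e1, e2, e3, sub_self, sub_zero]

theorem chain_congr {a b : ℕ → ℤ} (h : ∀ k, k < F.m → a k = b k) : F.chain a = F.chain b :=
  sum_congr rfl fun k hk => by rw [h k (mem_range.1 hk)]

theorem chain_sum {ι : Type} [Fintype ι] (x : ι → ℤ) (a : ι → ℕ → ℤ) :
    F.chain (fun k => ∑ i, x i * a i k) = ∑ i, x i • F.chain (a i) := by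
  simp only [chain, sum_smul, smul_sum, smul_smul]
  rw [sum_comm]

theorem homology_basis (hF : F.Valid) {ι : Type} [Fintype ι] {a : ι → ℕ → ℤ} (hB : F.IsBasis a)
    {c : F.X × F.X → ℤ} (hc : IsCycle F.TT c) :
    ∃! x : ι → ℤ, c - ∑ i, x i • F.chain (a i) ∈ Bdry F.TT := by
  have h1 := cycle_reduce hF hc
  have h2 : F.Dv c = 0 := by
    ext v
    exact sub_eq_zero.2 (hc.2 v)
  have h3 : ∀ l, F.bd (fun k => F.phi k c) l = 0 := by
    intro l
    by_cases hl : l < F.N + 2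
    · have h4 := Dv_bdry h1
      rw [map_sub, h2, zero_sub, neg_eq_zero] at h4
      have hm := hF.1
      have h5 := congrFun h4 ⟨(2 * F.m - 1, 2 * l), by simp only [InR]; omega⟩
      rw [Dv_chain hF, if_pos ⟨rfl, by simp⟩] at h5
      simpa using h5
    · exact bd_eq_zero_of_le hF _ (not_lt.1 hl)
  obtain ⟨x, hx, ux⟩ := hB.2 _ h3
  refine ⟨x, ?_, fun y hy => ux y fun k hk => ?_⟩
  · beta_reduce
    rwa [← chain_sum, ← chain_congr hx]
  · have := phi_bdry hF hk hy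
    rwa [← chain_sum, map_sub, phi_chain hF hk, sub_eq_zero] at this

end Fence

end Pool.Agent.P.MP_06cdda_gt
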