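import Pool.Agent.P.MP_06cdda_gt.RibG

open Finset

set_option linter.unusedSectionVars false

namespace Pool.Agent.P.MP_06cdda_gt

open Rib

/-- Rectangular placement of the nodes. -/
structure Lay (ν : Type) where
  l : ν → ℕ
  xl : ν → ℤ
  xr : ν → ℤ
  zl : ν → ℤ
  zr : ν → ℤ

namespace Lay

variable {ν : Type} [Fintype ν] [DecidableEq ν] (L : Lay ν) (R : Rib ν)

def Xc (u : ν × Fin 4) : ℤ := if u.2 = 0 ∨ u.2 = 3 then L.xl u.1 else L.xr u.1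
def Yc (u : ν × Fin 4) : ℤ := 2 * L.l u.1 + if u.2 = 0 ∨ u.2 = 1 then 0 else 1
def Zc (u : ν × Fin 4) : ℤ := if u.2 = 0 ∨ u.2 = 3 then L.zl u.1 else L.zr u.1
def p (u : ν × Fin 4) : Fin 3 → ℝ := ![L.Xc u, L.Yc u, L.Zc u]

def spec (n g : ν) : Prop :=
  L.l n = L.l g ∧ L.xr g < L.xl n ∧ L.xr n < L.xl (R.γ (g, 1)).1 ∧ R.γ (n, 1) = (n, 1) ∧
    ∃ ζ, L.zr g ≤ ζ ∧ L.zl (R.γ (g, 1)).1 ≤ ζ ∧ ζ + 1 < L.zl n ∧ ζ + 1 < L.zr n

def hi (c d : ν) : Prop :=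
  L.l c = L.l d ∧ ∃ ζ, (L.zl d ≤ ζ ∧ L.zr d ≤ ζ ∧ L.zl (R.γ (d, 2)).1 ≤ ζ ∧
    L.zr (R.γ (d, 2)).1 ≤ ζ) ∧ ζ + 1 < L.zl c ∧ ζ + 1 < L.zr c ∧ ζ + 1 < L.zl (R.γ (c, 2)).1 ∧
    ζ + 1 < L.zr (R.γ (c, 2)).1

def xsep (c d : ν) : Prop := L.xr c < L.xl d ∧ L.xr (R.γ (c, 2)).1 < L.xl (R.γ (d, 2)).1

structure Ok : Prop where
  wid : ∀ n, L.xl n < L.xr n
  gap : ∀ n, R.γ (n, 1) ≠ (n, 1) → L.l (R.γ (n, 1)).1 = L.l n ∧ L.xr n < L.xl (R.γ (n, 1)).1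
  col : ∀ n, R.γ (n, 2) ≠ (n, 2) → L.l (R.γ (n, 2)).1 = L.l n + 1 ∧
    L.xr (R.γ (n, 2)).1 - L.xl (R.γ (n, 2)).1 = L.xr n - L.xl n
  NN : ∀ n n', L.l n = L.l n' → n = n' ∨ L.xr n < L.xl n' ∨ L.xr n' < L.xl n
  NG : ∀ n g, R.γ (g, 1) ≠ (g, 1) → L.l n = L.l g →
    L.xr n ≤ L.xr g ∨ L.xl (R.γ (g, 1)).1 ≤ L.xl n ∨ L.spec R n g
  GG : ∀ g h, R.γ (g, 1) ≠ (g, 1) → R.γ (h, 1) ≠ (h, 1) → L.l g = L.l h →
    g = h ∨ L.xl (R.γ (g, 1)).1 ≤ L.xr h ∨ L.xl (R.γ (h, 1)).1 ≤ L.xr g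
  CC : ∀ c d, R.γ (c, 2) ≠ (c, 2) → R.γ (d, 2) ≠ (d, 2) → L.l c = L.l d →
    c = d ∨ L.xsep R c d ∨ L.xsep R d c ∨ L.hi R c d ∨ L.hi R d c

def Sep (Q Q' : Cp ν) : Prop :=
  (∃ n s r g s' r', Q = .N n s r ∧ Q' = .G (g, 1) s' r' ∧ L.spec R n g) ∨
    ∃ c d s r s', Q = .G (c, 2) s r ∧ Q' = .G (d, 2) s' r ∧ L.hi R c d

variable {L R}

theorem γ_eq {n : ν} {i j : Fin 4} (h : R.γ (n, i) ≠ (n, i)) (hj : j = i + 2) :
    R.γ (n, i) = ((R.γ (n, i)).1, j) := Prod.ext rfl (hj ▸ R.side _ h)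

theorem W_apply (A B C D : Fin 3 → ℝ) (s r : ℝ) (i : Fin 3) :
    W A B C D s r i = W (A i) (B i) (C i) (D i) s r := rfl

theorem p0 (u : ν × Fin 4) : L.p u 0 = L.Xc u := rfl
theorem p1 (u : ν × Fin 4) : L.p u 1 = L.Yc u := rfl
theorem p2 (u : ν × Fin 4) : L.p u 2 = L.Zc u := rfl

theorem evN (n : ν) (s r : ℝ) :
    (Cp.N n s r).ev R L.p 0 = L.xl n + s * (L.xr n - L.xl n) ∧
    (Cp.N n s r).ev R L.p 1 = 2 * L.l n + r ∧
    (Cp.N n s r).ev R L.p 2 = L.zl n + s * (L.zr n - L.zl n) := by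
  simp only [Cp.ev, W_apply, p0, p1, p2]
  refine ⟨?_, ?_, ?_⟩ <;> rw [W_par] <;> simp [Xc, Yc, Zc] <;> ring

theorem evG1 (hL : L.Ok R) {g : ν} (h : R.γ (g, 1) ≠ (g, 1)) (s r : ℝ) :
    (Cp.G (g, 1) s r).ev R L.p 0 = L.xr g + r * (L.xl (R.γ (g, 1)).1 - L.xr g) ∧
    (Cp.G (g, 1) s r).ev R L.p 1 = 2 * L.l g + (1 - s) ∧
    (Cp.G (g, 1) s r).ev R L.p 2 = L.zr g + r * (L.zl (R.γ (g, 1)).1 - L.zr g) := by
  have h1 := (hL.gap g h).1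
  simp only [Cp.ev, W_apply, p0, p1, p2]
  rw [γ_eq h (j := 3) rfl]
  refine ⟨?_, ?_, ?_⟩ <;> rw [W_par] <;> simp [Xc, Yc, Zc, sc, h1] <;> ring

theorem evG2 (hL : L.Ok R) {c : ν} (h : R.γ (c, 2) ≠ (c, 2)) (s r : ℝ) :
    (Cp.G (c, 2) s r).ev R L.p 0 =
      L.xl c + s * (L.xr c - L.xl c) + r * (L.xl (R.γ (c, 2)).1 - L.xl c) ∧
    (Cp.G (c, 2) s r).ev R L.p 1 = 2 * L.l c + 1 + r ∧
    (Cp.G (c, 2) s r).ev R L.p 2 =
      W (L.zl c : ℝ) (L.zr c) (L.zr (R.γ (c, 2)).1) (L.zl (R.γ (c, 2)).1) s r := by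
  have h1 := (hL.col c h).1
  have h2 : (L.xr (R.γ (c, 2)).1 : ℝ) - L.xl (R.γ (c, 2)).1 = L.xr c - L.xl c := by
    exact_mod_cast (hL.col c h).2
  simp only [Cp.ev, W_apply, p0, p1, p2]
  rw [γ_eq h (j := 0) rfl]
  refine ⟨?_, ?_, ?_⟩
  · rw [W_par] <;> simp [Xc, sc]
    linarith
  · rw [W_par] <;> simp [Yc, sc, h1] <;> ring
  · simp [Zc, sc]

theorem strip_eq {l l' : ℕ} {r r' : ℝ} (r0 : 0 ≤ r) (r1 : r < 2) (r0' : 0 ≤ r') (r1' : r' < 2)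
    (h : 2 * (l : ℝ) + r = 2 * l' + r') : l = l' ∧ r = r' := by
  have a : l < l' + 1 := by
    have : (l : ℝ) < l' + 1 := by linarith
    exact_mod_cast this
  have b : l' < l + 1 := by
    have : (l' : ℝ) < l + 1 := by linarith
    exact_mod_cast this
  obtain rfl : l = l' := by omega
  exact ⟨rfl, by linarith⟩

theorem src_cases {b : ν × Fin 4} (h : R.src b) :
    (∃ g, b = (g, 1) ∧ R.γ (g, 1) ≠ (g, 1)) ∨ ∃ c, b = (c, 2) ∧ R.γ (c, 2) ≠ (c, 2) := by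
  obtain ⟨n, i⟩ := b
  obtain ⟨h1, rfl | rfl⟩ := h
  · exact Or.inl ⟨n, rfl, h1⟩
  · exact Or.inr ⟨n, rfl, h1⟩

theorem stackNG (hL : L.Ok R) {n : ν} {b : ν × Fin 4} {s r s' r' : ℝ} (h : (Cp.N n s r).ok R)
    (h' : (Cp.G b s' r').ok R) (e0 : (Cp.N n s r).ev R L.p 0 = (Cp.G b s' r').ev R L.p 0)
    (e1 : (Cp.N n s r).ev R L.p 1 = (Cp.G b s' r').ev R L.p 1) :
    L.Sep R (.N n s r) (.G b s' r') := by
  obtain ⟨s0, s1, r0, r1⟩ := h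
  obtain ⟨hb, s0', s1', r0', r1'⟩ := h'
  have w : (L.xl n : ℝ) < L.xr n := by exact_mod_cast hL.wid n
  rw [(evN n s r).1] at e0
  rw [(evN n s r).2.1] at e1
  rcases src_cases hb with ⟨g, rfl, hg⟩ | ⟨c, rfl, hc⟩
  · rw [(evG1 hL hg s' r').1] at e0
    rw [(evG1 hL hg s' r').2.1] at e1
    have w' : (L.xr g : ℝ) < L.xl (R.γ (g, 1)).1 := by exact_mod_cast (hL.gap g hg).2
    rcases hL.NG n g hg (strip_eq r0 (by linarith) (by linarith) (by linarith) e1).1 with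
      k | k | k
    · have k' : (L.xr n : ℝ) ≤ L.xr g := by exact_mod_cast k
      nlinarith
    · have k' : (L.xl (R.γ (g, 1)).1 : ℝ) ≤ L.xl n := by exact_mod_cast k
      nlinarith
    · exact Or.inl ⟨n, s, r, g, s', r', rfl, rfl, k⟩
  · rw [(evG2 hL hc s' r').2.1, add_assoc] at e1
    have := (strip_eq r0 (by linarith) (by linarith) (by linarith) e1).2
    linarith

theorem stack (hL : L.Ok R) {Q Q' : Cp ν} (h : Q.ok R) (h' : Q'.ok R)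
    (e0 : Q.ev R L.p 0 = Q'.ev R L.p 0) (e1 : Q.ev R L.p 1 = Q'.ev R L.p 1) :
    Q = Q' ∨ L.Sep R Q Q' ∨ L.Sep R Q' Q := by
  rcases Q with ⟨n, s, r⟩ | ⟨b, s, r⟩ <;> rcases Q' with ⟨n', s', r'⟩ | ⟨b', s', r'⟩
  · obtain ⟨s0, s1, r0, r1⟩ := h
    obtain ⟨s0', s1', r0', r1'⟩ := h'
    have w : (L.xl n : ℝ) < L.xr n := by exact_mod_cast hL.wid n
    have w' : (L.xl n' : ℝ) < L.xr n' := by exact_mod_cast hL.wid n'
    rw [(evN n s r).1, (evN n' s' r').1] at e0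
    rw [(evN n s r).2.1, (evN n' s' r').2.1] at e1
    obtain ⟨k1, rfl⟩ := strip_eq r0 (by linarith) r0' (by linarith) e1
    rcases hL.NN n n' k1 with rfl | k | k
    · obtain rfl : s = s' := mul_right_cancel₀ (sub_pos.2 w).ne' (by linarith)
      exact Or.inl rfl
    · have k' : (L.xr n : ℝ) < L.xl n' := by exact_mod_cast k
      nlinarith
    · have k' : (L.xr n' : ℝ) < L.xl n := by exact_mod_cast k
      nlinarith
  · exact Or.inr (Or.inl (stackNG hL h h' e0 e1))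
  · exact Or.inr (Or.inr (stackNG hL h' h e0.symm e1.symm))
  obtain ⟨hb, s0, s1, r0, r1⟩ := h
  obtain ⟨hb', s0', s1', r0', r1'⟩ := h'
  rcases src_cases hb with ⟨g, rfl, hg⟩ | ⟨c, rfl, hc⟩ <;>
    rcases src_cases hb' with ⟨g', rfl, hg'⟩ | ⟨c', rfl, hc'⟩
  · rw [(evG1 hL hg s r).1, (evG1 hL hg' s' r').1] at e0
    rw [(evG1 hL hg s r).2.1, (evG1 hL hg' s' r').2.1] at e1
    have w : (L.xr g : ℝ) < L.xl (R.γ (g, 1)).1 := by exact_mod_cast (hL.gap g hg).2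
    have w' : (L.xr g' : ℝ) < L.xl (R.γ (g', 1)).1 := by exact_mod_cast (hL.gap g' hg').2
    obtain ⟨k1, k2⟩ := strip_eq (by linarith) (by linarith) (by linarith) (by linarith) e1
    obtain rfl : s = s' := by linarith
    rcases hL.GG g g' hg hg' k1 with rfl | k | k
    · obtain rfl : r = r' := mul_right_cancel₀ (sub_pos.2 w).ne' (by linarith)
      exact Or.inl rfl
    · have k' : (L.xl (R.γ (g, 1)).1 : ℝ) ≤ L.xr g' := by exact_mod_cast k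
      nlinarith
    · have k' : (L.xl (R.γ (g', 1)).1 : ℝ) ≤ L.xr g := by exact_mod_cast k
      nlinarith
  · rw [(evG1 hL hg s r).2.1, (evG2 hL hc' s' r').2.1, add_assoc] at e1
    have := (strip_eq (by linarith) (by linarith) (by linarith) (by linarith) e1).2
    linarith
  · rw [(evG1 hL hg' s' r').2.1, (evG2 hL hc s r).2.1, add_assoc] at e1
    have := (strip_eq (by linarith) (by linarith) (by linarith) (by linarith) e1).2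
    linarith
  · rw [(evG2 hL hc s r).1, (evG2 hL hc' s' r').1] at e0
    rw [(evG2 hL hc s r).2.1, (evG2 hL hc' s' r').2.1, add_assoc, add_assoc] at e1
    obtain ⟨k1, k2⟩ := strip_eq (by linarith) (by linarith) (by linarith) (by linarith) e1
    obtain rfl : r = r' := by linarith
    have w : (L.xl c : ℝ) < L.xr c := by exact_mod_cast hL.wid c
    have w' : (L.xl c' : ℝ) < L.xr c' := by exact_mod_cast hL.wid c'
    have v : (L.xr (R.γ (c, 2)).1 : ℝ) - L.xl (R.γ (c, 2)).1 = L.xr c - L.xl c := by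
      exact_mod_cast (hL.col c hc).2
    have v' : (L.xr (R.γ (c', 2)).1 : ℝ) - L.xl (R.γ (c', 2)).1 = L.xr c' - L.xl c' := by
      exact_mod_cast (hL.col c' hc').2
    rcases hL.CC c c' hc hc' k1 with rfl | ⟨k, j⟩ | ⟨k, j⟩ | k | k
    · obtain rfl : s = s' := mul_right_cancel₀ (sub_pos.2 w).ne' (by linarith)
      exact Or.inl rfl
    · have k' : (L.xr c : ℝ) < L.xl c' := by exact_mod_cast k
      have j' : (L.xr (R.γ (c, 2)).1 : ℝ) < L.xl (R.γ (c', 2)).1 := by exact_mod_cast j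
      nlinarith [mul_pos r0 (sub_pos.2 j'), mul_pos (sub_pos.2 r1) (sub_pos.2 k'),
        mul_nonneg (sub_nonneg.2 s1) (sub_pos.2 w).le, mul_nonneg s0' (sub_pos.2 w').le]
    · have k' : (L.xr c' : ℝ) < L.xl c := by exact_mod_cast k
      have j' : (L.xr (R.γ (c', 2)).1 : ℝ) < L.xl (R.γ (c, 2)).1 := by exact_mod_cast j
      nlinarith [mul_pos r0 (sub_pos.2 j'), mul_pos (sub_pos.2 r1) (sub_pos.2 k'),
        mul_nonneg (sub_nonneg.2 s1') (sub_pos.2 w').le, mul_nonneg s0 (sub_pos.2 w).le]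
    · exact Or.inr (Or.inl (Or.inr ⟨c, c', s, r, s', rfl, rfl, k⟩))
    · exact Or.inr (Or.inr (Or.inr ⟨c', c, s', r, s, rfl, rfl, k⟩))

theorem sep_lt (hL : L.Ok R) {Q Q' : Cp ν} (h : Q.ok R) (h' : Q'.ok R) (hs : L.Sep R Q Q') :
    Q'.ev R L.p 2 + 1 < Q.ev R L.p 2 := by
  rcases hs with ⟨n, s, r, g, s', r', rfl, rfl, -, -, -, -, ζ, k1, k2, k3, k4⟩ |
    ⟨c, d, s, r, s', rfl, rfl, -, ζ, ⟨k1, k2, k3, k4⟩, j1, j2, j3, j4⟩
  · obtain ⟨s0, s1, -, -⟩ := h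
    obtain ⟨hb, -, -, r0, r1⟩ := h'
    rw [(evN n s r).2.2, (evG1 hL hb.1 s' r').2.2]
    have a1 : (L.zr g : ℝ) ≤ ζ := by exact_mod_cast k1
    have a2 : (L.zl (R.γ (g, 1)).1 : ℝ) ≤ ζ := by exact_mod_cast k2
    have a3 : (ζ : ℝ) + 2 ≤ L.zl n := by exact_mod_cast (by omega : ζ + 2 ≤ L.zl n)
    have a4 : (ζ : ℝ) + 2 ≤ L.zr n := by exact_mod_cast (by omega : ζ + 2 ≤ L.zr n)
    nlinarith [mul_nonneg s0 (sub_nonneg.2 a4), mul_nonneg (sub_nonneg.2 s1) (sub_nonneg.2 a3),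
      mul_nonneg r0.le (sub_nonneg.2 a2), mul_nonneg (sub_nonneg.2 r1.le) (sub_nonneg.2 a1)]
  · obtain ⟨hb, s0, s1, r0, r1⟩ := h
    obtain ⟨hb', s0', s1', -, -⟩ := h'
    rw [(evG2 hL hb.1 s r).2.2, (evG2 hL hb'.1 s' r).2.2]
    have a1 := W_le (z := ζ) s0' s1' r0.le r1.le (Int.cast_le.2 k1) (Int.cast_le.2 k2)
      (Int.cast_le.2 k4) (Int.cast_le.2 k3)
    have a2 := le_W (z := ((ζ + 2 : ℤ) : ℝ)) s0 s1 r0.le r1.le
      (Int.cast_le.2 (by omega : _ ≤ L.zl c)) (Int.cast_le.2 (by omega : _ ≤ L.zr c))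
      (Int.cast_le.2 (by omega : _ ≤ L.zr (R.γ (c, 2)).1))
      (Int.cast_le.2 (by omega : _ ≤ L.zl (R.γ (c, 2)).1))
    push_cast at a2
    linarith

theorem isCollar (hL : L.Ok R) : IsCollar R.T L.p (fun _ => up) := by
  refine isCollar_of ?_ fun Q Q' h h' e0 e1 => ?_
  · intro a b c h
    simp only [p0, p1]
    suffices 0 < (L.Xc b - L.Xc a) * (L.Yc c - L.Yc a) - (L.Yc b - L.Yc a) * (L.Xc c - L.Xc a) by
      exact_mod_cast this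
    rcases h with ⟨n, rfl, rfl, rfl⟩ | ⟨n, rfl, rfl, rfl⟩ | ⟨h, rfl, rfl⟩
    · simpa [Xc, Yc] using hL.wid n
    · simpa [Xc, Yc] using hL.wid n
    · obtain ⟨n, i⟩ := b
      have w := hL.wid n
      rcases fin4 i with rfl | rfl | rfl | rfl
      · have e := γ_eq h (j := 2) rfl
        have e2 := hL.col (R.γ (n, 0)).1 (by rw [← e]; exact glued_γ h)
        rw [← e, R.inv] at e2
        rw [e]
        simp [Xc, Yc, sc, e2.1]
        linarith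
      · rw [γ_eq h (j := 3) rfl]
        simpa [Xc, Yc, sc, (hL.gap n h).1] using (hL.gap n h).2
      · rw [γ_eq h (j := 0) rfl]
        simp [Xc, Yc, sc, (hL.col n h).1]
        linarith
      · have e := γ_eq h (j := 1) rfl
        have e2 := hL.gap (R.γ (n, 3)).1 (by rw [← e]; exact glued_γ h)
        rw [← e, R.inv] at e2
        rw [e]
        simpa [Xc, Yc, sc, ← e2.1] using e2.2
  · rcases stack hL h h' e0 e1 with k | k | k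
    · exact Or.inl k
    · exact Or.inr (Or.inr (sep_lt hL h h' k))
    · exact Or.inr (Or.inl (sep_lt hL h' h k))

end Lay

end Pool.Agent.P.MP_06cdda_gt
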