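import Pool.Agent.P.MP_06cdda_gt.Lay

open Finset

set_option linter.unusedSectionVars false

namespace Pool.Agent.P.MP_06cdda_gt

open Rib

namespace Lay

variable {ν : Type} [Fintype ν] [DecidableEq ν] (L : Lay ν) (R : Rib ν)

open Classical in
noncomputable def colw (c d : ν) : ℤ :=
  if L.hi R c d ∧ L.xl c < L.xl d ∧ L.xr (R.γ (d, 2)).1 < L.xr (R.γ (c, 2)).1 then 1
  else if L.hi R c d ∧ L.xl d < L.xl c ∧ L.xr (R.γ (c, 2)).1 < L.xr (R.γ (d, 2)).1 then -1 else 0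

open Classical in
noncomputable def wgt (s t : ν × Fin 4) : ℤ :=
  if s.2 = 2 then (if t.2 = 1 then (if L.spec R s.1 t.1 then -1 else 0) else L.colw R s.1 t.1)
  else 0

noncomputable def form (a b : ν × Fin 4 → ℤ) : ℤ :=
  ∑ s ∈ univ.filter R.src, ∑ t ∈ univ.filter R.src, a s * b t * L.wgt R s t

variable {L R}

theorem used_pt {u u' : ν × Fin 4} (hu : R.Used u u') {s : ℝ} (s0 : 0 ≤ s) (s1 : s ≤ 1) :
    ∃ Q : Cp ν, Q.ok R ∧ Q.ev R L.p = (1 - s) • L.p u + s • L.p u' ∧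
      ((∃ n, u = (n, 0) ∧ u' = (n, 3) ∧ Q = .N n 0 s) ∨
        (∃ n, R.γ (n, 1) ≠ (n, 1) ∧ Q = .N n s s) ∨ (∃ n σ ρ, Q = .N n σ ρ ∧ (ρ = 0 ∨ ρ = 1)) ∨
        ∃ b, u = sc b ∧ u' = sc (R.γ b) ∧ Q = .G b s s) := by
  have corner : ∀ v : ν × Fin 4, ∃ Q : Cp ν, Q.ok R ∧ Q.ev R L.p = L.p v ∧
      ∃ n σ ρ, Q = .N n σ ρ ∧ (ρ = 0 ∨ ρ = 1) := by
    rintro ⟨n, i⟩
    rcases fin4 i with rfl | rfl | rfl | rfl
    · exact ⟨.N n 0 0, by simp [Cp.ok], by simp [Cp.ev, W], n, 0, 0, rfl, Or.inl rfl⟩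
    · exact ⟨.N n 1 0, by simp [Cp.ok], by simp [Cp.ev, W], n, 1, 0, rfl, Or.inl rfl⟩
    · exact ⟨.N n 1 1, by simp [Cp.ok], by simp [Cp.ev, W], n, 1, 1, rfl, Or.inr rfl⟩
    · exact ⟨.N n 0 1, by simp [Cp.ok], by simp [Cp.ev, W], n, 0, 1, rfl, Or.inr rfl⟩
  rcases hu with ⟨rfl, h2, ⟨n, i⟩, hb, rfl⟩ | ⟨b, hb, rfl, rfl⟩
  · rcases fin4 i with rfl | rfl | rfl | rfl
    · exact ⟨.N n s 0, ⟨s0, s1, le_rfl, zero_le_one⟩, W_r0 _ _ _ _ s0,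
        Or.inr (Or.inr (Or.inl ⟨n, s, 0, rfl, Or.inl rfl⟩))⟩
    · exact ⟨.N n s s, ⟨s0, s1, s0, s1⟩, W_dg _ _ _ _ s, Or.inr (Or.inl ⟨n, hb, rfl⟩)⟩
    · exact ⟨.N n 0 s, ⟨le_rfl, zero_le_one, s0, s1⟩, W_s0 _ _ _ _ s0, Or.inl ⟨n, rfl, rfl, rfl⟩⟩
    · exact absurd rfl h2
  · rcases s0.eq_or_lt with rfl | s0'
    · obtain ⟨Q, q1, q2, q3⟩ := corner (sc b)
      exact ⟨Q, q1, by simp [q2], Or.inr (Or.inr (Or.inl q3))⟩
    rcases s1.eq_or_lt with rfl | s1'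
    · obtain ⟨Q, q1, q2, q3⟩ := corner (sc (R.γ b))
      exact ⟨Q, q1, by simp [q2], Or.inr (Or.inr (Or.inl q3))⟩
    · exact ⟨.G b s s, ⟨hb, s0, s1, s0', s1'⟩, W_dg _ _ _ _ s,
        Or.inr (Or.inr (Or.inr ⟨b, rfl, rfl, rfl⟩))⟩

theorem over_char (hL : L.Ok R) {u u' v v' : ν × Fin 4} (hu : R.Used u u') (hv : R.Used v v')
    {s t : ℝ} (h : Over (L.p u) (L.p u') (L.p v + up) (L.p v' + up) s t) :
    s ∈ Set.Ioo (0 : ℝ) 1 ∧ t ∈ Set.Ioo (0 : ℝ) 1 ∧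
      ((∃ n g, u = (n, 0) ∧ u' = (n, 3) ∧ v = (g, 2) ∧ L.spec R n g) ∨
        ∃ c d, u = (c, 3) ∧ v = (d, 3) ∧ L.hi R c d ∧
          (1 - s) * (L.xl c - L.xl d) + s * (L.xr (R.γ (c, 2)).1 - L.xr (R.γ (d, 2)).1) = 0) := by
  obtain ⟨⟨s0, s1⟩, ⟨t0, t1⟩, e0, e1, e2⟩ := over_iff.1 h
  obtain ⟨Q, q1, q2, q3⟩ := used_pt (L := L) hu s0 s1
  obtain ⟨Q', q1', q2', q3'⟩ := used_pt (L := L) hv t0 t1
  rw [← q2, ← q2'] at e0 e1 e2
  rcases stack hL q1 q1' e0 e1 with rfl | k | k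
  · linarith
  swap
  · linarith [sep_lt hL q1' q1 k]
  rcases k with ⟨n, σ, ρ, g, σ', ρ', rfl, rfl, k⟩ | ⟨c, d, σ, ρ, σ', rfl, rfl, k⟩
  · rcases q3' with ⟨_, -, -, j⟩ | ⟨_, -, j⟩ | ⟨_, _, _, j, -⟩ | ⟨b, rfl, rfl, j⟩ <;> cases j
    obtain ⟨hb, -, -, a0, a1⟩ := q1'
    rw [(evN n σ ρ).2.1, (evG1 hL hb.1 t t).2.1, k.1] at e1
    rcases q3 with ⟨_, rfl, rfl, j⟩ | ⟨_, j', j⟩ | ⟨_, _, _, j, j'⟩ | ⟨b, rfl, rfl, j⟩ <;> cases j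
    · exact ⟨⟨by linarith, by linarith⟩, ⟨a0, a1⟩, Or.inl ⟨n, g, rfl, rfl, rfl, k⟩⟩
    · exact absurd k.2.2.2.1 j'
    · rcases j' with rfl | rfl <;> linarith
  · rcases q3' with ⟨_, -, -, j⟩ | ⟨_, -, j⟩ | ⟨_, _, _, j, -⟩ | ⟨b, rfl, rfl, j⟩ <;> cases j
    rcases q3 with ⟨_, -, -, j⟩ | ⟨_, -, j⟩ | ⟨_, _, _, j, -⟩ | ⟨b, rfl, rfl, j⟩ <;> cases j
    obtain ⟨hb, -, -, a0, a1⟩ := q1
    obtain ⟨hb', -⟩ := q1'
    rw [(evG2 hL hb.1 s s).1, (evG2 hL hb'.1 s s).1] at e0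
    have v : (L.xr (R.γ (c, 2)).1 : ℝ) - L.xl (R.γ (c, 2)).1 = L.xr c - L.xl c := by
      exact_mod_cast (hL.col c hb.1).2
    have v' : (L.xr (R.γ (d, 2)).1 : ℝ) - L.xl (R.γ (d, 2)).1 = L.xr d - L.xl d := by
      exact_mod_cast (hL.col d hb'.1).2
    refine ⟨⟨a0, a1⟩, ⟨a0, a1⟩, Or.inr ⟨c, d, rfl, rfl, k, ?_⟩⟩
    linear_combination e0 + s * v - s * v'

theorem cross_spec (hL : L.Ok R) {n g : ν} (hg : R.γ (g, 1) ≠ (g, 1)) (h : L.spec R n g) :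
    crossN L.p (n, 0) (n, 3) (sc (g, 1)) (sc (R.γ (g, 1))) = -1 := by
  have a1 : (L.xr g : ℝ) < L.xl n := by exact_mod_cast h.2.1
  have a2 : (L.xr n : ℝ) < L.xl (R.γ (g, 1)).1 := by exact_mod_cast h.2.2.1
  have a3 : (L.xl n : ℝ) < L.xr n := by exact_mod_cast hL.wid n
  have hd : (0 : ℝ) < L.xl (R.γ (g, 1)).1 - L.xr g := by linarith
  obtain ⟨t, ht⟩ : ∃ t : ℝ, t * (L.xl (R.γ (g, 1)).1 - L.xr g) = L.xl n - L.xr g :=
    ⟨_, div_mul_cancel₀ _ hd.ne'⟩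
  have t0 : 0 < t := by nlinarith
  have t1 : t < 1 := by nlinarith
  have q1 : (Cp.N n 0 (1 - t)).ok R := ⟨le_rfl, zero_le_one, by linarith, by linarith⟩
  have q2 : (Cp.G (g, 1) t t).ok R := ⟨⟨hg, Or.inl rfl⟩, t0.le, t1.le, t0, t1⟩
  have e1 : (Cp.N n 0 (1 - t)).ev R L.p = _ := W_s0 _ _ _ _ (by linarith)
  have e2 : (Cp.G (g, 1) t t).ev R L.p = _ := W_dg _ _ _ _ t
  unfold crossN crossSign
  rw [if_pos, sign_neg]
  · rfl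
  · rw [γ_eq hg (j := 3) rfl]
    simp [p0, p1, up, Xc, Yc, sc]
    exact_mod_cast (hL.gap g hg).2
  · refine ⟨1 - t, t, over_iff.2 ⟨⟨by linarith, by linarith⟩, ⟨t0.le, t1.le⟩, ?_⟩⟩
    rw [← e1, ← e2]
    refine ⟨?_, ?_, sep_lt hL q1 q2 (Or.inl ⟨n, _, _, g, _, _, rfl, rfl, h⟩)⟩
    · rw [(evN n _ _).1, (evG1 hL hg _ _).1]
      linarith
    · rw [(evN n _ _).2.1, (evG1 hL hg _ _).2.1, h.1]

theorem cross_col (hL : L.Ok R) {c d : ν} (hc : R.γ (c, 2) ≠ (c, 2)) (hd : R.γ (d, 2) ≠ (d, 2)) :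
    crossN L.p (sc (c, 2)) (sc (R.γ (c, 2))) (sc (d, 2)) (sc (R.γ (d, 2))) = L.colw R c d := by
  have hdet : (L.p (sc (R.γ (c, 2))) 0 - L.p (sc (c, 2)) 0) *
        ((L.p (sc (R.γ (d, 2))) + up) 1 - (L.p (sc (d, 2)) + up) 1) -
      (L.p (sc (R.γ (c, 2))) 1 - L.p (sc (c, 2)) 1) *
        ((L.p (sc (R.γ (d, 2))) + up) 0 - (L.p (sc (d, 2)) + up) 0) =
      (L.xr (R.γ (c, 2)).1 - L.xr (R.γ (d, 2)).1) - (L.xl c - L.xl d) := by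
    rw [γ_eq hc (j := 0) rfl, γ_eq hd (j := 0) rfl]
    simp [p0, p1, up, Xc, Yc, sc, (hL.col c hc).1, (hL.col d hd).1]
    ring
  have ex : ∀ t : ℝ, 0 < t → t < 1 → L.hi R c d →
      (1 - t) * (L.xl c - L.xl d) + t * (L.xr (R.γ (c, 2)).1 - L.xr (R.γ (d, 2)).1) = 0 →
      Over (L.p (sc (c, 2))) (L.p (sc (R.γ (c, 2)))) (L.p (sc (d, 2)) + up)
        (L.p (sc (R.γ (d, 2))) + up) t t := by
    intro t t0 t1 h e
    have q1 : (Cp.G (c, 2) t t).ok R := ⟨⟨hc, Or.inr rfl⟩, t0.le, t1.le, t0, t1⟩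
    have q2 : (Cp.G (d, 2) t t).ok R := ⟨⟨hd, Or.inr rfl⟩, t0.le, t1.le, t0, t1⟩
    have e1 : (Cp.G (c, 2) t t).ev R L.p = _ := W_dg _ _ _ _ t
    have e2 : (Cp.G (d, 2) t t).ev R L.p = _ := W_dg _ _ _ _ t
    refine over_iff.2 ⟨⟨t0.le, t1.le⟩, ⟨t0.le, t1.le⟩, ?_⟩
    rw [← e1, ← e2]
    refine ⟨?_, ?_, sep_lt hL q1 q2 (Or.inr ⟨c, d, _, _, _, rfl, rfl, h⟩)⟩
    · have v : (L.xr (R.γ (c, 2)).1 : ℝ) - L.xl (R.γ (c, 2)).1 = L.xr c - L.xl c := by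
        exact_mod_cast (hL.col c hc).2
      have v' : (L.xr (R.γ (d, 2)).1 : ℝ) - L.xl (R.γ (d, 2)).1 = L.xr d - L.xl d := by
        exact_mod_cast (hL.col d hd).2
      rw [(evG2 hL hc _ _).1, (evG2 hL hd _ _).1]
      linear_combination e - t * v + t * v'
    · rw [(evG2 hL hc _ _).2.1, (evG2 hL hd _ _).2.1, h.1]
  have ex2 : ∀ A B : ℝ, A * B < 0 → ∃ t : ℝ, 0 < t ∧ t < 1 ∧ (1 - t) * A + t * B = 0 := by
    intro A B h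
    have hne : A - B ≠ 0 := fun e => by
      rw [sub_eq_zero.1 e] at h
      nlinarith [sq_nonneg B]
    have h2 : 0 < (A - B) ^ 2 := by positivity
    have hA : A ≠ 0 := fun e => by simp [e] at h
    have hB : B ≠ 0 := fun e => by simp [e] at h
    refine ⟨A * (A - B) / (A - B) ^ 2, div_pos (by nlinarith [sq_pos_of_ne_zero hA]) h2,
      (div_lt_one h2).2 (by nlinarith [sq_pos_of_ne_zero hB]), by field_simp; ring⟩
  unfold crossN crossSign colw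
  rw [hdet]
  split_ifs with h1 h2 h3 h2 h3
  · have a1 : (L.xl c : ℝ) < L.xl d := by exact_mod_cast h2.2.1
    have a2 : (L.xr (R.γ (d, 2)).1 : ℝ) < L.xr (R.γ (c, 2)).1 := by exact_mod_cast h2.2.2
    rw [sign_pos (by linarith)]; rfl
  · have a1 : (L.xl d : ℝ) < L.xl c := by exact_mod_cast h3.2.1
    have a2 : (L.xr (R.γ (c, 2)).1 : ℝ) < L.xr (R.γ (d, 2)).1 := by exact_mod_cast h3.2.2
    rw [sign_neg (by linarith)]; rfl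
  · obtain ⟨s, t, h⟩ := h1
    obtain ⟨⟨s0, s1⟩, -, ⟨n, g, j, -⟩ | ⟨c', d', j1, j2, k, e⟩⟩ := over_char hL
      (Or.inr ⟨_, ⟨hc, Or.inr rfl⟩, rfl, rfl⟩) (Or.inr ⟨_, ⟨hd, Or.inr rfl⟩, rfl, rfl⟩) h
    · simp [sc] at j
    cases j1
    cases j2
    rcases lt_trichotomy (L.xl c) (L.xl d) with a | a | a
    · have a1 : (L.xl c : ℝ) < L.xl d := by exact_mod_cast a
      have a2 : (L.xr (R.γ (d, 2)).1 : ℝ) < L.xr (R.γ (c, 2)).1 := by nlinarith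
      exact absurd ⟨k, a, by exact_mod_cast a2⟩ h2
    · rw [a, sub_self, mul_zero, zero_add] at e
      rw [a, (mul_eq_zero.1 e).resolve_left s0.ne']
      simp
    · have a1 : (L.xl d : ℝ) < L.xl c := by exact_mod_cast a
      have a2 : (L.xr (R.γ (c, 2)).1 : ℝ) < L.xr (R.γ (d, 2)).1 := by nlinarith
      exact absurd ⟨k, a, by exact_mod_cast a2⟩ h3
  · have a1 : (L.xl c : ℝ) < L.xl d := by exact_mod_cast h2.2.1
    have a2 : (L.xr (R.γ (d, 2)).1 : ℝ) < L.xr (R.γ (c, 2)).1 := by exact_mod_cast h2.2.2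
    obtain ⟨t, t0, t1, e⟩ := ex2 _ _ (mul_neg_of_neg_of_pos (sub_neg.2 a1) (sub_pos.2 a2))
    exact absurd ⟨t, t, ex t t0 t1 h2.1 e⟩ h1
  · have a1 : (L.xl d : ℝ) < L.xl c := by exact_mod_cast h3.2.1
    have a2 : (L.xr (R.γ (c, 2)).1 : ℝ) < L.xr (R.γ (d, 2)).1 := by exact_mod_cast h3.2.2
    obtain ⟨t, t0, t1, e⟩ := ex2 _ _ (mul_neg_of_pos_of_neg (sub_pos.2 a1) (sub_neg.2 a2))
    exact absurd ⟨t, t, ex t t0 t1 h3.1 e⟩ h1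
  · rfl

theorem cross_zero (hL : L.Ok R) {u u' v v' : ν × Fin 4} (hu : R.Used u u') (hv : R.Used v v')
    (h1 : ¬ (u.2 = 0 ∧ u'.2 = 3 ∧ v.2 = 2 ∧ L.spec R u.1 v.1)) (h2 : ¬ (u.2 = 3 ∧ v.2 = 3)) :
    crossN L.p u u' v v' = 0 := by
  refine if_neg ?_
  rintro ⟨s, t, ho⟩
  obtain ⟨-, -, ⟨n, g, rfl, rfl, rfl, k⟩ | ⟨c, d, rfl, rfl, -⟩⟩ := over_char hL hu hv ho
  · exact h1 ⟨rfl, rfl, rfl, k⟩
  · exact h2 ⟨rfl, rfl⟩

theorem lkB_RR (hL : L.Ok R) {c : Ch ν} (hc : c ∈ R.Supp) {b : ν × Fin 4} (hb : R.γ b ≠ b) :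
    lkB L.p c (RR (sc b)) = 0 := by
  unfold RR
  split_ifs with h
  · exact map_zero _
  rw [map_neg, neg_eq_zero, lkB_apply]
  refine sum_eq_zero fun e _ => sum_eq_zero fun f _ => ?_
  by_cases hf : f = (((sc b).1, 0), sc b)
  · by_cases he : c e = 0
    · simp [he]
    · rw [hf, cross_zero hL (hc e he) (Or.inl ⟨rfl, h, b, hb, rfl⟩) (by simp) (by simp), mul_zero]
  · rw [sg, Pi.single_eq_of_ne hf]
    simp

theorem lkB_CC (hL : L.Ok R) {s t : ν × Fin 4} (hs : R.src s) (ht : R.src t) :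
    lkB L.p (R.CC s) (R.CC t) = L.wgt R s t := by
  have hm : R.CC s ∈ R.Supp :=
    Submodule.add_mem _ (Submodule.add_mem _ (Submodule.neg_mem _ (RR_mem hs.1))
      (sg_mem (Or.inr ⟨s, hs, rfl, rfl⟩))) (RR_mem (glued_γ hs.1))
  have ut : R.Used (sc t) (sc (R.γ t)) := Or.inr ⟨t, ht, rfl, rfl⟩
  have us : R.Used (sc s) (sc (R.γ s)) := Or.inr ⟨s, hs, rfl, rfl⟩
  have ua : ∀ b, R.γ b ≠ b → (sc b).2 ≠ 0 → R.Used ((sc b).1, 0) (sc b) :=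
    fun b hb h => Or.inl ⟨rfl, h, b, hb, rfl⟩
  rw [CC.eq_1 R t, map_add, map_add, map_neg, lkB_RR hL hm ht.1, lkB_RR hL hm (glued_γ ht.1),
    neg_zero, zero_add, add_zero, CC]
  have h2 := R.side s hs.1
  rcases src_cases hs with ⟨g, rfl, hg⟩ | ⟨c, rfl, hc⟩
  · rw [RR, RR, if_neg (by simp), if_pos (by simp [h2]), neg_neg, add_zero, map_add,
      LinearMap.add_apply, lkB_sg, lkB_sg, cross_zero hL (ua _ hg (by simp)) ut (by simp) (by simp),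
      cross_zero hL us ut (by simp) (by simp), wgt, if_neg (by simp), add_zero]
  · rw [RR, RR, if_neg (by simp), if_neg (by simp [h2]), neg_neg, map_add, map_add, map_neg,
      LinearMap.add_apply, LinearMap.add_apply, LinearMap.neg_apply, lkB_sg, lkB_sg, lkB_sg,
      cross_zero hL (ua _ (glued_γ hc) (by simp [h2])) ut (by simp [h2]) (by simp), wgt, if_pos rfl,
      neg_zero, add_zero]
    rcases src_cases ht with ⟨g, rfl, hg⟩ | ⟨d, rfl, hd⟩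
    · rw [if_pos rfl, cross_zero hL us ut (by simp) (by simp), add_zero]
      split_ifs with k
      · exact cross_spec hL hg k
      · exact cross_zero hL (ua _ hc (by simp)) ut (fun j => k j.2.2.2) (by simp)
    · rw [if_neg (by simp), cross_zero hL (ua _ hc (by simp)) ut (by simp) (by simp), zero_add,
        cross_col hL hc hd]

theorem isLinkingNumber (hL : L.Ok R) (a b : ν × Fin 4 → ℤ) :
    IsLinkingNumber L.p (L.p + fun _ => up) (R.chain a) (R.chain b) (L.form R a b) := by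
  refine ⟨fun e f he hf s t h => ?_, ?_⟩
  · have := over_char hL (chain_mem a e he) (chain_mem b f hf) h
    exact ⟨this.1, this.2.1⟩
  · have : L.form R a b = lkB L.p (R.chain a) (R.chain b) := by
      rw [chain, chain, map_sum (lkB L.p), LinearMap.sum_apply, form]
      refine sum_congr rfl fun s hs => ?_
      rw [map_smul, LinearMap.smul_apply, map_sum, smul_eq_mul, mul_sum]
      refine sum_congr rfl fun t ht => ?_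
      rw [map_smul, lkB_CC hL (mem_filter.1 hs).2 (mem_filter.1 ht).2, smul_eq_mul, mul_assoc]
    rw [this, lkB_apply]
    rfl

end Lay

end Pool.Agent.P.MP_06cdda_gt
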