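import Pool.Agent.P.MP_06cdda_gt.Homology
import Pool.Agent.P.MP_06cdda_gt.Collar

open Finset

namespace Pool.Agent.P.MP_06cdda_gt

namespace Fence

variable (F : Fence)

def Used (u v : ℕ × ℕ) : Prop :=
  (∃ k, k < F.m ∧ u = (2 * k, 2 * F.bot k + 1) ∧ v = (2 * k + 1, 2 * F.top k)) ∨
  (∃ x l, u = (x, 2 * l) ∧ v = (x, 2 * l + 1)) ∨ (∃ x l, u = (x, 2 * l) ∧ v = (x + 1, 2 * l))

def Supp : Submodule ℤ (F.X × F.X → ℤ) where
  carrier := {c | ∀ e, c e ≠ 0 → F.Used e.1.1 e.2.1}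
  zero_mem' := fun _ h => absurd rfl h
  add_mem' := fun {a b} ha hb e he => by
    by_cases h : a e = 0
    · exact hb e (by simpa [h] using he)
    · exact ha e h
  smul_mem' := fun z a ha e he => ha e (right_ne_zero_of_mul he)

noncomputable def crossN (u u' v v' : ℕ × ℕ) : ℤ :=
  crossSign (pos u) (pos u') (pos v + up) (pos v' + up)

noncomputable def lkB : (F.X × F.X → ℤ) →ₗ[ℤ] (F.X × F.X → ℤ) →ₗ[ℤ] ℤ :=
  Matrix.toLinearMap₂' ℤ (Matrix.of fun e f : F.X × F.X => crossN e.1.1 e.2.1 f.1.1 f.2.1)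

variable {F}

theorem sg_mem {u v : ℕ × ℕ} (h : F.Used u v) : F.sg u v ∈ F.Supp := by
  intro e he
  have : e.1.1 = u ∧ e.2.1 = v := by
    by_contra hc
    exact he (if_neg hc)
  rw [this.1, this.2]
  exact h

theorem PP_mem (x l : ℕ) : F.PP x l ∈ F.Supp :=
  Submodule.sum_mem _ fun x' _ => sg_mem (Or.inr (Or.inr ⟨x', l, rfl, rfl⟩))

theorem CC_mem {k : ℕ} (hk : k < F.m) : F.CC k ∈ F.Supp :=
  Submodule.add_mem _ (Submodule.add_mem _ (Submodule.add_mem _ (Submodule.neg_mem _ (PP_mem _ _))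
    (sg_mem (Or.inr (Or.inl ⟨_, _, rfl, rfl⟩)))) (sg_mem (Or.inl ⟨k, hk, rfl, rfl⟩))) (PP_mem _ _)

theorem chain_mem (a : ℕ → ℤ) : F.chain a ∈ F.Supp :=
  Submodule.sum_mem _ fun _ hk => Submodule.smul_mem _ _ (CC_mem (mem_range.1 hk))

theorem used_edge (hF : F.Valid) {u v : ℕ × ℕ} (h : F.Used u v) (hu : F.InR u) (hv : F.InR v) :
    F.E0 u v ∨ F.E0 v u := by
  have hm := hF.1
  rcases h with ⟨k, hk, rfl, rfl⟩ | ⟨x, l, rfl, rfl⟩ | ⟨x, l, rfl, rfl⟩ <;>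
    simp only [InR] at hu hv
  · exact Or.inl (e0_iff.2 ⟨_, upper (Or.inr ⟨k, hk, rfl, rfl, rfl⟩)⟩)
  · rcases x with _ | x
    · exact Or.inr (e0_iff.2 ⟨_, (upper (Or.inl (by omega))).rot.rot⟩)
    · exact Or.inl (e0_iff.2 ⟨_, (lower (Or.inl (by omega))).rot⟩)
  · exact Or.inl (e0_iff.2 ⟨_, lower (y2 := 2 * l + 1) (Or.inl (by omega))⟩)

theorem isCycle_chain (hF : F.Valid) {a : ℕ → ℤ} (ha : ∀ l, F.bd a l = 0) :
    IsCycle F.TT (F.chain a) := by
  refine ⟨fun e he => ?_, fun v => ?_⟩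
  · rw [edge_iff hF, edge_iff hF]
    exact used_edge hF (chain_mem a e he) e.1.2 e.2.2
  · have := Dv_chain hF a v
    rw [ha, ite_self] at this
    exact sub_eq_zero.1 this

theorem over_coord {x1 y1 x2 y2 x1' y1' x2' y2' : ℕ} {s t : ℝ}
    (h : Over (pos (x1, y1)) (pos (x2, y2)) (pos (x1', y1') + up) (pos (x2', y2') + up) s t) :
    0 ≤ s ∧ s ≤ 1 ∧ 0 ≤ t ∧ t ≤ 1 ∧ x1 + s * (x2 - x1) = x1' + t * (x2' - x1') ∧
      y1 + s * (y2 - y1) = y1' + t * (y2' - y1') ∧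
      t * (1 - t) * (y2' - y1') ^ 2 + 1 < s * (1 - s) * (y2 - y1) ^ 2 := by
  obtain ⟨hs, ht, h, hh, e⟩ := h
  have e0 := congrFun e 0
  have e1 := congrFun e 1
  have e2 := congrFun e 2
  simp [pos, up] at e0 e1 e2
  refine ⟨hs.1, hs.2, ht.1, ht.2, by linarith, by linarith, ?_⟩
  have e3 : ((1 - s) * y1 + s * y2) ^ 2 = ((1 - t) * y1' + t * y2') ^ 2 := by rw [e1]
  nlinarith

theorem over_char (hF : F.Valid) {u u' v v' : ℕ × ℕ} (hu : F.Used u u') (hv : F.Used v v')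
    {s t : ℝ} (h : Over (pos u) (pos u') (pos v + up) (pos v' + up) s t) :
    s ∈ Set.Ioo (0 : ℝ) 1 ∧ t ∈ Set.Ioo (0 : ℝ) 1 ∧ ∃ k l, k < F.m ∧
      u = (2 * k, 2 * F.bot k + 1) ∧ u' = (2 * k + 1, 2 * F.top k) ∧
      v = (2 * k, 2 * l) ∧ v' = (2 * k + 1, 2 * l) ∧ F.bot k < l ∧ l < F.top k := by
  obtain ⟨x1', y1'⟩ := v
  obtain ⟨x2', y2'⟩ := v'
  rcases hu with ⟨k, hk, rfl, rfl⟩ | ⟨x, l, rfl, rfl⟩ | ⟨x, l, rfl, rfl⟩
  all_goals
    obtain ⟨s0, s1, t0, t1, eX, eY, eZ⟩ := over_coord h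
    have hp : 0 ≤ t * (1 - t) * ((y2' : ℝ) - y1') ^ 2 :=
      mul_nonneg (mul_nonneg t0 (sub_nonneg.2 t1)) (sq_nonneg _)
  · have hs0 : s ≠ 0 := by rintro rfl; linarith
    have hs1 : s ≠ 1 := by rintro rfl; linarith
    have hs : s ∈ Set.Ioo (0 : ℝ) 1 := ⟨lt_of_le_of_ne s0 hs0.symm, lt_of_le_of_ne s1 hs1⟩
    rcases hv with ⟨k', hk', e, e'⟩ | ⟨x, l, e, e'⟩ | ⟨x, l, e, e'⟩ <;>
      simp only [Prod.mk.injEq] at e e' <;> obtain ⟨rfl, rfl⟩ := e <;> obtain ⟨rfl, rfl⟩ := e'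
    · exfalso
      have eX' : ((2 * k : ℕ) : ℝ) + s = ((2 * k' : ℕ) : ℝ) + t := by push_cast at eX ⊢; linarith
      rcases nat_unit s0 s1 t0 t1 eX' with ⟨h1, rfl⟩ | ⟨-, h1, -⟩ | ⟨-, h1, -⟩
      · obtain rfl : k = k' := by omega
        linarith
      · exact hs1 h1
      · exact hs0 h1
    · exfalso
      have eX' : ((2 * k : ℕ) : ℝ) + s = (x2' : ℝ) + 0 := by push_cast at eX ⊢; linarith
      rcases nat_unit s0 s1 le_rfl zero_le_one eX' with ⟨-, h1⟩ | ⟨-, h1, -⟩ | ⟨-, h1, -⟩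
      · exact hs0 h1
      · exact hs1 h1
      · exact hs0 h1
    · have eX' : ((2 * k : ℕ) : ℝ) + s = (x1' : ℝ) + t := by push_cast at eX ⊢; linarith
      rcases nat_unit s0 s1 t0 t1 eX' with ⟨rfl, rfl⟩ | ⟨-, h1, -⟩ | ⟨-, h1, -⟩
      · have hb := hF.2 k hk
        have hd : (0 : ℝ) < ((2 * F.top k : ℕ) : ℝ) - ((2 * F.bot k + 1 : ℕ) : ℝ) := by
          have : ((2 * F.bot k + 1 : ℕ) : ℝ) < ((2 * F.top k : ℕ) : ℝ) := by
            exact_mod_cast (by omega : 2 * F.bot k + 1 < 2 * F.top k)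
          linarith
        have a1 : ((2 * F.bot k + 1 : ℕ) : ℝ) < ((2 * l : ℕ) : ℝ) := by
          nlinarith [mul_pos hs.1 hd]
        have a2 : ((2 * l : ℕ) : ℝ) < ((2 * F.top k : ℕ) : ℝ) := by
          nlinarith [mul_pos (sub_pos.2 hs.2) hd]
        have b1 : 2 * F.bot k + 1 < 2 * l := by exact_mod_cast a1
        have b2 : 2 * l < 2 * F.top k := by exact_mod_cast a2
        exact ⟨hs, hs, k, l, hk, rfl, rfl, rfl, rfl, by omega, by omega⟩
      · exact absurd h1 hs1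
      · exact absurd h1 hs0
  · exfalso
    push_cast at eZ
    nlinarith [sq_nonneg (s - 1 / 2)]
  · exfalso
    simp only [sub_self] at eZ
    nlinarith

theorem cross_dg_hz (hF : F.Valid) {k : ℕ} (hk : k < F.m) (x l : ℕ) :
    crossN (2 * k, 2 * F.bot k + 1) (2 * k + 1, 2 * F.top k) (x, 2 * l) (x + 1, 2 * l) =
      if x = 2 * k ∧ F.bot k < l ∧ l < F.top k then -1 else 0 := by
  have hb := hF.2 k hk
  have hd : (0 : ℝ) < 2 * (F.top k : ℝ) - (2 * F.bot k + 1) := by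
    have : ((2 * F.bot k + 1 : ℕ) : ℝ) < ((2 * F.top k : ℕ) : ℝ) := by
      exact_mod_cast (by omega : 2 * F.bot k + 1 < 2 * F.top k)
    push_cast at this
    linarith
  unfold crossN crossSign
  split_ifs with h1 h2 h2
  · rw [sign_neg]
    · rfl
    · simp [pos, up]
      linarith
  · exfalso
    obtain ⟨s, t, h⟩ := h1
    obtain ⟨-, -, k', l', -, e1, -, e2, -, e3⟩ := over_char hF (Or.inl ⟨k, hk, rfl, rfl⟩)
      (Or.inr (Or.inr ⟨x, l, rfl, rfl⟩)) h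
    simp only [Prod.mk.injEq] at e1 e2
    obtain rfl : k = k' := by omega
    obtain rfl : l = l' := by omega
    exact h2 ⟨e2.1, e3⟩
  · exfalso
    obtain ⟨rfl, h3, h4⟩ := h2
    have a1 : (F.bot k : ℝ) + 1 ≤ l := by exact_mod_cast h3
    have a2 : (l : ℝ) + 1 ≤ F.top k := by exact_mod_cast h4
    have hs : (2 * (l : ℝ) - (2 * F.bot k + 1)) / (2 * (F.top k : ℝ) - (2 * F.bot k + 1)) ∈
        Set.Icc (0 : ℝ) 1 :=
      ⟨div_nonneg (by linarith) hd.le, (div_le_one hd).2 (by linarith)⟩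
    refine h1 ⟨_, _, hs, hs, (2 * (l : ℝ) - (2 * F.bot k + 1)) * (2 * F.top k - 2 * l) - 1, ?_, ?_⟩
    · nlinarith
    · ext i
      fin_cases i <;> simp [pos, up] <;> field_simp <;> ring
  · rfl

theorem cross_zero (hF : F.Valid) {u u' v v' : ℕ × ℕ} (hu : F.Used u u') (hv : F.Used v v')
    (h : u.2 % 2 = 0 ∨ v.2 ≠ v'.2) : crossN u u' v v' = 0 := by
  refine if_neg ?_
  rintro ⟨s, t, ho⟩
  obtain ⟨-, -, k, l, -, rfl, -, rfl, rfl, -⟩ := over_char hF hu hv ho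
  simp only at h
  omega

theorem lkB_apply (c c' : F.X × F.X → ℤ) :
    F.lkB c c' = ∑ e, ∑ f, c e * c' f * crossN e.1.1 e.2.1 f.1.1 f.2.1 := by
  simp [lkB, Matrix.toLinearMap₂'_apply, mul_assoc]

theorem lkB_sg {u u' v v' : ℕ × ℕ} (hu : F.InR u) (hu' : F.InR u') (hv : F.InR v)
    (hv' : F.InR v') : F.lkB (F.sg u u') (F.sg v v') = crossN u u' v v' := by
  rw [sg_eq' hu hu', sg_eq' hv hv', lkB_apply]
  simp [Pi.single_apply]

theorem lkB_sg_zero {u u' v v' : ℕ × ℕ} (h : crossN u u' v v' = 0) :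
    F.lkB (F.sg u u') (F.sg v v') = 0 := by
  by_cases h1 : F.InR u ∧ F.InR u'
  · by_cases h2 : F.InR v ∧ F.InR v'
    · rw [lkB_sg h1.1 h1.2 h2.1 h2.2, h]
    · rw [sg_eq_zero h2, map_zero]
  · rw [sg_eq_zero h1, map_zero, LinearMap.zero_apply]

theorem lkB_row (hF : F.Valid) {u u' : ℕ × ℕ} (hu : F.Used u u') (h : u.2 % 2 = 0)
    {c : F.X × F.X → ℤ} (hc : c ∈ F.Supp) : F.lkB (F.sg u u') c = 0 := by
  rw [lkB_apply]
  refine sum_eq_zero fun e _ => sum_eq_zero fun f _ => ?_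
  by_cases he : e.1.1 = u ∧ e.2.1 = u'
  · by_cases hf : c f = 0
    · simp [hf]
    · rw [he.1, he.2, cross_zero hF hu (hc f hf) (Or.inl h), mul_zero]
  · simp [sg, he]

theorem lkB_dg_PP (hF : F.Valid) {k : ℕ} (hk : k < F.m) (x : ℕ) {l : ℕ} (hl : l < F.N + 2) :
    F.lkB (F.dg k) (F.PP x l) = if x ≤ 2 * k ∧ F.bot k < l ∧ l < F.top k then -1 else 0 := by
  have hb := hF.2 k hk
  rw [PP, map_sum, sum_congr rfl (g := fun x' => if x' = 2 * k then
    (if F.bot k < l ∧ l < F.top k then -1 else 0) else 0) fun x' hx' => by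
      rw [mem_Ico] at hx'
      rw [dg, hz, lkB_sg ⟨by simp only; omega, by simp only; omega⟩
        ⟨by simp only; omega, by simp only; omega⟩ ⟨by simp only; omega, by simp only; omega⟩
        ⟨by simp only; omega, by simp only; omega⟩, cross_dg_hz hF hk, ite_and], sum_ite_eq']
  simp only [mem_Ico]
  split_ifs <;> omega

theorem lkB_CC (hF : F.Valid) {k k' : ℕ} (hk : k < F.m) (hk' : k' < F.m) :
    F.lkB (F.CC k) (F.CC k') = if k' < k then F.wgt k k' else 0 := by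
  have hb := hF.2 k hk
  have hb' := hF.2 k' hk'
  have hP : ∀ x l, F.lkB (F.PP x l) (F.CC k') = 0 := fun x l => by
    rw [PP, map_sum, LinearMap.sum_apply]
    exact sum_eq_zero fun x' _ =>
      lkB_row hF (Or.inr (Or.inr ⟨x', l, rfl, rfl⟩)) (by simp) (CC_mem hk')
  have hv : F.lkB (F.vt (2 * k) (F.bot k)) (F.CC k') = 0 :=
    lkB_row hF (Or.inr (Or.inl ⟨_, _, rfl, rfl⟩)) (by simp) (CC_mem hk')
  have h1 : F.lkB (F.CC k) (F.CC k') = F.lkB (F.dg k) (F.CC k') := by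
    rw [CC.eq_1 F k]
    simp only [map_add, map_neg, LinearMap.add_apply, LinearMap.neg_apply, hP, hv]
    simp
  have h2 : F.lkB (F.dg k) (F.vt (2 * k') (F.bot k')) = 0 :=
    lkB_sg_zero (cross_zero hF (Or.inl ⟨k, hk, rfl, rfl⟩) (Or.inr (Or.inl ⟨_, _, rfl, rfl⟩))
      (Or.inr (by simp)))
  have h3 : F.lkB (F.dg k) (F.dg k') = 0 :=
    lkB_sg_zero (cross_zero hF (Or.inl ⟨k, hk, rfl, rfl⟩) (Or.inl ⟨k', hk', rfl, rfl⟩)
      (Or.inr (by simp only; omega)))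
  rw [h1, CC, map_add, map_add, map_add, map_neg, h2, h3, lkB_dg_PP hF hk _ (by omega),
    lkB_dg_PP hF hk _ (by omega), wgt]
  have e : k' = k → F.bot k' = F.bot k ∧ F.top k' = F.top k := fun h => by rw [h]; simp
  split_ifs <;> omega

theorem lkB_chain (hF : F.Valid) (a b : ℕ → ℤ) : F.lkB (F.chain a) (F.chain b) = F.form a b := by
  rw [chain, chain, map_sum F.lkB, LinearMap.sum_apply, form]
  refine sum_congr rfl fun k hk => ?_
  rw [map_smul, LinearMap.smul_apply, map_sum, sum_congr rfl (g := fun k' =>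
    if k' < k then b k' * F.wgt k k' else 0) fun k' hk' => by
      rw [map_smul, lkB_CC hF (mem_range.1 hk) (mem_range.1 hk')]; simp, ← sum_filter,
    smul_eq_mul, mul_sum]
  have : (range F.m).filter (fun k' => k' < k) = range k := by
    ext k'
    have := mem_range.1 hk
    simp only [mem_filter, mem_range]
    omega
  rw [this]
  exact sum_congr rfl fun k' _ => by ring

theorem isLinkingNumber (hF : F.Valid) (a b : ℕ → ℤ) :
    IsLinkingNumber (fun v : F.X => pos v.1) ((fun v : F.X => pos v.1) + fun _ => up)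
      (F.chain a) (F.chain b) (F.form a b) := by
  refine ⟨fun e f he hf s t h => ?_, ?_⟩
  · have := over_char hF (chain_mem a e he) (chain_mem b f hf) h
    exact ⟨this.1, this.2.1⟩
  · rw [← lkB_chain hF, lkB_apply]
    rfl

end Fence

end Pool.Agent.P.MP_06cdda_gt
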