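import Pool.Agent.P.MP_06cdda_gt.Link
import Pool.Agent.P.MP_06cdda_gt.Arith

open Matrix

namespace Pool.Agent.P.MP_06cdda_gt

theorem realize {g : ℕ} {F : Fence} (hF : F.Valid) (iF : F.Inv) {a : Fin g → ℕ → ℤ}
    (hB : F.IsBasis a) : ∃ (m : ℕ) (q : ZMod m → Fin 3 → ℝ), IsKnot q ∧
      IsSeifertMatrix q (Matrix.of fun i j => F.form (a i) (a j)) := by
  obtain ⟨m, hm, k, hk, hb⟩ := Fence.exists_boundary hF iF
  refine ⟨m, fun i => Fence.pos (k i).1, isKnot_of_collar (Fence.isCollar hF) hm hk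
    (fun i => ((hb _ _).2 ⟨i, rfl, rfl⟩).1), F.X, inferInstance, inferInstance, F.TT,
    fun v => Fence.pos v.1, fun _ => Fence.up, k, fun i => F.chain (a i), Fence.isSurface hF iF,
    Fence.isCollar hF, fun _ => rfl, hb, fun i => Fence.isCycle_chain hF (hB.1 i),
    fun c hc => Fence.homology_basis hF hB hc, fun i j => Fence.isLinkingNumber hF _ _⟩

theorem basis_reindex {ι κ : Type} [Fintype ι] [Fintype κ] {F : Fence} {a : ι → ℕ → ℤ}
    (hB : F.IsBasis a) (e : κ ≃ ι) : F.IsBasis fun i => a (e i) := by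
  refine ⟨fun i => hB.1 (e i), fun c hc => ?_⟩
  obtain ⟨x, hx, ux⟩ := hB.2 c hc
  refine ⟨x ∘ e, fun k hk => ?_, fun y hy => ?_⟩
  · rw [hx k hk, ← e.sum_comp]; rfl
  · have := ux (y ∘ e.symm) fun k hk => by
      rw [hy k hk, ← e.sum_comp]; simp
    rw [← this]
    ext i
    simp

theorem of_rz {n : ℕ} {r : ℝ} {σ : ℤ} (h : Rz n r σ) :
    ∃ (m : ℕ) (q : ZMod m → Fin 3 → ℝ), IsKnot q ∧
      ∃ (g : ℕ) (V : Matrix (Fin g) (Fin g) ℤ), IsSeifertMatrix q V ∧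
        |(V + Vᵀ).det| = n ∧
        (sigPos ((V + Vᵀ).map ((↑) : ℤ → ℝ)).toQuadraticForm' : ℤ) -
          sigNeg ((V + Vᵀ).map ((↑) : ℤ → ℝ)).toQuadraticForm' = σ := by
  obtain ⟨ι, _, _, F, a, π, hF, hD, -⟩ := h
  let e := (Fintype.equivFin ι).symm
  obtain ⟨m, q, hq, hS⟩ := realize hF.1 hF.2.1 (basis_reindex hF.2.2.1 e)
  refine ⟨m, q, hq, _, _, hS, ?_⟩
  have hD' := hD.reindex e
  have hG : ((Matrix.of fun i j => F.form (a (e i)) (a (e j))) +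
      (Matrix.of fun i j => F.form (a (e i)) (a (e j)))ᵀ).map ((↑) : ℤ → ℝ) =
      (Matrix.of fun i j => F.sym (a i) (a j)).submatrix e e := by
    ext i j
    simp [Fence.sym]
  rw [← hG] at hD'
  refine ⟨?_, hD'.signature⟩
  have h1 := hD'.abs_det
  rw [← Int.cast_det] at h1
  exact_mod_cast h1

theorem main (k : ℕ) (hk : 1 ≤ k) :
    ∃ (m : ℕ) (q : ZMod m → Fin 3 → ℝ), IsKnot q ∧
      ∃ (g : ℕ) (V : Matrix (Fin g) (Fin g) ℤ), IsSeifertMatrix q V ∧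
        |(V + Vᵀ).det| = 4 * k + 1 ∧
        (sigPos ((V + Vᵀ).map ((↑) : ℤ → ℝ)).toQuadraticForm' : ℤ) -
          sigNeg ((V + Vᵀ).map ((↑) : ℤ → ℝ)).toQuadraticForm' = 4 := by
  have := of_rz (rz_four k hk)
  push_cast at this
  exact this

end Pool.Agent.P.MP_06cdda_gt
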