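import Pool.Agent.P.MP_06cdda_gt.Fence
import Pool.Agent.P.MP_06cdda_gt.Algebra

open Finset Matrix

set_option linter.unusedSimpArgs false
set_option linter.unnecessarySeqFocus false

namespace Pool.Agent.P.MP_06cdda_gt

namespace Fence

/-- Symmetrised form, as a real number. -/
def sym (F : Fence) (a b : ℕ → ℤ) : ℝ := ((F.form a b + F.form b a : ℤ) : ℝ)

theorem sym_comm (F : Fence) (a b : ℕ → ℤ) : F.sym a b = F.sym b a := by
  simp only [sym, add_comm]

variable {F P : Fence} {s : ℕ}

theorem sym_glue (hF : F.Valid) (hm : P.m = s + 1) (hb : P.bot 0 = 0) (ht : P.top 0 = 1)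
    {α f α' f' : ℕ → ℤ} (h : F.HasBd α (f 0)) (h' : F.HasBd α' (f' 0)) :
    (F.comp P s).sym (F.glue α f) (F.glue α' f') = F.sym α α' + P.sym f f' := by
  simp only [sym, form_glue hF hm hb ht _ _ h, form_glue hF hm hb ht _ _ h']
  push_cast
  ring

theorem sym_mul_left (e : ℤ) (a b : ℕ → ℤ) : F.sym (fun k => e * a k) b = e * F.sym a b := by
  simp only [sym, form_mul_left, form_mul_right]; push_cast; ring

theorem sym_mul_right (e : ℤ) (a b : ℕ → ℤ) : F.sym a (fun k => e * b k) = e * F.sym a b := by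
  simp only [sym, form_mul_left, form_mul_right]; push_cast; ring

theorem sym_zero_left (b : ℕ → ℤ) : F.sym (fun _ => 0) b = 0 := by
  simp [sym, form_zero_left, form_zero_right]

theorem sym_zero_right (b : ℕ → ℤ) : F.sym b (fun _ => 0) = 0 := by
  simp [sym, form_zero_left, form_zero_right]

end Fence

/-- Realisable states. -/
def Rz (Δ r : ℝ) (σ : ℤ) : Prop :=
  ∃ (ι : Type) (_ : Fintype ι) (_ : DecidableEq ι) (F : Fence) (a : ι → ℕ → ℤ) (π : ℕ → ℤ),
    F.Good a π ∧
    Alg (Matrix.of fun i j => F.sym (a i) (a j)) (fun i => F.sym (a i) π) (F.sym π π) Δ r σ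

theorem Rz.comp {Δ r : ℝ} {σ : ℤ} (h : Rz Δ r σ) {κ : Type} [Fintype κ] [DecidableEq κ]
    {P : Fence} {f : κ → ℕ → ℤ} {ρ : ℕ → ℤ} (hP : P.Good f ρ) (hb : P.bot 0 = 0)
    (ht : P.top 0 = 1) {Δ' r' : ℝ} {σ' : ℤ}
    (h' : Alg ((Matrix.of fun i j => P.sym (f i) (f j)) -
        r • vecMulVec (fun i => (f i 0 : ℝ)) (fun i => (f i 0 : ℝ)))
      ((fun i => P.sym (f i) ρ) - (r * ρ 0) • fun i => (f i 0 : ℝ))
      (P.sym ρ ρ - r * (ρ 0 : ℝ) ^ 2) Δ' r' σ') : Rz (Δ * Δ') r' (σ + σ') := by
  obtain ⟨ι, _, _, F, a, π, hF, hA⟩ := h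
  obtain ⟨s, hm⟩ : ∃ s, P.m = s + 1 := ⟨P.m - 1, by have := hP.1.1; omega⟩
  refine ⟨ι ⊕ κ, inferInstance, inferInstance, F.comp P s, F.compBasis a π f, _,
    Fence.good_comp hF hP hm hb ht, ?_⟩
  have hz : ∀ i, F.HasBd (a i) ((fun _ : ℕ => (0 : ℤ)) 0) := fun i l => by
    rw [hF.2.2.1.1]; simp
  have hπ := hF.2.2.2
  have e1 : ∀ i j, (F.comp P s).sym (F.glue (a i) fun _ => 0) (F.glue (a j) fun _ => 0) =
      F.sym (a i) (a j) := fun i j => by
    rw [Fence.sym_glue (f := fun _ => 0) (f' := fun _ => 0) hF.1 hm hb ht (hz i) (hz j),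
      Fence.sym_zero_left, add_zero]
  have e2 : ∀ i (g : ℕ → ℤ), (F.comp P s).sym (F.glue (a i) fun _ => 0)
      (F.glue (fun k => g 0 * π k) g) = F.sym (a i) π * g 0 := fun i g => by
    rw [Fence.sym_glue (f := fun _ => 0) hF.1 hm hb ht (hz i) (hπ.mul _),
      Fence.sym_zero_left, add_zero, Fence.sym_mul_right, mul_comm]
  have e3 : ∀ (g g' : ℕ → ℤ), (F.comp P s).sym (F.glue (fun k => g 0 * π k) g)
      (F.glue (fun k => g' 0 * π k) g') = P.sym g g' + F.sym π π * (g 0 * g' 0) := fun g g' => by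
    rw [Fence.sym_glue hF.1 hm hb ht (hπ.mul _) (hπ.mul _), Fence.sym_mul_left,
      Fence.sym_mul_right]
    ring
  have key := Alg.comp (by ext i j; exact F.sym_comm _ _) hA h'
  convert key using 1
  · ext (i | i) (j | j)
    · exact e1 i j
    · exact e2 i (f j)
    · exact ((F.comp P s).sym_comm _ _).trans ((e2 j (f i)).trans (mul_comm _ _))
    · exact e3 (f i) (f j)
  · ext (i | i)
    · exact (e2 i ρ).trans (mul_comm _ _)
    · refine (e3 (f i) ρ).trans ?_
      simp only [Sum.elim_inr, Pi.add_apply, Pi.smul_apply, smul_eq_mul]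
      ring
  · rw [e3, sq]

/-- A fence from lists. -/
def mkF (N : ℕ) (L : List (ℕ × ℕ)) : Fence :=
  ⟨N, L.length, fun k => (L.getD k (0, 0)).1, fun k => (L.getD k (0, 0)).2⟩

def fl (L : List ℤ) (k : ℕ) : ℤ := L.getD k 0

theorem hasBd_of_check {F : Fence} (hF : F.Valid) {α : ℕ → ℤ} {e : ℤ}
    (h : ∀ l, l < F.N + 2 →
      F.bd α l = e * ((if l = F.N + 1 then 1 else 0) - (if l = F.N then 1 else 0))) :
    F.HasBd α e := by
  intro l
  by_cases hl : l < F.N + 2
  · exact h l hl
  · rw [Fence.bd_eq_zero_of_le hF α (not_lt.1 hl), if_neg (by omega), if_neg (by omega)]; simp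

theorem bd_zero_of_check {F : Fence} (hF : F.Valid) {α : ℕ → ℤ}
    (h : ∀ l, l < F.N + 2 → F.bd α l = 0) (l : ℕ) : F.bd α l = 0 := by
  by_cases hl : l < F.N + 2
  · exact h l hl
  · exact Fence.bd_eq_zero_of_le hF α (not_lt.1 hl)

def P0 : Fence := mkF 0 [(0, 1)]

theorem valid_P0 : P0.Valid := by unfold Fence.Valid; decide

theorem inv_P0 : P0.Inv := by
  intro C t b ⟨c0, cs⟩ hcl
  simp only [P0, mkF, List.length_cons, List.length_nil, Nat.forall_lt_succ_right,
    ← Nat.lt_succ_iff, Nat.reduceAdd, not_lt_zero, false_imp_iff, implies_true, true_and,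
    List.getD_cons_zero, List.getD_cons_succ] at c0 cs hcl ⊢
  refine ⟨by grind, by grind, fun h => ?_⟩
  grind

theorem good_P0 : P0.Good (ι := Fin 0) ![]
    (fl [1]) := by
  refine ⟨valid_P0, inv_P0, ⟨?_, fun c hc => ?_⟩, hasBd_of_check valid_P0 (by decide)⟩
  · exact fun i => i.elim0
  · have h0 := hc 0
    have h1 := hc 1
    simp only [P0, mkF, Fence.bd, sum_range_succ, List.length_cons, List.length_nil,
      List.getD_cons_zero, List.getD_cons_succ, range_zero, sum_empty, Nat.reduceEqDiff,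
      if_true, if_false, OfNat.zero_ne_ofNat, OfNat.ofNat_ne_zero, zero_ne_one, one_ne_zero] at h0 h1
    refine ⟨![], ?_, fun y _ => Subsingleton.elim _ _⟩
    intro k hk
    simp only [univ_eq_empty, sum_empty]
    change k < 1 at hk
    interval_cases k <;> omega

def PR : Fence := mkF 1 [(0, 1), (1, 2)]

theorem valid_PR : PR.Valid := by unfold Fence.Valid; decide

theorem inv_PR : PR.Inv := by
  intro C t b ⟨c0, cs⟩ hcl
  simp only [PR, mkF, List.length_cons, List.length_nil, Nat.forall_lt_succ_right,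
    ← Nat.lt_succ_iff, Nat.reduceAdd, not_lt_zero, false_imp_iff, implies_true, true_and,
    List.getD_cons_zero, List.getD_cons_succ] at c0 cs hcl ⊢
  refine ⟨by grind, by grind, fun h => ?_⟩
  grind

theorem good_PR : PR.Good (ι := Fin 0) ![]
    (fl [0, 1]) := by
  refine ⟨valid_PR, inv_PR, ⟨?_, fun c hc => ?_⟩, hasBd_of_check valid_PR (by decide)⟩
  · exact fun i => i.elim0
  · have h0 := hc 0
    have h1 := hc 1
    have h2 := hc 2
    simp only [PR, mkF, Fence.bd, sum_range_succ, List.length_cons, List.length_nil,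
      List.getD_cons_zero, List.getD_cons_succ, range_zero, sum_empty, Nat.reduceEqDiff,
      if_true, if_false, OfNat.zero_ne_ofNat, OfNat.ofNat_ne_zero, zero_ne_one, one_ne_zero] at h0 h1 h2
    refine ⟨![], ?_, fun y _ => Subsingleton.elim _ _⟩
    intro k hk
    simp only [univ_eq_empty, sum_empty]
    change k < 2 at hk
    interval_cases k <;> omega

def PAm : Fence := mkF 1 [(0, 1), (0, 2)]

theorem valid_PAm : PAm.Valid := by unfold Fence.Valid; decide

theorem inv_PAm : PAm.Inv := by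
  intro C t b ⟨c0, cs⟩ hcl
  simp only [PAm, mkF, List.length_cons, List.length_nil, Nat.forall_lt_succ_right,
    ← Nat.lt_succ_iff, Nat.reduceAdd, not_lt_zero, false_imp_iff, implies_true, true_and,
    List.getD_cons_zero, List.getD_cons_succ] at c0 cs hcl ⊢
  refine ⟨by grind, by grind, fun h => ?_⟩
  grind

theorem good_PAm : PAm.Good (ι := Fin 0) ![]
    (fl [-1, 1]) := by
  refine ⟨valid_PAm, inv_PAm, ⟨?_, fun c hc => ?_⟩, hasBd_of_check valid_PAm (by decide)⟩
  · exact fun i => i.elim0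
  · have h0 := hc 0
    have h1 := hc 1
    have h2 := hc 2
    simp only [PAm, mkF, Fence.bd, sum_range_succ, List.length_cons, List.length_nil,
      List.getD_cons_zero, List.getD_cons_succ, range_zero, sum_empty, Nat.reduceEqDiff,
      if_true, if_false, OfNat.zero_ne_ofNat, OfNat.ofNat_ne_zero, zero_ne_one, one_ne_zero] at h0 h1 h2
    refine ⟨![], ?_, fun y _ => Subsingleton.elim _ _⟩
    intro k hk
    simp only [univ_eq_empty, sum_empty]
    change k < 2 at hk
    interval_cases k <;> omega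

def PAp : Fence := mkF 3 [(0, 1), (2, 4), (1, 3), (0, 2)]

theorem valid_PAp : PAp.Valid := by unfold Fence.Valid; decide

theorem inv_PAp : PAp.Inv := by
  intro C t b ⟨c0, cs⟩ hcl
  simp only [PAp, mkF, List.length_cons, List.length_nil, Nat.forall_lt_succ_right,
    ← Nat.lt_succ_iff, Nat.reduceAdd, not_lt_zero, false_imp_iff, implies_true, true_and,
    List.getD_cons_zero, List.getD_cons_succ] at c0 cs hcl ⊢
  refine ⟨by grind, by grind, fun h => ?_⟩
  grind

theorem good_PAp : PAp.Good (ι := Fin 0) ![]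
    (fl [-1, 1, -1, 1]) := by
  refine ⟨valid_PAp, inv_PAp, ⟨?_, fun c hc => ?_⟩, hasBd_of_check valid_PAp (by decide)⟩
  · exact fun i => i.elim0
  · have h0 := hc 0
    have h1 := hc 1
    have h2 := hc 2
    have h3 := hc 3
    have h4 := hc 4
    simp only [PAp, mkF, Fence.bd, sum_range_succ, List.length_cons, List.length_nil,
      List.getD_cons_zero, List.getD_cons_succ, range_zero, sum_empty, Nat.reduceEqDiff,
      if_true, if_false, OfNat.zero_ne_ofNat, OfNat.ofNat_ne_zero, zero_ne_one, one_ne_zero] at h0 h1 h2 h3 h4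
    refine ⟨![], ?_, fun y _ => Subsingleton.elim _ _⟩
    intro k hk
    simp only [univ_eq_empty, sum_empty]
    change k < 4 at hk
    interval_cases k <;> omega

def PBm : Fence := mkF 1 [(0, 1), (1, 2), (0, 2), (0, 1)]

theorem valid_PBm : PBm.Valid := by unfold Fence.Valid; decide

theorem inv_PBm : PBm.Inv := by
  intro C t b ⟨c0, cs⟩ hcl
  simp only [PBm, mkF, List.length_cons, List.length_nil, Nat.forall_lt_succ_right,
    ← Nat.lt_succ_iff, Nat.reduceAdd, not_lt_zero, false_imp_iff, implies_true, true_and,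
    List.getD_cons_zero, List.getD_cons_succ] at c0 cs hcl ⊢
  refine ⟨by grind, by grind, fun h => ?_⟩
  grind

theorem good_PBm : PBm.Good (ι := Fin 2) ![fl [-1, 0, 0, 1], fl [0, -1, 1, -1]]
    (fl [0, 1, 0, 0]) := by
  refine ⟨valid_PBm, inv_PBm, ⟨?_, fun c hc => ?_⟩, hasBd_of_check valid_PBm (by decide)⟩
  · intro i
    fin_cases i <;> exact bd_zero_of_check valid_PBm (by decide)
  · have h0 := hc 0
    have h1 := hc 1
    have h2 := hc 2
    simp only [PBm, mkF, Fence.bd, sum_range_succ, List.length_cons, List.length_nil,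
      List.getD_cons_zero, List.getD_cons_succ, range_zero, sum_empty, Nat.reduceEqDiff,
      if_true, if_false, OfNat.zero_ne_ofNat, OfNat.ofNat_ne_zero, zero_ne_one, one_ne_zero] at h0 h1 h2
    refine ⟨![-c 0, c 2], fun k hk => ?_, fun y hy => ?_⟩
    · change k < 4 at hk
      interval_cases k <;> simp [Fin.sum_univ_two, fl] <;> omega
    · have g0 := hy 0 (by decide)
      have g1 := hy 1 (by decide)
      have g2 := hy 2 (by decide)
      have g3 := hy 3 (by decide)
      simp [Fin.sum_univ_two, fl] at g0 g1 g2 g3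
      ext i
      fin_cases i <;> simp <;> omega

def PBp : Fence := mkF 2 [(0, 1), (1, 2), (1, 3), (0, 2), (0, 3)]

theorem valid_PBp : PBp.Valid := by unfold Fence.Valid; decide

theorem inv_PBp : PBp.Inv := by
  intro C t b ⟨c0, cs⟩ hcl
  simp only [PBp, mkF, List.length_cons, List.length_nil, Nat.forall_lt_succ_right,
    ← Nat.lt_succ_iff, Nat.reduceAdd, not_lt_zero, false_imp_iff, implies_true, true_and,
    List.getD_cons_zero, List.getD_cons_succ] at c0 cs hcl ⊢
  refine ⟨by grind, by grind, fun h => ?_⟩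
  grind

theorem good_PBp : PBp.Good (ι := Fin 2) ![fl [-1, 0, -1, 0, 1], fl [0, -1, 1, 1, -1]]
    (fl [0, -1, 1, 0, 0]) := by
  refine ⟨valid_PBp, inv_PBp, ⟨?_, fun c hc => ?_⟩, hasBd_of_check valid_PBp (by decide)⟩
  · intro i
    fin_cases i <;> exact bd_zero_of_check valid_PBp (by decide)
  · have h0 := hc 0
    have h1 := hc 1
    have h2 := hc 2
    have h3 := hc 3
    simp only [PBp, mkF, Fence.bd, sum_range_succ, List.length_cons, List.length_nil,
      List.getD_cons_zero, List.getD_cons_succ, range_zero, sum_empty, Nat.reduceEqDiff,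
      if_true, if_false, OfNat.zero_ne_ofNat, OfNat.ofNat_ne_zero, zero_ne_one, one_ne_zero] at h0 h1 h2 h3
    refine ⟨![-c 0, c 3], fun k hk => ?_, fun y hy => ?_⟩
    · change k < 5 at hk
      interval_cases k <;> simp [Fin.sum_univ_two, fl] <;> omega
    · have g0 := hy 0 (by decide)
      have g1 := hy 1 (by decide)
      have g2 := hy 2 (by decide)
      have g3 := hy 3 (by decide)
      have g4 := hy 4 (by decide)
      simp [Fin.sum_univ_two, fl] at g0 g1 g2 g3 g4
      ext i
      fin_cases i <;> simp <;> omega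

def PD : Fence := mkF 2 [(0, 1), (0, 3), (0, 1), (0, 2), (1, 3)]

theorem valid_PD : PD.Valid := by unfold Fence.Valid; decide

theorem inv_PD : PD.Inv := by
  intro C t b ⟨c0, cs⟩ hcl
  simp only [PD, mkF, List.length_cons, List.length_nil, Nat.forall_lt_succ_right,
    ← Nat.lt_succ_iff, Nat.reduceAdd, not_lt_zero, false_imp_iff, implies_true, true_and,
    List.getD_cons_zero, List.getD_cons_succ] at c0 cs hcl ⊢
  refine ⟨by grind, by grind, fun h => ?_⟩
  grind

theorem good_PD : PD.Good (ι := Fin 2) ![fl [1, -1, 0, 0, 1], fl [0, -1, 1, 0, 1]]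
    (fl [0, 1, 0, -1, 0]) := by
  refine ⟨valid_PD, inv_PD, ⟨?_, fun c hc => ?_⟩, hasBd_of_check valid_PD (by decide)⟩
  · intro i
    fin_cases i <;> exact bd_zero_of_check valid_PD (by decide)
  · have h0 := hc 0
    have h1 := hc 1
    have h2 := hc 2
    have h3 := hc 3
    simp only [PD, mkF, Fence.bd, sum_range_succ, List.length_cons, List.length_nil,
      List.getD_cons_zero, List.getD_cons_succ, range_zero, sum_empty, Nat.reduceEqDiff,
      if_true, if_false, OfNat.zero_ne_ofNat, OfNat.ofNat_ne_zero, zero_ne_one, one_ne_zero] at h0 h1 h2 h3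
    refine ⟨![c 0, c 2], fun k hk => ?_, fun y hy => ?_⟩
    · change k < 5 at hk
      interval_cases k <;> simp [Fin.sum_univ_two, fl] <;> omega
    · have g0 := hy 0 (by decide)
      have g1 := hy 1 (by decide)
      have g2 := hy 2 (by decide)
      have g3 := hy 3 (by decide)
      have g4 := hy 4 (by decide)
      simp [Fin.sum_univ_two, fl] at g0 g1 g2 g3 g4
      ext i
      fin_cases i <;> simp <;> omega

end Pool.Agent.P.MP_06cdda_gt
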