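import Mathlib

open Finset

namespace Pool.Agent.P.MP_06cdda_gt.Pr

section
variable {A : Type} [AddCommGroup A] [Fintype A]

theorem sum_hom {C : Type} [AddCommGroup C] [Fintype C] (θ : C →+ A)
    (hθ : Function.Surjective θ) (f : A → ℂ) :
    (Fintype.card A : ℂ) * ∑ c, f (θ c) = Fintype.card C * ∑ a, f a := by
  have h1 : ∀ a : A, ∑ c, f (θ c) = ∑ c, f (θ c + a) := fun a => by
    obtain ⟨u, rfl⟩ := hθ a
    rw [← Equiv.sum_comp (Equiv.addRight u) fun c => f (θ c)]
    simp
  have h2 : ∀ c : C, ∑ a, f (θ c + a) = ∑ a, f a := fun c =>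
    Equiv.sum_comp (Equiv.addLeft (θ c)) f
  calc (Fintype.card A : ℂ) * ∑ c, f (θ c) = ∑ _a : A, ∑ c, f (θ c) := by simp
    _ = ∑ a : A, ∑ c, f (θ c + a) := sum_congr rfl fun a _ => h1 a
    _ = ∑ c : C, ∑ a, f (θ c + a) := sum_comm
    _ = ∑ _c : C, ∑ a, f a := sum_congr rfl fun c _ => h2 c
    _ = _ := by simp

theorem sum_mean {X B : Type} [AddCommGroup X] [AddCommGroup B] [Fintype B] (φ : X →+ A)
    (ψ : X →+ B) (hφ : Function.Surjective φ) (hψ : Function.Surjective ψ) (f : A → ℂ)
    (g : B → ℂ) (h : ∀ x, f (φ x) = g (ψ x)) :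
    (Fintype.card B : ℂ) * ∑ a, f a = Fintype.card A * ∑ b, g b := by
  classical
  let C := (φ.prod ψ).range
  let _ : Fintype C := Fintype.ofFinite C
  have e1 := sum_hom ((AddMonoidHom.fst A B).comp C.subtype) (fun a => by
    obtain ⟨x, rfl⟩ := hφ a
    exact ⟨⟨(φ.prod ψ) x, x, rfl⟩, rfl⟩) f
  have e2 := sum_hom ((AddMonoidHom.snd A B).comp C.subtype) (fun b => by
    obtain ⟨x, rfl⟩ := hψ b
    exact ⟨⟨(φ.prod ψ) x, x, rfl⟩, rfl⟩) g
  have e3 : ∑ c : C, f (((AddMonoidHom.fst A B).comp C.subtype) c) =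
      ∑ c : C, g (((AddMonoidHom.snd A B).comp C.subtype) c) := sum_congr rfl fun c _ => by
    obtain ⟨_, x, rfl⟩ := c
    exact h x
  have hC : (Fintype.card C : ℂ) ≠ 0 := by exact_mod_cast Fintype.card_ne_zero
  apply mul_left_cancel₀ hC
  rw [e3] at e1
  linear_combination (-(Fintype.card B : ℂ)) * e1 + (Fintype.card A : ℂ) * e2

/-- A quadratic phase function with its bicharacter. -/
structure QF (e : A → ℂ) (b : A → AddChar A ℂ) : Prop where
  add : ∀ x y, e (x + y) = e x * e y * b x y
  symm : ∀ x y, b x y = b y x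
  zero : e 0 = 1
  neg : ∀ x, e (-x) = e x
  root : ∃ n, 0 < n ∧ ∀ x, e x ^ n = 1
  nondeg : ∀ x, (∀ y, b x y = 1) → x = 0

variable {e : A → ℂ} {b : A → AddChar A ℂ}

open Classical in
theorem sum_sub (ψ : AddChar A ℂ) (H : AddSubgroup A) [Fintype H] :
    ∑ h : H, ψ h = if ∀ h ∈ H, ψ h = 1 then (Fintype.card H : ℂ) else 0 := by
  have := AddChar.sum_eq_ite (ψ.compAddMonoidHom H.subtype)
  simp only [AddChar.compAddMonoidHom_apply, AddSubgroup.coe_subtype] at this
  rw [this]
  congr 1
  apply propext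
  constructor
  · intro h0 h hh
    exact DFunLike.congr_fun h0 ⟨h, hh⟩
  · intro h0
    ext ⟨h, hh⟩
    exact h0 h hh

open Classical in
theorem QF.avg (q : QF e b) (H : AddSubgroup A) (hH : ∀ h ∈ H, e h = 1) :
    ∑ x, e x = ∑ x, if ∀ h ∈ H, b x h = 1 then e x else 0 := by
  let _ : Fintype H := Fintype.ofFinite H
  have hC : (Fintype.card H : ℂ) ≠ 0 := by exact_mod_cast Fintype.card_ne_zero
  apply mul_left_cancel₀ hC
  calc (Fintype.card H : ℂ) * ∑ x, e x = ∑ _h : H, ∑ x, e x := by simp
    _ = ∑ h : H, ∑ x, e (x + h) :=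
      sum_congr rfl fun h _ => (Equiv.sum_comp (Equiv.addRight (h : A)) e).symm
    _ = ∑ x, ∑ h : H, e (x + h) := sum_comm
    _ = ∑ x, e x * ∑ h : H, b x h := sum_congr rfl fun x _ => by
      rw [mul_sum]
      exact sum_congr rfl fun h _ => by rw [q.add, hH h h.2, mul_one]
    _ = _ := by
      rw [mul_sum]
      refine sum_congr rfl fun x _ => ?_
      rw [sum_sub]
      split_ifs <;> ring

open Classical in
theorem QF.sum_b (q : QF e b) (x : A) :
    ∑ y, b x y = if x = 0 then (Fintype.card A : ℂ) else 0 := by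
  rw [AddChar.sum_eq_ite]
  congr 1
  apply propext
  constructor
  · intro h
    exact q.nondeg x fun y => DFunLike.congr_fun h y
  · rintro rfl
    ext y
    rw [q.symm]
    simp

theorem QF.mul_conj (q : QF e b) (x : A) : e x * (starRingEnd ℂ) (e x) = 1 := by
  obtain ⟨n, hn, h⟩ := q.root
  have : ‖e x‖ = 1 := by
    have h1 : ‖e x‖ ^ n = 1 := by rw [← norm_pow, h x, norm_one]
    exact (pow_eq_one_iff_of_nonneg (norm_nonneg _) hn.ne').1 h1
  rw [Complex.mul_conj, Complex.normSq_eq_norm_sq, this]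
  simp

theorem QF.modulus (q : QF e b) :
    (∑ x, e x) * (starRingEnd ℂ) (∑ x, e x) = Fintype.card A := by
  classical
  calc (∑ x, e x) * (starRingEnd ℂ) (∑ x, e x)
      = ∑ y, (∑ x, e x) * (starRingEnd ℂ) (e y) := by rw [map_sum, mul_sum]
    _ = ∑ y, ∑ z, e z * b z y := sum_congr rfl fun y _ => by
      rw [← Equiv.sum_comp (Equiv.addRight y) e, sum_mul]
      refine sum_congr rfl fun z _ => ?_
      rw [Equiv.coe_addRight, q.add]
      linear_combination (e z * b z y) * q.mul_conj y
    _ = ∑ z, e z * ∑ y, b z y := by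
      rw [sum_comm]
      exact sum_congr rfl fun z _ => (mul_sum _ _ _).symm
    _ = _ := by
      simp only [q.sum_b, mul_ite, mul_zero, sum_ite_eq', mem_univ, if_true, q.zero, one_mul]

theorem eq_zero_of_odd (hA : Odd (Fintype.card A)) {x : A} (h : x = -x) : x = 0 := by
  obtain ⟨k, hk⟩ := hA
  have h1 : Fintype.card A • x = 0 := card_nsmul_eq_zero
  have h2 : 2 • x = 0 := by rw [two_nsmul]; exact eq_neg_iff_add_eq_zero.1 h
  rw [hk, add_nsmul, mul_nsmul, h2, one_nsmul] at h1
  simpa using h1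

theorem QF.one_add (q : QF e b) (hA : Odd (Fintype.card A)) :
    ∃ T : ℂ, IsIntegral ℤ T ∧ ∑ x, e x = 1 + 2 * T := by
  classical
  let j : A → ℕ := fun x => (Fintype.equivFin A x : ℕ)
  have hj : Function.Injective j := fun x y h => (Fintype.equivFin A).injective (Fin.ext h)
  obtain ⟨n, hn, h⟩ := q.root
  refine ⟨∑ x, if j x < j (-x) then e x else 0, IsIntegral.sum _ fun x _ => ?_, ?_⟩
  · split_ifs
    · exact IsIntegral.of_pow hn (by rw [h x]; exact isIntegral_one)
    · exact isIntegral_zero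
  · have h1 : ∑ x, (if j x < j (-x) then e x else 0) = ∑ x, if j (-x) < j x then e x else 0 := by
      rw [← Equiv.sum_comp (Equiv.neg A)]
      simp only [Equiv.neg_apply, neg_neg, q.neg]
    have h2 : ∀ x, e x = (if x = 0 then e x else 0) + ((if j x < j (-x) then e x else 0) +
        if j (-x) < j x then e x else 0) := fun x => by
      by_cases hx : x = 0
      · subst hx
        simp
      · have : j x ≠ j (-x) := fun h => hx (eq_zero_of_odd hA (hj h))
        rcases lt_or_gt_of_ne this with h | h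
        · simp [hx, h, h.not_gt]
        · simp [hx, h, h.not_gt]
    rw [sum_congr rfl fun x _ => h2 x, sum_add_distrib, sum_add_distrib, ← h1]
    simp only [sum_ite_eq', mem_univ, if_true, q.zero]
    ring

open Classical in
theorem QF.metab (q : QF e b) (hA : Odd (Fintype.card A)) (H : AddSubgroup A)
    (hb : ∀ x ∈ H, ∀ y ∈ H, b x y = 1) (hc : Nat.card H * Nat.card H = Fintype.card A) :
    ∑ x, e x = Nat.card H := by
  let _ : Fintype H := Fintype.ofFinite H
  rw [Nat.card_eq_fintype_card] at hc ⊢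
  have hmul : ∀ x ∈ H, ∀ n : ℕ, e (n • x) = e x ^ n := fun x hx n => by
    induction n with
    | zero => simp [q.zero]
    | succ n ih => rw [succ_nsmul, q.add, ih, hb _ (H.nsmul_mem hx n) x hx, mul_one, pow_succ]
  have he : ∀ x ∈ H, e x = 1 := fun x hx => by
    have h2 : e x ^ 2 = 1 := by
      have := q.add x (-x)
      rw [add_neg_cancel, q.zero, q.neg, hb x hx _ (H.neg_mem hx), mul_one] at this
      rw [sq, this]
    obtain ⟨k, hk⟩ := hA
    have h3 := hmul x hx (Fintype.card A)
    rw [card_nsmul_eq_zero, q.zero, hk, pow_succ, pow_mul, h2] at h3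
    simpa using h3.symm
  have hC : (Fintype.card H : ℂ) ≠ 0 := by exact_mod_cast Fintype.card_ne_zero
  let P : Finset A := univ.filter fun x => ∀ h ∈ H, b x h = 1
  let Q : Finset A := univ.filter fun x => x ∈ H
  have hQ : Q.card = Fintype.card H := by
    rw [Fintype.card_subtype]
  have hP : (P.card : ℂ) * Fintype.card H = Fintype.card A := by
    calc (P.card : ℂ) * Fintype.card H = ∑ x, ∑ h : H, b x h := by
          simp only [sum_sub]
          rw [← sum_filter, sum_const, nsmul_eq_mul]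
      _ = ∑ h : H, ∑ x, b h x := by
          rw [sum_comm]
          exact sum_congr rfl fun h _ => sum_congr rfl fun x _ => q.symm _ _
      _ = _ := by
          simp only [q.sum_b]
          rw [sum_eq_single (0 : H)]
          · simp
          · intro h _ hh
            exact if_neg fun h0 => hh (Subtype.ext h0)
          · simp
  have hP' : P.card = Fintype.card H := by
    have : (P.card : ℂ) = Fintype.card H := by
      apply mul_right_cancel₀ hC
      rw [hP, ← hc]
      push_cast
      ring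
    exact_mod_cast this
  have hPQ : Q = P := eq_of_subset_of_card_le (fun x hx => by
    simp only [P, Q, mem_filter, mem_univ, true_and] at hx ⊢
    exact hb x hx) (by rw [hP', hQ])
  rw [q.avg H he, ← sum_filter]
  change ∑ x ∈ P, e x = _
  rw [← hPQ, sum_congr rfl fun x hx => he x (by simpa [Q] using hx), sum_const, hQ]
  simp

end

end Pool.Agent.P.MP_06cdda_gt.Pr
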