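import Pool.Agent.P.MP_06cdda_gt.PrA

open Finset Complex Real

namespace Pool.Agent.P.MP_06cdda_gt.Pr

/-- `S` is a positive multiple of the `s`-th power of the first eighth root of unity. -/
def Ph (S : ℂ) (s : ℤ) : Prop := ∃ c : ℝ, 0 < c ∧ S = c * cexp (π * I * s / 4)

theorem four_dvd {U : ℂ} (hU : IsIntegral ℤ U) {z : ℤ} (h : 4 * U = z) : (4 : ℤ) ∣ z := by
  have h1 : U = algebraMap ℚ ℂ ((z : ℚ) / 4) := by
    simp only [eq_ratCast]
    push_cast
    rw [← h]
    ring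
  rw [h1, isIntegral_algebraMap_iff (algebraMap ℚ ℂ).injective] at hU
  obtain ⟨y, hy⟩ := IsIntegrallyClosed.algebraMap_eq_of_integral hU
  refine ⟨y, ?_⟩
  have h2 : (z : ℚ) = 4 * y := by
    simp only [eq_intCast] at hy
    rw [hy]
    ring
  exact_mod_cast h2

theorem Ph.eight_dvd {m : ℕ} {s : ℤ} (h : Ph m s) : 8 ∣ s := by
  obtain ⟨c, hc, h⟩ := h
  have hn : ‖cexp (π * I * s / 4)‖ = 1 := by
    rw [show (π * I * s / 4 : ℂ) = ((π * s / 4 : ℝ) : ℂ) * I by push_cast; ring]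
    exact norm_exp_ofReal_mul_I _
  have h1 : (m : ℂ) = c := by
    have := congrArg norm h
    rw [norm_mul, hn, mul_one, Complex.norm_natCast, Complex.norm_real, Real.norm_of_nonneg hc.le]
      at this
    exact_mod_cast this
  have hc' : (c : ℂ) ≠ 0 := by exact_mod_cast hc.ne'
  have h2 : cexp (π * I * s / 4) = 1 := by
    apply mul_left_cancel₀ hc'
    rw [← h, h1, mul_one]
  obtain ⟨n, hn⟩ := Complex.exp_eq_one_iff.1 h2
  refine ⟨n, ?_⟩
  have hp : (π * I : ℂ) ≠ 0 := mul_ne_zero (by exact_mod_cast pi_ne_zero) I_ne_zero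
  have : (s : ℂ) = 8 * n := by
    apply mul_left_cancel₀ hp
    linear_combination 4 * hn
  exact_mod_cast this

theorem Ph.sq {S : ℂ} {s : ℤ} (h : Ph S s) {n : ℕ} (hn : S * (starRingEnd ℂ) S = n) :
    S ^ 2 = n * I ^ (s % 4).toNat := by
  obtain ⟨c, -, h⟩ := h
  have h1 : cexp (π * I * s / 4) * (starRingEnd ℂ) (cexp (π * I * s / 4)) = 1 := by
    rw [← exp_conj, ← Complex.exp_add]
    simp only [map_div₀, map_mul, conj_ofReal, conj_I, map_intCast, map_ofNat]
    rw [show (π * I * s / 4 + π * -I * s / 4 : ℂ) = 0 by ring, Complex.exp_zero]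
  have h2 : (c : ℂ) ^ 2 = n := by
    rw [← hn, h, map_mul, conj_ofReal]
    linear_combination (-(c : ℂ) ^ 2) * h1
  have h3 : cexp (π * I * s / 4) ^ 2 = I ^ (s % 4).toNat := by
    have h4 : ((s % 4).toNat : ℤ) = s % 4 := Int.toNat_of_nonneg (by omega)
    have h5 : (s : ℂ) = 4 * (s / 4 : ℤ) + ((s % 4).toNat : ℕ) := by
      have : s = 4 * (s / 4) + ((s % 4).toNat : ℕ) := by omega
      exact_mod_cast this
    rw [← Complex.exp_nat_mul, show ((2 : ℕ) : ℂ) * (π * I * s / 4) =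
      (s / 4 : ℤ) * (2 * π * I) + ((s % 4).toNat : ℕ) * (π / 2 * I) by rw [h5]; push_cast; ring,
      Complex.exp_add, Complex.exp_int_mul_two_pi_mul_I, one_mul, Complex.exp_nat_mul,
      Complex.exp_pi_div_two_mul_I]
  rw [h, mul_pow, h2, h3]

section
variable {A : Type} [AddCommGroup A] [Fintype A] {e : A → ℂ} {b : A → AddChar A ℂ}

theorem QF.mod_four (q : QF e b) (hA : Odd (Fintype.card A)) {s : ℤ} (h : Ph (∑ x, e x) s) :
    s % 4 = ((Fintype.card A : ℤ) - 1) % 4 := by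
  obtain ⟨T, hT, h1⟩ := q.one_add hA
  have h2 := h.sq q.modulus
  have hU : IsIntegral ℤ (T + T ^ 2) := hT.add (hT.pow 2)
  have h3 : 4 * (T + T ^ 2) = Fintype.card A * I ^ (s % 4).toNat - 1 := by
    rw [← h2, h1]
    ring
  have hodd : ∀ ε : ℝ, 4 * (T + T ^ 2) = ε * I - 1 → False := fun ε hε => by
    have h4 := congrArg (starRingEnd ℂ) hε
    simp only [map_mul, map_sub, conj_ofReal, conj_I, map_ofNat, map_one] at h4
    have := four_dvd (hU.add (map_isIntegral_int (starRingEnd ℂ) hU)) (z := -2) (by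
      push_cast
      linear_combination hε + h4)
    omega
  have h5 : s % 4 = 0 ∨ s % 4 = 1 ∨ s % 4 = 2 ∨ s % 4 = 3 := by omega
  rcases h5 with h5 | h5 | h5 | h5 <;> rw [h5] at h3 ⊢
  · have := four_dvd hU (z := Fintype.card A - 1) (by rw [h3]; simp)
    omega
  · exact (hodd (Fintype.card A) (by rw [h3]; simp)).elim
  · have := four_dvd hU (z := -Fintype.card A - 1) (by
      rw [h3, show (2 : ℤ).toNat = 2 from rfl, I_sq]; push_cast; ring)
    omega
  · exact (hodd (-Fintype.card A) (by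
      rw [h3, show (3 : ℤ).toNat = 3 from rfl, I_pow_three]; push_cast; ring)).elim

theorem QF.eight_dvd (q : QF e b) (hA : Odd (Fintype.card A)) {s : ℤ} (h : Ph (∑ x, e x) s)
    {k : ℕ} {m : Fin k → ℕ} (f : A ≃+ ((i : Fin k) → ZMod (m i ^ 2))) : 8 ∣ s := by
  classical
  let ρ : A →+ ((i : Fin k) → ZMod (m i)) := AddMonoidHom.pi fun i =>
    (ZMod.castHom (dvd_pow_self (m i) two_ne_zero) (ZMod (m i))).toAddMonoidHom.comp
      ((Pi.evalAddMonoidHom _ i).comp f.toAddMonoidHom)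
  have hρ : ∀ x i, ρ x i = ZMod.castHom (dvd_pow_self (m i) two_ne_zero) (ZMod (m i)) (f x i) :=
    fun _ _ => rfl
  have hs : Function.Surjective ρ := fun y => by
    choose z hz using fun i => ZMod.castHom_surjective (dvd_pow_self (m i) two_ne_zero) (y i)
    refine ⟨f.symm z, funext fun i => ?_⟩
    rw [hρ, f.apply_symm_apply, hz]
  have c1 : Nat.card A = (∏ i, m i) * ∏ i, m i := by
    rw [Nat.card_congr f.toEquiv, Nat.card_pi, ← prod_mul_distrib]
    exact prod_congr rfl fun i _ => by rw [Nat.card_zmod, sq]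
  have c2 : Nat.card A = (∏ i, m i) * Nat.card ρ.ker := by
    rw [AddSubgroup.card_eq_card_quotient_mul_card_addSubgroup ρ.ker,
      Nat.card_congr (QuotientAddGroup.quotientKerEquivOfSurjective ρ hs).toEquiv, Nat.card_pi]
    simp only [Nat.card_zmod]
  have c3 : Nat.card ρ.ker = ∏ i, m i := by
    have hp : 0 < ∏ i, m i := Nat.pos_of_ne_zero fun h0 => by
      rw [h0] at c1
      exact Nat.card_pos.ne' c1
    exact (Nat.eq_of_mul_eq_mul_left hp (c1.symm.trans c2)).symm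
  have hdec : ∀ x ∈ ρ.ker, ∃ u : Fin k → A, (∀ i, m i ^ 2 • u i = 0) ∧ x = ∑ i, m i • u i := by
    intro x hx
    have h1 : ∀ i, ∃ y : ZMod (m i ^ 2), f x i = m i • y := fun i => by
      have h2 : ρ x i = 0 := congrFun hx i
      obtain ⟨z, hz⟩ := ZMod.intCast_surjective (f x i)
      rw [hρ, ← hz, map_intCast, ZMod.intCast_zmod_eq_zero_iff_dvd] at h2
      obtain ⟨w, rfl⟩ := h2
      exact ⟨w, by rw [← hz]; simp⟩
    choose y hy using h1
    refine ⟨fun i => f.symm (Pi.single i (y i)), fun i => ?_, ?_⟩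
    · rw [← map_nsmul, ← Pi.single_smul, nsmul_eq_mul, ZMod.natCast_self, zero_mul,
        Pi.single_zero, map_zero]
    · apply f.injective
      rw [map_sum, ← univ_sum_single (f x)]
      refine sum_congr rfl fun i _ => ?_
      rw [map_nsmul, f.apply_symm_apply, ← Pi.single_smul, hy]
  have hsum : ∀ (x : A) (v : Fin k → A), (∀ i, b x (v i) = 1) → b x (∑ i, v i) = 1 := by
    intro x v hv
    refine sum_induction v (fun y => b x y = 1) (fun y z hy hz => ?_) (by simp) fun i _ => hv i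
    rw [AddChar.map_add_eq_mul, hy, hz, one_mul]
  have hb : ∀ x ∈ ρ.ker, ∀ y ∈ ρ.ker, b x y = 1 := by
    intro x hx y hy
    obtain ⟨u, hu, rfl⟩ := hdec x hx
    obtain ⟨v, hv, rfl⟩ := hdec y hy
    refine hsum _ _ fun j => ?_
    rw [q.symm]
    refine hsum _ _ fun i => ?_
    rw [AddChar.map_nsmul_eq_pow, q.symm, AddChar.map_nsmul_eq_pow, ← pow_mul]
    have a1 : b (u i) (v j) ^ (m j ^ 2) = 1 := by
      rw [← AddChar.map_nsmul_eq_pow, hv, AddChar.map_zero_eq_one]
    have a2 : b (u i) (v j) ^ (m i ^ 2) = 1 := by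
      rw [q.symm, ← AddChar.map_nsmul_eq_pow, hu, AddChar.map_zero_eq_one]
    rw [← orderOf_dvd_iff_pow_eq_one] at a1 a2 ⊢
    rw [← Nat.pow_dvd_pow_iff two_ne_zero, mul_pow, sq]
    exact mul_dvd_mul a1 a2
  rw [q.metab hA ρ.ker hb (by rw [c3, ← c1, Nat.card_eq_fintype_card])] at h
  exact h.eight_dvd

end

end Pool.Agent.P.MP_06cdda_gt.Pr
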