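import Pool.Agent.P.MP_06cdda_gt.PrB

open Finset Complex Real Matrix

namespace Pool.Agent.P.MP_06cdda_gt.Pr

variable {ι : Type} [Fintype ι] [DecidableEq ι]

/-- An integer matrix as a real matrix. -/
def rm (G : Matrix ι ι ℤ) : Matrix ι ι ℝ := G.map ((↑) : ℤ → ℝ)

/-- An integer vector as a real vector. -/
def rv (x : ι → ℤ) : ι → ℝ := fun i => (x i : ℝ)

/-- The form of the inverse matrix. -/
noncomputable def bil (G : Matrix ι ι ℤ) (x y : ι → ℝ) : ℝ := x ⬝ᵥ (rm G)⁻¹ *ᵥ y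

/-- `φ` presents `A` as the cokernel of `G`. -/
def Pres (G : Matrix ι ι ℤ) {A : Type} [AddCommGroup A] (φ : (ι → ℤ) →+ A) : Prop :=
  Function.Surjective φ ∧ ∀ x, φ x = 0 ↔ ∃ y, G *ᵥ y = x

omit [DecidableEq ι] in
theorem rv_mulVec (G : Matrix ι ι ℤ) (x : ι → ℤ) : rv (G *ᵥ x) = rm G *ᵥ rv x := by
  ext i
  simp [rv, rm, mulVec, dotProduct]

omit [DecidableEq ι] in
theorem rv_dot (x y : ι → ℤ) : rv x ⬝ᵥ rv y = (x ⬝ᵥ y : ℤ) := by
  simp [rv, dotProduct]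

omit [Fintype ι] [DecidableEq ι] in
theorem rv_add (x y : ι → ℤ) : rv (x + y) = rv x + rv y := by
  ext i
  simp [rv]

omit [Fintype ι] [DecidableEq ι] in
theorem rv_inj : Function.Injective (rv : (ι → ℤ) → ι → ℝ) := fun x y h => funext fun i => by
  have := congrFun h i
  simp only [rv] at this
  exact_mod_cast this

theorem rm_unit {G : Matrix ι ι ℤ} (h : G.det ≠ 0) : IsUnit (rm G).det := by
  rw [rm, ← Int.cast_det, isUnit_iff_ne_zero]
  exact_mod_cast h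

omit [DecidableEq ι] in
theorem rm_mul (G H : Matrix ι ι ℤ) : rm (G * H) = rm G * rm H := by
  ext i j
  simp [rm, Matrix.mul_apply]

omit [Fintype ι] [DecidableEq ι] in
theorem rm_transpose (G : Matrix ι ι ℤ) : rm Gᵀ = (rm G)ᵀ := rfl

theorem bil_add_left (G : Matrix ι ι ℤ) (x y z : ι → ℝ) :
    bil G (x + y) z = bil G x z + bil G y z := add_dotProduct _ _ _

theorem bil_add_right (G : Matrix ι ι ℤ) (x y z : ι → ℝ) :
    bil G x (y + z) = bil G x y + bil G x z := by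
  rw [bil, mulVec_add, dotProduct_add]; rfl

theorem bil_symm {G : Matrix ι ι ℤ} (hs : Gᵀ = G) (x y : ι → ℝ) : bil G x y = bil G y x := by
  rw [bil, bil, dotProduct_mulVec, ← mulVec_transpose, transpose_nonsing_inv, ← rm_transpose, hs,
    dotProduct_comm]

theorem bil_mulVec {G : Matrix ι ι ℤ} (hd : G.det ≠ 0) (x y : ι → ℝ) :
    bil G x (rm G *ᵥ y) = x ⬝ᵥ y := by
  rw [bil, mulVec_mulVec, nonsing_inv_mul _ (rm_unit hd), one_mulVec]

theorem bil_cong {G P : Matrix ι ι ℤ} (hP : P.det ≠ 0) (x y : ι → ℝ) :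
    bil (Pᵀ * G * P) ((rm P)ᵀ *ᵥ x) ((rm P)ᵀ *ᵥ y) = bil G x y := by
  have h1 := rm_unit hP
  have h2 : IsUnit (rm P)ᵀ.det := by rwa [det_transpose]
  rw [bil, bil, rm_mul, rm_mul, rm_transpose, Matrix.mul_inv_rev, Matrix.mul_inv_rev,
    mulVec_transpose, ← dotProduct_mulVec, mulVec_mulVec, mulVec_mulVec,
    Matrix.mul_nonsing_inv_cancel_left _ _ h1, Matrix.nonsing_inv_mul_cancel_right _ _ h2]

theorem exp_int (z : ℤ) : cexp (2 * π * I * ((z : ℝ) : ℂ)) = 1 := by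
  rw [← Complex.exp_int_mul_two_pi_mul_I z]
  congr 1
  push_cast
  ring

theorem int_of_exp {t : ℝ} (h : cexp (2 * π * I * t) = 1) : ∃ z : ℤ, t = z := by
  obtain ⟨n, hn⟩ := Complex.exp_eq_one_iff.1 h
  refine ⟨n, ?_⟩
  have hp : (2 * π * I : ℂ) ≠ 0 := two_pi_I_ne_zero
  have : (t : ℂ) = n := by
    apply mul_left_cancel₀ hp
    linear_combination hn
  exact_mod_cast this

theorem int_vec {t : ι → ℝ} (h : ∀ v : ι → ℤ, cexp (2 * π * I * (t ⬝ᵥ rv v : ℝ)) = 1) :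
    ∃ z : ι → ℤ, t = rv z := by
  choose z hz using fun i => int_of_exp (h (Pi.single i 1))
  refine ⟨z, funext fun i => ?_⟩
  rw [rv, ← hz i]
  simp [rv, dotProduct, Pi.single_apply]

theorem exp_even {G : Matrix ι ι ℤ} (hd : G.det ≠ 0) (he : ∀ u, Even (u ⬝ᵥ G *ᵥ u))
    (u : ι → ℤ) : cexp (π * I * bil G (rv (G *ᵥ u)) (rv (G *ᵥ u))) = 1 := by
  obtain ⟨k, hk⟩ := he u
  have : bil G (rv (G *ᵥ u)) (rv (G *ᵥ u)) = 2 * k := by
    conv_lhs => enter [3]; rw [rv_mulVec]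
    rw [bil_mulVec hd, rv_dot, dotProduct_comm, hk]
    push_cast
    ring
  rw [this, ← exp_int k]
  congr 1
  push_cast
  ring

theorem exp_add_bil {G : Matrix ι ι ℤ} (hs : Gᵀ = G) (x y : ι → ℝ) :
    cexp (π * I * bil G (x + y) (x + y)) = cexp (π * I * bil G x x) * cexp (π * I * bil G y y) *
      cexp (2 * π * I * bil G x y) := by
  rw [← Complex.exp_add, ← Complex.exp_add, bil_add_left, bil_add_right, bil_add_right,
    bil_symm hs y x]
  congr 1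
  push_cast
  ring

theorem exp_add_right (G : Matrix ι ι ℤ) (x y z : ι → ℝ) :
    cexp (2 * π * I * bil G x (y + z)) =
      cexp (2 * π * I * bil G x y) * cexp (2 * π * I * bil G x z) := by
  rw [← Complex.exp_add, bil_add_right]
  congr 1
  push_cast
  ring

theorem exp_range {G : Matrix ι ι ℤ} (hd : G.det ≠ 0) (x u : ι → ℤ) :
    cexp (2 * π * I * bil G (rv x) (rv (G *ᵥ u))) = 1 := by
  rw [rv_mulVec, bil_mulVec hd, rv_dot, exp_int]

theorem exists_QF {G : Matrix ι ι ℤ} (hs : Gᵀ = G) (hd : G.det ≠ 0)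
    (he : ∀ u, Even (u ⬝ᵥ G *ᵥ u)) {A : Type} [AddCommGroup A] [Fintype A]
    {φ : (ι → ℤ) →+ A} (hφ : Pres G φ) :
    ∃ (e : A → ℂ) (b : A → AddChar A ℂ), QF e b ∧
      (∀ x, e (φ x) = cexp (π * I * bil G (rv x) (rv x))) ∧
      ∀ x y, b (φ x) (φ y) = cexp (2 * π * I * bil G (rv x) (rv y)) := by
  let σ : A → ι → ℤ := Function.surjInv hφ.1
  have hσ : ∀ a, φ (σ a) = a := Function.surjInv_eq hφ.1
  have hk : ∀ x, ∃ u, σ (φ x) = x + G *ᵥ u := fun x => by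
    obtain ⟨u, hu⟩ := (hφ.2 (σ (φ x) - x)).1 (by rw [map_sub, hσ, sub_self])
    exact ⟨u, by rw [hu]; ring⟩
  have h1 : ∀ x, cexp (π * I * bil G (rv (σ (φ x))) (rv (σ (φ x)))) =
      cexp (π * I * bil G (rv x) (rv x)) := fun x => by
    obtain ⟨u, hu⟩ := hk x
    rw [hu, rv_add, exp_add_bil hs, exp_even hd he, exp_range hd, mul_one, mul_one]
  have h2 : ∀ x y, cexp (2 * π * I * bil G (rv x) (rv (σ (φ y)))) =
      cexp (2 * π * I * bil G (rv x) (rv y)) := fun x y => by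
    obtain ⟨u, hu⟩ := hk y
    rw [hu, rv_add, exp_add_right, exp_range hd, mul_one]
  have h3 : ∀ x y, cexp (2 * π * I * bil G (rv (σ (φ x))) (rv (σ (φ y)))) =
      cexp (2 * π * I * bil G (rv x) (rv y)) := fun x y => by
    rw [h2, bil_symm hs, h2, bil_symm hs]
  have h0 : rv (0 : ι → ℤ) = 0 := by ext i; simp [rv]
  let b : A → AddChar A ℂ := fun a =>
    { toFun := fun c => cexp (2 * π * I * bil G (rv (σ a)) (rv (σ c)))
      map_zero_eq_one' := by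
        rw [← map_zero φ, h2, h0]
        simp [bil]
      map_add_eq_mul' := fun c d => by
        obtain ⟨x, rfl⟩ := hφ.1 c
        obtain ⟨y, rfl⟩ := hφ.1 d
        rw [← map_add, h2, h2, h2, rv_add, exp_add_right] }
  have hb : ∀ x y, b (φ x) (φ y) = cexp (2 * π * I * bil G (rv x) (rv y)) := h3
  refine ⟨fun a => cexp (π * I * bil G (rv (σ a)) (rv (σ a))), b,
    ⟨fun c d => ?_, fun c d => ?_, ?_, fun c => ?_, ⟨2 * Fintype.card A, ?_, fun c => ?_⟩,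
      fun c hc => ?_⟩, h1, hb⟩
  · obtain ⟨x, rfl⟩ := hφ.1 c
    obtain ⟨y, rfl⟩ := hφ.1 d
    rw [← map_add, h1, h1, h1, hb, rv_add, exp_add_bil hs]
  · obtain ⟨x, rfl⟩ := hφ.1 c
    obtain ⟨y, rfl⟩ := hφ.1 d
    rw [hb, hb, bil_symm hs]
  · rw [← map_zero φ, h1, h0]
    simp [bil]
  · obtain ⟨x, rfl⟩ := hφ.1 c
    have : rv (-x) = -rv x := by ext i; simp [rv]
    rw [← map_neg, h1, h1, this]
    simp [bil, mulVec_neg]
  · have := Fintype.card_pos (α := A)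
    omega
  · obtain ⟨u, hu⟩ := (hφ.2 (Fintype.card A • σ c)).1 (by rw [map_nsmul, card_nsmul_eq_zero])
    have h4 := exp_range hd (σ c) u
    have h5 : rv (Fintype.card A • σ c) = (Fintype.card A : ℝ) • rv (σ c) := by
      ext i; simp [rv]
    rw [hu, h5, bil, mulVec_smul, dotProduct_smul, smul_eq_mul] at h4
    rw [← Complex.exp_nat_mul, ← h4, bil]
    congr 1
    push_cast
    ring
  · obtain ⟨x, rfl⟩ := hφ.1 c
    obtain ⟨z, hz⟩ := int_vec (t := (rm G)⁻¹ *ᵥ rv x) fun v => by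
      have := hc (φ v)
      rwa [hb, bil_symm hs, bil, dotProduct_comm] at this
    refine (hφ.2 x).2 ⟨z, rv_inj ?_⟩
    rw [rv_mulVec, ← hz, mulVec_mulVec, mul_nonsing_inv _ (rm_unit hd), one_mulVec]

theorem compare {G P : Matrix ι ι ℤ} (hd : G.det ≠ 0) (hP : P.det ≠ 0)
    (he : ∀ u, Even (u ⬝ᵥ G *ᵥ u)) {A A' : Type} [AddCommGroup A] [Fintype A] [AddCommGroup A']
    [Fintype A'] {φ : (ι → ℤ) →+ A} {φ' : (ι → ℤ) →+ A'} (hφ : Function.Surjective φ)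
    (hφ' : Function.Surjective φ') {e : A → ℂ} {e' : A' → ℂ} {b' : A' → AddChar A' ℂ}
    (q : QF e' b') (h1 : ∀ x, e (φ x) = cexp (π * I * bil G (rv x) (rv x)))
    (h2 : ∀ x, e' (φ' x) = cexp (π * I * bil (Pᵀ * G * P) (rv x) (rv x)))
    (h3 : ∀ x y, b' (φ' x) (φ' y) = cexp (2 * π * I * bil (Pᵀ * G * P) (rv x) (rv y))) {s : ℤ}
    (h : Ph (∑ x, e' x) s) : Ph (∑ x, e x) s := by
  classical
  let ψ : (ι → ℤ) →+ A' := φ'.comp (Pᵀ).mulVecLin.toAddMonoidHom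
  have hψ : ∀ x, ψ x = φ' (Pᵀ *ᵥ x) := fun _ => rfl
  let H := (ψ.comp G.mulVecLin.toAddMonoidHom).range
  have hT : ∀ x, rv (Pᵀ *ᵥ x) = (rm P)ᵀ *ᵥ rv x := fun x => rv_mulVec _ _
  have e1 : ∀ x, e' (ψ x) = cexp (π * I * bil G (rv x) (rv x)) := fun x => by
    rw [hψ, h2, hT, bil_cong hP]
  have e2 := q.avg H (by
    rintro _ ⟨u, rfl⟩
    exact (e1 (G *ᵥ u)).trans (exp_even hd he u))
  have e3 : ∀ a, (∀ h ∈ H, b' a h = 1) ↔ a ∈ ψ.range := fun a => by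
    constructor
    · intro ha
      obtain ⟨x, rfl⟩ := hφ' a
      have hu : IsUnit (rm P)ᵀ.det := by rw [det_transpose]; exact rm_unit hP
      have hx : rv x = (rm P)ᵀ *ᵥ ((rm P)ᵀ⁻¹ *ᵥ rv x) := by
        rw [mulVec_mulVec, mul_nonsing_inv _ hu, one_mulVec]
      obtain ⟨z, hz⟩ := int_vec (t := (rm P)ᵀ⁻¹ *ᵥ rv x) fun v => by
        have : b' (φ' x) (φ' (Pᵀ *ᵥ (G *ᵥ v))) = 1 := ha _ ⟨v, rfl⟩
        rwa [h3, hT, hx, bil_cong hP, rv_mulVec, bil_mulVec hd] at this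
      refine ⟨z, congrArg φ' (rv_inj ?_)⟩
      rw [hx, hz]
      exact hT z
    · rintro ⟨z, rfl⟩ _ ⟨v, rfl⟩
      change b' (φ' (Pᵀ *ᵥ z)) (φ' (Pᵀ *ᵥ (G *ᵥ v))) = 1
      rw [h3, hT, hT, bil_cong hP, exp_range hd]
  have e4 : ∑ x, e' x = ∑ x : ψ.range, e' x := by
    rw [e2, ← sum_filter]
    exact sum_subtype _ (fun a => by simp only [mem_filter, mem_univ, true_and, e3]) _
  have e5 := sum_mean φ ψ.rangeRestrict hφ ψ.rangeRestrict_surjective e (fun x => e' x)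
    fun x => (h1 x).trans (e1 x).symm
  obtain ⟨c, hc, h⟩ := h
  have p1 : (0 : ℝ) < Fintype.card A := by exact_mod_cast Fintype.card_pos
  have p2 : (0 : ℝ) < Fintype.card ψ.range := by exact_mod_cast Fintype.card_pos
  refine ⟨Fintype.card A * c / Fintype.card ψ.range, by positivity, ?_⟩
  have p3 : (Fintype.card ψ.range : ℂ) ≠ 0 := by exact_mod_cast Fintype.card_ne_zero
  apply mul_left_cancel₀ p3
  rw [e5, ← e4, h]
  push_cast
  field_simp

end Pool.Agent.P.MP_06cdda_gt.Pr
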