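import Pool.Agent.P.MP_06cdda_gt.PrM
import Pool.Agent.P.MP_06cdda_gt.Algebra
import Pool.Agent.P.MP_27a476_gt.Gauss

open Finset Complex Real Matrix

namespace Pool.Agent.P.MP_06cdda_gt.Pr

theorem Ph.mul {S T : ℂ} {s t : ℤ} (h : Ph S s) (h' : Ph T t) : Ph (S * T) (s + t) := by
  obtain ⟨c, hc, rfl⟩ := h
  obtain ⟨d, hd, rfl⟩ := h'
  refine ⟨c * d, mul_pos hc hd, ?_⟩
  rw [show (π * I * ((s + t : ℤ) : ℂ) / 4) = π * I * s / 4 + π * I * t / 4 by push_cast; ring,
    Complex.exp_add]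
  push_cast
  ring

theorem Ph.prod {ι : Type} (F : Finset ι) (S : ι → ℂ) (s : ι → ℤ) (h : ∀ i, Ph (S i) (s i)) :
    Ph (∏ i ∈ F, S i) (∑ i ∈ F, s i) := by
  classical
  induction F using Finset.induction_on with
  | empty => exact ⟨1, one_pos, by simp⟩
  | insert a F ha ih => rw [prod_insert ha, sum_insert ha]; exact (h a).mul ih

theorem gauss_one (N : ℕ) (hN : 0 < N) (hE : Even N) (ε : ℤ) (hε : ε = 1 ∨ ε = -1) :
    Ph (∑ j ∈ range N, cexp (π * I * (ε * j ^ 2) / N)) ε := by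
  have h := MP_27a476_gt.gauss_reciprocity N hN ε (by omega) 0
    (by rw [add_zero]; exact ((Int.even_coe_nat N).2 hE).mul_left ε)
  have hN' : (0 : ℝ) < N := by exact_mod_cast hN
  have h1 : ε.natAbs = 1 := by omega
  have h2 : (-I * ε) ^ (1 / 2 : ℂ) = cexp (-(π * I * ε / 4)) := by
    rcases hε with rfl | rfl
    · rw [Int.cast_one, mul_one, cpow_def_of_ne_zero (neg_ne_zero.2 I_ne_zero), log_neg_I]
      congr 1
      ring
    · rw [show -I * ((-1 : ℤ) : ℂ) = I by push_cast; ring, cpow_def_of_ne_zero I_ne_zero, log_I]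
      congr 1
      push_cast
      ring
  have h3 : (-I * ε : ℂ) ≠ 0 :=
    mul_ne_zero (neg_ne_zero.2 I_ne_zero) (by exact_mod_cast (show ε ≠ 0 by omega))
  rw [h1, show (-I * ε / N : ℂ) = ((1 / N : ℝ) : ℂ) * (-I * ε) by push_cast; ring,
    MP_27a476_gt.ofReal_mul_cpow (by positivity) h3,
    MP_27a476_gt.ofReal_cpow_half (by positivity), h2] at h
  simp only [Int.cast_zero, zero_mul, add_zero, sum_range_one, Nat.cast_zero, ne_eq,
    OfNat.ofNat_ne_zero, not_false_eq_true, zero_pow, mul_zero, zero_div, Complex.exp_zero,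
    sub_self, mul_one] at h
  have h4 : (0 : ℝ) < √(1 / N) := Real.sqrt_pos.2 (by positivity)
  have h5 : ((√(1 / N) : ℝ) : ℂ) ≠ 0 := by exact_mod_cast h4.ne'
  refine ⟨(√(1 / N))⁻¹, inv_pos.2 h4, ?_⟩
  rw [Complex.exp_neg] at h
  have h6 := Complex.exp_ne_zero (π * I * ε / 4)
  rw [ofReal_inv]
  field_simp at h ⊢
  exact h

variable {ι : Type} [Fintype ι] [DecidableEq ι]

theorem diag_case (d : ι → ℤ) (hd : ∀ i, d i ≠ 0) (he : ∀ u, Even (u ⬝ᵥ diagonal d *ᵥ u)) :
    ∃ (A : Type) (_ : AddCommGroup A) (_ : Fintype A) (φ : (ι → ℤ) →+ A), Pres (diagonal d) φ ∧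
      ∀ e : A → ℂ, (∀ x, e (φ x) = cexp (π * I * bil (diagonal d) (rv x) (rv x))) →
        Ph (∑ x, e x) (∑ i, (d i).sign) := by
  have hN : ∀ i, NeZero (d i).natAbs := fun i => ⟨Int.natAbs_ne_zero.2 (hd i)⟩
  let φ : (ι → ℤ) →+ ((i : ι) → ZMod (d i).natAbs) := AddMonoidHom.pi fun i =>
    (Int.castAddHom _).comp (Pi.evalAddMonoidHom _ i)
  have hφ : ∀ x i, φ x i = (x i : ZMod (d i).natAbs) := fun _ _ => rfl
  refine ⟨(i : ι) → ZMod (d i).natAbs, inferInstance, inferInstance, φ, ⟨fun y => ?_, fun x => ?_⟩,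
    fun e h => ?_⟩
  · exact ⟨fun i => ((y i).val : ℤ), funext fun i => by rw [hφ]; simp⟩
  · constructor
    · intro hx
      choose y hy using fun i => Int.natAbs_dvd.1
        ((ZMod.intCast_zmod_eq_zero_iff_dvd _ _).1 ((hφ x i).symm.trans (congrFun hx i)))
      exact ⟨y, funext fun i => by rw [mulVec_diagonal, hy]⟩
    · rintro ⟨y, rfl⟩
      ext i
      rw [hφ, mulVec_diagonal]
      exact (ZMod.intCast_zmod_eq_zero_iff_dvd _ _).2 (Int.natAbs_dvd.2 (dvd_mul_right _ _))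
  · have hdr : ∀ i, (d i : ℝ) ≠ 0 := fun i => by exact_mod_cast hd i
    have hinv : (rm (diagonal d))⁻¹ = diagonal fun i => (d i : ℝ)⁻¹ := by
      apply inv_eq_left_inv
      rw [rm, diagonal_map Int.cast_zero, diagonal_mul_diagonal, ← diagonal_one]
      congr 1
      exact funext fun i => inv_mul_cancel₀ (hdr i)
    have h1 : ∀ y : (i : ι) → ZMod (d i).natAbs, e y =
        ∏ i, cexp (π * I * ((d i).sign * ((y i).val : ℕ) ^ 2) / (d i).natAbs) := fun y => by
      have hy : y = φ fun i => ((y i).val : ℤ) := funext fun i => by rw [hφ]; simp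
      conv_lhs => rw [hy, h]
      rw [← Complex.exp_sum, bil, hinv, dotProduct, ofReal_sum, mul_sum]
      congr 1
      refine sum_congr rfl fun i _ => ?_
      have a1 : ((d i).sign * (d i).natAbs : ℂ) = d i := by
        have := congrArg (Int.cast : ℤ → ℂ) (Int.sign_mul_natAbs (d i))
        rwa [Int.cast_mul, Int.cast_natCast] at this
      have a2 : ((d i).sign * (d i).sign : ℂ) = 1 := by
        rcases lt_or_gt_of_ne (hd i) with h | h
        · rw [Int.sign_eq_neg_one_of_neg h]; simp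
        · rw [Int.sign_eq_one_of_pos h]; simp
      have a3 : (d i : ℂ) ≠ 0 := by exact_mod_cast hd i
      have a4 : ((d i).natAbs : ℂ) ≠ 0 := by exact_mod_cast (hN i).out
      rw [mulVec_diagonal, rv]
      simp only [ofReal_mul, ofReal_inv, ofReal_intCast, Int.cast_natCast, ofReal_natCast]
      generalize ((d i).natAbs : ℂ) = n at *
      generalize ((d i).sign : ℂ) = t at *
      generalize (((y i).val : ℕ) : ℂ) = v at *
      field_simp
      linear_combination v ^ 2 * t * a1 - v ^ 2 * n * a2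
    rw [sum_congr rfl fun y _ => h1 y, ← Fintype.piFinset_univ,
      ← prod_univ_sum (fun _ => univ) fun i (t : ZMod (d i).natAbs) =>
        cexp (π * I * ((d i).sign * (t.val : ℕ) ^ 2) / (d i).natAbs)]
    refine Ph.prod _ _ _ fun i => ?_
    have hE : Even (d i).natAbs := by
      have := he (Pi.single i 1)
      rw [single_one_dotProduct, mulVec_diagonal, Pi.single_eq_same, mul_one] at this
      exact Int.natAbs_even.2 this
    have := gauss_one _ (Nat.pos_of_ne_zero (hN i).out) hE (d i).sign (by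
      rcases lt_or_gt_of_ne (hd i) with h | h
      · exact Or.inr (Int.sign_eq_neg_one_of_neg h)
      · exact Or.inl (Int.sign_eq_one_of_pos h))
    have hs : ∑ t : ZMod (d i).natAbs,
        cexp (π * I * ((d i).sign * (t.val : ℕ) ^ 2) / (d i).natAbs) =
        ∑ j ∈ range (d i).natAbs, cexp (π * I * ((d i).sign * j ^ 2) / (d i).natAbs) :=
      sum_nbij' ZMod.val (fun j => (j : ZMod (d i).natAbs))
        (fun t _ => mem_range.2 (ZMod.val_lt t)) (fun _ _ => mem_univ _)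
        (fun t _ => ZMod.natCast_zmod_val t) (fun j hj => ZMod.val_cast_of_lt (mem_range.1 hj))
        fun _ _ => rfl
    rw [hs]
    exact this

theorem exists_diag {g : ℕ} {G : Matrix (Fin g) (Fin g) ℤ} (hs : Gᵀ = G) :
    ∃ (P : Matrix (Fin g) (Fin g) ℤ) (d : Fin g → ℤ), P.det ≠ 0 ∧ Pᵀ * G * P = diagonal d := by
  let GQ : Matrix (Fin g) (Fin g) ℚ := G.map ((↑) : ℤ → ℚ)
  have hQ : GQᵀ = GQ := by
    ext i j
    exact congrArg Int.cast (congrFun (congrFun hs i) j)
  have hB : LinearMap.IsSymm (Matrix.toBilin' GQ) := ⟨fun x y => by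
    rw [RingHom.id_apply, toBilin'_apply', toBilin'_apply', dotProduct_mulVec, ← mulVec_transpose,
      hQ, dotProduct_comm]⟩
  obtain ⟨v0, hv0⟩ := LinearMap.BilinForm.exists_orthogonal_basis hB
  let v := v0.reindex (finCongr (Module.finrank_fin_fun ℚ))
  have hv : ∀ i j, i ≠ j → v i ⬝ᵥ GQ *ᵥ v j = 0 := fun i j hij => by
    rw [← toBilin'_apply', Module.Basis.reindex_apply, Module.Basis.reindex_apply]
    exact hv0 fun h => hij ((finCongr _).symm.injective h)
  obtain ⟨b, hb⟩ := IsLocalization.exist_integer_multiples_of_finite (nonZeroDivisors ℤ)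
    fun p : Fin g × Fin g => v p.2 p.1
  choose P hP using hb
  have hb0 : ((b : ℤ) : ℚ) ≠ 0 := by exact_mod_cast nonZeroDivisors.coe_ne_zero b
  let Q : Matrix (Fin g) (Fin g) ℚ := Matrix.of fun i j => v j i
  let P' : Matrix (Fin g) (Fin g) ℤ := Matrix.of fun i j => P (i, j)
  have hPQ : P'.map ((↑) : ℤ → ℚ) = ((b : ℤ) : ℚ) • Q := by
    ext i j
    simpa [P', Q] using hP (i, j)
  have hU : IsUnit Q := linearIndependent_cols_iff_isUnit.1 v.linearIndependent
  refine ⟨P', fun i => (P'ᵀ * G * P') i i, fun h0 => ?_, ?_⟩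
  · have := congrArg det hPQ
    rw [← Int.cast_det, h0, det_smul, Int.cast_zero] at this
    exact mul_ne_zero (pow_ne_zero _ hb0) ((isUnit_iff_isUnit_det Q).1 hU).ne_zero
      this.symm
  · ext i j
    by_cases hij : i = j
    · subst hij
      rw [diagonal_apply_eq]
    · rw [diagonal_apply_ne _ hij]
      have h1 : (P'ᵀ * G * P').map ((↑) : ℤ → ℚ) =
          (P'.map ((↑) : ℤ → ℚ))ᵀ * GQ * P'.map ((↑) : ℤ → ℚ) := by
        ext i j
        simp [GQ, Matrix.mul_apply]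
      have h2 : (Qᵀ * GQ * Q) i j = 0 := by
        rw [← hv i j hij, Matrix.mul_assoc]
        rfl
      have h3 := congrFun (congrFun h1 i) j
      rw [hPQ, transpose_smul, Matrix.smul_mul, Matrix.smul_mul, Matrix.mul_smul,
        Matrix.smul_apply, Matrix.smul_apply, h2, smul_zero, smul_zero, Matrix.map_apply] at h3
      exact_mod_cast h3

theorem signature_eq {G P : Matrix ι ι ℝ} {d : ι → ℝ} (hP : IsUnit P.det)
    (h2 : Pᵀ * G * P = diagonal d) : (sigPos G.toQuadraticForm' : ℤ) - sigNeg G.toQuadraticForm' =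
      ∑ i, (SignType.sign (d i) : ℤ) := by
  have := P.invertibleOfIsUnitDet hP
  have he : QuadraticMap.Equivalent (QuadraticMap.weightedSumSquares ℝ d) G.toQuadraticForm' := by
    refine ⟨⟨P.toLinearEquiv' this, fun x => ?_⟩⟩
    simp only [AddHom.toFun_eq_coe, LinearMap.coe_toAddHom, LinearEquiv.coe_coe,
      QuadraticMap.weightedSumSquares_apply, smul_eq_mul]
    have e1 : (P.toLinearEquiv' this) x = P *ᵥ x := rfl
    rw [e1]
    simp only [Matrix.toQuadraticForm', LinearMap.BilinMap.toQuadraticMap_apply,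
      toLinearMap₂'_apply']
    rw [mulVec_mulVec, dotProduct_mulVec, vecMul_mulVec, ← Matrix.mul_assoc, h2]
    simp only [dotProduct, vecMul_diagonal]
    refine Finset.sum_congr rfl fun i _ => by ring
  rw [QuadraticForm.sigPos_of_equiv_weightedSumSquares he.symm,
    QuadraticForm.sigNeg_of_equiv_weightedSumSquares he.symm, sum_sign_eq]

theorem milgram {g : ℕ} {G : Matrix (Fin g) (Fin g) ℤ} (hs : Gᵀ = G) (hd : G.det ≠ 0)
    (he : ∀ u, Even (u ⬝ᵥ G *ᵥ u)) {A : Type} [AddCommGroup A] [Fintype A]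
    {φ : (Fin g → ℤ) →+ A} (hφ : Function.Surjective φ) {e : A → ℂ}
    (h1 : ∀ x, e (φ x) = cexp (π * I * bil G (rv x) (rv x))) :
    Ph (∑ x, e x) ((sigPos (rm G).toQuadraticForm' : ℤ) - sigNeg (rm G).toQuadraticForm') := by
  obtain ⟨P, d, hP, hD⟩ := exists_diag hs
  have hd' : (diagonal d).det ≠ 0 := by
    rw [← hD, det_mul, det_mul, det_transpose]
    exact mul_ne_zero (mul_ne_zero hP hd) hP
  have hd0 : ∀ i, d i ≠ 0 := fun i => by
    rw [det_diagonal] at hd'
    exact prod_ne_zero_iff.1 hd' i (mem_univ i)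
  have he' : ∀ u, Even (u ⬝ᵥ diagonal d *ᵥ u) := fun u => by
    rw [← hD, ← mulVec_mulVec, ← mulVec_mulVec, dotProduct_mulVec, vecMul_transpose]
    exact he _
  obtain ⟨A', _, _, φ', hφ', h⟩ := diag_case d hd0 he'
  obtain ⟨e', b', q, a1, a2⟩ := exists_QF (diagonal_transpose d) hd' he' hφ'
  have hsig : (sigPos (rm G).toQuadraticForm' : ℤ) - sigNeg (rm G).toQuadraticForm' =
      ∑ i, (d i).sign := by
    rw [signature_eq (P := rm P) (d := fun i => (d i : ℝ)) (rm_unit hP)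
      (by rw [← rm_transpose, ← rm_mul, ← rm_mul, hD, rm, diagonal_map Int.cast_zero])]
    refine sum_congr rfl fun i _ => ?_
    rcases lt_or_gt_of_ne (hd0 i) with h | h
    · rw [Int.sign_eq_neg_one_of_neg h, sign_neg (by exact_mod_cast h)]; rfl
    · rw [Int.sign_eq_one_of_pos h, sign_pos (by exact_mod_cast h)]; rfl
  rw [hsig]
  rw [← hD] at a1 a2
  exact compare hd hP he hφ hφ'.1 q h1 a1 a2 (h e' (by rw [← hD]; exact a1))

theorem necessary {g : ℕ} (V : Matrix (Fin g) (Fin g) ℤ) {A : Type} [AddCommGroup A] [Finite A]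
    (hA : Odd (Nat.card A))
    (f : ((Fin g → ℤ) ⧸ LinearMap.range (V + Vᵀ).mulVecLin) ≃+ A) {s : ℤ}
    (h : (sigPos ((V + Vᵀ).map ((↑) : ℤ → ℝ)).toQuadraticForm' : ℤ) -
      sigNeg ((V + Vᵀ).map ((↑) : ℤ → ℝ)).toQuadraticForm' = s) :
    s % 4 = ((Nat.card A : ℤ) - 1) % 4 ∧
      ((∃ (k : ℕ) (m : Fin k → ℕ), Nonempty (A ≃+ ((i : Fin k) → ZMod (m i ^ 2)))) → 8 ∣ s) := by
  let _ : Fintype A := Fintype.ofFinite A
  rw [Nat.card_eq_fintype_card] at hA ⊢
  let φ : (Fin g → ℤ) →+ A :=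
    f.toAddMonoidHom.comp (LinearMap.range (V + Vᵀ).mulVecLin).mkQ.toAddMonoidHom
  have hφ : Pres (V + Vᵀ) φ := ⟨f.surjective.comp (Submodule.mkQ_surjective _), fun x =>
    (f.map_eq_zero_iff).trans (Submodule.Quotient.mk_eq_zero _)⟩
  have hs : (V + Vᵀ)ᵀ = V + Vᵀ := by rw [transpose_add, transpose_transpose, add_comm]
  have he : ∀ u, Even (u ⬝ᵥ (V + Vᵀ) *ᵥ u) := fun u => ⟨u ⬝ᵥ V *ᵥ u, by
    rw [add_mulVec, dotProduct_add, mulVec_transpose, dotProduct_comm u (u ᵥ* V),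
      ← dotProduct_mulVec]⟩
  have hd : (V + Vᵀ).det ≠ 0 := fun h0 => by
    choose u hu using fun j : Fin g => (hφ.2 (Fintype.card A • Pi.single j 1)).1
      (by rw [map_nsmul, card_nsmul_eq_zero])
    have h1 : (V + Vᵀ) * Matrix.of (fun i j => u j i) =
        (Fintype.card A : ℤ) • (1 : Matrix (Fin g) (Fin g) ℤ) := by
      ext i j
      refine (congrFun (hu j) i).trans ?_
      simp [Matrix.one_apply, Pi.single_apply]
    have h2 := congrArg det h1
    rw [det_mul, h0, zero_mul, det_smul, det_one, mul_one] at h2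
    exact pow_ne_zero _ (by exact_mod_cast Fintype.card_ne_zero) h2.symm
  obtain ⟨e, b, q, h1, -⟩ := exists_QF hs hd he hφ
  have hm := milgram hs hd he hφ.1 h1
  rw [show (sigPos (rm (V + Vᵀ)).toQuadraticForm' : ℤ) -
    sigNeg (rm (V + Vᵀ)).toQuadraticForm' = s from h] at hm
  exact ⟨q.mod_four hA hm, fun ⟨_, _, ⟨f⟩⟩ => q.eight_dvd hA hm f⟩

end Pool.Agent.P.MP_06cdda_gt.Pr
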