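import Pool.Agent.P.MP_06cdda_gt.Main

open Finset Matrix

namespace Pool.Agent.P.MP_06cdda_gt.Pr

/-- Realisable states whose fence can be used again as a pattern, with an unused first column. -/
def Rs (Δ r : ℝ) (σ : ℤ) : Prop :=
  ∃ (ι : Type) (_ : Fintype ι) (_ : DecidableEq ι) (F : Fence) (a : ι → ℕ → ℤ) (π : ℕ → ℤ),
    F.Good a π ∧ F.bot 0 = 0 ∧ F.top 0 = 1 ∧ (∀ i, a i 0 = 0) ∧ π 0 = 0 ∧
    Alg (Matrix.of fun i j => F.sym (a i) (a j)) (fun i => F.sym (a i) π) (F.sym π π) Δ r σ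

theorem sym_ll {ι : Type} [Fintype ι] {F P : Fence} {s : ℕ} {a : ι → ℕ → ℤ} {π : ℕ → ℤ}
    (hF : F.Good a π) (hm : P.m = s + 1) (hb : P.bot 0 = 0) (ht : P.top 0 = 1) (i j : ι) :
    (F.comp P s).sym (F.glue (a i) fun _ => 0) (F.glue (a j) fun _ => 0) =
      F.sym (a i) (a j) := by
  have hz : ∀ i, F.HasBd (a i) ((fun _ : ℕ => (0 : ℤ)) 0) := fun i l => by
    rw [hF.2.2.1.1]; simp
  rw [Fence.sym_glue (f := fun _ => 0) (f' := fun _ => 0) hF.1 hm hb ht (hz i) (hz j),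
    Fence.sym_zero_left, add_zero]

theorem sym_lr {ι : Type} [Fintype ι] {F P : Fence} {s : ℕ} {a : ι → ℕ → ℤ} {π : ℕ → ℤ}
    (hF : F.Good a π) (hm : P.m = s + 1) (hb : P.bot 0 = 0) (ht : P.top 0 = 1) (i : ι)
    (g : ℕ → ℤ) :
    (F.comp P s).sym (F.glue (a i) fun _ => 0) (F.glue (fun k => g 0 * π k) g) =
      F.sym (a i) π * g 0 := by
  have hz : F.HasBd (a i) ((fun _ : ℕ => (0 : ℤ)) 0) := fun l => by
    rw [hF.2.2.1.1]; simp
  rw [Fence.sym_glue (f := fun _ => 0) hF.1 hm hb ht hz (hF.2.2.2.mul _),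
    Fence.sym_zero_left, add_zero, Fence.sym_mul_right, mul_comm]

theorem sym_rr {ι : Type} [Fintype ι] {F P : Fence} {s : ℕ} {a : ι → ℕ → ℤ} {π : ℕ → ℤ}
    (hF : F.Good a π) (hm : P.m = s + 1) (hb : P.bot 0 = 0) (ht : P.top 0 = 1)
    (g g' : ℕ → ℤ) :
    (F.comp P s).sym (F.glue (fun k => g 0 * π k) g) (F.glue (fun k => g' 0 * π k) g') =
      P.sym g g' + F.sym π π * (g 0 * g' 0) := by
  rw [Fence.sym_glue hF.1 hm hb ht (hF.2.2.2.mul _) (hF.2.2.2.mul _), Fence.sym_mul_left,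
    Fence.sym_mul_right]
  ring

theorem Rs.comp {Δ r : ℝ} {σ : ℤ} (h : Rs Δ r σ) {κ : Type} [Fintype κ] [DecidableEq κ]
    {P : Fence} {f : κ → ℕ → ℤ} {ρ : ℕ → ℤ} (hP : P.Good f ρ) (hb : P.bot 0 = 0)
    (ht : P.top 0 = 1) {Δ' r' : ℝ} {σ' : ℤ}
    (h' : Alg ((Matrix.of fun i j => P.sym (f i) (f j)) -
        r • vecMulVec (fun i => (f i 0 : ℝ)) (fun i => (f i 0 : ℝ)))
      ((fun i => P.sym (f i) ρ) - (r * ρ 0) • fun i => (f i 0 : ℝ))
      (P.sym ρ ρ - r * (ρ 0 : ℝ) ^ 2) Δ' r' σ') : Rs (Δ * Δ') r' (σ + σ') := by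
  obtain ⟨ι, _, _, F, a, π, hF, b0, t0, a0, p0, hA⟩ := h
  obtain ⟨s, hm⟩ : ∃ s, P.m = s + 1 := ⟨P.m - 1, by have := hP.1.1; omega⟩
  have hpos : 0 < F.m := hF.1.1
  refine ⟨ι ⊕ κ, inferInstance, inferInstance, F.comp P s, F.compBasis a π f, _,
    Fence.good_comp hF hP hm hb ht, by rw [Fence.comp_bot_lt hpos, b0],
    by rw [Fence.comp_top_lt hpos, t0], ?_, by rw [Fence.glue_lt hpos, p0, mul_zero], ?_⟩
  · rintro (i | i)
    · exact (Fence.glue_lt (α := a i) (f := fun _ => 0) hpos).trans (a0 i)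
    · exact (Fence.glue_lt (α := fun k => f i 0 * π k) (f := f i) hpos).trans
        (by simp only [p0, mul_zero])
  have key := Alg.comp (by ext i j; exact F.sym_comm _ _) hA h'
  have q1 : (Matrix.of fun i j => (F.comp P s).sym (F.compBasis a π f i) (F.compBasis a π f j)) =
      fromBlocks (Matrix.of fun i j => F.sym (a i) (a j))
        (vecMulVec (fun i => F.sym (a i) π) fun i => (f i 0 : ℝ))
        (vecMulVec (fun i => (f i 0 : ℝ)) fun i => F.sym (a i) π)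
        ((Matrix.of fun i j => P.sym (f i) (f j)) +
          F.sym π π • vecMulVec (fun i => (f i 0 : ℝ)) fun i => (f i 0 : ℝ)) := by
    ext (i | i) (j | j)
    · exact sym_ll hF hm hb ht i j
    · exact sym_lr hF hm hb ht i (f j)
    · exact ((F.comp P s).sym_comm _ _).trans ((sym_lr hF hm hb ht j (f i)).trans (mul_comm _ _))
    · exact sym_rr hF hm hb ht (f i) (f j)
  have q2 : (fun i => (F.comp P s).sym (F.compBasis a π f i) (F.glue (fun k => ρ 0 * π k) ρ)) =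
      Sum.elim ((ρ 0 : ℝ) • fun i => F.sym (a i) π)
        ((fun i => P.sym (f i) ρ) + (F.sym π π * (ρ 0 : ℝ)) • fun i => (f i 0 : ℝ)) := by
    ext (i | i)
    · exact (sym_lr hF hm hb ht i ρ).trans (mul_comm _ _)
    · refine (sym_rr hF hm hb ht (f i) ρ).trans ?_
      simp only [Sum.elim_inr, Pi.add_apply, Pi.smul_apply, smul_eq_mul]
      ring
  rw [q1, q2, sym_rr hF hm hb ht ρ ρ, ← sq]
  exact key

theorem rs_base : Rs 1 0 0 := by
  refine ⟨Fin 0, inferInstance, inferInstance, PR, ![], fl [0, 1], good_PR, rfl, rfl,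
    fun i => i.elim0, rfl, ?_⟩
  have := alg_empty (Matrix.of fun i j : Fin 0 => PR.sym (![] i) (![] j))
    (fun i : Fin 0 => PR.sym (![] i) (fl [0, 1])) (PR.sym (fl [0, 1]) (fl [0, 1]))
  rwa [show -PR.sym (fl [0, 1]) (fl [0, 1]) = 0 by rw [sym_eq 0 (by decide)]; simp] at this

theorem Rs.cast {Δ r Δ' r' : ℝ} {σ σ' : ℤ} (h : Rs Δ r σ) (h1 : Δ = Δ') (h2 : r = r')
    (h3 : σ = σ') : Rs Δ' r' σ' := by subst h1 h2 h3; exact h

theorem Rs.reset {Δ r : ℝ} {σ : ℤ} (h : Rs Δ r σ) : Rs Δ 0 σ := by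
  have := h.comp good_PR rfl rfl (alg_empty _ _ _)
  rw [sym_eq 0 (by decide)] at this
  simpa [fl] using this

theorem Rs.sub_two {Δ r : ℝ} {σ : ℤ} (h : Rs Δ r σ) : Rs Δ (r - 2) σ := by
  have := h.comp good_PAm rfl rfl (alg_empty _ _ _)
  rw [sym_eq 2 (by decide)] at this
  simpa [fl] using this

theorem Rs.add_two {Δ r : ℝ} {σ : ℤ} (h : Rs Δ r σ) : Rs Δ (r + 2) σ := by
  have := h.comp good_PAp rfl rfl (alg_empty _ _ _)
  rw [sym_eq (-2) (by decide)] at this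
  simpa [fl, add_comm] using this

theorem Rs.quad {Δ r : ℝ} {σ : ℤ} (h : Rs Δ r σ) : Rs Δ (4 * r - 4) σ := by
  have e00 := sym_eq (F := PD) (a := fl [1, -1, 0, 0, 1]) (b := fl [1, -1, 0, 0, 1]) 2 (by decide)
  have e01 := sym_eq (F := PD) (a := fl [1, -1, 0, 0, 1]) (b := fl [0, -1, 1, 0, 1]) 1 (by decide)
  have e10 := sym_eq (F := PD) (a := fl [0, -1, 1, 0, 1]) (b := fl [1, -1, 0, 0, 1]) 1 (by decide)
  have e11 := sym_eq (F := PD) (a := fl [0, -1, 1, 0, 1]) (b := fl [0, -1, 1, 0, 1]) 0 (by decide)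
  have e0 := sym_eq (F := PD) (a := fl [1, -1, 0, 0, 1]) (b := fl [0, 1, 0, -1, 0]) 1 (by decide)
  have e1 := sym_eq (F := PD) (a := fl [0, -1, 1, 0, 1]) (b := fl [0, 1, 0, -1, 0]) 2 (by decide)
  have e := sym_eq (F := PD) (a := fl [0, 1, 0, -1, 0]) (b := fl [0, 1, 0, -1, 0]) 0 (by decide)
  have := h.comp good_PD rfl rfl (alg_of_two (r := 4 * r - 4) (2 - r) 1 0 2 (2 * r - 3)
    (by ext i j; fin_cases i <;> fin_cases j <;> simp [e00, e01, e10, e11, vecMulVec_apply, fl])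
    (diag_hyp _ _ one_ne_zero) (by simp [e0, fl]; ring) (by simp [e1, fl])
    (by simp [e, e0, e1, fl]; ring))
  simpa using this

theorem Rs.bm {Δ r : ℝ} {σ : ℤ} (h : Rs Δ r σ) (hr : 1 - 2 * r ≠ 0) :
    Rs (Δ * |1 - 2 * r|) (r / (1 - 2 * r)) (σ + if 1 - 2 * r < 0 then -2 else 0) := by
  have e00 := sym_eq (F := PBm) (a := fl [-1, 0, 0, 1]) (b := fl [-1, 0, 0, 1]) 0 (by decide)
  have e01 := sym_eq (F := PBm) (a := fl [-1, 0, 0, 1]) (b := fl [0, -1, 1, -1]) 1 (by decide)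
  have e10 := sym_eq (F := PBm) (a := fl [0, -1, 1, -1]) (b := fl [-1, 0, 0, 1]) 1 (by decide)
  have e11 := sym_eq (F := PBm) (a := fl [0, -1, 1, -1]) (b := fl [0, -1, 1, -1]) (-2) (by decide)
  have e0 := sym_eq (F := PBm) (a := fl [-1, 0, 0, 1]) (b := fl [0, 1, 0, 0]) 0 (by decide)
  have e1 := sym_eq (F := PBm) (a := fl [0, -1, 1, -1]) (b := fl [0, 1, 0, 0]) 1 (by decide)
  have e := sym_eq (F := PBm) (a := fl [0, 1, 0, 0]) (b := fl [0, 1, 0, 0]) 0 (by decide)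
  have := h.comp good_PBm rfl rfl (alg_of_two (r := r / (1 - 2 * r)) (-r) 1 (-2)
    (1 / (1 - 2 * r)) (r / (1 - 2 * r))
    (by ext i j; fin_cases i <;> fin_cases j <;> simp [e00, e01, e10, e11, vecMulVec_apply, fl])
    (diag_two (by norm_num)) (by simp [e0, fl]; ring) (by simp [e1, fl]; field_simp; ring)
    (by simp [e, e0, e1, fl]))
  refine this.cast ?_ rfl ?_
  · congr 1; rw [← abs_neg]; congr 1; ring
  · congr 1
    symm
    rw [show (-r * -2 - 1 ^ 2) / -2 = (1 - 2 * r) / 2 by ring, sign_neg (show (-2 : ℝ) < 0 by norm_num)]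
    split_ifs with hlt
    · rw [sign_neg (by linarith)]; rfl
    · rw [sign_pos (by have := lt_of_le_of_ne (not_lt.1 hlt) hr.symm; linarith)]; rfl

theorem Rs.bp {Δ r : ℝ} {σ : ℤ} (h : Rs Δ r σ) (hr : 1 + 2 * r ≠ 0) :
    Rs (Δ * |1 + 2 * r|) (r / (1 + 2 * r)) (σ + if 1 + 2 * r < 0 then 2 else 0) := by
  have e00 := sym_eq (F := PBp) (a := fl [-1, 0, -1, 0, 1]) (b := fl [-1, 0, -1, 0, 1]) 0 (by decide)
  have e01 := sym_eq (F := PBp) (a := fl [-1, 0, -1, 0, 1]) (b := fl [0, -1, 1, 1, -1]) (-1)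
    (by decide)
  have e10 := sym_eq (F := PBp) (a := fl [0, -1, 1, 1, -1]) (b := fl [-1, 0, -1, 0, 1]) (-1)
    (by decide)
  have e11 := sym_eq (F := PBp) (a := fl [0, -1, 1, 1, -1]) (b := fl [0, -1, 1, 1, -1]) 2 (by decide)
  have e0 := sym_eq (F := PBp) (a := fl [-1, 0, -1, 0, 1]) (b := fl [0, -1, 1, 0, 0]) 0 (by decide)
  have e1 := sym_eq (F := PBp) (a := fl [0, -1, 1, 1, -1]) (b := fl [0, -1, 1, 0, 0]) 1 (by decide)
  have e := sym_eq (F := PBp) (a := fl [0, -1, 1, 0, 0]) (b := fl [0, -1, 1, 0, 0]) 2 (by decide)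
  have := (h.comp good_PBp rfl rfl (alg_of_two (r := r / (1 + 2 * r) - 2) (-r) (-1) 2
    (-1 / (1 + 2 * r)) (r / (1 + 2 * r))
    (by ext i j; fin_cases i <;> fin_cases j <;> simp [e00, e01, e10, e11, vecMulVec_apply, fl])
    (diag_two (by norm_num)) (by simp [e0, fl]; ring) (by simp [e1, fl]; field_simp)
    (by simp [e, e0, e1, fl]))).add_two
  refine this.cast ?_ ?_ ?_
  · congr 1; rw [← abs_neg]; congr 1; ring
  · ring
  · congr 1
    symm
    rw [show (-r * 2 - (-1) ^ 2) / 2 = -(1 + 2 * r) / 2 by ring, sign_pos (show (0 : ℝ) < 2 by norm_num)]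
    split_ifs with hlt
    · rw [sign_pos (by linarith)]; rfl
    · rw [sign_neg (by have := lt_of_le_of_ne (not_lt.1 hlt) hr.symm; linarith)]; rfl

theorem Rs.add_eight {Δ r : ℝ} {σ : ℤ} (h : Rs Δ r σ) : Rs Δ 0 (σ + 8) := by
  have h1 : Rs (Δ * 3) (2 / 3) (σ + 2) := (h.reset.sub_two.bp (by norm_num)).cast
    (by norm_num) (by norm_num) (by norm_num)
  have h2 : Rs (Δ * 5) (4 / 5) (σ + 4) := (h1.sub_two.bp (by norm_num)).cast
    (by norm_num [abs_of_neg]; ring) (by norm_num) (by norm_num; ring)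
  have h3 : Rs (Δ * 7) (6 / 7) (σ + 6) := (h2.sub_two.bp (by norm_num)).cast
    (by norm_num [abs_of_neg]; ring) (by norm_num) (by norm_num; ring)
  exact (h3.quad.bp (by norm_num)).reset.cast
    (by norm_num [abs_of_neg]; ring) rfl (by norm_num; ring)

theorem Rs.sub_eight {Δ r : ℝ} {σ : ℤ} (h : Rs Δ r σ) : Rs Δ 0 (σ - 8) := by
  have h1 : Rs (Δ * 3) (-2 / 3) (σ - 2) := (h.reset.add_two.bm (by norm_num)).cast
    (by norm_num) (by norm_num) (by norm_num; ring)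
  have h2 : Rs (Δ * 5) (-4 / 5) (σ - 4) := (h1.add_two.bm (by norm_num)).cast
    (by norm_num [abs_of_neg]; ring) (by norm_num) (by norm_num; ring)
  have h3 : Rs (Δ * 7) (-6 / 7) (σ - 6) := (h2.add_two.bm (by norm_num)).cast
    (by norm_num [abs_of_neg]; ring) (by norm_num) (by norm_num; ring)
  exact (h3.quad.add_two.add_two.add_two.add_two.bm (by norm_num)).reset.cast
    (by norm_num [abs_of_neg]; ring) rfl (by norm_num; ring)

theorem Rs.add_eight_mul {Δ : ℝ} {σ : ℤ} (h : Rs Δ 0 σ) (j : ℤ) : Rs Δ 0 (σ + 8 * j) := by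
  induction j using Int.induction_on with
  | zero => simpa using h
  | succ j ih => exact ih.add_eight.cast rfl rfl (by ring)
  | pred j ih => exact ih.sub_eight.cast rfl rfl (by ring)

theorem chainS {M : ℝ} {σ0 : ℤ} (h0 : Rs M 0 σ0) :
    ∀ (s : ℕ) (N : ℕ) (c : ℤ), N + c.natAbs = s → Odd N → c.gcd N = 1 →
      ∃ σ, Rs (M * N) (2 * c / N) σ ∧ σ % 8 = (σ0 + ff N c) % 8 := by
  intro s
  induction s using Nat.strong_induction_on with
  | _ s ih =>
  intro N c hs hN hg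
  have hN1 := Nat.odd_iff.1 hN
  have hNr : (0 : ℝ) < N := by exact_mod_cast hN.pos
  by_cases hc : c = 0
  · subst hc
    have : N = 1 := by simpa using hg
    subst this
    exact ⟨σ0, by simpa using h0, by simp [ff]⟩
  by_cases hbig : N < 2 * c.natAbs
  · rcases lt_or_gt_of_ne hc with hneg | hpos
    · obtain ⟨σ, h1, h2⟩ := ih _ (by omega) N (c + N) rfl hN (by simpa using hg)
      refine ⟨σ, h1.sub_two.cast rfl (by push_cast; field_simp; ring) rfl, ?_⟩
      rw [h2, ff, ff, jacobiSym.mod_left' (a₁ := c + N) (a₂ := c) (by simp)]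
    · obtain ⟨σ, h1, h2⟩ := ih _ (by omega) N (c - N) rfl hN (by simpa using hg)
      refine ⟨σ, h1.add_two.cast rfl (by push_cast; field_simp; ring) rfl, ?_⟩
      rw [h2, ff, ff, jacobiSym.mod_left' (a₁ := c - N) (a₂ := c) (by simp)]
  have hc' : 0 < c.natAbs := Int.natAbs_pos.2 hc
  have hcop : IsCoprime c (N : ℤ) := Int.isCoprime_iff_gcd_eq_one.2 hg
  by_cases hK : 4 * c.natAbs < N
  · obtain ⟨N', hN'⟩ : ∃ N', N = N' + 4 * c.natAbs := ⟨N - 4 * c.natAbs, by omega⟩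
    have hN'o : Odd N' := Nat.odd_iff.2 (by omega)
    have hN'r : (0 : ℝ) < N' := by exact_mod_cast hN'o.pos
    have hff : ff N c = ff N' c := by
      rw [ff, ff, jacobiSym.mod_right c hN, jacobiSym.mod_right c hN'o, hN', Nat.add_mod_right,
        show (N' + 4 * c.natAbs) % 4 = N' % 4 by omega]
    rcases lt_or_gt_of_ne hc with hneg | hpos
    · have hz : (N : ℤ) = N' - 4 * c := by omega
      have hr : (N : ℝ) = N' - 4 * c := by exact_mod_cast hz
      have hg' : c.gcd N' = 1 := by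
        rw [← Int.isCoprime_iff_gcd_eq_one, show (N' : ℤ) = N + c * 4 by omega]
        exact hcop.add_mul_left_right 4
      obtain ⟨σ, h1, h2⟩ := ih _ (by omega) N' c rfl hN'o hg'
      have e : 1 - 2 * (2 * (c : ℝ) / N') = N / N' := by rw [hr]; field_simp; ring
      have hp : (0 : ℝ) < N / N' := by positivity
      refine ⟨σ, (h1.bm (by rw [e]; exact hp.ne')).cast ?_ ?_ ?_, by rw [h2, hff]⟩
      · rw [e, abs_of_pos hp]; field_simp
      · rw [e]; field_simp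
      · rw [e, if_neg hp.not_gt, add_zero]
    · have hz : (N : ℤ) = N' + 4 * c := by omega
      have hr : (N : ℝ) = N' + 4 * c := by exact_mod_cast hz
      have hg' : c.gcd N' = 1 := by
        rw [← Int.isCoprime_iff_gcd_eq_one, show (N' : ℤ) = N + c * (-4) by omega]
        exact hcop.add_mul_left_right (-4)
      obtain ⟨σ, h1, h2⟩ := ih _ (by omega) N' c rfl hN'o hg'
      have e : 1 + 2 * (2 * (c : ℝ) / N') = N / N' := by rw [hr]; field_simp; ring
      have hp : (0 : ℝ) < N / N' := by positivity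
      refine ⟨σ, (h1.bp (by rw [e]; exact hp.ne')).cast ?_ ?_ ?_, by rw [h2, hff]⟩
      · rw [e, abs_of_pos hp]; field_simp
      · rw [e]; field_simp
      · rw [e, if_neg hp.not_gt, add_zero]
  · obtain ⟨N', hN'⟩ : ∃ N', N + N' = 4 * c.natAbs := ⟨4 * c.natAbs - N, by omega⟩
    have hN'o : Odd N' := Nat.odd_iff.2 (by omega)
    have hN'r : (0 : ℝ) < N' := by exact_mod_cast hN'o.pos
    have hj := jac_neg_mod hc hN hN'
    have hj2 := jacobiSym.neg c hN'o
    have hj3 := jacobiSym.eq_one_or_neg_one hg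
    have hp : -(N / N' : ℝ) < 0 := by rw [neg_lt_zero]; positivity
    have h4 : (N % 4 = 1 ∧ N' % 4 = 3) ∨ (N % 4 = 3 ∧ N' % 4 = 1) := by omega
    rcases lt_or_gt_of_ne hc with hneg | hpos
    · have hz : (N : ℤ) = -N' - 4 * c := by omega
      have hr : (N : ℝ) = -N' - 4 * c := by exact_mod_cast hz
      have hg' : (-c).gcd N' = 1 := by
        rw [← Int.isCoprime_iff_gcd_eq_one, show (N' : ℤ) = -(N + c * 4) by omega]
        exact (hcop.add_mul_left_right 4).neg_left.neg_right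
      obtain ⟨σ, h1, h2⟩ := ih _ (by omega) N' (-c) rfl hN'o hg'
      have e : 1 - 2 * (2 * ((-c : ℤ) : ℝ) / N') = -(N / N') := by
        rw [hr]; push_cast; field_simp; ring
      refine ⟨σ - 2, (h1.bm (by rw [e]; exact hp.ne)).cast ?_ ?_ ?_, ?_⟩
      · rw [e, abs_of_neg hp]; field_simp
      · rw [e]; push_cast; field_simp
      · rw [e, if_pos hp]; ring
      · rw [Int.sign_eq_neg_one_of_neg hneg] at hj
        rw [ff, hj2, hj] at h2
        rw [ff]
        rcases h4 with ⟨a1, a2⟩ | ⟨a1, a2⟩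
        · rw [ZMod.χ₄_nat_three_mod_four a2] at h2
          rcases hj3 with b | b <;> simp [a1, a2, b] at h2 ⊢ <;> omega
        · rw [ZMod.χ₄_nat_one_mod_four a2] at h2
          rcases hj3 with b | b <;> simp [a1, a2, b] at h2 ⊢ <;> omega
    · have hz : (N : ℤ) = -N' + 4 * c := by omega
      have hr : (N : ℝ) = -N' + 4 * c := by exact_mod_cast hz
      have hg' : (-c).gcd N' = 1 := by
        rw [← Int.isCoprime_iff_gcd_eq_one, show (N' : ℤ) = -(N + c * (-4)) by omega]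
        exact (hcop.add_mul_left_right (-4)).neg_left.neg_right
      obtain ⟨σ, h1, h2⟩ := ih _ (by omega) N' (-c) rfl hN'o hg'
      have e : 1 + 2 * (2 * ((-c : ℤ) : ℝ) / N') = -(N / N') := by
        rw [hr]; push_cast; field_simp; ring
      refine ⟨σ + 2, (h1.bp (by rw [e]; exact hp.ne)).cast ?_ ?_ ?_, ?_⟩
      · rw [e, abs_of_neg hp]; field_simp
      · rw [e]; push_cast; field_simp
      · rw [e, if_pos hp]
      · rw [Int.sign_eq_one_of_pos hpos] at hj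
        rw [ff, hj2, hj] at h2
        rw [ff]
        rcases h4 with ⟨a1, a2⟩ | ⟨a1, a2⟩
        · rw [ZMod.χ₄_nat_three_mod_four a2] at h2
          rcases hj3 with b | b <;> simp [a1, a2, b] at h2 ⊢ <;> omega
        · rw [ZMod.χ₄_nat_one_mod_four a2] at h2
          rcases hj3 with b | b <;> simp [a1, a2, b] at h2 ⊢ <;> omega

end Pool.Agent.P.MP_06cdda_gt.Pr
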