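import Pool.Agent.P.MP_06cdda_gt.Algebra

open Matrix

namespace Pool.Agent.P.MP_06cdda_gt.Pr

/-- The cokernel of `G` is `A`. -/
def Cok {ι : Type} [Fintype ι] (G : Matrix ι ι ℤ) (A : Type) [AddCommGroup A] : Prop :=
  ∃ φ : (ι → ℤ) →+ A, Function.Surjective φ ∧ ∀ x, φ x = 0 ↔ ∃ y, G *ᵥ y = x

theorem Cok.equiv {ι : Type} [Fintype ι] {G : Matrix ι ι ℤ} {A B : Type} [AddCommGroup A]
    [AddCommGroup B] (h : Cok G A) (e : A ≃+ B) : Cok G B := by
  obtain ⟨φ, h1, h2⟩ := h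
  refine ⟨e.toAddMonoidHom.comp φ, e.surjective.comp h1, fun x => ?_⟩
  rw [← h2]
  simp

theorem cok_quot {ι : Type} [Fintype ι] (G : Matrix ι ι ℤ) :
    Cok G ((ι → ℤ) ⧸ LinearMap.range G.mulVecLin) := by
  refine ⟨(LinearMap.range G.mulVecLin).mkQ.toAddMonoidHom,
    (LinearMap.range G.mulVecLin).mkQ_surjective, fun x => ?_⟩
  change (LinearMap.range G.mulVecLin).mkQ x = 0 ↔ _
  rw [Submodule.mkQ_apply, Submodule.Quotient.mk_eq_zero, LinearMap.mem_range]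
  rfl

theorem Cok.quot {ι : Type} [Fintype ι] {G : Matrix ι ι ℤ} {A : Type} [AddCommGroup A]
    (h : Cok G A) : Nonempty (((ι → ℤ) ⧸ LinearMap.range G.mulVecLin) ≃+ A) := by
  obtain ⟨φ, h1, h2⟩ := h
  have hk : LinearMap.range G.mulVecLin = LinearMap.ker φ.toIntLinearMap := by
    ext x
    rw [LinearMap.mem_range, LinearMap.mem_ker]
    exact (h2 x).symm
  exact ⟨((Submodule.quotEquivOfEq _ _ hk).trans
    (LinearMap.quotKerEquivOfSurjective φ.toIntLinearMap h1)).toAddEquiv⟩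

theorem Cok.reindex {ι κ : Type} [Fintype ι] [Fintype κ] {G : Matrix ι ι ℤ} {A : Type}
    [AddCommGroup A] (h : Cok G A) (e : κ ≃ ι) : Cok (G.submatrix e e) A := by
  obtain ⟨φ, h1, h2⟩ := h
  refine ⟨φ.comp ⟨⟨fun x => x ∘ e.symm, rfl⟩, fun _ _ => rfl⟩, fun b => ?_, fun x => ?_⟩
  · obtain ⟨x, rfl⟩ := h1 b
    refine ⟨x ∘ e, ?_⟩
    change φ ((x ∘ e) ∘ e.symm) = φ x
    congr 1
    ext i
    simp
  · change φ (x ∘ e.symm) = 0 ↔ _
    rw [h2]
    constructor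
    · rintro ⟨y, hy⟩
      refine ⟨y ∘ e, ?_⟩
      rw [submatrix_mulVec_equiv]
      have : (y ∘ e) ∘ e.symm = y := by ext i; simp
      rw [this, hy]
      ext i
      simp
    · rintro ⟨y, hy⟩
      refine ⟨y ∘ e.symm, ?_⟩
      rw [← hy, submatrix_mulVec_equiv]
      ext i
      simp

theorem Cok.prod {ι κ : Type} [Fintype ι] [Fintype κ] {G : Matrix ι ι ℤ} {L : Matrix κ κ ℤ}
    {A B : Type} [AddCommGroup A] [AddCommGroup B] (h : Cok G A) (h' : Cok L B) :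
    Cok (fromBlocks G 0 0 L) (A × B) := by
  obtain ⟨φ, h1, h2⟩ := h
  obtain ⟨ψ, k1, k2⟩ := h'
  refine ⟨(φ.comp ⟨⟨fun x => x ∘ Sum.inl, rfl⟩, fun _ _ => rfl⟩).prod
    (ψ.comp ⟨⟨fun x => x ∘ Sum.inr, rfl⟩, fun _ _ => rfl⟩), ?_, fun x => ?_⟩
  · rintro ⟨a, b⟩
    obtain ⟨x, rfl⟩ := h1 a
    obtain ⟨y, rfl⟩ := k1 b
    exact ⟨Sum.elim x y, rfl⟩
  · change (φ (x ∘ Sum.inl), ψ (x ∘ Sum.inr)) = 0 ↔ _
    rw [Prod.mk_eq_zero, h2, k2]
    constructor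
    · rintro ⟨⟨y, hy⟩, z, hz⟩
      refine ⟨Sum.elim y z, ?_⟩
      rw [fromBlocks_mulVec]
      simp only [Sum.elim_comp_inl, Sum.elim_comp_inr, zero_mulVec, add_zero, zero_add, hy, hz]
      ext (i | i) <;> rfl
    · rintro ⟨y, rfl⟩
      rw [fromBlocks_mulVec]
      simp only [Sum.elim_comp_inl, Sum.elim_comp_inr, zero_mulVec, add_zero, zero_add]
      exact ⟨⟨_, rfl⟩, _, rfl⟩

theorem card_quot {ι : Type} [Fintype ι] [DecidableEq ι] (G : Matrix ι ι ℤ) (h : G.det ≠ 0) :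
    Nat.card ((ι → ℤ) ⧸ LinearMap.range G.mulVecLin) = G.det.natAbs := by
  have hi : Function.Injective G.mulVecLin := by
    rw [← LinearMap.ker_eq_bot, LinearMap.ker_eq_bot']
    exact fun x hx => eq_zero_of_mulVec_eq_zero h hx
  rw [← Submodule.natAbs_det_equiv _ (LinearEquiv.ofInjective G.mulVecLin hi),
    ← LinearMap.det_toLin' G]
  congr 2

theorem cok_cyclic {ι : Type} [Fintype ι] [DecidableEq ι] {G : Matrix ι ι ℤ} (hG : Gᵀ = G)
    {N : ℕ} (hN : Odd N) (hd : G.det.natAbs = N) {w : ι → ℤ} {y : ι → ℝ} {g0 c : ℤ}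
    (hc : c.gcd N = 1) (hy : G.map ((↑) : ℤ → ℝ) *ᵥ y = fun i => (w i : ℝ))
    (hr : 2 * (c : ℝ) / N = (fun i => (w i : ℝ)) ⬝ᵥ y - g0) : Cok G (ZMod N) := by
  have hpos := hN.pos
  have hdet : G.det ≠ 0 := by
    intro h0
    rw [h0] at hd
    simp at hd
    omega
  have hcard := (card_quot G hdet).trans hd
  have : Finite ((ι → ℤ) ⧸ LinearMap.range G.mulVecLin) :=
    Nat.finite_of_card_ne_zero (by omega)
  set u : (ι → ℤ) ⧸ LinearMap.range G.mulVecLin := Submodule.Quotient.mk w with hu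
  have hord : addOrderOf u = N := by
    refine Nat.dvd_antisymm (hcard ▸ addOrderOf_dvd_natCard u) ?_
    have h0 := addOrderOf_nsmul_eq_zero u
    generalize addOrderOf u = t at h0
    have h1 : (t : ℤ) • w ∈ LinearMap.range G.mulVecLin := by
      rw [← Submodule.Quotient.mk_eq_zero, Submodule.Quotient.mk_smul, natCast_zsmul]
      exact h0
    obtain ⟨z, hz⟩ := h1
    have hz' : G.map ((↑) : ℤ → ℝ) *ᵥ (fun i => (z i : ℝ)) = fun i => (t : ℝ) * (w i : ℝ) := by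
      ext i
      have := congrFun hz i
      simp only [mulVecLin_apply, mulVec, dotProduct, Pi.smul_apply, smul_eq_mul] at this
      simp only [mulVec, dotProduct, map_apply]
      exact_mod_cast this
    have hsym : (G.map ((↑) : ℤ → ℝ))ᵀ = G.map ((↑) : ℤ → ℝ) := by
      rw [← transpose_map, hG]
    have h2 : (t : ℝ) * ((fun i => (w i : ℝ)) ⬝ᵥ y) = ((z ⬝ᵥ w : ℤ) : ℝ) := by
      have a1 : (t : ℝ) * ((fun i => (w i : ℝ)) ⬝ᵥ y) =
          (G.map ((↑) : ℤ → ℝ) *ᵥ (fun i => (z i : ℝ))) ⬝ᵥ y := by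
        rw [hz']
        simp only [dotProduct, Finset.mul_sum, mul_assoc]
      rw [a1, ← vecMul_transpose, ← dotProduct_mulVec, hsym, hy]
      simp [dotProduct]
    have hNr : (N : ℝ) ≠ 0 := by exact_mod_cast hpos.ne'
    have h3 : (t : ℝ) * (2 * c) = N * ((z ⬝ᵥ w : ℤ) - t * g0) := by
      rw [← h2, ← mul_sub, ← hr]
      field_simp
    have h4 : (t : ℤ) * (2 * c) = N * (z ⬝ᵥ w - t * g0) := by exact_mod_cast h3
    have h5 : IsCoprime (N : ℤ) (2 * c) := by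
      refine IsCoprime.mul_right ?_ (Int.isCoprime_iff_gcd_eq_one.2 hc).symm
      obtain ⟨k, hk⟩ := hN
      exact ⟨1, -k, by rw [hk]; push_cast; ring⟩
    exact Int.natCast_dvd_natCast.1 (h5.dvd_of_dvd_mul_right ⟨_, h4⟩)
  have hcyc : IsAddCyclic ((ι → ℤ) ⧸ LinearMap.range G.mulVecLin) :=
    isAddCyclic_of_addOrderOf_eq_card u (hord.trans hcard.symm)
  have e := zmodAddCyclicAddEquiv hcyc
  rw [hcard] at e
  exact (cok_quot G).equiv e.symm

theorem cok_unit {ι : Type} [Fintype ι] [DecidableEq ι] {G : Matrix ι ι ℤ}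
    (hd : G.det.natAbs = 1) : Cok G (ZMod 1) := by
  refine ⟨0, fun b => ⟨0, Subsingleton.elim _ _⟩, fun x => ⟨fun _ => ?_, fun _ => rfl⟩⟩
  have hu : IsUnit G.det := Int.isUnit_iff_natAbs_eq.2 hd
  exact ⟨G⁻¹ *ᵥ x, by rw [mulVec_mulVec, mul_nonsing_inv _ hu, one_mulVec]⟩

theorem diag_block {ι κ : Type} [Fintype ι] [DecidableEq ι] [Fintype κ] [DecidableEq κ]
    {G : Matrix ι ι ℝ} {L : Matrix κ κ ℝ} {Δ Δ' : ℝ} {σ σ' : ℤ} (h : Diag G Δ σ)
    (h' : Diag L Δ' σ') : Diag (fromBlocks G 0 0 L) (Δ * Δ') (σ + σ') := by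
  obtain ⟨P, d, h1, h2, h3, h4⟩ := h
  obtain ⟨Q, d', h1', h2', h3', h4'⟩ := h'
  refine ⟨fromBlocks P 0 0 Q, Sum.elim d d', ?_, ?_, ?_, ?_⟩
  · rw [det_fromBlocks_zero₂₁, h1, h1', one_mul]
  · rw [fromBlocks_transpose, fromBlocks_multiply, fromBlocks_multiply]
    simp only [transpose_zero, Matrix.zero_mul, Matrix.mul_zero, add_zero, zero_add, h2, h2',
      fromBlocks_diagonal]
  · rw [Fintype.prod_sum_type, abs_mul]
    simp only [Sum.elim_inl, Sum.elim_inr, h3, h3']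
  · rw [Fintype.sum_sum_type]
    simp only [Sum.elim_inl, Sum.elim_inr, h4, h4']

end Pool.Agent.P.MP_06cdda_gt.Pr
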