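import Pool.Agent.P.MP_06cdda_gt.PrSA
import Pool.Agent.P.MP_06cdda_gt.PrSB

open Finset Matrix

namespace Pool.Agent.P.MP_06cdda_gt.Pr

/-- The integral symmetrised form on a family of cycles. -/
def gram {ι : Type} (F : Fence) (a : ι → ℕ → ℤ) : Matrix ι ι ℤ :=
  Matrix.of fun i j => F.form (a i) (a j) + F.form (a j) (a i)

theorem gram_map {ι : Type} (F : Fence) (a : ι → ℕ → ℤ) :
    (gram F a).map ((↑) : ℤ → ℝ) = Matrix.of fun i j => F.sym (a i) (a j) := rfl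

theorem gram_symm {ι : Type} (F : Fence) (a : ι → ℕ → ℤ) : (gram F a)ᵀ = gram F a := by
  ext i j
  exact add_comm _ _

/-- A block with cokernel `A` and signature `σ`. -/
def Blk (A : Type) [AddCommGroup A] (σ : ℤ) : Prop :=
  ∃ (ι : Type) (_ : Fintype ι) (_ : DecidableEq ι) (F : Fence) (a : ι → ℕ → ℤ) (π : ℕ → ℤ),
    F.Good a π ∧ F.bot 0 = 0 ∧ F.top 0 = 1 ∧ (∀ i, a i 0 = 0) ∧ Cok (gram F a) A ∧
    ∃ Δ, Diag ((gram F a).map ((↑) : ℤ → ℝ)) Δ σ

theorem Blk.equiv {A B : Type} [AddCommGroup A] [AddCommGroup B] {σ : ℤ} (h : Blk A σ)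
    (e : A ≃+ B) : Blk B σ := by
  obtain ⟨ι, i1, i2, F, a, π, h1, h2, h3, h4, h5, h6⟩ := h
  exact ⟨ι, i1, i2, F, a, π, h1, h2, h3, h4, h5.equiv e, h6⟩

theorem Blk.prod {A B : Type} [AddCommGroup A] [AddCommGroup B] {σ σ' : ℤ} (h : Blk A σ)
    (h' : Blk B σ') : Blk (A × B) (σ + σ') := by
  obtain ⟨ι, _, _, F, a, π, hF, b0, t0, a0, hA, Δ, hD⟩ := h
  obtain ⟨κ, _, _, P, f, ρ, hP, hb, ht, f0, hB, Δ', hD'⟩ := h'
  obtain ⟨s, hm⟩ : ∃ s, P.m = s + 1 := ⟨P.m - 1, by have := hP.1.1; omega⟩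
  have hpos : 0 < F.m := hF.1.1
  have q : (gram (F.comp P s) (F.compBasis a π f)).map ((↑) : ℤ → ℝ) =
      fromBlocks ((gram F a).map ((↑) : ℤ → ℝ)) 0 0 ((gram P f).map ((↑) : ℤ → ℝ)) := by
    rw [gram_map, gram_map, gram_map]
    ext (i | i) (j | j)
    · exact sym_ll hF hm hb ht i j
    · exact (sym_lr hF hm hb ht i (f j)).trans (by simp [f0])
    · exact ((F.comp P s).sym_comm _ _).trans ((sym_lr hF hm hb ht j (f i)).trans (by simp [f0]))
    · exact (sym_rr hF hm hb ht (f i) (f j)).trans (by simp [f0])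
  have q' : gram (F.comp P s) (F.compBasis a π f) = fromBlocks (gram F a) 0 0 (gram P f) := by
    refine Matrix.map_injective (f := ((↑) : ℤ → ℝ)) Int.cast_injective ?_
    change Matrix.map _ _ = Matrix.map _ _
    rw [q, fromBlocks_map]
    simp
  refine ⟨ι ⊕ κ, inferInstance, inferInstance, F.comp P s, F.compBasis a π f, _,
    Fence.good_comp hF hP hm hb ht, by rw [Fence.comp_bot_lt hpos, b0],
    by rw [Fence.comp_top_lt hpos, t0], ?_, by rw [q']; exact hA.prod hB, Δ * Δ',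
    by rw [q]; exact diag_block hD hD'⟩
  rintro (i | i)
  · exact (Fence.glue_lt (α := a i) (f := fun _ => 0) hpos).trans (a0 i)
  · exact (Fence.glue_lt (α := fun k => f i 0 * π k) (f := f i) hpos).trans
      (by simp only [f0, zero_mul])

theorem natAbs_of_diag {ι : Type} [Fintype ι] [DecidableEq ι] {G : Matrix ι ι ℤ} {N : ℕ} {σ : ℤ}
    (h : Diag (G.map ((↑) : ℤ → ℝ)) N σ) : G.det.natAbs = N := by
  have h1 := h.abs_det
  rw [← Int.cast_det] at h1
  have h2 : |G.det| = (N : ℤ) := by exact_mod_cast h1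
  rw [Int.abs_eq_natAbs] at h2
  exact_mod_cast h2

theorem blk_cyclic {N : ℕ} (hN : Odd N) {c : ℤ} (hc : c.gcd N = 1) :
    ∃ σ, Blk (ZMod N) σ ∧ σ % 8 = ff N c % 8 := by
  obtain ⟨σ, ⟨ι, i1, i2, F, a, π, hF, b0, t0, a0, -, hD, y, hy, hr⟩, h2⟩ :=
    chainS rs_base _ N c rfl hN hc
  rw [one_mul] at hD
  refine ⟨σ, ⟨ι, i1, i2, F, a, π, hF, b0, t0, a0, ?_, N, hD⟩, by rwa [zero_add] at h2⟩
  exact cok_cyclic (gram_symm F a) hN (natAbs_of_diag hD)
    (w := fun i => F.form (a i) π + F.form π (a i)) (g0 := F.form π π + F.form π π) hc hy hr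

theorem blk_eight (j : ℤ) : Blk (ZMod 1) (8 * j) := by
  obtain ⟨ι, i1, i2, F, a, π, hF, b0, t0, a0, -, hD, -⟩ := rs_base.add_eight_mul j
  rw [zero_add] at hD
  refine ⟨ι, i1, i2, F, a, π, hF, b0, t0, a0, cok_unit (natAbs_of_diag (σ := 8 * j) ?_), 1, hD⟩
  rw [Nat.cast_one]
  exact hD

theorem Blk.shift {A : Type} [AddCommGroup A] {σ s : ℤ} (h : Blk A σ) (hs : s % 8 = σ % 8) :
    Blk A s := by
  have : Unique (ZMod 1) := inferInstanceAs (Unique (Fin 1))
  have h1 := (h.prod (blk_eight ((s - σ) / 8))).equiv AddEquiv.prodUnique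
  rwa [show σ + 8 * ((s - σ) / 8) = s by omega] at h1

theorem blk_pi : ∀ (k : ℕ) (N : Fin k → ℕ) (c : Fin k → ℤ), (∀ i, Odd (N i)) →
    (∀ i, (c i).gcd (N i) = 1) → Blk ((i : Fin k) → ZMod (N i)) (∑ i, ff (N i) (c i)) := by
  intro k
  induction k with
  | zero =>
    intro N c _ _
    have : Unique (ZMod 1) := inferInstanceAs (Unique (Fin 1))
    exact ((blk_eight 0).equiv AddEquiv.ofUnique).shift (by simp)
  | succ k ih =>
    intro N c hN hc
    obtain ⟨σ, h1, h2⟩ := blk_cyclic (hN 0) (hc 0)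
    have h3 := ih (fun i => N i.succ) (fun i => c i.succ) (fun i => hN _) (fun i => hc _)
    rw [Fin.sum_univ_succ]
    exact ((h1.shift h2.symm).prod h3).equiv
      (Fin.consLinearEquiv ℤ fun i : Fin (k + 1) => ZMod (N i)).toAddEquiv

theorem ff_one (N : ℕ) : ff N 1 = if N % 4 = 1 then 0 else 2 := by
  simp [ff]

theorem sum_ff : ∀ (k : ℕ) (N : Fin k → ℕ), (∀ i, Odd (N i)) →
    (∏ i, N i) % 2 = 1 ∧ (∑ i, ff (N i) 1) % 4 = (((∏ i, N i : ℕ) : ℤ) - 1) % 4 := by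
  intro k
  induction k with
  | zero => intro N _; simp
  | succ k ih =>
    intro N hN
    obtain ⟨h1, h2⟩ := ih (fun i => N i.succ) (fun i => hN _)
    have h0 := Nat.odd_iff.1 (hN 0)
    rw [Fin.sum_univ_succ, Fin.prod_univ_succ, ff_one]
    generalize (∏ i : Fin k, N i.succ) = M at h1 h2
    generalize (∑ i : Fin k, ff (N i.succ) 1) = S at h2
    have a1 : N 0 % 4 = 1 ∨ N 0 % 4 = 3 := by omega
    have a2 : M % 4 = 1 ∨ M % 4 = 3 := by omega
    have a3 := Nat.mul_mod (N 0) M 4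
    generalize N 0 * M = Q at a3
    rcases a1 with a1 | a1 <;> rcases a2 with a2 | a2 <;> rw [a1, a2] at a3 <;>
      simp only [a1, if_true, Nat.reduceEqDiff, if_false] <;> omega

theorem blk_all (A : Type) [AddCommGroup A] [Finite A] (hA : Odd (Nat.card A)) (s : ℤ)
    (h4 : s % 4 = ((Nat.card A : ℤ) - 1) % 4)
    (h8 : (∃ (k : ℕ) (m : Fin k → ℕ), Nonempty (A ≃+ ((i : Fin k) → ZMod (m i ^ 2)))) → 8 ∣ s) :
    Blk A s := by
  obtain ⟨ι, _, p, hp, e, ⟨f⟩⟩ := AddCommGroup.equiv_directSum_zmod_of_finite A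
  classical
  let r := (Fintype.equivFin ι).symm
  set k := Fintype.card ι
  let N : Fin k → ℕ := fun i => p (r i) ^ e (r i)
  have g : A ≃+ ((i : Fin k) → ZMod (N i)) :=
    f.trans ((DirectSum.linearEquivFunOnFintype ℤ ι fun i => ZMod (p i ^ e i)).trans
      (LinearEquiv.piCongrLeft ℤ (fun i => ZMod (p i ^ e i)) r).symm).toAddEquiv
  have hcard : Nat.card A = ∏ i, N i := by
    rw [Nat.card_congr g.toEquiv, Nat.card_pi]
    simp only [Nat.card_zmod]
  have hN : ∀ i, Odd (N i) := fun i =>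
    hA.of_dvd_nat (hcard ▸ Finset.dvd_prod_of_mem N (Finset.mem_univ i))
  have hS := (sum_ff k N hN).2
  rw [← hcard, ← h4] at hS
  have b1 := (blk_pi k N (fun _ => 1) hN (fun _ => by simp)).equiv g.symm
  by_cases hev : ∀ i, Even (e (r i))
  · have hm : ∀ i, N i = (p (r i) ^ (e (r i) / 2)) ^ 2 := fun i => by
      obtain ⟨t, ht⟩ := hev i
      rw [← pow_mul, show e (r i) / 2 * 2 = e (r i) by omega]
    have h9 := h8 ⟨k, fun i => p (r i) ^ (e (r i) / 2),
      ⟨g.trans (AddEquiv.piCongrRight fun i => (ZMod.ringEquivCongr (hm i)).toAddEquiv)⟩⟩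
    have h0 : ∑ i, ff (N i) 1 = 0 := Finset.sum_eq_zero fun i _ => by
      have h1 := hN i
      rw [ff_one, if_pos]
      rw [hm i] at h1 ⊢
      generalize p (r i) ^ (e (r i) / 2) = x at h1
      obtain ⟨t, rfl⟩ := (Nat.odd_pow_iff two_ne_zero).1 h1
      rw [show (2 * t + 1) ^ 2 = 4 * (t ^ 2 + t) + 1 by ring]
      omega
    rw [h0] at b1
    exact b1.shift (by omega)
  · push Not at hev
    obtain ⟨i0, h0⟩ := hev
    have ho : Odd (e (r i0)) := Nat.not_even_iff_odd.1 h0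
    have := Fact.mk (hp (r i0))
    have hpo : Odd (p (r i0)) := (Nat.odd_pow_iff ho.pos.ne').1 (hN i0)
    obtain ⟨a, ha⟩ := FiniteField.exists_nonsquare (F := ZMod (p (r i0))) (by
      rw [ZMod.ringChar_zmod_n]
      have := Nat.odd_iff.1 hpo
      omega)
    have hj : jacobiSym (a.val : ℤ) (p (r i0)) = -1 := by
      rw [← jacobiSym.legendreSym.to_jacobiSym, legendreSym.eq_neg_one_iff]
      simpa using ha
    have hj' : jacobiSym (a.val : ℤ) (N i0) = -1 := by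
      change jacobiSym _ (p (r i0) ^ e (r i0)) = -1
      rw [jacobiSym.pow_right, hj, ho.neg_one_pow]
    have hg : (a.val : ℤ).gcd (N i0) = 1 := by
      have : NeZero (N i0) := ⟨(hN i0).pos.ne'⟩
      by_contra hne
      rw [jacobiSym.eq_zero_iff_not_coprime.2 hne] at hj'
      simp at hj'
    have b2 := (blk_pi k N (fun i => if i = i0 then (a.val : ℤ) else 1) hN (fun i => by
      split_ifs with h
      · rw [h]; exact hg
      · simp)).equiv g.symm
    have hsum : ∑ i, ff (N i) (if i = i0 then (a.val : ℤ) else 1) = ∑ i, ff (N i) 1 + 4 := by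
      have : ∀ i, ff (N i) (if i = i0 then (a.val : ℤ) else 1) =
          ff (N i) 1 + if i = i0 then 4 else 0 := fun i => by
        split_ifs with h
        · rw [h, ff, ff, hj']; simp
        · simp
      simp only [this, Finset.sum_add_distrib, Finset.sum_ite_eq', Finset.mem_univ, if_true]
    rw [hsum] at b2
    by_cases hc : s % 8 = (∑ i, ff (N i) 1) % 8
    · exact b1.shift hc
    · exact b2.shift (by omega)

theorem exists_knot (A : Type) [AddCommGroup A] [Finite A] (hA : Odd (Nat.card A)) (s : ℤ)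
    (h4 : s % 4 = ((Nat.card A : ℤ) - 1) % 4)
    (h8 : (∃ (k : ℕ) (m : Fin k → ℕ), Nonempty (A ≃+ ((i : Fin k) → ZMod (m i ^ 2)))) → 8 ∣ s) :
    ∃ (m : ℕ) (q : ZMod m → Fin 3 → ℝ), IsKnot q ∧
      ∃ (g : ℕ) (V : Matrix (Fin g) (Fin g) ℤ), IsSeifertMatrix q V ∧
        Nonempty (((Fin g → ℤ) ⧸ LinearMap.range (V + Vᵀ).mulVecLin) ≃+ A) ∧
        (sigPos ((V + Vᵀ).map ((↑) : ℤ → ℝ)).toQuadraticForm' : ℤ) -
          sigNeg ((V + Vᵀ).map ((↑) : ℤ → ℝ)).toQuadraticForm' = s := by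
  obtain ⟨ι, _, _, F, a, π, hF, -, -, -, hC, Δ, hD⟩ := blk_all A hA s h4 h8
  let e := (Fintype.equivFin ι).symm
  obtain ⟨m, q, hq, hS⟩ := realize hF.1 hF.2.1 (basis_reindex hF.2.2.1 e)
  refine ⟨m, q, hq, _, _, hS, ?_⟩
  have hG : (Matrix.of fun i j => F.form (a (e i)) (a (e j))) +
      (Matrix.of fun i j => F.form (a (e i)) (a (e j)))ᵀ = (gram F a).submatrix e e := rfl
  rw [hG]
  exact ⟨(hC.reindex e).quot, (hD.reindex e).signature⟩

end Pool.Agent.P.MP_06cdda_gt.Pr
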