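import Pool.Agent.P.MP_06cdda_gt.PrSB
import Pool.Agent.P.MP_06cdda_gt.Defs

open Matrix

namespace Pool.Agent.P.MP_06cdda_gt.Pr

theorem det_ne_zero_of_finite {ι : Type} [Fintype ι] [DecidableEq ι] (G : Matrix ι ι ℤ)
    [Finite ((ι → ℤ) ⧸ LinearMap.range G.mulVecLin)] : G.det ≠ 0 := by
  intro h0
  obtain ⟨v, hv, hG⟩ := exists_vecMul_eq_zero_iff.2 h0
  have h1 := card_nsmul_eq_zero' (x := (Submodule.Quotient.mk v :
    (ι → ℤ) ⧸ LinearMap.range G.mulVecLin))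
  have hpos : 0 < Nat.card ((ι → ℤ) ⧸ LinearMap.range G.mulVecLin) := Nat.card_pos
  generalize Nat.card ((ι → ℤ) ⧸ LinearMap.range G.mulVecLin) = t at h1 hpos
  have h2 : (t : ℤ) • v ∈ LinearMap.range G.mulVecLin := by
    rw [← Submodule.Quotient.mk_eq_zero, Submodule.Quotient.mk_smul, natCast_zsmul]
    exact h1
  obtain ⟨z, hz⟩ := h2
  have h3 : v ⬝ᵥ ((t : ℤ) • v) = 0 := by
    rw [← hz, mulVecLin_apply, dotProduct_mulVec, hG, zero_dotProduct]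
  rw [dotProduct_smul, smul_eq_mul, mul_eq_zero, dotProduct_self_eq_zero] at h3
  rcases h3 with h3 | h3
  · omega
  · exact hv h3

theorem det_of_quot {ι : Type} [Fintype ι] [DecidableEq ι] {G : Matrix ι ι ℤ} {A : Type}
    [AddCommGroup A] [Finite A]
    (h : Nonempty (((ι → ℤ) ⧸ LinearMap.range G.mulVecLin) ≃+ A)) :
    G.det ≠ 0 ∧ G.det.natAbs = Nat.card A := by
  obtain ⟨e⟩ := h
  have : Finite ((ι → ℤ) ⧸ LinearMap.range G.mulVecLin) := Finite.of_equiv _ e.toEquiv.symm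
  have h0 := det_ne_zero_of_finite G
  exact ⟨h0, (card_quot G h0).symm.trans (Nat.card_congr e.toEquiv)⟩

theorem zmod_sq_div {p : ℕ} (hp : p.Prime) (m : ℕ) (x : ZMod (m ^ 2)) (hx : p • x = 0) :
    ∃ y, x = p • y := by
  obtain ⟨k, rfl⟩ := ZMod.intCast_surjective x
  have h1 : ((m ^ 2 : ℕ) : ℤ) ∣ p * k := by
    rw [← ZMod.intCast_zmod_eq_zero_iff_dvd]
    push_cast
    rw [← nsmul_eq_mul]
    exact hx
  by_cases hd : p ∣ m
  · have h2 : (p : ℤ) * p ∣ p * k := by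
      refine Dvd.dvd.trans ?_ h1
      rw [sq]
      exact_mod_cast mul_dvd_mul hd hd
    obtain ⟨j, rfl⟩ := (mul_dvd_mul_iff_left (by exact_mod_cast hp.ne_zero)).1 h2
    exact ⟨(j : ZMod (m ^ 2)), by push_cast; rw [nsmul_eq_mul]⟩
  · have h2 : IsCoprime ((m ^ 2 : ℕ) : ℤ) (p : ℤ) :=
      Nat.isCoprime_iff_coprime.2 (((Nat.Prime.coprime_iff_not_dvd hp).2 hd).symm.pow_left 2)
    refine ⟨0, ?_⟩
    rw [smul_zero, ZMod.intCast_zmod_eq_zero_iff_dvd]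
    exact h2.dvd_of_dvd_mul_left h1

theorem not_sq_prod {p : ℕ} (hp : p.Prime) (B : Type) [AddCommGroup B] :
    ¬ ∃ (k : ℕ) (m : Fin k → ℕ), Nonempty ((ZMod p × B) ≃+ ((i : Fin k) → ZMod (m i ^ 2))) := by
  rintro ⟨k, m, ⟨e⟩⟩
  have := Fact.mk hp
  have h1 : p • e (1, 0) = 0 := by
    rw [← map_nsmul, ← e.map_zero]
    congr 1
    ext <;> simp
  choose y hy using fun i => zmod_sq_div hp (m i) (e (1, 0) i) (congrFun h1 i)
  have h2 : e (1, 0) = p • y := funext hy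
  have h3 : ((1, 0) : ZMod p × B) = p • e.symm y := by
    rw [← map_nsmul, ← h2, e.symm_apply_apply]
  have h4 := congrArg Prod.fst h3
  simp at h4

theorem formD
    (hH : ∀ (A : Type) [AddCommGroup A] [Finite A], Odd (Nat.card A) → ∀ s : ℤ,
      (∃ (m : ℕ) (q : ZMod m → Fin 3 → ℝ), IsKnot q ∧
        ∃ (g : ℕ) (V : Matrix (Fin g) (Fin g) ℤ), IsSeifertMatrix q V ∧
          Nonempty (((Fin g → ℤ) ⧸ LinearMap.range (V + Vᵀ).mulVecLin) ≃+ A) ∧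
          (sigPos ((V + Vᵀ).map ((↑) : ℤ → ℝ)).toQuadraticForm' : ℤ) -
            sigNeg ((V + Vᵀ).map ((↑) : ℤ → ℝ)).toQuadraticForm' = s) ↔
      (s % 4 = ((Nat.card A : ℤ) - 1) % 4 ∧
        ((∃ (k : ℕ) (m : Fin k → ℕ), Nonempty (A ≃+ ((i : Fin k) → ZMod (m i ^ 2)))) → 8 ∣ s)))
    (n : ℕ) (hn : Odd n) (s : ℤ) :
    (∃ (m : ℕ) (q : ZMod m → Fin 3 → ℝ), IsKnot q ∧
      ∃ (g : ℕ) (V : Matrix (Fin g) (Fin g) ℤ), IsSeifertMatrix q V ∧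
        |(V + Vᵀ).det| = n ∧
        (sigPos ((V + Vᵀ).map ((↑) : ℤ → ℝ)).toQuadraticForm' : ℤ) -
          sigNeg ((V + Vᵀ).map ((↑) : ℤ → ℝ)).toQuadraticForm' = s) ↔
    (s % 4 = ((n : ℤ) - 1) % 4 ∧ (n = 1 → 8 ∣ s)) := by
  have hpos := hn.pos
  constructor
  · rintro ⟨m, q, hq, g, V, hV, hd, hs⟩
    have h1 : (V + Vᵀ).det.natAbs = n := by
      rw [Int.abs_eq_natAbs] at hd
      exact_mod_cast hd
    have h0 : (V + Vᵀ).det ≠ 0 := by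
      intro h
      rw [h] at h1
      simp at h1
      omega
    have hc := (card_quot _ h0).trans h1
    have : Finite ((Fin g → ℤ) ⧸ LinearMap.range (V + Vᵀ).mulVecLin) :=
      Nat.finite_of_card_ne_zero (by omega)
    obtain ⟨a1, a2⟩ := (hH _ (hc.symm ▸ hn) s).1 ⟨m, q, hq, g, V, hV, ⟨AddEquiv.refl _⟩, hs⟩
    rw [hc] at a1
    refine ⟨a1, fun h => a2 ⟨0, fun i => i.elim0, ?_⟩⟩
    obtain ⟨u⟩ := Nat.card_eq_one_iff_exists.1 (hc.trans h) |>.elim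
      fun x hx => (⟨⟨⟨x⟩, hx⟩⟩ : Nonempty (Unique _))
    exact ⟨AddEquiv.ofUnique⟩
  · rintro ⟨a1, a2⟩
    have fin : ∀ (A : Type) [AddCommGroup A] [Finite A], Nat.card A = n →
        ((∃ (k : ℕ) (m : Fin k → ℕ), Nonempty (A ≃+ ((i : Fin k) → ZMod (m i ^ 2)))) → 8 ∣ s) →
        ∃ (m : ℕ) (q : ZMod m → Fin 3 → ℝ), IsKnot q ∧
          ∃ (g : ℕ) (V : Matrix (Fin g) (Fin g) ℤ), IsSeifertMatrix q V ∧
            |(V + Vᵀ).det| = n ∧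
            (sigPos ((V + Vᵀ).map ((↑) : ℤ → ℝ)).toQuadraticForm' : ℤ) -
              sigNeg ((V + Vᵀ).map ((↑) : ℤ → ℝ)).toQuadraticForm' = s := by
      intro A _ _ hc h8
      obtain ⟨m, q, hq, g, V, hV, he, hs⟩ := (hH A (hc.symm ▸ hn) s).2 ⟨hc.symm ▸ a1, h8⟩
      refine ⟨m, q, hq, g, V, hV, ?_, hs⟩
      rw [Int.abs_eq_natAbs, (det_of_quot he).2, hc]
    by_cases h1 : n = 1
    · exact fin (ZMod 1) (by rw [Nat.card_zmod, h1]) fun _ => a2 h1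
    · obtain ⟨p, hp, t, ht⟩ := Nat.exists_prime_and_dvd h1
      have : NeZero p := ⟨hp.ne_zero⟩
      have : NeZero t := ⟨by rintro rfl; omega⟩
      exact fin (ZMod p × ZMod t) (by rw [Nat.card_prod, Nat.card_zmod, Nat.card_zmod, ht])
        fun h => absurd h (not_sq_prod hp _)

theorem formQ
    (hD : ∀ (n : ℕ), Odd n → ∀ s : ℤ,
      (∃ (m : ℕ) (q : ZMod m → Fin 3 → ℝ), IsKnot q ∧
        ∃ (g : ℕ) (V : Matrix (Fin g) (Fin g) ℤ), IsSeifertMatrix q V ∧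
          |(V + Vᵀ).det| = n ∧
          (sigPos ((V + Vᵀ).map ((↑) : ℤ → ℝ)).toQuadraticForm' : ℤ) -
            sigNeg ((V + Vᵀ).map ((↑) : ℤ → ℝ)).toQuadraticForm' = s) ↔
      (s % 4 = ((n : ℤ) - 1) % 4 ∧ (n = 1 → 8 ∣ s)))
    (k : ℕ) (hk : 1 ≤ k) :
    ∃ (m : ℕ) (q : ZMod m → Fin 3 → ℝ), IsKnot q ∧
      ∃ (g : ℕ) (V : Matrix (Fin g) (Fin g) ℤ), IsSeifertMatrix q V ∧
        |(V + Vᵀ).det| = 4 * k + 1 ∧
        (sigPos ((V + Vᵀ).map ((↑) : ℤ → ℝ)).toQuadraticForm' : ℤ) -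
          sigNeg ((V + Vᵀ).map ((↑) : ℤ → ℝ)).toQuadraticForm' = 4 := by
  have := (hD (4 * k + 1) ⟨2 * k, by ring⟩ 4).2 ⟨by omega, by omega⟩
  push_cast at this
  exact this

end Pool.Agent.P.MP_06cdda_gt.Pr
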