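import Pool.Agent.P.MP_06cdda_gt.Cycle

open Relation

namespace Pool.Agent.P.MP_06cdda_gt

/-- Square nodes with sides glued in pairs through squares. -/
structure Rib (ν : Type) where
  γ : ν × Fin 4 → ν × Fin 4
  inv : ∀ s, γ (γ s) = s
  side : ∀ s, γ s ≠ s → (γ s).2 = s.2 + 2
  loop : ∀ s, γ s ≠ s → (γ s).1 ≠ s.1
  simple : ∀ s t, γ s ≠ s → γ t ≠ t → s.1 = t.1 → (γ s).1 = (γ t).1 → s = t

namespace Rib

variable {ν : Type} (R : Rib ν)

def sc (s : ν × Fin 4) : ν × Fin 4 := (s.1, s.2 + 1)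

def T0 (a b c : ν × Fin 4) : Prop :=
  (∃ n, a = (n, 0) ∧ b = (n, 1) ∧ c = (n, 2)) ∨ (∃ n, a = (n, 0) ∧ b = (n, 2) ∧ c = (n, 3)) ∨
    (R.γ b ≠ b ∧ a = sc b ∧ c = sc (R.γ b))

def T (a b c : ν × Fin 4) : Prop := R.T0 a b c ∨ R.T0 b c a ∨ R.T0 c a b

def nxt (u : ν × Fin 4) : ν × Fin 4 := sc (R.γ u)

variable {R}

@[simp] theorem sc_fst (s : ν × Fin 4) : (sc s).1 = s.1 := rfl
@[simp] theorem sc_snd (s : ν × Fin 4) : (sc s).2 = s.2 + 1 := rfl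

theorem sc_inj {s t : ν × Fin 4} (h : sc s = sc t) : s = t := by
  obtain ⟨a, i⟩ := s
  obtain ⟨b, j⟩ := t
  simp only [sc, Prod.mk.injEq, add_left_inj] at h
  exact Prod.ext h.1 h.2

theorem sc_ne (s : ν × Fin 4) : sc s ≠ s := fun h => by
  have := congrArg Prod.snd h
  simp at this

theorem glued_γ {s : ν × Fin 4} (h : R.γ s ≠ s) : R.γ (R.γ s) ≠ R.γ s := by
  rw [R.inv]; exact h.symm

theorem γ_inj {s t : ν × Fin 4} (h : R.γ s = R.γ t) : s = t := by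
  rw [← R.inv s, h, R.inv]

theorem T.rot {a b c : ν × Fin 4} (h : R.T a b c) : R.T b c a := by
  rcases h with h | h | h
  · exact Or.inr (Or.inr h)
  · exact Or.inl h
  · exact Or.inr (Or.inl h)

theorem t012 (n : ν) : R.T (n, 0) (n, 1) (n, 2) := Or.inl (Or.inl ⟨n, rfl, rfl, rfl⟩)
theorem t023 (n : ν) : R.T (n, 0) (n, 2) (n, 3) := Or.inl (Or.inr (Or.inl ⟨n, rfl, rfl, rfl⟩))
theorem tA {b : ν × Fin 4} (h : R.γ b ≠ b) : R.T (sc b) b (sc (R.γ b)) :=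
  Or.inl (Or.inr (Or.inr ⟨h, rfl, rfl⟩))

theorem T_iff {a b c : ν × Fin 4} : R.T a b c ↔
    (a.1 = b.1 ∧ a.1 = c.1 ∧ ((a.2 = 0 ∧ b.2 = 1 ∧ c.2 = 2) ∨ (a.2 = 1 ∧ b.2 = 2 ∧ c.2 = 0) ∨
      (a.2 = 2 ∧ b.2 = 0 ∧ c.2 = 1) ∨ (a.2 = 0 ∧ b.2 = 2 ∧ c.2 = 3) ∨ (a.2 = 2 ∧ b.2 = 3 ∧ c.2 = 0) ∨
      (a.2 = 3 ∧ b.2 = 0 ∧ c.2 = 2))) ∨
    (R.γ b ≠ b ∧ a = sc b ∧ c = sc (R.γ b)) ∨ (R.γ c ≠ c ∧ b = sc c ∧ a = sc (R.γ c)) ∨
    (R.γ a ≠ a ∧ c = sc a ∧ b = sc (R.γ a)) := by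
  obtain ⟨a, i⟩ := a
  obtain ⟨b, j⟩ := b
  obtain ⟨c, k⟩ := c
  constructor
  · rintro ((⟨n, h1, h2, h3⟩ | ⟨n, h1, h2, h3⟩ | h) | (⟨n, h1, h2, h3⟩ | ⟨n, h1, h2, h3⟩ | h) |
      (⟨n, h1, h2, h3⟩ | ⟨n, h1, h2, h3⟩ | h))
    · cases h1; cases h2; cases h3; exact Or.inl ⟨rfl, rfl, by simp⟩
    · cases h1; cases h2; cases h3; exact Or.inl ⟨rfl, rfl, by simp⟩
    · exact Or.inr (Or.inl h)
    · cases h1; cases h2; cases h3; exact Or.inl ⟨rfl, rfl, by simp⟩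
    · cases h1; cases h2; cases h3; exact Or.inl ⟨rfl, rfl, by simp⟩
    · exact Or.inr (Or.inr (Or.inl h))
    · cases h1; cases h2; cases h3; exact Or.inl ⟨rfl, rfl, by simp⟩
    · cases h1; cases h2; cases h3; exact Or.inl ⟨rfl, rfl, by simp⟩
    · exact Or.inr (Or.inr (Or.inr h))
  · rintro (⟨h1, h2, h⟩ | h | h | h)
    · simp only at h1 h2 h
      subst h1 h2
      rcases h with ⟨rfl, rfl, rfl⟩ | ⟨rfl, rfl, rfl⟩ | ⟨rfl, rfl, rfl⟩ | ⟨rfl, rfl, rfl⟩ |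
        ⟨rfl, rfl, rfl⟩ | ⟨rfl, rfl, rfl⟩
      · exact t012 a
      · exact (t012 a).rot
      · exact (t012 a).rot.rot
      · exact t023 a
      · exact (t023 a).rot
      · exact (t023 a).rot.rot
    · exact Or.inl (Or.inr (Or.inr h))
    · exact Or.inr (Or.inl (Or.inr (Or.inr h)))
    · exact Or.inr (Or.inr (Or.inr (Or.inr h)))

theorem fin4 (i : Fin 4) : i = 0 ∨ i = 1 ∨ i = 2 ∨ i = 3 := by revert i; decide

theorem T.uniq {a b c d : ν × Fin 4} (h : R.T a b c) (h' : R.T a b d) : c = d := by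
  rw [T_iff] at h h'
  rcases h with ⟨h1, h2, h3⟩ | ⟨h1, h2, h3⟩ | ⟨h1, h2, h3⟩ | ⟨h1, h2, h3⟩ <;>
    rcases h' with ⟨g1, g2, g3⟩ | ⟨g1, g2, g3⟩ | ⟨g1, g2, g3⟩ | ⟨g1, g2, g3⟩
  · refine Prod.ext (h2.symm.trans g2) ?_
    omega
  · have := congrArg Prod.snd g2
    simp only [sc_snd] at this
    omega
  · exact absurd (by rw [g3, g2] at h1; exact h1) (R.loop _ g1)
  · exact absurd (by rw [g3] at h1; exact h1.symm) (R.loop _ g1)
  · have := congrArg Prod.snd h2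
    simp only [sc_snd] at this
    omega
  · rw [h3, g3]
  · exact absurd (by have := congrArg Prod.fst h2; rw [g3, g2] at this; exact this) (R.loop _ g1)
  · exact absurd (by have := congrArg Prod.fst h2; rw [g3] at this; exact this.symm) (R.loop _ g1)
  · exact absurd (by rw [h3, h2] at g1; exact g1) (R.loop _ h1)
  · exact absurd (by have := congrArg Prod.fst g2; rw [h3, h2] at this; exact this) (R.loop _ h1)
  · exact sc_inj (h2.symm.trans g2)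
  · have e := sc_inj (h2.symm.trans g3)
    rw [e, R.inv] at h3
    exact absurd h3.symm (sc_ne _)
  · exact absurd (by rw [h3] at g1; exact g1.symm) (R.loop _ h1)
  · exact absurd (by have := congrArg Prod.fst g2; rw [h3] at this; exact this.symm) (R.loop _ h1)
  · have e := sc_inj (g2.symm.trans h3)
    rw [e, R.inv] at g3
    exact absurd g3.symm (sc_ne _)
  · rw [h2, g2]

theorem edge_iff {u v : ν × Fin 4} : Edge R.T u v ↔
    v = sc u ∨ (u.1 = v.1 ∧ ((u.2 = 0 ∧ v.2 = 2) ∨ (u.2 = 2 ∧ v.2 = 0))) ∨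
    (R.γ v ≠ v ∧ u = sc v) ∨ (∃ c, R.γ c ≠ c ∧ v = sc c ∧ u = sc (R.γ c)) ∨
    (R.γ u ≠ u ∧ v = sc (R.γ u)) := by
  constructor
  · rintro ⟨c, h⟩
    rw [T_iff] at h
    rcases h with ⟨h1, h2, h3⟩ | h | h | h
    · by_cases e : v.2 = u.2 + 1
      · exact Or.inl (Prod.ext h1.symm e)
      · refine Or.inr (Or.inl ⟨h1, ?_⟩)
        omega
    · exact Or.inr (Or.inr (Or.inl ⟨h.1, h.2.1⟩))
    · exact Or.inr (Or.inr (Or.inr (Or.inl ⟨c, h⟩)))
    · exact Or.inr (Or.inr (Or.inr (Or.inr ⟨h.1, h.2.2⟩)))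
  · obtain ⟨n, i⟩ := u
    rintro (rfl | ⟨h1, h2⟩ | ⟨h, e⟩ | ⟨c, h, rfl, e⟩ | ⟨h, rfl⟩)
    · rcases fin4 i with rfl | rfl | rfl | rfl
      · exact ⟨_, t012 n⟩
      · exact ⟨_, (t012 n).rot⟩
      · exact ⟨_, (t023 n).rot⟩
      · exact ⟨_, (t023 n).rot.rot⟩
    · obtain ⟨n', i'⟩ := v
      simp only at h1 h2
      subst h1
      rcases h2 with ⟨rfl, rfl⟩ | ⟨rfl, rfl⟩
      · exact ⟨_, t023 n⟩
      · exact ⟨_, (t012 n).rot.rot⟩
    · rw [e]; exact ⟨_, tA h⟩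
    · rw [e]; exact ⟨_, (tA h).rot.rot⟩
    · exact ⟨_, (tA h).rot⟩

theorem bd_iff {u v : ν × Fin 4} : (Edge R.T u v ∧ ¬ Edge R.T v u) ↔ v = R.nxt u := by
  constructor
  · rintro ⟨h, hn⟩
    rw [edge_iff] at h hn
    rcases h with h | h | h | ⟨c, h1, h2, h3⟩ | h
    · by_cases g : R.γ u = u
      · rw [nxt, g, h]
      · exact absurd (Or.inr (Or.inr (Or.inl ⟨g, h⟩))) hn
    · exact absurd (Or.inr (Or.inl ⟨h.1.symm, by omega⟩)) hn
    · exact absurd (Or.inl h.2) hn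
    · refine absurd (Or.inr (Or.inr (Or.inr (Or.inl ⟨R.γ c, glued_γ h1, h3, ?_⟩)))) hn
      rw [R.inv, h2]
    · exact h.2
  · rintro rfl
    by_cases g : R.γ u = u
    · refine ⟨edge_iff.2 (Or.inl (by rw [nxt, g])), fun h => ?_⟩
      rw [nxt, g, edge_iff] at h
      rcases h with h | ⟨-, h⟩ | h | ⟨c, h1, h2, h3⟩ | h
      · have := congrArg Prod.snd h
        simp only [sc_snd] at this
        omega
      · simp only [sc_snd] at h
        omega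
      · exact h.1 g
      · have e := congrArg Prod.fst h3
        rw [h2] at e
        exact R.loop _ h1 e.symm
      · exact R.loop _ h.1 (congrArg Prod.fst h.2).symm
    · refine ⟨edge_iff.2 (Or.inr (Or.inr (Or.inr (Or.inr ⟨g, rfl⟩)))), fun h => ?_⟩
      rw [nxt, edge_iff] at h
      rcases h with h | ⟨h, -⟩ | h | ⟨c, h1, h2, h3⟩ | h
      · exact R.loop _ g (congrArg Prod.fst h).symm
      · exact R.loop _ g h
      · exact g (sc_inj h.2)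
      · rw [γ_inj (sc_inj h3)] at h2
        exact sc_ne _ h2.symm
      · have e := R.simple (sc (R.γ u)) (R.γ u) h.1 (glued_γ g) rfl
          (by rw [R.inv]; exact (congrArg Prod.fst h.2).symm)
        exact sc_ne _ e

theorem nxt_inj {u v : ν × Fin 4} (h : R.nxt u = R.nxt v) : u = v := γ_inj (sc_inj h)

theorem node_hub (n : ν) (i j : Fin 4) (h : j = i + 3 ∨ (i = 0 ∧ j = 2) ∨ (i = 2 ∧ j = 0)) :
    EqvGen (R.T (n, i)) (n, j) (sc (n, i)) := by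
  have a0 : EqvGen (R.T (n, 0)) (n, 2) (n, 1) := (EqvGen.rel _ _ (t012 n)).symm
  have a2 : EqvGen (R.T (n, 2)) (n, 0) (n, 3) := (EqvGen.rel _ _ (t023 n).rot).symm
  rcases h with rfl | ⟨rfl, rfl⟩ | ⟨rfl, rfl⟩
  · rcases fin4 i with rfl | rfl | rfl | rfl
    · exact (EqvGen.rel _ _ (t023 n)).symm.trans _ _ _ a0
    · exact (EqvGen.rel _ _ (t012 n).rot).symm
    · exact (EqvGen.rel _ _ (t012 n).rot.rot).symm.trans _ _ _ a2
    · exact (EqvGen.rel _ _ (t023 n).rot.rot).symm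
  · exact a0
  · exact a2

theorem pred_hub (c : ν × Fin 4) : EqvGen (R.T (sc c)) c (sc (sc c)) := by
  obtain ⟨n, i⟩ := c
  exact node_hub n (i + 1) i (Or.inl (by omega))

theorem t_hub {v a b : ν × Fin 4} (h : R.T v a b) : EqvGen (R.T v) a (sc v) := by
  have h0 := EqvGen.rel _ _ h
  rw [T_iff] at h
  rcases h with ⟨h1, h2, h3⟩ | ⟨h1, h2, h3⟩ | ⟨h1, h2, h3⟩ | ⟨h1, h2, h3⟩
  · obtain ⟨n, i⟩ := v
    obtain ⟨n', j⟩ := a
    simp only at h1 h3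
    subst h1
    by_cases e : j = i + 1
    · subst e; exact EqvGen.refl _
    · exact node_hub n i j (by omega)
  · subst h2; exact pred_hub a
  · have e : R.T v (R.γ b) a := by
      have := tA (glued_γ h1)
      rwa [R.inv, ← h2, ← h3] at this
    refine (EqvGen.rel _ _ e).symm.trans _ _ _ ?_
    rw [h3]
    exact pred_hub _
  · rw [← h2]; exact h0

def Conn (R : Rib ν) : Prop :=
  ∀ χ : ν × Fin 4 → Prop, (∀ v, χ (R.nxt v) = χ v) → ∀ u v, χ u = χ v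

theorem isSurface (hc : R.Conn) : IsSurface R.T := by
  refine ⟨fun a b c h => h.rot, fun a b c d h h' => h.uniq h', ?_, ?_⟩
  · have key : ∀ v a, (Edge R.T v a ∨ Edge R.T a v) → EqvGen (R.T v) a (sc v) := by
      rintro v a (⟨c, h⟩ | ⟨c, h⟩)
      · exact t_hub h
      · exact (EqvGen.rel _ _ h.rot).symm.trans _ _ _ (t_hub h.rot)
    intro v a b ha hb
    exact (key v a ha).trans _ _ _ (key v b hb).symm
  · intro a b
    have := hc (fun w => EqvGen (Edge R.T) a w) (fun w => ?_) a b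
    · exact this ▸ EqvGen.refl a
    · have e := EqvGen.rel (r := Edge R.T) _ _ ((bd_iff (u := w)).2 rfl).1
      exact propext ⟨fun h => h.trans _ _ _ e.symm, fun h => h.trans _ _ _ e⟩

theorem exists_boundary [Fintype ν] (n0 : ν) (hc : R.Conn) :
    ∃ m : ℕ, 3 ≤ m ∧ ∃ k : ZMod m → ν × Fin 4, Function.Bijective k ∧
      (∀ i, k (i + 1) = R.nxt (k i)) ∧
      ∀ u v, (Edge R.T u v ∧ ¬ Edge R.T v u) ↔ ∃ i, u = k i ∧ v = k (i + 1) := by
  obtain ⟨m, hm, k, hk, hs⟩ := exists_cyc (n0, 0) R.nxt (fun u v h => nxt_inj h) hc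
  refine ⟨m, ?_, k, hk, hs, fun u v => ?_⟩
  · rw [hm, Fintype.card_prod, Fintype.card_fin]
    have : 0 < Fintype.card ν := Fintype.card_pos_iff.2 ⟨n0⟩
    omega
  · rw [bd_iff]
    constructor
    · rintro rfl
      obtain ⟨i, rfl⟩ := hk.2 u
      exact ⟨i, rfl, (hs i).symm⟩
    · rintro ⟨i, rfl, rfl⟩
      exact hs i

end Rib

end Pool.Agent.P.MP_06cdda_gt
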