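import Pool.Agent.P.MP_06cdda_gt.RibH

open Finset

set_option linter.unusedSectionVars false

namespace Pool.Agent.P.MP_06cdda_gt

namespace Rib

variable {ν : Type} [Fintype ν] [DecidableEq ν] {R : Rib ν}

/-- Bilinear-like interpolation on a square cut along the diagonal `AC`. -/
noncomputable def W {M : Type} [AddCommGroup M] [Module ℝ M] (A B C D : M) (s r : ℝ) : M :=
  (1 - max s r) • A + (s - min s r) • B + (r - min s r) • D + min s r • C

section
variable {M : Type} [AddCommGroup M] [Module ℝ M] (A B C D : M)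

theorem W_r0 {s : ℝ} (h : 0 ≤ s) : W A B C D s 0 = (1 - s) • A + s • B := by
  simp [W, max_eq_left h, min_eq_right h]

theorem W_r1 {s : ℝ} (h : s ≤ 1) : W A B C D s 1 = (1 - s) • D + s • C := by
  simp [W, max_eq_right h, min_eq_left h]

theorem W_s0 {r : ℝ} (h : 0 ≤ r) : W A B C D 0 r = (1 - r) • A + r • D := by
  simp [W, max_eq_right h, min_eq_left h]

theorem W_s1 {r : ℝ} (h : r ≤ 1) : W A B C D 1 r = (1 - r) • B + r • C := by
  simp [W, max_eq_left h, min_eq_right h]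

theorem W_dg (s : ℝ) : W A B C D s s = (1 - s) • A + s • C := by
  simp [W]

end

theorem W_par {A B C D : ℝ} (h : A + C = B + D) (s r : ℝ) :
    W A B C D s r = A + s * (B - A) + r * (D - A) := by
  have e : C = B + D - A := by linarith
  have e2 := max_add_min s r
  have e3 : max s r = s + r - min s r := by linarith
  simp only [W, smul_eq_mul, e, e3]
  ring

theorem W_le {A B C D s r z : ℝ} (s0 : 0 ≤ s) (s1 : s ≤ 1) (r0 : 0 ≤ r) (r1 : r ≤ 1) (hA : A ≤ z)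
    (hB : B ≤ z) (hC : C ≤ z) (hD : D ≤ z) : W A B C D s r ≤ z := by
  have e2 := max_add_min s r
  have a1 : 0 ≤ 1 - max s r := sub_nonneg.2 (max_le s1 r1)
  have a2 : 0 ≤ s - min s r := sub_nonneg.2 (min_le_left _ _)
  have a3 : 0 ≤ r - min s r := sub_nonneg.2 (min_le_right _ _)
  have a4 : 0 ≤ min s r := le_min s0 r0
  have e3 : z = (1 - max s r) * z + (s - min s r) * z + (r - min s r) * z + min s r * z := by
    linear_combination z * e2
  simp only [W, smul_eq_mul]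
  linarith [mul_le_mul_of_nonneg_left hA a1, mul_le_mul_of_nonneg_left hB a2,
    mul_le_mul_of_nonneg_left hD a3, mul_le_mul_of_nonneg_left hC a4]

theorem le_W {A B C D s r z : ℝ} (s0 : 0 ≤ s) (s1 : s ≤ 1) (r0 : 0 ≤ r) (r1 : r ≤ 1) (hA : z ≤ A)
    (hB : z ≤ B) (hC : z ≤ C) (hD : z ≤ D) : z ≤ W A B C D s r := by
  have := W_le (A := -A) (B := -B) (C := -C) (D := -D) (z := -z) s0 s1 r0 r1 (by linarith)
    (by linarith) (by linarith) (by linarith)
  simp only [W, smul_eq_mul] at this ⊢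
  linarith

/-- Points of the surface: in a node, or in the interior of a glued square. -/
inductive Cp (ν : Type) where
  | N (n : ν) (s r : ℝ)
  | G (b : ν × Fin 4) (s r : ℝ)

variable (R) in
def Cp.ok : Cp ν → Prop
  | .N _ s r => 0 ≤ s ∧ s ≤ 1 ∧ 0 ≤ r ∧ r ≤ 1
  | .G b s r => R.src b ∧ 0 ≤ s ∧ s ≤ 1 ∧ 0 < r ∧ r < 1

variable (R) in
noncomputable def Cp.ev {M : Type} [AddCommGroup M] [Module ℝ M] (f : ν × Fin 4 → M) : Cp ν → M
  | .N n s r => W (f (n, 0)) (f (n, 1)) (f (n, 2)) (f (n, 3)) s r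
  | .G b s r => W (f (sc b)) (f b) (f (sc (R.γ b))) (f (R.γ b)) s r

theorem side_pt (b : ν × Fin 4) {s : ℝ} (s0 : 0 ≤ s) (s1 : s ≤ 1) :
    ∃ Q : Cp ν, Q.ok R ∧ ∀ (M : Type) [AddCommGroup M] [Module ℝ M] (f : ν × Fin 4 → M),
      Q.ev R f = (1 - s) • f (sc b) + s • f b := by
  obtain ⟨n, i⟩ := b
  rcases fin4 i with rfl | rfl | rfl | rfl
  · refine ⟨.N n (1 - s) 0, ⟨by linarith, by linarith, le_rfl, zero_le_one⟩, fun M _ _ f => ?_⟩
    rw [Cp.ev, W_r0 _ _ _ _ (by linarith), add_comm, sub_sub_cancel]; rfl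
  · refine ⟨.N n 1 (1 - s), ⟨zero_le_one, le_rfl, by linarith, by linarith⟩, fun M _ _ f => ?_⟩
    rw [Cp.ev, W_s1 _ _ _ _ (by linarith), add_comm, sub_sub_cancel]; rfl
  · refine ⟨.N n s 1, ⟨s0, s1, zero_le_one, le_rfl⟩, fun M _ _ f => ?_⟩
    rw [Cp.ev, W_r1 _ _ _ _ s1]; rfl
  · refine ⟨.N n 0 s, ⟨le_rfl, zero_le_one, s0, s1⟩, fun M _ _ f => ?_⟩
    rw [Cp.ev, W_s0 _ _ _ _ s0]; rfl

theorem cell_pt {b : ν × Fin 4} (hb : R.src b) {s r : ℝ} (s0 : 0 ≤ s) (s1 : s ≤ 1) (r0 : 0 ≤ r)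
    (r1 : r ≤ 1) :
    ∃ Q : Cp ν, Q.ok R ∧ ∀ (M : Type) [AddCommGroup M] [Module ℝ M] (f : ν × Fin 4 → M),
      Q.ev R f = W (f (sc b)) (f b) (f (sc (R.γ b))) (f (R.γ b)) s r := by
  rcases r0.eq_or_lt with rfl | r0'
  · obtain ⟨Q, h1, h2⟩ := side_pt (R := R) b s0 s1
    exact ⟨Q, h1, fun M _ _ f => by rw [h2, W_r0 _ _ _ _ s0]⟩
  rcases r1.eq_or_lt with rfl | r1'
  · obtain ⟨Q, h1, h2⟩ := side_pt (R := R) (R.γ b) (s := 1 - s) (by linarith) (by linarith)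
    exact ⟨Q, h1, fun M _ _ f => by rw [h2, W_r1 _ _ _ _ s1, add_comm, sub_sub_cancel]⟩
  · exact ⟨.G b s r, ⟨hb, s0, s1, r0', r1'⟩, fun M _ _ f => rfl⟩

theorem sum_three {X M : Type} [Fintype X] [DecidableEq X] [AddCommMonoid M] [Module ℝ M]
    (w : X → ℝ) {a b c : X} (hab : a ≠ b) (hac : a ≠ c) (hbc : b ≠ c)
    (h : ∀ v, w v ≠ 0 → v = a ∨ v = b ∨ v = c) (f : X → M) :
    ∑ v, w v • f v = w a • f a + w b • f b + w c • f c := by
  rw [← Finset.sum_subset (Finset.subset_univ {a, b, c}), Finset.sum_insert (by simp [hab, hac]),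
    Finset.sum_pair hbc, add_assoc]
  intro v _ hv
  have : w v = 0 := by
    by_contra hne
    exact hv (by simpa using h v hne)
  rw [this, zero_smul]

theorem tri_pt {w : ν × Fin 4 → ℝ} (hw : w ∈ stdSimplex ℝ (ν × Fin 4)) {a b c : ν × Fin 4}
    (h : R.T0 a b c) (hs : ∀ v, w v ≠ 0 → v = a ∨ v = b ∨ v = c) :
    ∃ Q : Cp ν, Q.ok R ∧ ∀ (M : Type) [AddCommGroup M] [Module ℝ M] (f : ν × Fin 4 → M),
      Q.ev R f = ∑ v, w v • f v := by
  have hne : a ≠ b ∧ a ≠ c ∧ b ≠ c := by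
    rcases h with ⟨n, rfl, rfl, rfl⟩ | ⟨n, rfl, rfl, rfl⟩ | ⟨h, rfl, rfl⟩
    · simp
    · simp
    · exact ⟨sc_ne _, fun e => h (sc_inj e).symm, fun e => R.loop _ h (congrArg Prod.fst e).symm⟩
  have hsum : w a = 1 - (w b + w c) := by
    have := sum_three w hne.1 hne.2.1 hne.2.2 hs (fun _ => (1 : ℝ))
    simp only [smul_eq_mul, mul_one] at this
    have h2 := hw.2
    linarith
  have ha := hw.1 a
  have hb := hw.1 b
  have hc := hw.1 c
  have low : ∀ (M : Type) [AddCommGroup M] [Module ℝ M] (f : ν × Fin 4 → M) (D : M),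
      W (f a) (f b) (f c) D (w b + w c) (w c) = ∑ v, w v • f v := by
    intro M _ _ f D
    rw [sum_three w hne.1 hne.2.1 hne.2.2 hs, W, max_eq_left (by linarith),
      min_eq_right (by linarith), hsum]
    simp
  have upp : ∀ (M : Type) [AddCommGroup M] [Module ℝ M] (f : ν × Fin 4 → M) (B : M),
      W (f a) B (f b) (f c) (w b) (w b + w c) = ∑ v, w v • f v := by
    intro M _ _ f B
    rw [sum_three w hne.1 hne.2.1 hne.2.2 hs, W, max_eq_right (by linarith),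
      min_eq_left (by linarith), hsum]
    simp only [sub_self, zero_smul, add_zero, add_sub_cancel_left]
    abel
  have upp' : ∀ (M : Type) [AddCommGroup M] [Module ℝ M] (f : ν × Fin 4 → M) (B : M),
      W (f c) B (f a) (f b) (w a) (w a + w b) = ∑ v, w v • f v := by
    intro M _ _ f B
    rw [sum_three w hne.1 hne.2.1 hne.2.2 hs, W, max_eq_right (by linarith),
      min_eq_left (by linarith), show 1 - (w a + w b) = w c by linarith]
    simp only [sub_self, zero_smul, add_zero, add_sub_cancel_left]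
    abel
  rcases h with ⟨n, rfl, rfl, rfl⟩ | ⟨n, rfl, rfl, rfl⟩ | ⟨h, rfl, rfl⟩
  · exact ⟨.N n _ _, ⟨by linarith, by linarith, hc, by linarith⟩, fun M _ _ f => low M f _⟩
  · exact ⟨.N n _ _, ⟨hb, by linarith, by linarith, by linarith⟩, fun M _ _ f => upp M f _⟩
  · rcases src_or h with h1 | h1
    · obtain ⟨Q, q1, q2⟩ := cell_pt h1 (s := w b + w (sc (R.γ b))) (r := w (sc (R.γ b)))
        (by linarith) (by linarith) hc (by linarith)
      exact ⟨Q, q1, fun M _ _ f => by rw [q2, low]⟩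
    · obtain ⟨Q, q1, q2⟩ := cell_pt h1 (s := w (sc b)) (r := w (sc b) + w b)
        ha (by linarith) (by linarith) (by linarith)
      exact ⟨Q, q1, fun M _ _ f => by rw [q2, R.inv, upp']⟩

def up : Fin 3 → ℝ := ![0, 0, 1]

theorem isCollar_of {p : ν × Fin 4 → Fin 3 → ℝ}
    (h1 : ∀ a b c, R.T0 a b c →
      0 < (p b 0 - p a 0) * (p c 1 - p a 1) - (p b 1 - p a 1) * (p c 0 - p a 0))
    (h2 : ∀ Q Q' : Cp ν, Q.ok R → Q'.ok R → Q.ev R p 0 = Q'.ev R p 0 → Q.ev R p 1 = Q'.ev R p 1 →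
      Q = Q' ∨ Q.ev R p 2 + 1 < Q'.ev R p 2 ∨ Q'.ev R p 2 + 1 < Q.ev R p 2) :
    IsCollar R.T p (fun _ => up) := by
  constructor
  · rintro a b c (h | h | h) <;>
    · have := h1 _ _ _ h
      rw [Matrix.det_fin_three]
      simp [up]
      linarith
  · have param : ∀ w : ν × Fin 4 → ℝ, w ∈ stdSimplex ℝ (ν × Fin 4) →
        (∃ a b c, R.T a b c ∧ ∀ v, w v ≠ 0 → v = a ∨ v = b ∨ v = c) →
        ∃ Q : Cp ν, Q.ok R ∧ Q.ev R (fun v => Pi.single v (1 : ℝ)) = w ∧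
          ∀ t : ℝ, ∑ v, w v • (p v + t • up) = Q.ev R p + t • up := by
      rintro w hw ⟨a, b, c, h, hs⟩
      have : ∃ Q : Cp ν, Q.ok R ∧ ∀ (M : Type) [AddCommGroup M] [Module ℝ M] (f : ν × Fin 4 → M),
          Q.ev R f = ∑ v, w v • f v := by
        rcases h with h | h | h
        · exact tri_pt hw h hs
        · exact tri_pt hw h fun v hv => by have := hs v hv; tauto
        · exact tri_pt hw h fun v hv => by have := hs v hv; tauto
      obtain ⟨Q, q1, q2⟩ := this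
      refine ⟨Q, q1, ?_, fun t => ?_⟩
      · rw [q2]
        simp only [← Pi.single_smul, smul_eq_mul, mul_one]
        exact Finset.univ_sum_single w
      · rw [q2]
        simp only [smul_add, sum_add_distrib, ← sum_smul]
        rw [hw.2, one_smul]
    rintro ⟨w, t⟩ ⟨⟨hw, hT⟩, t0, t1⟩ ⟨w', t'⟩ ⟨⟨hw', hT'⟩, t0', t1'⟩ h
    obtain ⟨Q, q1, q2, q3⟩ := param w hw hT
    obtain ⟨Q', q1', q2', q3'⟩ := param w' hw' hT'
    simp only [q3, q3'] at h
    have e0 := congrFun h 0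
    have e1 := congrFun h 1
    have e2 := congrFun h 2
    simp [up] at e0 e1 e2 t0 t1 t0' t1'
    rcases h2 Q Q' q1 q1' e0 e1 with rfl | h3 | h3
    · exact Prod.ext (q2.symm.trans q2') (by simpa using e2)
    · linarith
    · linarith

noncomputable def crossN (p : ν × Fin 4 → Fin 3 → ℝ) (u u' v v' : ν × Fin 4) : ℤ :=
  crossSign (p u) (p u') (p v + up) (p v' + up)

noncomputable def lkB (p : ν × Fin 4 → Fin 3 → ℝ) : Ch ν →ₗ[ℤ] Ch ν →ₗ[ℤ] ℤ :=
  Matrix.toLinearMap₂' ℤ (Matrix.of fun e f : (ν × Fin 4) × (ν × Fin 4) =>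
    crossN p e.1 e.2 f.1 f.2)

theorem lkB_apply (p : ν × Fin 4 → Fin 3 → ℝ) (c c' : Ch ν) :
    lkB p c c' = ∑ e, ∑ f, c e * c' f * crossN p e.1 e.2 f.1 f.2 := by
  simp [lkB, Matrix.toLinearMap₂'_apply, mul_assoc]

theorem lkB_sg (p : ν × Fin 4 → Fin 3 → ℝ) (u u' v v' : ν × Fin 4) :
    lkB p (sg u u') (sg v v') = crossN p u u' v v' := by
  rw [lkB_apply]
  simp [sg, Pi.single_apply]

theorem over_iff {a b c d : Fin 3 → ℝ} {s t : ℝ} : Over a b (c + up) (d + up) s t ↔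
    (0 ≤ s ∧ s ≤ 1) ∧ (0 ≤ t ∧ t ≤ 1) ∧ ((1 - s) • a + s • b) 0 = ((1 - t) • c + t • d) 0 ∧
      ((1 - s) • a + s • b) 1 = ((1 - t) • c + t • d) 1 ∧
      ((1 - t) • c + t • d) 2 + 1 < ((1 - s) • a + s • b) 2 := by
  have u0 : up 0 = 0 := rfl
  have u1 : up 1 = 0 := rfl
  have u2 : up 2 = 1 := rfl
  refine and_congr Iff.rfl (and_congr Iff.rfl ⟨?_, ?_⟩)
  · rintro ⟨h, hh, e⟩
    have e0 : _ = _ + (0 : ℝ) := congrFun e 0
    have e1 : _ = _ + (0 : ℝ) := congrFun e 1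
    have e2 : _ = _ + h := congrFun e 2
    simp only [Pi.add_apply, Pi.smul_apply, smul_eq_mul, u0, u1, u2] at e0 e1 e2 ⊢
    exact ⟨by linarith, by linarith, by linarith⟩
  · rintro ⟨e0, e1, e2⟩
    refine ⟨_, sub_pos.2 e2, ?_⟩
    simp only [Pi.add_apply, Pi.smul_apply, smul_eq_mul] at e0 e1
    ext i
    fin_cases i
    · change _ = _ + (0 : ℝ)
      simp only [Pi.add_apply, Pi.smul_apply, smul_eq_mul, Fin.zero_eta, u0]
      linarith
    · change _ = _ + (0 : ℝ)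
      simp only [Pi.add_apply, Pi.smul_apply, smul_eq_mul, Fin.mk_one, u1]
      linarith
    · change _ = _ + ((_ : ℝ) - (_ : ℝ))
      simp only [Pi.add_apply, Pi.smul_apply, smul_eq_mul, Fin.reduceFinMk, u2]
      ring

end Rib

end Pool.Agent.P.MP_06cdda_gt
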