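import Pool.Agent.P.MP_06cdda_gt.Rib

open Finset

set_option linter.unusedSectionVars false

namespace Pool.Agent.P.MP_06cdda_gt

namespace Rib

variable {ν : Type} [Fintype ν] [DecidableEq ν] (R : Rib ν)

def src (s : ν × Fin 4) : Prop := R.γ s ≠ s ∧ (s.2 = 1 ∨ s.2 = 2)

instance : DecidablePred R.src := fun s => by unfold src; infer_instance

abbrev Ch (ν : Type) : Type := (ν × Fin 4) × (ν × Fin 4) → ℤ

def sg (u v : ν × Fin 4) : Ch ν := Pi.single (u, v) 1

def pt (u : ν × Fin 4) : ν × Fin 4 → ℤ := Pi.single u 1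

def Dv : Ch ν →ₗ[ℤ] (ν × Fin 4 → ℤ) where
  toFun c v := ∑ u, c (u, v) - ∑ u, c (v, u)
  map_add' c c' := by ext v; simp only [Pi.add_apply, sum_add_distrib]; ring
  map_smul' a c := by
    ext v; simp only [Pi.smul_apply, smul_eq_mul, ← mul_sum, RingHom.id_apply]; ring

def RR (u : ν × Fin 4) : Ch ν := if u.2 = 0 then 0 else -sg (u.1, 0) u

def CC (s : ν × Fin 4) : Ch ν := -RR (sc s) + sg (sc s) (sc (R.γ s)) + RR (sc (R.γ s))

def chain (a : ν × Fin 4 → ℤ) : Ch ν := ∑ s ∈ univ.filter R.src, a s • R.CC s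

def psi (s u v : ν × Fin 4) : ℤ :=
  (if u.1 = s.1 ∧ v.1 = (R.γ s).1 then 1 else 0) - (if v.1 = s.1 ∧ u.1 = (R.γ s).1 then 1 else 0)

def phi (s : ν × Fin 4) : Ch ν →ₗ[ℤ] ℤ where
  toFun c := ∑ e, c e * R.psi s e.1 e.2
  map_add' c c' := by simp only [Pi.add_apply, add_mul, sum_add_distrib]
  map_smul' a c := by simp only [Pi.smul_apply, smul_eq_mul, mul_sum, RingHom.id_apply, mul_assoc]

def GoodE (u v : ν × Fin 4) : Prop :=
  sg u v - (RR u - RR v) - ∑ s ∈ univ.filter R.src, R.psi s u v • R.CC s ∈ Bdry R.T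

def bd (a : ν × Fin 4 → ℤ) (n : ν) : ℤ :=
  ∑ i, ((if R.src (R.γ (n, i)) then a (R.γ (n, i)) else 0) - (if R.src (n, i) then a (n, i) else 0))

def IsBasis {ι : Type} [Fintype ι] (a : ι → ν × Fin 4 → ℤ) : Prop :=
  (∀ i n, R.bd (a i) n = 0) ∧
  ∀ c : ν × Fin 4 → ℤ, (∀ n, R.bd c n = 0) → ∃! x : ι → ℤ, ∀ s, R.src s → c s = ∑ i, x i * a i s

def Used (u v : ν × Fin 4) : Prop :=
  (u = (v.1, 0) ∧ v.2 ≠ 0 ∧ ∃ s, R.γ s ≠ s ∧ v = sc s) ∨ ∃ s, R.src s ∧ u = sc s ∧ v = sc (R.γ s)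

variable {R}

theorem src_or {s : ν × Fin 4} (h : R.γ s ≠ s) : R.src s ∨ R.src (R.γ s) := by
  have h1 := R.side s h
  by_cases e : s.2 = 1 ∨ s.2 = 2
  · exact Or.inl ⟨h, e⟩
  · exact Or.inr ⟨glued_γ h, by omega⟩

theorem Dv_sg (u v : ν × Fin 4) : Dv (sg u v) = pt v - pt u := by
  ext z
  simp only [Dv, sg, LinearMap.coe_mk, AddHom.coe_mk, Pi.single_apply, Prod.mk.injEq, pt,
    Pi.sub_apply]
  congr 1
  · simp [ite_and]
  · split_ifs with h <;> simp [h]

theorem Dv_RR (u : ν × Fin 4) : Dv (RR u) = pt (u.1, 0) - pt u := by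
  unfold RR
  split_ifs with h
  · rw [map_zero, ← h, sub_self]
  · rw [map_neg, Dv_sg, neg_sub]

theorem Dv_CC (s : ν × Fin 4) : Dv (R.CC s) = pt ((R.γ s).1, 0) - pt (s.1, 0) := by
  rw [CC, map_add, map_add, map_neg, Dv_RR, Dv_RR, Dv_sg, sc_fst, sc_fst]
  abel

theorem Dv_chain (a : ν × Fin 4 → ℤ) (z : ν × Fin 4) :
    Dv (R.chain a) z = if z.2 = 0 then R.bd a z.1 else 0 := by
  obtain ⟨n, j⟩ := z
  rw [chain, map_sum, Finset.sum_apply]
  simp only [map_smul, Dv_CC, Pi.smul_apply, Pi.sub_apply, pt, Pi.single_apply, smul_eq_mul,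
    Prod.mk.injEq, mul_sub, sum_sub_distrib]
  split_ifs with h
  · subst h
    rw [bd, sum_sub_distrib, sum_filter, sum_filter]
    congr 1
    · rw [← Equiv.sum_comp (⟨R.γ, R.γ, R.inv, R.inv⟩ : ν × Fin 4 ≃ ν × Fin 4),
        Fintype.sum_prod_type, sum_eq_single n]
      · simp [R.inv]
      · intro m _ hm
        simp [R.inv, hm.symm]
      · simp
    · rw [Fintype.sum_prod_type, sum_eq_single n]
      · simp
      · intro m _ hm
        simp [hm.symm]
      · simp
  · simp [h]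

theorem phi_sg (s u v : ν × Fin 4) : R.phi s (sg u v) = R.psi s u v := by
  simp [phi, sg, Pi.single_apply]

theorem psi_swap (s u v : ν × Fin 4) : R.psi s v u = -R.psi s u v := by
  unfold psi
  ring

theorem psi_same (s : ν × Fin 4) {u v : ν × Fin 4} (h : u.1 = v.1) : R.psi s u v = 0 := by
  unfold psi
  rw [h, sub_self]

theorem psi_congr (s : ν × Fin 4) {u v u' v' : ν × Fin 4} (h : u.1 = u'.1) (h' : v.1 = v'.1) :
    R.psi s u v = R.psi s u' v' := by
  unfold psi
  rw [h, h']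

theorem psi_tri (s : ν × Fin 4) {a b c : ν × Fin 4} (h : R.T a b c) :
    R.psi s a b + R.psi s b c + R.psi s c a = 0 := by
  have h0 : ∀ a b c, R.T0 a b c → R.psi s a b + R.psi s b c + R.psi s c a = 0 := by
    intro a b c h
    have e : a.1 = b.1 := by
      rcases h with ⟨n, rfl, rfl, rfl⟩ | ⟨n, rfl, rfl, rfl⟩ | ⟨-, rfl, -⟩ <;> rfl
    rw [psi_same s e, psi_swap s a c, psi_congr s e.symm (rfl : c.1 = c.1)]
    ring
  rcases h with h | h | h <;> have := h0 _ _ _ h <;> omega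

theorem psi_dg {s t : ν × Fin 4} (hs : R.src s) (ht : R.src t) :
    R.psi s (sc t) (sc (R.γ t)) = if t = s then 1 else 0 := by
  unfold psi
  rw [if_neg (show ¬ ((sc (R.γ t)).1 = s.1 ∧ (sc t).1 = (R.γ s).1) from ?_), sub_zero]
  · refine if_congr ⟨fun h => R.simple _ _ ht.1 hs.1 h.1 h.2, ?_⟩ rfl rfl
    rintro rfl
    exact ⟨rfl, rfl⟩
  · rintro ⟨h1, h2⟩
    have e := R.simple _ _ (glued_γ ht.1) hs.1 h1 (by rw [R.inv]; exact h2)
    have h3 := R.side t ht.1
    have h4 := hs.2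
    have h5 := ht.2
    rw [e] at h3
    omega

theorem phi_RR (s u : ν × Fin 4) : R.phi s (RR u) = 0 := by
  unfold RR
  split_ifs
  · exact map_zero _
  · rw [map_neg, phi_sg, psi_same s (u := (u.1, 0)) (v := u) rfl, neg_zero]

theorem phi_chain {s : ν × Fin 4} (hs : R.src s) (a : ν × Fin 4 → ℤ) :
    R.phi s (R.chain a) = a s := by
  rw [chain, map_sum, sum_congr rfl fun t ht => by
    rw [map_smul, CC, map_add, map_add, map_neg, phi_RR, phi_RR, phi_sg,
      psi_dg hs (mem_filter.1 ht).2]]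
  simp [hs]

theorem relE {u v : ν × Fin 4} (h : Edge R.T u v) : sg u v + sg v u ∈ Bdry R.T :=
  Submodule.subset_span (Or.inl ⟨_, _, h, rfl⟩)

theorem relT {a b c : ν × Fin 4} (h : R.T a b c) : sg a b + sg b c + sg c a ∈ Bdry R.T :=
  Submodule.subset_span (Or.inr ⟨a, b, c, h, rfl⟩)

theorem Dv_bdry {c : Ch ν} (h : c ∈ Bdry R.T) : Dv c = 0 := by
  refine (Submodule.span_le (p := LinearMap.ker Dv)).2 ?_ h
  rintro _ (⟨a, b, -, rfl⟩ | ⟨a, b, d, -, rfl⟩)
  · have e : Dv (sg a b + sg b a) = 0 := by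
      simp only [map_add, Dv_sg]
      abel
    exact e
  · have e : Dv (sg a b + sg b d + sg d a) = 0 := by
      simp only [map_add, Dv_sg]
      abel
    exact e

theorem phi_bdry (s : ν × Fin 4) {c : Ch ν} (h : c ∈ Bdry R.T) : R.phi s c = 0 := by
  refine (Submodule.span_le (p := LinearMap.ker (R.phi s))).2 ?_ h
  rintro _ (⟨a, b, -, rfl⟩ | ⟨a, b, d, h, rfl⟩)
  · have e : R.phi s (sg a b + sg b a) = 0 := by
      simp only [map_add, phi_sg, psi_swap s a b, add_neg_cancel]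
    exact e
  · have e : R.phi s (sg a b + sg b d + sg d a) = 0 := by
      simp only [map_add, phi_sg]
      exact psi_tri s h
    exact e

theorem GoodE.symm {u v : ν × Fin 4} (h : R.GoodE u v) (he : Edge R.T u v ∨ Edge R.T v u) :
    R.GoodE v u := by
  have h1 : sg u v + sg v u ∈ Bdry R.T := by
    rcases he with he | he
    · exact relE he
    · rw [add_comm]; exact relE he
  have := Submodule.sub_mem _ h1 h
  unfold GoodE
  simp only [psi_swap _ u v, neg_smul, sum_neg_distrib]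
  refine (congrArg (· ∈ Bdry R.T) ?_).mp this
  abel

theorem GoodE.tri {a b c : ν × Fin 4} (h : R.T a b c) (h1 : R.GoodE a b)
    (h2 : R.GoodE b c) : R.GoodE c a := by
  have := Submodule.sub_mem _ (Submodule.sub_mem _ (relT h) h1) h2
  unfold GoodE
  have e : ∑ s ∈ univ.filter R.src, R.psi s c a • R.CC s =
      -∑ s ∈ univ.filter R.src, R.psi s a b • R.CC s -
        ∑ s ∈ univ.filter R.src, R.psi s b c • R.CC s := by
    rw [← sum_neg_distrib, ← sum_sub_distrib]
    refine sum_congr rfl fun s _ => ?_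
    have := psi_tri s h
    rw [← neg_smul, ← sub_smul]
    congr 1
    omega
  rw [e]
  refine (congrArg (· ∈ Bdry R.T) ?_).mp this
  abel

theorem good_base (n : ν) {i : Fin 4} (hi : i ≠ 0) : R.GoodE (n, 0) (n, i) := by
  unfold GoodE
  rw [sum_eq_zero fun s _ => by rw [psi_same s (u := (n, 0)) (v := (n, i)) rfl, zero_smul]]
  simp [RR, hi]

theorem good_sc (u : ν × Fin 4) : R.GoodE u (sc u) := by
  obtain ⟨n, i⟩ := u
  have g3 : R.GoodE (n, 3) (n, 0) :=
    (good_base n (by decide)).symm (Or.inr ⟨_, (t023 n).rot.rot⟩)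
  rcases fin4 i with rfl | rfl | rfl | rfl
  · exact good_base n (i := 1) (by decide)
  · exact GoodE.tri (t012 n).rot.rot
      ((good_base n (i := 2) (by decide)).symm (Or.inl ⟨_, t023 n⟩))
      (good_base n (i := 1) (by decide))
  · exact GoodE.tri (t023 n).rot.rot g3 (good_base n (i := 2) (by decide))
  · exact g3

theorem good_dg {s : ν × Fin 4} (h : R.γ s ≠ s) : R.GoodE (sc s) (sc (R.γ s)) := by
  have key : ∀ s, R.src s → R.GoodE (sc s) (sc (R.γ s)) := by
    intro s hs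
    unfold GoodE
    rw [sum_congr rfl fun t ht => by rw [psi_dg (mem_filter.1 ht).2 hs]]
    simp only [ite_smul, one_smul, zero_smul, sum_ite_eq, mem_filter, mem_univ, hs, and_self,
      if_true, CC]
    refine (congrArg (· ∈ Bdry R.T) ?_).mp (Submodule.zero_mem _)
    abel
  rcases src_or h with hs | hs
  · exact key s hs
  · have := key _ hs
    rw [R.inv] at this
    exact this.symm (Or.inl ⟨_, (tA h).rot.rot⟩)

theorem good_edge {u v : ν × Fin 4} (h : Edge R.T u v) : R.GoodE u v := by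
  have h0 := h
  rw [edge_iff] at h
  rcases h with rfl | ⟨h1, h2⟩ | ⟨h, rfl⟩ | ⟨c, h, rfl, rfl⟩ | ⟨h, rfl⟩
  · exact good_sc u
  · obtain ⟨n, i⟩ := u
    obtain ⟨n', i'⟩ := v
    simp only at h1 h2
    subst h1
    rcases h2 with ⟨rfl, rfl⟩ | ⟨rfl, rfl⟩
    · exact good_base n (by decide)
    · exact (good_base n (by decide)).symm (Or.inr h0)
  · exact (good_sc v).symm (Or.inr h0)
  · exact (good_dg h).symm (Or.inr h0)
  · exact GoodE.tri (tA h).rot.rot ((good_dg h).symm (Or.inr ⟨_, (tA h).rot.rot⟩))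
      ((good_sc u).symm (Or.inr ⟨_, tA h⟩))

theorem cycle_reduce {c : Ch ν} (hc : IsCycle R.T c) :
    c - R.chain (fun s => R.phi s c) ∈ Bdry R.T := by
  have h1 : ∑ e, c e • (sg e.1 e.2 - (RR e.1 - RR e.2) -
      ∑ s ∈ univ.filter R.src, R.psi s e.1 e.2 • R.CC s) ∈ Bdry R.T := by
    refine Submodule.sum_mem _ fun e _ => ?_
    by_cases he : c e = 0
    · rw [he, zero_smul]; exact Submodule.zero_mem _
    · refine Submodule.smul_mem _ _ ?_
      rcases hc.1 e he with h | h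
      · exact good_edge h
      · exact (good_edge h).symm (Or.inl h)
  refine (congrArg (· ∈ Bdry R.T) ?_).mp h1
  simp only [smul_sub, sum_sub_distrib]
  have e1 : ∑ e, c e • (sg e.1 e.2 : Ch ν) = c := by
    simp only [sg, ← Pi.single_smul, smul_eq_mul, mul_one]
    exact Finset.univ_sum_single c
  have e2 : (∑ e, c e • RR e.1 : Ch ν) = ∑ e, c e • RR e.2 := by
    rw [Fintype.sum_prod_type (fun e => c e • RR e.1),
      Fintype.sum_prod_type_right (fun e => c e • RR e.2)]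
    refine sum_congr rfl fun v _ => ?_
    simp only [← sum_smul]
    rw [hc.2 v]
  have e3 : ∑ e, c e • ∑ s ∈ univ.filter R.src, R.psi s e.1 e.2 • R.CC s =
      R.chain fun s => R.phi s c := by
    simp only [smul_sum, smul_smul]
    rw [sum_comm, chain]
    refine sum_congr rfl fun k _ => ?_
    rw [← sum_smul]
    rfl
  rw [e1, e2, e3, sub_self, sub_zero]

theorem chain_congr {a b : ν × Fin 4 → ℤ} (h : ∀ s, R.src s → a s = b s) :
    R.chain a = R.chain b :=
  sum_congr rfl fun s hs => by rw [h s (mem_filter.1 hs).2]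

theorem chain_sum {ι : Type} [Fintype ι] (x : ι → ℤ) (a : ι → ν × Fin 4 → ℤ) :
    R.chain (fun s => ∑ i, x i * a i s) = ∑ i, x i • R.chain (a i) := by
  simp only [chain, sum_smul, smul_sum, smul_smul]
  rw [sum_comm]

theorem homology_basis {ι : Type} [Fintype ι] {a : ι → ν × Fin 4 → ℤ} (hB : R.IsBasis a)
    {c : Ch ν} (hc : IsCycle R.T c) :
    ∃! x : ι → ℤ, c - ∑ i, x i • R.chain (a i) ∈ Bdry R.T := by
  have h1 := cycle_reduce hc
  have h2 : Dv c = 0 := by
    ext v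
    exact sub_eq_zero.2 (hc.2 v)
  have h3 : ∀ n, R.bd (fun s => R.phi s c) n = 0 := by
    intro n
    have h4 := Dv_bdry h1
    rw [map_sub, h2, zero_sub, neg_eq_zero] at h4
    have h5 := congrFun h4 (n, 0)
    rw [Dv_chain, if_pos rfl] at h5
    exact h5
  obtain ⟨x, hx, ux⟩ := hB.2 _ h3
  refine ⟨x, ?_, fun y hy => ux y fun s hs => ?_⟩
  · beta_reduce
    rwa [← chain_sum, ← chain_congr hx]
  · have := phi_bdry s hy
    rwa [← chain_sum, map_sub, phi_chain hs, sub_eq_zero] at this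

variable (R) in
def Supp : Submodule ℤ (Ch ν) where
  carrier := {c | ∀ e, c e ≠ 0 → R.Used e.1 e.2}
  zero_mem' := fun _ h => absurd rfl h
  add_mem' := fun {a b} ha hb e he => by
    by_cases h : a e = 0
    · exact hb e (by simpa [h] using he)
    · exact ha e h
  smul_mem' := fun z a ha e he => ha e (right_ne_zero_of_mul he)

theorem sg_mem {u v : ν × Fin 4} (h : R.Used u v) : sg u v ∈ R.Supp := by
  intro e he
  have : e = (u, v) := by
    by_contra hc
    exact he (Pi.single_eq_of_ne hc _)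
  rw [this]
  exact h

theorem RR_mem {s : ν × Fin 4} (h : R.γ s ≠ s) : RR (sc s) ∈ R.Supp := by
  unfold RR
  split_ifs with e
  · exact Submodule.zero_mem _
  · exact Submodule.neg_mem _ (sg_mem (Or.inl ⟨rfl, e, s, h, rfl⟩))

theorem chain_mem (a : ν × Fin 4 → ℤ) : R.chain a ∈ R.Supp :=
  Submodule.sum_mem _ fun s hs => Submodule.smul_mem _ _ <| by
    have h := (mem_filter.1 hs).2
    exact Submodule.add_mem _ (Submodule.add_mem _ (Submodule.neg_mem _ (RR_mem h.1))
      (sg_mem (Or.inr ⟨s, h, rfl, rfl⟩))) (RR_mem (glued_γ h.1))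

theorem isCycle_chain {a : ν × Fin 4 → ℤ} (ha : ∀ n, R.bd a n = 0) :
    IsCycle R.T (R.chain a) := by
  refine ⟨fun e he => ?_, fun v => ?_⟩
  · obtain ⟨u, n, i⟩ := e
    rcases chain_mem a _ he with ⟨h1, h2, -⟩ | ⟨s, h, h1, h2⟩
    · simp only at h1 h2 ⊢
      subst h1
      rcases fin4 i with rfl | rfl | rfl | rfl
      · exact absurd rfl h2
      · exact Or.inl ⟨_, t012 n⟩
      · exact Or.inl ⟨_, t023 n⟩
      · exact Or.inr ⟨_, (t023 n).rot.rot⟩
    · rw [h1, h2]
      exact Or.inr ⟨_, (tA h.1).rot.rot⟩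
  · have := Dv_chain (R := R) a v
    rw [ha, ite_self] at this
    exact sub_eq_zero.1 this

end Rib

end Pool.Agent.P.MP_06cdda_gt
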