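import Pool.Agent.P.MP_06cdda_gt.Fence
import Pool.Agent.P.MP_06cdda_gt.Cycle

open Relation

set_option linter.unusedSimpArgs false
set_option linter.unreachableTactic false
set_option linter.unusedTactic false

namespace Pool.Agent.P.MP_06cdda_gt

namespace Fence

variable (F : Fence)

def Cell (x y1 y2 : ℕ) : Prop :=
  (x + 1 < 2 * F.m ∧ y1 % 2 = 0 ∧ y2 = y1 + 1 ∧ y2 < 2 * (F.N + 2)) ∨
  ∃ k, k < F.m ∧ x = 2 * k ∧ y1 = 2 * F.bot k + 1 ∧ y2 = 2 * F.top k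

def T0 (a b c : ℕ × ℕ) : Prop := ∃ x y1 y2, F.Cell x y1 y2 ∧
  ((a = (x, y1) ∧ b = (x + 1, y1) ∧ c = (x + 1, y2)) ∨
    (a = (x, y1) ∧ b = (x + 1, y2) ∧ c = (x, y2)))

def T1 (a b c : ℕ × ℕ) : Prop := F.T0 a b c ∨ F.T0 b c a ∨ F.T0 c a b

def InR (u : ℕ × ℕ) : Prop := u.1 < 2 * F.m ∧ u.2 < 2 * (F.N + 2)

abbrev X : Type := {u : ℕ × ℕ // F.InR u}

instance : Fintype F.X :=
  Fintype.subtype (Finset.range (2 * F.m) ×ˢ Finset.range (2 * (F.N + 2))) (by simp [InR])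

def TT (a b c : F.X) : Prop := F.T1 a.1 b.1 c.1

def E0 (u v : ℕ × ℕ) : Prop := ∃ x y1 y2, F.Cell x y1 y2 ∧
  ((u = (x, y1) ∧ v = (x + 1, y1)) ∨ (u = (x + 1, y1) ∧ v = (x + 1, y2)) ∨
   (u = (x + 1, y2) ∧ v = (x, y1)) ∨ (u = (x, y1) ∧ v = (x + 1, y2)) ∨
   (u = (x + 1, y2) ∧ v = (x, y2)) ∨ (u = (x, y2) ∧ v = (x, y1)))

def nxt (u : ℕ × ℕ) : ℕ × ℕ :=
  if u.2 % 2 = 0 then
    if u.1 + 1 = 2 * F.m then (u.1, u.2 + 1)
    else if u.1 % 2 = 0 ∧ u.2 = 2 * F.top (u.1 / 2) then (u.1, 2 * F.bot (u.1 / 2) + 1)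
    else (u.1 + 1, u.2)
  else
    if u.1 = 0 then (0, u.2 - 1)
    else if u.1 % 2 = 1 ∧ u.2 = 2 * F.bot (u.1 / 2) + 1 then (u.1, 2 * F.top (u.1 / 2))
    else (u.1 - 1, u.2)

variable {F}

theorem Cell.lt (hF : F.Valid) {x y1 y2 : ℕ} (h : F.Cell x y1 y2) :
    y1 < y2 ∧ x + 1 < 2 * F.m ∧ y2 < 2 * (F.N + 2) := by
  rcases h with h | ⟨k, hk, h⟩
  · omega
  · have := hF.2 k hk
    omega

theorem Cell.pair {x y1 y2 x' y1' y2' : ℕ} (h : F.Cell x y1 y2)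
    (h' : F.Cell x' y1' y2') : x = x' → (y1 = y1' ↔ y2 = y2') := by
  rintro rfl
  rcases h with h | ⟨k, hk, h⟩ <;> rcases h' with h' | ⟨k', hk', h'⟩
  · omega
  · omega
  · omega
  · obtain rfl : k = k' := by omega
    omega

theorem T1.rot {a b c : ℕ × ℕ} (h : F.T1 a b c) : F.T1 b c a := by
  rcases h with h | h | h
  · exact Or.inr (Or.inr h)
  · exact Or.inl h
  · exact Or.inr (Or.inl h)

theorem T0.inR (hF : F.Valid) {a b c : ℕ × ℕ} (h : F.T0 a b c) : F.InR a ∧ F.InR b ∧ F.InR c := by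
  obtain ⟨x, y1, y2, hc, h⟩ := h
  have := hc.lt hF
  rcases h with ⟨rfl, rfl, rfl⟩ | ⟨rfl, rfl, rfl⟩ <;> simp only [InR] <;> omega

theorem T1.inR (hF : F.Valid) {a b c : ℕ × ℕ} (h : F.T1 a b c) : F.InR a ∧ F.InR b ∧ F.InR c := by
  rcases h with h | h | h <;> have := h.inR hF <;> tauto

theorem T1.uniq (hF : F.Valid) {a b c d : ℕ × ℕ} (h : F.T1 a b c) (h' : F.T1 a b d) : c = d := by
  rcases h with ⟨x, y1, y2, hc, h⟩ | ⟨x, y1, y2, hc, h⟩ | ⟨x, y1, y2, hc, h⟩ <;>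
  rcases h' with ⟨x', y1', y2', hc', h'⟩ | ⟨x', y1', y2', hc', h'⟩ | ⟨x', y1', y2', hc', h'⟩ <;>
  · have h1 := hc.lt hF
    have h2 := hc'.lt hF
    have h3 := hc.pair hc'
    simp only [Prod.ext_iff] at h h' ⊢
    omega

theorem lower {x y1 y2 : ℕ} (h : F.Cell x y1 y2) : F.T1 (x, y1) (x + 1, y1) (x + 1, y2) :=
  Or.inl ⟨x, y1, y2, h, Or.inl ⟨rfl, rfl, rfl⟩⟩

theorem upper {x y1 y2 : ℕ} (h : F.Cell x y1 y2) : F.T1 (x, y1) (x + 1, y2) (x, y2) :=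
  Or.inl ⟨x, y1, y2, h, Or.inr ⟨rfl, rfl, rfl⟩⟩

theorem e0_iff {u v : ℕ × ℕ} : F.E0 u v ↔ ∃ c, F.T1 u v c := by
  constructor
  · rintro ⟨x, y1, y2, hc, ⟨rfl, rfl⟩ | ⟨rfl, rfl⟩ | ⟨rfl, rfl⟩ | ⟨rfl, rfl⟩ | ⟨rfl, rfl⟩ | ⟨rfl, rfl⟩⟩
    · exact ⟨_, lower hc⟩
    · exact ⟨_, (lower hc).rot⟩
    · exact ⟨_, (lower hc).rot.rot⟩
    · exact ⟨_, upper hc⟩
    · exact ⟨_, (upper hc).rot⟩
    · exact ⟨_, (upper hc).rot.rot⟩
  · rintro ⟨c, ⟨x, y1, y2, hc, h⟩ | ⟨x, y1, y2, hc, h⟩ | ⟨x, y1, y2, hc, h⟩⟩ <;>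
    exact ⟨x, y1, y2, hc, by tauto⟩

theorem edge_iff (hF : F.Valid) {u v : F.X} : Edge F.TT u v ↔ F.E0 u.1 v.1 := by
  rw [e0_iff]
  constructor
  · rintro ⟨c, hc⟩
    exact ⟨c.1, hc⟩
  · rintro ⟨c, hc⟩
    exact ⟨⟨c, (hc.inR hF).2.2⟩, hc⟩

theorem E0.inR (hF : F.Valid) {u v : ℕ × ℕ} (h : F.E0 u v) : F.InR u ∧ F.InR v := by
  obtain ⟨c, hc⟩ := e0_iff.1 h
  exact ⟨(hc.inR hF).1, (hc.inR hF).2.1⟩

/-- Quantifier free description of the oriented edges. -/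
theorem e0_closed {u v : ℕ × ℕ} : F.E0 u v ↔
    (u.2 % 2 = 0 ∧ u.1 + 1 < 2 * F.m ∧ u.2 + 1 < 2 * (F.N + 2) ∧ v.1 = u.1 + 1 ∧
      (v.2 = u.2 ∨ v.2 = u.2 + 1)) ∨
    (u.2 % 2 = 0 ∧ 1 ≤ u.1 ∧ u.1 < 2 * F.m ∧ u.2 + 1 < 2 * (F.N + 2) ∧ v.1 = u.1 ∧ v.2 = u.2 + 1) ∨
    (u.2 % 2 = 1 ∧ u.1 < 2 * F.m ∧ u.2 < 2 * (F.N + 2) ∧ v.1 + 1 = u.1 ∧
      (v.2 + 1 = u.2 ∨ v.2 = u.2)) ∨
    (u.2 % 2 = 1 ∧ u.1 + 1 < 2 * F.m ∧ u.2 < 2 * (F.N + 2) ∧ v.1 = u.1 ∧ v.2 + 1 = u.2) ∨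
    (u.1 % 2 = 0 ∧ u.1 < 2 * F.m ∧ u.2 = 2 * F.bot (u.1 / 2) + 1 ∧ v.1 = u.1 + 1 ∧
      (v.2 = u.2 ∨ v.2 = 2 * F.top (u.1 / 2))) ∨
    (u.1 % 2 = 1 ∧ u.1 < 2 * F.m ∧ u.2 = 2 * F.bot (u.1 / 2) + 1 ∧ v.1 = u.1 ∧
      v.2 = 2 * F.top (u.1 / 2)) ∨
    (u.1 % 2 = 1 ∧ u.1 < 2 * F.m ∧ u.2 = 2 * F.top (u.1 / 2) ∧ v.1 + 1 = u.1 ∧
      (v.2 = 2 * F.bot (u.1 / 2) + 1 ∨ v.2 = u.2)) ∨
    (u.1 % 2 = 0 ∧ u.1 < 2 * F.m ∧ u.2 = 2 * F.top (u.1 / 2) ∧ v.1 = u.1 ∧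
      v.2 = 2 * F.bot (u.1 / 2) + 1) := by
  obtain ⟨x, y⟩ := u
  obtain ⟨x', y'⟩ := v
  constructor
  · rintro ⟨x0, y1, y2, hc | ⟨k, hk, hc⟩, h⟩
    · simp only [Prod.mk.injEq] at h ⊢
      rcases h with h | h | h | h | h | h <;> first
        | exact Or.inl (by omega)
        | exact Or.inr (Or.inl (by omega))
        | exact Or.inr (Or.inr (Or.inl (by omega)))
        | exact Or.inr (Or.inr (Or.inr (Or.inl (by omega))))
        | exact Or.inr (Or.inr (Or.inr (Or.inr (Or.inl (by omega)))))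
        | exact Or.inr (Or.inr (Or.inr (Or.inr (Or.inr (Or.inl (by omega))))))
        | exact Or.inr (Or.inr (Or.inr (Or.inr (Or.inr (Or.inr (Or.inl (by omega)))))))
        | exact Or.inr (Or.inr (Or.inr (Or.inr (Or.inr (Or.inr (Or.inr (by omega)))))))
    · have hb : x / 2 = k → F.bot (x / 2) = F.bot k := fun h => by rw [h]
      have ht : x / 2 = k → F.top (x / 2) = F.top k := fun h => by rw [h]
      simp only [Prod.mk.injEq] at h ⊢
      rcases h with h | h | h | h | h | h <;> first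
        | exact Or.inl (by omega)
        | exact Or.inr (Or.inl (by omega))
        | exact Or.inr (Or.inr (Or.inl (by omega)))
        | exact Or.inr (Or.inr (Or.inr (Or.inl (by omega))))
        | exact Or.inr (Or.inr (Or.inr (Or.inr (Or.inl (by omega)))))
        | exact Or.inr (Or.inr (Or.inr (Or.inr (Or.inr (Or.inl (by omega))))))
        | exact Or.inr (Or.inr (Or.inr (Or.inr (Or.inr (Or.inr (Or.inl (by omega)))))))
        | exact Or.inr (Or.inr (Or.inr (Or.inr (Or.inr (Or.inr (Or.inr (by omega)))))))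
  · simp only
    rintro (h | h | h | h | h | h | h | h)
    · exact ⟨x, y, y + 1, Or.inl (by omega), by simp only [Prod.mk.injEq, true_and, and_true]; omega⟩
    · exact ⟨x - 1, y, y + 1, Or.inl (by omega), by simp only [Prod.mk.injEq, true_and, and_true]; omega⟩
    · exact ⟨x - 1, y - 1, y, Or.inl (by omega), by simp only [Prod.mk.injEq, true_and, and_true]; omega⟩
    · exact ⟨x, y - 1, y, Or.inl (by omega), by simp only [Prod.mk.injEq, true_and, and_true]; omega⟩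
    · exact ⟨x, y, _, Or.inr ⟨x / 2, by omega, by omega, by omega, rfl⟩,
        by simp only [Prod.mk.injEq, true_and, and_true]; omega⟩
    · exact ⟨x - 1, y, _, Or.inr ⟨x / 2, by omega, by omega, by omega, rfl⟩,
        by simp only [Prod.mk.injEq, true_and, and_true]; omega⟩
    · exact ⟨x - 1, _, y, Or.inr ⟨x / 2, by omega, by omega, rfl, by omega⟩,
        by simp only [Prod.mk.injEq, true_and, and_true]; omega⟩
    · exact ⟨x, _, y, Or.inr ⟨x / 2, by omega, by omega, rfl, by omega⟩,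
        by simp only [Prod.mk.injEq, true_and, and_true]; omega⟩

theorem bd_iff (hF : F.Valid) {u v : ℕ × ℕ} (hu : F.InR u) :
    (F.E0 u v ∧ ¬ F.E0 v u) ↔ v = F.nxt u := by
  obtain ⟨x, y⟩ := u
  obtain ⟨x', y'⟩ := v
  have hb : x' / 2 = x / 2 → F.bot (x' / 2) = F.bot (x / 2) := fun h => by rw [h]
  have ht : x' / 2 = x / 2 → F.top (x' / 2) = F.top (x / 2) := fun h => by rw [h]
  have h1 := hF.2 (x / 2)
  have h2 := hF.1
  simp only [InR] at hu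
  simp only [e0_closed, nxt]
  constructor
  · rintro ⟨h, hn⟩
    by_contra hc
    apply hn
    clear hn
    split_ifs at hc <;> simp only [Prod.mk.injEq] at hc <;>
      rcases h with ⟨a1, a2, a3, a4, h | h⟩ | h | ⟨a1, a2, a3, a4, h | h⟩ | h |
        ⟨a1, a2, a3, a4, h | h⟩ | h | ⟨a1, a2, a3, a4, h | h⟩ | h <;> first
        | exact Or.inl (by omega)
        | exact Or.inr (Or.inl (by omega))
        | exact Or.inr (Or.inr (Or.inl (by omega)))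
        | exact Or.inr (Or.inr (Or.inr (Or.inl (by omega))))
        | exact Or.inr (Or.inr (Or.inr (Or.inr (Or.inl (by omega)))))
        | exact Or.inr (Or.inr (Or.inr (Or.inr (Or.inr (Or.inl (by omega))))))
        | exact Or.inr (Or.inr (Or.inr (Or.inr (Or.inr (Or.inr (Or.inl (by omega)))))))
        | exact Or.inr (Or.inr (Or.inr (Or.inr (Or.inr (Or.inr (Or.inr (by omega)))))))
  · intro h
    split_ifs at h <;> simp only [Prod.mk.injEq] at h <;> refine ⟨?_, fun h' => ?_⟩ <;> first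
        | (rcases h' with h' | h' | h' | h' | h' | h' | h' | h' <;> omega)
        | exact Or.inl (by omega)
        | exact Or.inr (Or.inl (by omega))
        | exact Or.inr (Or.inr (Or.inl (by omega)))
        | exact Or.inr (Or.inr (Or.inr (Or.inl (by omega))))
        | exact Or.inr (Or.inr (Or.inr (Or.inr (Or.inl (by omega)))))
        | exact Or.inr (Or.inr (Or.inr (Or.inr (Or.inr (Or.inl (by omega))))))
        | exact Or.inr (Or.inr (Or.inr (Or.inr (Or.inr (Or.inr (Or.inl (by omega)))))))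
        | exact Or.inr (Or.inr (Or.inr (Or.inr (Or.inr (Or.inr (Or.inr (by omega)))))))

theorem nxt_inR (hF : F.Valid) {u : ℕ × ℕ} (hu : F.InR u) : F.InR (F.nxt u) :=
  (((bd_iff hF hu).2 rfl).1.inR hF).2

theorem nxt_inj (hF : F.Valid) {u v : ℕ × ℕ} (hu : F.InR u) (hv : F.InR v)
    (h : F.nxt u = F.nxt v) : u = v := by
  obtain ⟨x, y⟩ := u
  obtain ⟨x', y'⟩ := v
  have hb : x' / 2 = x / 2 → F.bot (x' / 2) = F.bot (x / 2) := fun h => by rw [h]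
  have ht : x' / 2 = x / 2 → F.top (x' / 2) = F.top (x / 2) := fun h => by rw [h]
  have h1 := hF.2 (x / 2)
  have h1' := hF.2 (x' / 2)
  have h2 := hF.1
  simp only [InR] at hu hv
  simp only [nxt] at h
  split_ifs at h <;> simp only [Prod.mk.injEq] at h ⊢ <;> omega

/-- Every colouring invariant under the boundary successor is constant. -/
theorem nxt_conn (hF : F.Valid) (iF : F.Inv) (χ : ℕ × ℕ → Prop)
    (hχ : ∀ u, F.InR u → χ (F.nxt u) = χ u) {u v : ℕ × ℕ} (hu : F.InR u) (hv : F.InR v) :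
    χ u = χ v := by
  have h2 := hF.1
  have step : ∀ x y x' y', F.InR (x, y) → F.nxt (x, y) = (x', y') → χ (x', y') = χ (x, y) :=
    fun x y x' y' h e => by rw [← e]; exact hχ _ h
  have gap : ∀ k y, k < F.m → y < 2 * (F.N + 2) → χ (2 * k, y) = χ (2 * k - 1, y) := by
    intro k y hk hy
    rcases Nat.eq_zero_or_pos k with rfl | hk0
    · rfl
    · by_cases he : y % 2 = 0
      · refine step _ _ _ _ ⟨by simp only; omega, hy⟩ ?_
        simp only [nxt]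
        rw [if_pos he, if_neg (by omega), if_neg (by omega), Prod.mk.injEq]
        omega
      · refine (step _ _ _ _ ⟨by simp only; omega, hy⟩ ?_).symm
        simp only [nxt]
        rw [if_neg he, if_neg (by omega), if_neg (by omega)]
  have hend : ∀ l, l < F.N + 2 → χ (2 * F.m - 1, 2 * l + 1) = χ (2 * F.m - 1, 2 * l) := by
    intro l hl
    refine step _ _ _ _ ⟨by simp only; omega, by simp only; omega⟩ ?_
    simp only [nxt]
    rw [if_pos (by omega), if_pos (by omega)]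
  have col : F.Col (fun k l => χ (2 * k - 1, 2 * l + 1)) (fun k l => χ (2 * k - 1, 2 * l)) := by
    refine ⟨fun l hl => ?_, fun k hk => ?_⟩
    · refine (step _ _ _ _ ⟨by simp only; omega, by simp only; omega⟩ ?_).symm
      simp only [nxt]
      rw [if_neg (by omega), if_pos (by simp), Prod.mk.injEq]
      omega
    · have h1 := hF.2 k hk
      have e1 : 2 * (k + 1) - 1 = 2 * k + 1 := by omega
      have e2 : (2 * k + 1) / 2 = k := by omega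
      have e3 : (2 * k) / 2 = k := by omega
      simp only [e1]
      refine ⟨?_, ?_, fun l hl hne => ?_, fun l hl hne => ?_⟩
      · refine (step _ _ _ _ ⟨by simp only; omega, by simp only; omega⟩ ?_).symm
        simp only [nxt, e2]
        rw [if_neg (by omega), if_neg (by omega), if_pos ⟨by omega, trivial⟩]
      · rw [← gap k _ hk (by omega), ← gap k _ hk (by omega)]
        refine step _ _ _ _ ⟨by simp only; omega, by simp only; omega⟩ ?_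
        simp only [nxt, e3]
        rw [if_pos (by omega), if_neg (by omega), if_pos ⟨by omega, trivial⟩]
      · rw [← gap k _ hk (by omega)]
        refine (step _ _ _ _ ⟨by simp only; omega, by simp only; omega⟩ ?_).symm
        simp only [nxt, e2]
        rw [if_neg (by omega), if_neg (by omega), if_neg (by omega), Prod.mk.injEq]
        omega
      · rw [← gap k _ hk (by omega)]
        refine step _ _ _ _ ⟨by simp only; omega, by simp only; omega⟩ ?_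
        simp only [nxt, e3]
        rw [if_pos (by omega), if_neg (by omega), if_neg (by omega)]
  obtain ⟨-, A2, A3⟩ := iF Prop _ _ col fun l hl => hend l (by omega)
  have A4 := A3 ((hend F.N (by omega)).trans A2.symm)
  have all : ∀ w, F.InR w → χ w = χ (2 * F.m - 1, 2 * F.N + 1) := by
    rintro ⟨x, y⟩ ⟨hx, hy⟩
    simp only at hx hy
    have e : χ (x, y) = χ (2 * ((x + 1) / 2) - 1, y) := by
      rcases Nat.even_or_odd' x with ⟨k, rfl | rfl⟩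
      · rw [gap k y (by omega) hy, show (2 * k + 1) / 2 = k by omega]
      · rw [show 2 * ((2 * k + 1 + 1) / 2) - 1 = 2 * k + 1 by omega]
    rw [e]
    rcases Nat.even_or_odd' y with ⟨l, rfl | rfl⟩
    · exact (A4 _ (by omega) l (by omega)).2
    · exact (A4 _ (by omega) l (by omega)).1
  rw [all u hu, all v hv]

def nxtX (hF : F.Valid) (u : F.X) : F.X := ⟨F.nxt u.1, nxt_inR hF u.2⟩

theorem nxtX_conn (hF : F.Valid) (iF : F.Inv) (χ : F.X → Prop)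
    (hχ : ∀ u, χ (nxtX hF u) = χ u) (u v : F.X) : χ u = χ v := by
  have := nxt_conn hF iF (fun w => ∃ h : F.InR w, χ ⟨w, h⟩) (fun w hw => propext
    ⟨fun ⟨_, h⟩ => ⟨hw, (hχ ⟨w, hw⟩) ▸ h⟩, fun ⟨_, h⟩ => ⟨nxt_inR hF hw, (hχ ⟨w, hw⟩).symm ▸ h⟩⟩)
    u.2 v.2
  refine propext ⟨fun h => ?_, fun h => ?_⟩
  · obtain ⟨_, h'⟩ := this ▸ (⟨u.2, h⟩ : ∃ h : F.InR u.1, χ ⟨u.1, h⟩)
    exact h'
  · obtain ⟨_, h'⟩ := this.symm ▸ (⟨v.2, h⟩ : ∃ h : F.InR v.1, χ ⟨v.1, h⟩)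
    exact h'

theorem bdX_iff (hF : F.Valid) {u v : F.X} :
    (Edge F.TT u v ∧ ¬ Edge F.TT v u) ↔ v = nxtX hF u := by
  rw [edge_iff hF, edge_iff hF, bd_iff hF u.2]
  exact ⟨fun h => Subtype.ext h, fun h => congrArg Subtype.val h⟩

theorem lift_eqv (hF : F.Valid) (v : F.X) {a b : ℕ × ℕ} (h : EqvGen (F.T1 v.1) a b) :
    (F.InR a ↔ F.InR b) ∧ ∀ ha hb, EqvGen (F.TT v) ⟨a, ha⟩ ⟨b, hb⟩ := by
  induction h with
  | rel a b h =>
    exact ⟨⟨fun _ => (h.inR hF).2.2, fun _ => (h.inR hF).2.1⟩, fun _ _ => EqvGen.rel _ _ h⟩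
  | refl a => exact ⟨Iff.rfl, fun _ _ => EqvGen.refl _⟩
  | symm a b _ ih => exact ⟨ih.1.symm, fun ha hb => (ih.2 hb ha).symm⟩
  | trans a b c _ _ ih ih' =>
    exact ⟨ih.1.trans ih'.1, fun ha hc => (ih.2 ha (ih.1.1 ha)).trans _ _ _ (ih'.2 _ hc)⟩

def hub (v : ℕ × ℕ) : ℕ × ℕ := if v.2 % 2 = 0 then (v.1, v.2 + 1) else (v.1, v.2 - 1)

theorem row_hub {x y : ℕ} (hc : F.Cell x y (y + 1)) (hy : y % 2 = 0) :
    EqvGen (F.T1 (x, y)) (x + 1, y) (hub (x, y)) ∧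
    EqvGen (F.T1 (x + 1, y)) (x, y) (hub (x + 1, y)) ∧
    EqvGen (F.T1 (x + 1, y + 1)) (x, y + 1) (hub (x + 1, y + 1)) ∧
    EqvGen (F.T1 (x, y + 1)) (x + 1, y + 1) (hub (x, y + 1)) := by
  simp only [hub]
  rw [if_pos hy, if_pos hy, if_neg (by omega), if_neg (by omega), Nat.add_sub_cancel]
  exact ⟨(EqvGen.rel _ _ (lower hc)).trans _ _ _ (EqvGen.rel _ _ (upper hc)),
    (EqvGen.rel _ _ (lower hc).rot).symm,
    (EqvGen.rel _ _ (upper hc).rot).trans _ _ _ (EqvGen.rel _ _ (lower hc).rot.rot),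
    (EqvGen.rel _ _ (upper hc).rot.rot).symm⟩

theorem cell_hub (hF : F.Valid) {x y1 y2 : ℕ} (hc : F.Cell x y1 y2) :
    EqvGen (F.T1 (x, y1)) (x + 1, y1) (hub (x, y1)) ∧
    EqvGen (F.T1 (x + 1, y1)) (x, y1) (hub (x + 1, y1)) ∧
    EqvGen (F.T1 (x + 1, y2)) (x, y2) (hub (x + 1, y2)) ∧
    EqvGen (F.T1 (x, y2)) (x + 1, y2) (hub (x, y2)) := by
  have hl := hc.lt hF
  rcases hc with ⟨h1, h2, rfl, h3⟩ | ⟨k, hk, rfl, rfl, rfl⟩
  · exact row_hub (Or.inl ⟨h1, h2, rfl, h3⟩) h2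
  · have a := row_hub (F := F) (x := 2 * k) (y := 2 * F.bot k) (Or.inl (by omega)) (by omega)
    have b := row_hub (F := F) (x := 2 * k) (y := 2 * F.top k) (Or.inl (by omega)) (by omega)
    exact ⟨a.2.2.2, a.2.2.1, b.2.1, b.1⟩

theorem t1_hub (hF : F.Valid) {v a b : ℕ × ℕ} (h : F.T1 v a b) : EqvGen (F.T1 v) a (hub v) := by
  have h0 := EqvGen.rel _ _ h
  rcases h with ⟨x, y1, y2, hc, ⟨rfl, rfl, rfl⟩ | ⟨rfl, rfl, rfl⟩⟩ |
    ⟨x, y1, y2, hc, ⟨rfl, rfl, rfl⟩ | ⟨rfl, rfl, rfl⟩⟩ |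
    ⟨x, y1, y2, hc, ⟨rfl, rfl, rfl⟩ | ⟨rfl, rfl, rfl⟩⟩
  · exact (cell_hub hF hc).1
  · exact (EqvGen.rel _ _ (lower hc)).symm.trans _ _ _ (cell_hub hF hc).1
  · exact (EqvGen.rel _ _ (upper hc).rot).symm.trans _ _ _ (cell_hub hF hc).2.2.1
  · exact h0.trans _ _ _ (cell_hub hF hc).2.2.2
  · exact h0.trans _ _ _ (cell_hub hF hc).2.1
  · exact (cell_hub hF hc).2.2.1

theorem isSurface (hF : F.Valid) (iF : F.Inv) : IsSurface F.TT := by
  refine ⟨fun a b c h => T1.rot h, fun a b c d h h' => Subtype.ext (T1.uniq hF h h'), ?_, ?_⟩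
  · have key : ∀ v a : F.X, (Edge F.TT v a ∨ Edge F.TT a v) → EqvGen (F.T1 v.1) a.1 (hub v.1) := by
      rintro v a (⟨c, h⟩ | ⟨c, h⟩)
      · exact t1_hub hF h
      · exact (EqvGen.rel _ _ (T1.rot h)).symm.trans _ _ _ (t1_hub hF (T1.rot h))
    intro v a b ha hb
    exact (lift_eqv hF v ((key v a ha).trans _ _ _ (key v b hb).symm)).2 a.2 b.2
  · intro a b
    have := nxtX_conn hF iF (fun w => EqvGen (Edge F.TT) a w) (fun w => ?_) a b
    · exact this ▸ EqvGen.refl a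
    · have e := EqvGen.rel (r := Edge F.TT) _ _ ((bdX_iff hF (u := w)).2 rfl).1
      exact propext ⟨fun h => h.trans _ _ _ e.symm, fun h => h.trans _ _ _ e⟩

theorem exists_boundary (hF : F.Valid) (iF : F.Inv) :
    ∃ m : ℕ, 3 ≤ m ∧ ∃ k : ZMod m → F.X, Function.Injective k ∧
      ∀ u v, (Edge F.TT u v ∧ ¬ Edge F.TT v u) ↔ ∃ i, u = k i ∧ v = k (i + 1) := by
  have h2 := hF.1
  obtain ⟨m, hm, k, hk, hs⟩ := exists_cyc (X := F.X) ⟨(0, 0), by simp only [InR]; omega⟩ (nxtX hF)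
    (fun u v h => Subtype.ext (nxt_inj hF u.2 v.2 (congrArg Subtype.val h))) (nxtX_conn hF iF)
  refine ⟨m, ?_, k, hk.1, fun u v => ?_⟩
  · rw [hm]
    refine le_trans ?_ (Fintype.card_le_of_injective
      (fun i : Fin 3 => (⟨(0, i.val), by have := i.2; simp only [InR]; omega⟩ : F.X)) ?_)
    · simp
    · intro i j h
      exact Fin.ext (congrArg (fun w : F.X => w.1.2) h)
  · rw [bdX_iff hF]
    constructor
    · rintro rfl
      obtain ⟨i, rfl⟩ := hk.2 u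
      exact ⟨i, rfl, (hs i).symm⟩
    · rintro ⟨i, rfl, rfl⟩
      exact hs i

end Fence

end Pool.Agent.P.MP_06cdda_gt
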