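import Pool.Agent.P.MP_06cdda_gt.PrNec
import Pool.Agent.P.MP_06cdda_gt.PrSC
import Pool.Agent.P.MP_06cdda_gt.PrSD

open Matrix Pool.Agent.P.MP_06cdda_gt

namespace Pool.Agent.P.MP_06cdda_gt.VariantHomologySignature

theorem pairs (A : Type) [AddCommGroup A] [Finite A] (hA : Odd (Nat.card A)) (s : ℤ) :
    (∃ (m : ℕ) (q : ZMod m → Fin 3 → ℝ), IsKnot q ∧
      ∃ (g : ℕ) (V : Matrix (Fin g) (Fin g) ℤ), IsSeifertMatrix q V ∧
        Nonempty (((Fin g → ℤ) ⧸ LinearMap.range (V + V.transpose).mulVecLin) ≃+ A) ∧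
        (sigPos ((V + V.transpose).map ((↑) : ℤ → ℝ)).toQuadraticForm' : ℤ) -
          sigNeg ((V + V.transpose).map ((↑) : ℤ → ℝ)).toQuadraticForm' = s) ↔
    (Int.ModEq 4 s ((Nat.card A : ℤ) - 1) ∧
      ((∃ (k : ℕ) (m : Fin k → ℕ), Nonempty (A ≃+ ((i : Fin k) → ZMod (m i ^ 2)))) → 8 ∣ s)) :=
  ⟨fun ⟨_, _, _, _, V, _, ⟨f⟩, h⟩ => Pr.necessary V hA f h, fun h => Pr.exists_knot A hA s h.1 h.2⟩

theorem determinant_form (n : ℕ) (hn : Odd n) (s : ℤ) :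
    (∃ (m : ℕ) (q : ZMod m → Fin 3 → ℝ), IsKnot q ∧
      ∃ (g : ℕ) (V : Matrix (Fin g) (Fin g) ℤ), IsSeifertMatrix q V ∧
        |(V + V.transpose).det| = n ∧
        (sigPos ((V + V.transpose).map ((↑) : ℤ → ℝ)).toQuadraticForm' : ℤ) -
          sigNeg ((V + V.transpose).map ((↑) : ℤ → ℝ)).toQuadraticForm' = s) ↔
    (Int.ModEq 4 s ((n : ℤ) - 1) ∧ (n = 1 → 8 ∣ s)) :=
  Pr.formD (fun A _ _ hA s => pairs A hA s) n hn s

theorem shinohara (k : ℕ) (hk : 1 ≤ k) :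
    ∃ (m : ℕ) (q : ZMod m → Fin 3 → ℝ), IsKnot q ∧
      ∃ (g : ℕ) (V : Matrix (Fin g) (Fin g) ℤ), IsSeifertMatrix q V ∧
        |(V + V.transpose).det| = 4 * k + 1 ∧
        (sigPos ((V + V.transpose).map ((↑) : ℤ → ℝ)).toQuadraticForm' : ℤ) -
          sigNeg ((V + V.transpose).map ((↑) : ℤ → ℝ)).toQuadraticForm' = 4 :=
  Pr.formQ determinant_form k hk

theorem cyclic_form (n : ℕ) (hn : Odd n) (s : ℤ) :
    (∃ (m : ℕ) (q : ZMod m → Fin 3 → ℝ), IsKnot q ∧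
      ∃ (g : ℕ) (V : Matrix (Fin g) (Fin g) ℤ), IsSeifertMatrix q V ∧
        Nonempty (((Fin g → ℤ) ⧸ LinearMap.range (V + V.transpose).mulVecLin) ≃+ ZMod n) ∧
        (sigPos ((V + V.transpose).map ((↑) : ℤ → ℝ)).toQuadraticForm' : ℤ) -
          sigNeg ((V + V.transpose).map ((↑) : ℤ → ℝ)).toQuadraticForm' = s) ↔
    (Int.ModEq 4 s ((n : ℤ) - 1) ∧ ((∃ r : ℕ, n = r ^ 2) → 8 ∣ s)) := by
  have : NeZero n := ⟨hn.pos.ne'⟩
  rw [pairs (ZMod n) (by rwa [Nat.card_zmod]) s, Nat.card_zmod]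
  refine and_congr_right fun _ => imp_congr_left ⟨?_, ?_⟩
  · rintro ⟨k, m, ⟨f⟩⟩
    refine ⟨∏ i, m i, ?_⟩
    rw [← Nat.card_zmod n, Nat.card_congr f.toEquiv, Nat.card_pi, ← Finset.prod_pow]
    exact Finset.prod_congr rfl fun i _ => Nat.card_zmod _
  · rintro ⟨r, rfl⟩
    exact ⟨1, fun _ => r, ⟨(AddEquiv.funUnique (Fin 1) _).symm⟩⟩

end Pool.Agent.P.MP_06cdda_gt.VariantHomologySignature
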